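import Pool.Agent.Lib.MP_45f16c_ag.Basic

/-! The approximate Clemens argument. -/

set_option autoImplicit false
open Metric MeasureTheory MvPolynomial

namespace Pool.Agent.Lib.MP_45f16c_ag

noncomputable section

namespace ALAux

/-- The analytic part: the approximate maximum principle for the quotient of the minors by the
gradient. -/
theorem core (hM : MPStmt) {ν N : ℕ} [Nonempty (Fin ν)] [Nonempty (Fin N)]
    (Dl : ℂ → Fin N → Fin ν → ℂ) (H : ℂ → Fin ν → ℂ) (γ : ℂ → ℂ) (δ η M : ℝ)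
    (hDl : ∀ n a, Differentiable ℂ fun z => Dl z n a) (hH : Differentiable ℂ H)
    (hγ : Differentiable ℂ γ) (hδ : 0 < δ) (hδ1 : δ ≤ 1) (hη : 0 ≤ η) (hηδ : 6 * η ≤ δ ^ 2)
    (hH0 : ∀ z ∈ closedBall (0 : ℂ) 1, H z ≠ 0)
    (hrel : ∀ z ∈ closedBall (0 : ℂ) 1, ∀ n a b,
      ‖H z a‖ * ‖Dl z n b‖ ≤ ‖H z b‖ * ‖Dl z n a‖ + η * ‖H z‖ * ‖Dl z‖)
    (hlip : ∀ z₀ : ℂ, ‖z₀‖ ≤ 1 - δ → ∀ z ∈ closedBall z₀ δ, ‖H z - H z₀‖ ≤ ‖H z₀‖ / 4)
    (hann : ∀ z : ℂ, 1 - δ ≤ ‖z‖ → ‖z‖ ≤ 1 → ‖Dl z‖ * ‖γ z‖ / ‖H z‖ ≤ M) :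
    ‖Dl 0‖ * ‖γ 0‖ / ‖H 0‖ ≤ 3 * M := by
  have hη2 : η ≤ 1 / 2 := by nlinarith
  have hcD : Continuous Dl :=
    continuous_pi fun n => continuous_pi fun a => (hDl n a).continuous
  refine hM (fun z => ‖Dl z‖ * ‖γ z‖ / ‖H z‖) δ (2 * η) M ?_ hδ hδ1 (by positivity)
    (by linarith) (fun z _ => by positivity) ?_ hann
  · exact (hcD.norm.mul hγ.continuous.norm).continuousOn.div hH.continuous.norm.continuousOn
      fun z hz => norm_ne_zero_iff.2 (hH0 z hz)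
  intro z₀ hz₀
  have hsub : closedBall z₀ δ ⊆ closedBall (0 : ℂ) 1 := fun z hz => by
    rw [mem_closedBall_iff_norm] at hz
    rw [mem_closedBall_zero_iff]
    have := norm_le_norm_add_norm_sub' z z₀
    linarith
  have hz₀m : z₀ ∈ closedBall (0 : ℂ) 1 := hsub (mem_closedBall_self hδ.le)
  obtain ⟨a, ha⟩ := exists_norm_eq (H z₀)
  obtain ⟨n, hn⟩ := exists_norm_eq (Dl z₀)
  obtain ⟨b, hb⟩ := exists_norm_eq (Dl z₀ n)
  have hp₀ : 0 < ‖H z₀‖ := norm_pos_iff.2 (hH0 z₀ hz₀m)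
  have hnear : ∀ z ∈ closedBall z₀ δ, ‖H z‖ ≤ 2 * ‖H z a‖ ∧ 0 < ‖H z a‖ := fun z hz => by
    have h1 := hlip z₀ hz₀ z hz
    have h2 : ‖H z a - H z₀ a‖ ≤ ‖H z - H z₀‖ := norm_le_pi_norm (H z - H z₀) a
    have h3 := norm_le_norm_add_norm_sub' (H z) (H z₀)
    have h4 := norm_le_norm_add_norm_sub (H z a) (H z₀ a)
    constructor <;> linarith
  refine ⟨fun z => Dl z n a * γ z / H z a, ?_, ?_, ?_⟩
  · refine DifferentiableOn.diffContOnCl ?_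
    rw [closure_ball _ hδ.ne']
    exact ((hDl n a).mul hγ).differentiableOn.div
      (differentiable_pi.1 hH a).differentiableOn
      fun z hz => norm_pos_iff.1 (hnear z hz).2
  · have h1 := hrel z₀ hz₀m n a b
    rw [ha, hb, hn] at h1
    have h2 : ‖H z₀ b‖ * ‖Dl z₀ n a‖ ≤ ‖H z₀‖ * ‖Dl z₀ n a‖ :=
      mul_le_mul_of_nonneg_right (norm_le_pi_norm _ _) (norm_nonneg _)
    have h3 : ‖Dl z₀‖ ≤ ‖Dl z₀ n a‖ + η * ‖Dl z₀‖ := by
      refine le_of_mul_le_mul_left ?_ hp₀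
      linarith
    have h4 : ‖Dl z₀‖ ≤ (1 + 2 * η) * ‖Dl z₀ n a‖ := by
      have h5 : 0 ≤ η * (1 - 2 * η) * ‖Dl z₀‖ :=
        mul_nonneg (mul_nonneg hη (by linarith)) (norm_nonneg _)
      have h6 := mul_le_mul_of_nonneg_left h3 (show 0 ≤ 1 + 2 * η by positivity)
      nlinarith
    simp only [norm_div, norm_mul]
    rw [ha, ← mul_div_assoc, ← mul_assoc]
    gcongr
  · intro z hz
    obtain ⟨h1, h2⟩ := hnear z hz
    obtain ⟨a', ha'⟩ := exists_norm_eq (H z)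
    have hp : 0 < ‖H z‖ := norm_pos_iff.2 (hH0 z (hsub hz))
    have h3 := hrel z (hsub hz) n a' a
    rw [ha'] at h3
    have h4 : ‖H z a‖ * ‖Dl z n a'‖ ≤ ‖H z a‖ * ‖Dl z‖ :=
      mul_le_mul_of_nonneg_left ((norm_le_pi_norm _ _).trans (norm_le_pi_norm (Dl z) n)) h2.le
    have h5 : η * ‖H z‖ * ‖Dl z‖ ≤ η * (2 * ‖H z a‖) * ‖Dl z‖ := by gcongr
    have h6 : ‖Dl z n a‖ * ‖H z‖ ≤ (1 + 2 * η) * ‖Dl z‖ * ‖H z a‖ := by linarith
    simp only [norm_div, norm_mul]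
    rw [← mul_div_assoc, div_le_div_iff₀ h2 hp]
    have h7 := mul_le_mul_of_nonneg_right h6 (norm_nonneg (γ z))
    linarith

variable {ν d j N : ℕ}

/-- The lifts of the generating family. -/
def Xi (j : ℕ) (x : Fin ν → ℂ) (ξ : Mon ν d → Fin ν → ℂ) : Gi ν d j → Fin ν → ℂ :=
  Sum.elim (fun ab => Pi.single ab.1 (-x ab.2)) (Sum.elim ξ fun _ => 0)

/-- The lifted minors. -/
def Dl {t : ℕ} (Θ : Fin N → Finset (Gi ν d j) → Mon ν t → ℂ) (x : Fin ν → ℂ)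
    (ξ : Mon ν d → Fin ν → ℂ) : Fin N → Fin ν → ℂ :=
  fun n a => Del (Xi j x ξ) a (evC (Θ n) x)

theorem differentiable_Dl {t : ℕ} (Θ : Fin N → Finset (Gi ν d j) → Mon ν t → ℂ)
    {f : ℂ → Fin ν → ℂ} {ξ : Mon ν d → ℂ → Fin ν → ℂ} (hf : Differentiable ℂ f)
    (hξ : ∀ m, Differentiable ℂ (ξ m)) (n : Fin N) (a : Fin ν) :
    Differentiable ℂ fun z => Dl Θ (f z) (fun m => ξ m z) n a := by
  refine differentiable_Del (Ξ := fun z => Xi j (f z) fun m => ξ m z)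
    (ω := fun z => evC (Θ n) (f z)) (fun i b => ?_)
    (differentiable_pi.2 fun s => differentiable_eval_form _ hf) a
  rcases i with ab | m | l
  · by_cases h : b = ab.1
    · simp only [Xi, Sum.elim_inl, h, Pi.single_eq_same]
      exact (differentiable_pi.1 hf ab.2).neg
    · simp only [Xi, Sum.elim_inl, Pi.single_eq_of_ne h]
      exact differentiable_const _
  · exact differentiable_pi.1 (hξ m) b
  · exact differentiable_const _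

theorem norm_Xi_le {x : Fin ν → ℂ} {ξ : Mon ν d → Fin ν → ℂ} {Λ : ℝ} (hx : ‖x‖ ≤ Λ)
    (hξ : ∀ m, ‖ξ m‖ ≤ Λ) : ‖Xi j x ξ‖ ≤ Λ := by
  have h0 : 0 ≤ Λ := (norm_nonneg _).trans hx
  refine (pi_norm_le_iff_of_nonneg h0).2 fun i => ?_
  rcases i with ab | m | l
  · simp only [Xi, Sum.elim_inl, Pi.norm_single, norm_neg]
    exact (norm_le_pi_norm _ _).trans hx
  · exact hξ m
  · simpa [Xi] using h0

/-- Generation of the cycles at a point of arbitrary norm. -/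
theorem gen_at (hd : 1 ≤ d) {q t : ℕ} {C : ℝ} {c : Mon ν d → ℂ} {y : Fin j → Mon ν d → ℂ}
    {Θ : Fin N → Finset (Gi ν d j) → Mon ν t → ℂ}
    (hΘ : ∀ p : Fin ν → ℂ, ‖p‖ = 1 → ∀ ω, Hq q ω → kos (gen c y p) ω = 0 →
      ∃ a : Fin N → ℂ, ‖a‖ ≤ C * ‖ω‖ ∧ ω = ∑ n, a n • evC (Θ n) p)
    {x : Fin ν → ℂ} (hx : x ≠ 0) (ω : Finset (Gi ν d j) → ℂ) (hω : Hq q ω)
    (hk : kos (gen c y x) ω = 0) :
    ∃ a : Fin N → ℂ, ‖a‖ ≤ C / ‖x‖ ^ t * ‖ω‖ ∧ ω = ∑ n, a n • evC (Θ n) x := by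
  have h0 : 0 < ‖x‖ := norm_pos_iff.2 hx
  set r : ℂ := ((‖x‖⁻¹ : ℝ) : ℂ) with hr
  have hrn : ‖r‖ = ‖x‖⁻¹ := by
    rw [hr, Complex.norm_real, Real.norm_of_nonneg (by positivity)]
  obtain ⟨a, ha, hs⟩ := hΘ (r • x) (by rw [norm_smul, hrn, inv_mul_cancel₀ h0.ne']) ω hω
    (by rw [gen_smul hd, kos_smul, hk, smul_zero])
  refine ⟨r ^ t • a, ?_, ?_⟩
  · rw [norm_smul, norm_pow, hrn, inv_pow, div_mul_eq_mul_div, div_eq_inv_mul]
    gcongr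
  · rw [hs]
    refine Finset.sum_congr rfl fun n _ => ?_
    rw [evC_smul, smul_smul, Pi.smul_apply, smul_eq_mul, mul_comm]

/-- The pointwise estimates. -/
theorem point (hP : PAStmt) (hν : 2 ≤ ν) (hd : 1 ≤ d) (j N t : ℕ) {η Cg : ℝ} (hη : 0 < η)
    (hCg : 0 < Cg) : ∃ C : ℝ, 0 < C ∧ ∀ c ∈ Usm ν d η, ∀ (y : Fin j → Mon ν d → ℂ)
      (Θ : Fin N → Finset (Gi ν d j) → Mon ν t → ℂ), ‖Θ‖ ≤ 1 →
      (∀ n p, Hq (ν - 1) (evC (Θ n) p) ∧ kos (gen c y p) (evC (Θ n) p) = 0) →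
      (∀ p : Fin ν → ℂ, ‖p‖ = 1 → ∀ ω, Hq (ν - 1) ω → kos (gen c y p) ω = 0 →
        ∃ a : Fin N → ℂ, ‖a‖ ≤ Cg * ‖ω‖ ∧ ω = ∑ n, a n • evC (Θ n) p) →
      ∀ (x : Fin ν → ℂ) (ξ : Mon ν d → Fin ν → ℂ) (Λ ε : ℝ), x ≠ 0 → 0 ≤ ε → ‖x‖ ≤ Λ →
        (∀ m, ‖ξ m‖ ≤ Λ ∧
          ‖eval x (form (prj y m)) + lf (grad c x) (ξ m)‖ ≤ ε * ‖x‖ ^ d) →
        ‖Dl Θ x ξ‖ ≤ C * ‖x‖ ^ t * Λ ^ (ν - 1) ∧ ‖x‖ ^ (t + (ν - 1)) ≤ C * ‖Dl Θ x ξ‖ ∧
        ∀ n a b, ‖grad c x a‖ * ‖Dl Θ x ξ n b‖ ≤ ‖grad c x b‖ * ‖Dl Θ x ξ n a‖ +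
          C * ε * ‖grad c x‖ * ‖Dl Θ x ξ‖ := by
  classical
  obtain ⟨Cp, hCp, hP⟩ := hP (Gi ν d j) ν N hν
  obtain ⟨M, hM⟩ : ∃ M : ℝ, M = (Fintype.card (Mon ν t) : ℝ) := ⟨_, rfl⟩
  have hM0 : 0 ≤ M := by rw [hM]; positivity
  refine ⟨Cp * M + Cp * Cg + Cp * M * Cg / η, by positivity,
    fun c hc y Θ hΘ hΘ1 hΘ2 x ξ Λ ε hx hε hxΛ hξ => ?_⟩
  have h0 : 0 < ‖x‖ := norm_pos_iff.2 hx
  have hΛ : 0 ≤ Λ := h0.le.trans hxΛ
  have : Nonempty (Fin ν) := ⟨⟨0, by omega⟩⟩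
  obtain ⟨b₀, hb₀⟩ := exists_norm_eq x
  have hxb : x b₀ ≠ 0 := norm_pos_iff.1 (hb₀ ▸ h0)
  obtain ⟨h1, h2, h3⟩ := hP (gen c y x) (Xi j x ξ) (grad c x)
    (fun a => Pi.single (Sum.inl (a, b₀)) (-(x b₀)⁻¹)) (fun n => evC (Θ n) x)
    (M * ‖x‖ ^ t) (Cg / ‖x‖ ^ t) ‖x‖⁻¹ Λ (ε * ‖x‖ ^ d) (Usm.grad_ne hc hη hx) (by positivity)
    (fun a b => by
      rw [Finset.sum_eq_single (Sum.inl (a, b₀)) (fun i _ hi => by simp [hi]) (by simp)]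
      by_cases h : a = b
      · subst h; simp [Xi, hxb]
      · simp [Xi, h])
    (fun a => by
      rw [Finset.sum_eq_single (Sum.inl (a, b₀)) (fun i _ hi => by simp [hi]) (by simp)]
      simp [gen, ← mul_assoc, hxb])
    ((pi_norm_le_iff_of_nonneg (by positivity)).2 fun a => by
      rw [Pi.norm_single, norm_neg, norm_inv, hb₀])
    (norm_Xi_le hxΛ fun m => (hξ m).1)
    ((pi_norm_le_iff_of_nonneg (by positivity)).2 fun n =>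
      (pi_norm_le_iff_of_nonneg (by positivity)).2 fun s => by
        refine (norm_eval_form_le _ _).trans ?_
        rw [← hM]
        have : ‖Θ n s‖ ≤ 1 := ((norm_le_pi_norm _ _).trans (norm_le_pi_norm Θ n)).trans hΘ
        calc M * ‖Θ n s‖ * ‖x‖ ^ t ≤ M * 1 * ‖x‖ ^ t := by gcongr
          _ = _ := by ring)
    (by positivity)
    (fun i => by
      rcases i with ab | m | l
      · have : gen c y x (Sum.inl ab) + lf (grad c x) (Xi j x ξ (Sum.inl ab)) = 0 := by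
          simp only [gen, Xi, lf, Sum.elim_inl]
          rw [Finset.sum_eq_single ab.1 (fun i _ hi => by simp [hi]) (by simp)]
          simp [mul_comm]
        rw [this, norm_zero]; positivity
      · exact (hξ m).2
      · have : gen c y x (Sum.inr (Sum.inr l)) +
            lf (grad c x) (Xi j x ξ (Sum.inr (Sum.inr l))) = 0 := by simp [gen, Xi, lf]
        rw [this, norm_zero]; positivity)
    (fun n => hΘ1 n x) (gen_at hd hΘ2 hx)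
  change ‖Dl Θ x ξ‖ ≤ _ at h1
  change 1 ≤ _ * ‖Dl Θ x ξ‖ at h2
  have hq : 0 ≤ Cp * M * Cg / η := by positivity
  have hq1 : 0 ≤ Cp * M := by positivity
  have hq2 : 0 ≤ Cp * Cg := by positivity
  refine ⟨h1.trans ?_, ?_, fun n a b => (h3 n a b).trans ?_⟩
  · rw [← mul_assoc]
    gcongr
    linarith
  · have e : Cp * (Cg / ‖x‖ ^ t) * ‖x‖⁻¹ ^ (ν - 1) * ‖Dl Θ x ξ‖ =
        Cp * Cg * ‖Dl Θ x ξ‖ / ‖x‖ ^ (t + (ν - 1)) := by
      rw [pow_add, inv_pow]; field_simp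
    rw [e, le_div_iff₀ (by positivity), one_mul] at h2
    refine h2.trans ?_
    gcongr
    linarith
  · change _ + _ * ‖Dl Θ x ξ‖ ≤ _
    refine add_le_add le_rfl (mul_le_mul_of_nonneg_right ?_ (norm_nonneg _))
    have e : Cp * (M * ‖x‖ ^ t) * (Cg / ‖x‖ ^ t) * ‖x‖⁻¹ * (ε * ‖x‖ ^ d) =
        Cp * M * Cg / η * ε * (η * ‖x‖ ^ (d - 1)) := by
      rw [show ‖x‖ ^ d = ‖x‖ ^ (d - 1) * ‖x‖ by rw [← pow_succ, Nat.sub_add_cancel hd]]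
      field_simp
    rw [e]
    have := Usm.le_norm_grad hc hx
    gcongr
    linarith

/-- The gradient is almost constant when the point moves by a small relative amount. -/
theorem grad_near (hd : 2 ≤ d) {η : ℝ} (hη : 0 < η) : ∃ c₁ : ℝ, 0 < c₁ ∧ c₁ ≤ 1 / 2 ∧
    ∀ c ∈ Usm ν d η, ∀ x x' : Fin ν → ℂ, x ≠ 0 → ‖x' - x‖ ≤ c₁ * ‖x‖ →
      ‖grad c x' - grad c x‖ ≤ ‖grad c x‖ / 4 := by
  obtain ⟨M, hM⟩ : ∃ M : ℝ, M = (Fintype.card (Mon ν (d - 1)) : ℝ) := ⟨_, rfl⟩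
  have hM0 : 0 ≤ M := by rw [hM]; positivity
  obtain ⟨K, hK⟩ : ∃ K : ℝ, K = M * (d + 1) * (d - 1 : ℕ) * 2 ^ (d - 1 - 1) / η := ⟨_, rfl⟩
  have hK0 : 0 ≤ K := by rw [hK]; positivity
  have hc1 : 1 / (4 * K + 2) ≤ 1 / 2 := one_div_le_one_div_of_le (by norm_num) (by linarith)
  refine ⟨1 / (4 * K + 2), by positivity, hc1, fun c hc x x' hx hx' => ?_⟩
  have h0 : 0 < ‖x‖ := norm_pos_iff.2 hx
  have h1 : ‖x'‖ ≤ 2 * ‖x‖ := by
    have := norm_le_norm_add_norm_sub' x' x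
    nlinarith
  have h2 := grad_lip c h1 (show ‖x‖ ≤ 2 * ‖x‖ by linarith)
  rw [← hM] at h2
  clear hM
  have h3 := Usm.le_norm_grad hc hx
  have h4 : K * (1 / (4 * K + 2)) ≤ 1 / 4 := by
    rw [mul_one_div, div_le_div_iff₀ (by positivity) (by norm_num)]; linarith
  have hc1' := hc.1
  have e0 : ‖x‖ ^ (d - 1) = ‖x‖ ^ (d - 1 - 1) * ‖x‖ := by
    rw [← pow_succ, Nat.sub_add_cancel (show 1 ≤ d - 1 by omega)]
  generalize 1 / (4 * K + 2) = u at hc1 hx' h4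
  have hu : 0 ≤ u := le_of_mul_le_mul_right (by simpa using (norm_nonneg _).trans hx') h0
  have e1 : M * ((d + 1) * 1) * ((d - 1 : ℕ) * (u * ‖x‖) * (2 * ‖x‖) ^ (d - 1 - 1)) =
      K * u * (η * ‖x‖ ^ (d - 1)) := by
    rw [e0, mul_pow, hK]
    generalize ‖x‖ ^ (d - 1 - 1) = A
    generalize (2 : ℝ) ^ (d - 1 - 1) = A'
    field_simp
  clear hK e0
  have hd0 : (0 : ℝ) ≤ d + 1 := by positivity
  have hp0 : 0 ≤ (2 * ‖x‖) ^ (d - 1 - 1) := pow_nonneg (by linarith) _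
  calc ‖grad c x' - grad c x‖ ≤ M * ((d + 1) * 1) *
        ((d - 1 : ℕ) * (u * ‖x‖) * (2 * ‖x‖) ^ (d - 1 - 1)) :=
        h2.trans (mul_le_mul (mul_le_mul_of_nonneg_left
          (mul_le_mul_of_nonneg_left hc1' hd0) hM0)
          (mul_le_mul_of_nonneg_right (mul_le_mul_of_nonneg_left hx' (Nat.cast_nonneg _)) hp0)
          (mul_nonneg (mul_nonneg (Nat.cast_nonneg _) (norm_nonneg _)) hp0)
          (mul_nonneg hM0 (by linarith)))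
    _ = K * u * (η * ‖x‖ ^ (d - 1)) := e1
    _ ≤ 1 / 4 * ‖grad c x‖ :=
        mul_le_mul h4 h3 (mul_nonneg hη.le (pow_nonneg h0.le _)) (by norm_num)
    _ = _ := by ring

end ALAux

open ALAux in
theorem al (hG : GenStmt) (hP : PAStmt) (hM : MPStmt) : ALStmt := by
  intro ν d j D η hν hD hη
  have hd : 2 ≤ d := by omega
  obtain ⟨N, Cg, hCg, hG⟩ := hG ν d j (ν - 1) η (by omega) (by omega) hη
  obtain ⟨C, hC, hP⟩ := point hP hν (by omega : 1 ≤ d) j N (ν - 1 + j) hη hCg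
  obtain ⟨c₁, hc₁, hc₁', hnear⟩ := grad_near (ν := ν) hd hη
  obtain ⟨M₁, hM₁⟩ : ∃ M : ℝ, M = (Fintype.card (Mon ν (d - 1)) : ℝ) * (d + 1) := ⟨_, rfl⟩
  have hM₁0 : 0 ≤ M₁ := by rw [hM₁]; positivity
  refine ⟨3 * C * (C * 2 ^ (D + (ν - 1)) / η) * M₁ + 1, c₁ ^ 2 / (6 * C), by positivity,
    by positivity, fun c hc y hy f ξ γ L B Λ ε hf hξ hγ hL hLB hε hεc hb hlip hcirc => ?_⟩
  obtain ⟨Θ, hΘ, hΘ1, hΘ2⟩ := hG c hc y hy
  have hB : 0 < B := hL.trans_le hLB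
  have hpos : ∀ z ∈ closedBall (0 : ℂ) 1, 0 < ‖f z‖ := fun z hz => hL.trans_le (hb z hz).1
  have hne : ∀ z ∈ closedBall (0 : ℂ) 1, f z ≠ 0 := fun z hz => norm_pos_iff.1 (hpos z hz)
  have hpt := fun z (hz : z ∈ closedBall (0 : ℂ) 1) =>
    hP c hc y Θ hΘ hΘ1 hΘ2 (f z) (fun m => ξ m z) Λ ε (hne z hz) hε (hb z hz).2.1 (hb z hz).2.2
  have h0m : (0 : ℂ) ∈ closedBall (0 : ℂ) 1 := mem_closedBall_self zero_le_one
  have hx0 := hpos 0 h0m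
  have hΛ : 0 ≤ Λ := hx0.le.trans (hb 0 h0m).2.1
  have : Nonempty (Fin ν) := ⟨⟨0, by omega⟩⟩
  have : Nonempty (Fin N) := by
    by_contra h
    rw [not_nonempty_iff] at h
    have h1 := (hpt 0 h0m).2.1
    rw [Subsingleton.elim (Dl Θ (f 0) fun m => ξ m 0) 0, norm_zero, mul_zero] at h1
    exact absurd h1 (not_le.2 (by positivity))
  have hLB1 : L / B ≤ 1 := (div_le_one hB).2 hLB
  have hLB0 : 0 < L / B := by positivity
  have hδ2 : c₁ * (L / B) ≤ 1 / 2 := by nlinarith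
  have hBδ : B * (c₁ * (L / B)) = c₁ * L := by field_simp
  have key := core hM (fun z => Dl Θ (f z) fun m => ξ m z) (fun z => grad c (f z))
    (fun z => γ z ^ (D + (ν - 1))) (c₁ * (L / B)) (C * ε)
    (C * 2 ^ (D + (ν - 1)) / η * Λ ^ (ν - 1)) (differentiable_Dl Θ hf hξ)
    (differentiable_grad c hf) (hγ.pow _) (by positivity) (by linarith) (by positivity)
    (by
      have h1 := mul_le_mul_of_nonneg_left hεc (show 0 ≤ 6 * C by positivity)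
      have e : 6 * C * (c₁ ^ 2 / (6 * C) * (L / B) ^ 2) = (c₁ * (L / B)) ^ 2 := by field_simp
      linarith)
    (fun z hz => Usm.grad_ne hc hη (hne z hz)) (fun z hz => (hpt z hz).2.2)
    (fun z₀ hz₀ z hz => by
      rw [mem_closedBall_iff_norm] at hz
      have hz₀m : z₀ ∈ closedBall (0 : ℂ) 1 := mem_closedBall_zero_iff.2 (by nlinarith)
      have hzm : z ∈ closedBall (0 : ℂ) 1 := mem_closedBall_zero_iff.2 (by
        have := norm_le_norm_add_norm_sub' z z₀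
        linarith)
      refine hnear c hc _ _ (hne z₀ hz₀m) ((hlip z hzm z₀ hz₀m).1.trans ?_)
      calc B * ‖z - z₀‖ ≤ B * (c₁ * (L / B)) := by gcongr
        _ = c₁ * L := hBδ
        _ ≤ c₁ * ‖f z₀‖ := by have := (hb z₀ hz₀m).1; gcongr)
    (fun z hz hz1 => by
      have hzm : z ∈ closedBall (0 : ℂ) 1 := mem_closedBall_zero_iff.2 hz1
      have hz0 : 0 < ‖z‖ := by linarith
      have hx := hpos z hzm
      set w : ℂ := ((‖z‖⁻¹ : ℝ) : ℂ) * z with hw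
      have hw1 : ‖w‖ = 1 := by
        rw [hw, norm_mul, Complex.norm_real, Real.norm_of_nonneg (by positivity),
          inv_mul_cancel₀ hz0.ne']
      have hwm : w ∈ closedBall (0 : ℂ) 1 := mem_closedBall_zero_iff.2 hw1.le
      have hzw : ‖z - w‖ ≤ c₁ * (L / B) := by
        have e : z - w = ((‖z‖ - 1 : ℝ) : ℂ) * w := by
          have : ((‖z‖ : ℝ) : ℂ) ≠ 0 := by exact_mod_cast hz0.ne'
          rw [hw]; push_cast; field_simp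
        rw [e, norm_mul, hw1, mul_one, Complex.norm_real, Real.norm_eq_abs, abs_le]
        constructor <;> linarith
      have h1 : B * ‖z - w‖ ≤ c₁ * L := by rw [← hBδ]; gcongr
      obtain ⟨h2, h3⟩ := hlip z hzm w hwm
      have h4 := hcirc w hw1
      have h5 := norm_le_norm_add_norm_sub' (γ z) (γ w)
      have h6 := norm_le_norm_add_norm_sub (f z) (f w)
      have h7 := (hb z hzm).1
      have h8 : ‖γ z‖ ≤ 2 * ‖f z‖ := by nlinarith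
      have h9 := Usm.le_norm_grad hc (hne z hzm)
      have h10 := (hpt z hzm).1
      calc ‖Dl Θ (f z) fun m => ξ m z‖ * ‖γ z ^ (D + (ν - 1))‖ / ‖grad c (f z)‖
          ≤ C * ‖f z‖ ^ (ν - 1 + j) * Λ ^ (ν - 1) * (2 * ‖f z‖) ^ (D + (ν - 1)) /
            (η * ‖f z‖ ^ (d - 1)) := by
            rw [norm_pow]
            gcongr
        _ = _ := by
            rw [show d - 1 = (ν - 1 + j) + (D + (ν - 1)) by omega, pow_add ‖f z‖ (ν - 1 + j),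
              mul_pow]
            field_simp)
  have hH0 : 0 < ‖grad c (f 0)‖ := norm_pos_iff.2 (Usm.grad_ne hc hη (hne 0 h0m))
  rw [div_le_iff₀ hH0, norm_pow] at key
  have hH : ‖grad c (f 0)‖ ≤ M₁ * (‖f 0‖ ^ D * ‖f 0‖ ^ (ν - 1 + j + (ν - 1))) := by
    refine (norm_grad_le c _).trans ?_
    rw [← pow_add, show D + (ν - 1 + j + (ν - 1)) = d - 1 by omega, hM₁]
    have := hc.1
    calc _ ≤ Fintype.card (Mon ν (d - 1)) * (((d : ℝ) + 1) * 1) * ‖f 0‖ ^ (d - 1) := by gcongr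
      _ = _ := by ring
  have hlo := (hpt 0 h0m).2.1
  refine le_of_mul_le_mul_right ?_ (show 0 < ‖f 0‖ ^ (ν - 1 + j + (ν - 1)) by positivity)
  calc ‖γ 0‖ ^ (D + (ν - 1)) * ‖f 0‖ ^ (ν - 1 + j + (ν - 1))
      ≤ ‖γ 0‖ ^ (D + (ν - 1)) * (C * ‖Dl Θ (f 0) fun m => ξ m 0‖) := by gcongr
    _ = C * (‖Dl Θ (f 0) fun m => ξ m 0‖ * ‖γ 0‖ ^ (D + (ν - 1))) := by ring
    _ ≤ C * (3 * (C * 2 ^ (D + (ν - 1)) / η * Λ ^ (ν - 1)) *
          (M₁ * (‖f 0‖ ^ D * ‖f 0‖ ^ (ν - 1 + j + (ν - 1))))) := by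
        refine mul_le_mul_of_nonneg_left (key.trans ?_) hC.le
        gcongr
    _ = 3 * C * (C * 2 ^ (D + (ν - 1)) / η) * M₁ * Λ ^ (ν - 1) * ‖f 0‖ ^ D *
          ‖f 0‖ ^ (ν - 1 + j + (ν - 1)) := by ring
    _ ≤ _ := by gcongr; linarith

end

end Pool.Agent.Lib.MP_45f16c_ag
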