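import Pool.Agent.Lib.MP_45f16c_ag.Basic

-- part Pool.Agent.Lib.MP_45f16c_ag.Pois
section

/-! The Poisson inequality for the logarithm of the norm of a holomorphic vector. -/

set_option autoImplicit false
open Metric MeasureTheory Real
open scoped ComplexConjugate

namespace Pool.Agent.Lib.MP_45f16c_ag

namespace PoisAux

variable {c w : ℂ} {R : ℝ}

theorem avg_mono {f g : ℂ → ℝ} (hR : R ≠ 0) (hf : CircleIntegrable f c R)
    (hg : CircleIntegrable g c R) {S : Set ℂ} (hS : S.Countable)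
    (h : ∀ z ∈ sphere c |R|, z ∉ S → f z ≤ g z) : circleAverage f c R ≤ circleAverage g c R := by
  rw [circleAverage_def, circleAverage_def, smul_eq_mul, smul_eq_mul]
  refine mul_le_mul_of_nonneg_left ?_ (inv_pos.2 two_pi_pos).le
  refine intervalIntegral.integral_mono_ae two_pi_pos.le hf hg ?_
  filter_upwards [(hS.preimage_circleMap c hR).ae_notMem volume] with θ hθ
  exact h _ (circleMap_mem_sphere' c R θ) hθ

theorem ker_cont (hw : w ∈ ball c R) : ContinuousOn (poissonKernel c w) (sphere c |R|) := by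
  have hR : 0 < R := pos_of_mem_ball hw
  unfold poissonKernel
  refine ContinuousOn.div (by fun_prop) (by fun_prop) fun z hz => pow_ne_zero 2 ?_
  rw [abs_of_pos hR, mem_sphere_iff_norm] at hz
  rw [mem_ball_iff_norm] at hw
  rw [norm_ne_zero_iff, sub_ne_zero]
  intro h
  rw [h] at hz
  exact hw.ne hz

theorem ker_ge {z : ℂ} (hz : z ∈ sphere c R) (hw : w ∈ ball c R) :
    (R - ‖w - c‖) / (R + ‖w - c‖) ≤ poissonKernel c w z := by
  rw [poissonKernel_eq_re_herglotzRieszKernel]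
  exact le_re_herglotzRieszKernel hz hw

theorem ker_nonneg {z : ℂ} (hz : z ∈ sphere c R) (hw : w ∈ ball c R) :
    0 ≤ poissonKernel c w z := by
  have hR : 0 < R := pos_of_mem_ball hw
  refine le_trans ?_ (ker_ge hz hw)
  rw [mem_ball_iff_norm] at hw
  exact div_nonneg (by linarith) (by positivity)

theorem log_eq {g : ℂ → ℂ} (hg : AnalyticOnNhd ℂ g (closedBall c R))
    (h0 : ∀ z ∈ closedBall c R, g z ≠ 0) (hw : w ∈ ball c R) :
    circleAverage (fun ζ => poissonKernel c w ζ * log ‖g ζ‖) c R = log ‖g w‖ :=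
  InnerProductSpace.HarmonicOnNhd.circleAverage_poissonKernel_smul (f := fun ζ => log ‖g ζ‖)
    (fun x hx => (hg x hx).harmonicAt_log_norm (h0 x hx)) hw

theorem key (R : ℝ) (u v : ℂ) : ‖(R : ℂ) ^ 2 - conj v * u‖ ^ 2 - R ^ 2 * ‖u - v‖ ^ 2 =
    (R ^ 2 - ‖u‖ ^ 2) * (R ^ 2 - ‖v‖ ^ 2) := by
  simp only [Complex.sq_norm, Complex.normSq_apply, ← Complex.ofReal_pow, Complex.sub_re,
    Complex.sub_im, Complex.mul_re, Complex.mul_im, Complex.conj_re, Complex.conj_im,
    Complex.ofReal_re, Complex.ofReal_im]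
  ring

theorem log_sub_le {a : ℂ} (ha : a ∈ closedBall c R) (hw : w ∈ ball c R) (hwa : w ≠ a) :
    log ‖w - a‖ ≤ circleAverage (fun ζ => poissonKernel c w ζ * log ‖ζ - a‖) c R := by
  have hR : 0 < R := pos_of_mem_ball hw
  rcases (mem_closedBall_iff_norm.1 ha).eq_or_lt with h | h
  · have := circleAverage_re_herglotzRieszKernel_mul_log (mem_sphere_iff_norm.2 h) hw
    rw [← poissonKernel_eq_re_herglotzRieszKernel] at this
    exact this.symm.le
  set g : ℂ → ℂ := fun z => ((R : ℂ) ^ 2 - conj (a - c) * (z - c)) / R with hg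
  have hn : ∀ z, (R * ‖g z‖) ^ 2 - (R * ‖z - a‖) ^ 2 =
      (R ^ 2 - ‖z - c‖ ^ 2) * (R ^ 2 - ‖a - c‖ ^ 2) := fun z => by
    rw [← key, hg]
    simp only [norm_div, Complex.norm_real, Real.norm_eq_abs, abs_of_pos hR, sub_sub_sub_cancel_right]
    field_simp
  have h1 : 0 < R ^ 2 - ‖a - c‖ ^ 2 := by nlinarith [norm_nonneg (a - c)]
  have h2 : ∀ z ∈ closedBall c R, ‖z - a‖ ≤ ‖g z‖ := fun z hz => by
    rw [mem_closedBall_iff_norm] at hz
    have a1 : 0 ≤ R ^ 2 - ‖z - c‖ ^ 2 := by nlinarith [norm_nonneg (z - c)]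
    have a2 := mul_nonneg a1 h1.le
    rw [← hn, sub_nonneg] at a2
    exact le_of_mul_le_mul_left (abs_le_of_sq_le_sq' a2 (by positivity)).2 hR
  have h3 : ∀ z ∈ closedBall c R, g z ≠ 0 := fun z hz h0 => by
    have a1 := h2 z hz
    rw [h0, norm_zero] at a1
    have a2 : ‖z - a‖ = 0 := le_antisymm a1 (norm_nonneg _)
    have a3 := hn z
    rw [h0, a2, show z = a from sub_eq_zero.1 (norm_eq_zero.1 a2)] at a3
    have := mul_pos h1 h1
    rw [← a3] at this
    simp at this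
  have h4 : ∀ z ∈ sphere c |R|, ‖z - a‖ = ‖g z‖ := fun z hz => by
    rw [abs_of_pos hR, mem_sphere_iff_norm] at hz
    have a1 := hn z
    rw [hz, sub_self, zero_mul, sub_eq_zero] at a1
    exact (mul_left_cancel₀ hR.ne' ((pow_left_inj₀ (by positivity) (by positivity) two_ne_zero).1
      a1)).symm
  rw [circleAverage_congr_sphere (f₂ := fun ζ => poissonKernel c w ζ * log ‖g ζ‖)
    (fun z hz => by simp only [h4 z hz]), log_eq (fun z _ => by rw [hg]; fun_prop) h3 hw]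
  exact log_le_log (norm_pos_iff.2 (sub_ne_zero.2 hwa)) (h2 w (ball_subset_closedBall hw))

end PoisAux

open PoisAux in
theorem pois (hF : FactStmt) : PoisStmt := by
  intro ν f c R R' hR hRR hf h0 w hw
  have hsub : closedBall c R ⊆ ball c R' := closedBall_subset_ball hRR
  have hsp : sphere c |R| ⊆ closedBall c R := by
    rw [abs_of_pos hR]
    exact sphere_subset_closedBall
  have hw' : w ∈ ball c R' := hsub (ball_subset_closedBall hw)
  have : Nonempty (Fin ν) := by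
    by_contra h
    rw [not_nonempty_iff] at h
    exact h0 w hw' (Subsingleton.elim _ _)
  obtain ⟨i, hi⟩ := exists_norm_eq (f w)
  have hφ : f w i ≠ 0 := fun h => h0 w hw' (by rw [← norm_eq_zero, ← hi, h, norm_zero])
  obtain ⟨k, a, ψ, ha, hψ, hψ0, hfac⟩ := hF (fun z => f z i) c R R' hRR
    (differentiableOn_pi.1 hf i) ⟨w, hw', hφ⟩
  have hlog : ∀ z ∈ closedBall c R, (∀ j, z ≠ a j) →
      log ‖f z i‖ = ∑ j, log ‖z - a j‖ + log ‖ψ z‖ := fun z hz hza => by
    have h1 : ∀ j, ‖z - a j‖ ≠ 0 := fun j => norm_ne_zero_iff.2 (sub_ne_zero.2 (hza j))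
    rw [hfac z (hsub hz), norm_mul, norm_prod, log_mul (Finset.prod_ne_zero_iff.2 fun j _ => h1 j)
      (norm_ne_zero_iff.2 (hψ0 z hz)), log_prod fun j _ => h1 j]
  have hwa : ∀ j, w ≠ a j := fun j h => hφ (by
    rw [hfac w hw', Finset.prod_eq_zero (Finset.mem_univ j) (by rw [h, sub_self]), zero_mul])
  have hψa : AnalyticOnNhd ℂ ψ (closedBall c R) := (hψ.analyticOnNhd isOpen_ball).mono hsub
  have i1 : ∀ j, CircleIntegrable (fun ζ => poissonKernel c w ζ * log ‖ζ - a j‖) c R := fun j =>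
    (circleIntegrable_log_norm_sub_const R).continuousOn_mul (ker_cont hw)
  have i2 : CircleIntegrable (fun ζ => poissonKernel c w ζ * log ‖ψ ζ‖) c R :=
    ((ker_cont hw).mul ((hψa.continuousOn.mono hsp).norm.log fun z hz =>
      norm_ne_zero_iff.2 (hψ0 z (hsp hz)))).circleIntegrable'
  have i3 : CircleIntegrable (fun ζ => poissonKernel c w ζ * lg f ζ) c R :=
    ((ker_cont hw).mul (continuousOn_lg (hf.continuousOn.mono (hsp.trans hsub))
      fun z hz => h0 z (hsub (hsp hz)))).circleIntegrable'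
  have i4 : CircleIntegrable (fun ζ => ∑ j, poissonKernel c w ζ * log ‖ζ - a j‖) c R :=
    CircleIntegrable.fun_sum _ fun j _ => i1 j
  calc lg f w = ∑ j, log ‖w - a j‖ + log ‖ψ w‖ := by
        rw [← hlog w (ball_subset_closedBall hw) hwa, hi, lg]
    _ ≤ ∑ j, circleAverage (fun ζ => poissonKernel c w ζ * log ‖ζ - a j‖) c R +
          circleAverage (fun ζ => poissonKernel c w ζ * log ‖ψ ζ‖) c R :=
        add_le_add (Finset.sum_le_sum fun j _ => log_sub_le (ha j) hw (hwa j))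
          (log_eq hψa hψ0 hw).ge
    _ = circleAverage (fun ζ => ∑ j, poissonKernel c w ζ * log ‖ζ - a j‖ +
          poissonKernel c w ζ * log ‖ψ ζ‖) c R := by
        rw [circleAverage_fun_add i4 i2, circleAverage_fun_sum fun j _ => i1 j]
    _ ≤ _ := by
        refine avg_mono hR.ne' (i4.add i2) i3 (Set.countable_range a) fun z hz hza => ?_
        have h1 : ∀ j, z ≠ a j := fun j h => hza ⟨j, h.symm⟩
        rw [← Finset.mul_sum, ← mul_add, ← hlog z (hsp hz) h1]
        refine mul_le_mul_of_nonneg_left ?_ (ker_nonneg (by rwa [abs_of_pos hR] at hz) hw)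
        refine log_le_log (norm_pos_iff.2 ?_) (norm_le_pi_norm (f z) i)
        rw [hfac z (hsub (hsp hz))]
        exact mul_ne_zero (Finset.prod_ne_zero_iff.2 fun j _ => sub_ne_zero.2 (h1 j))
          (hψ0 z (hsp hz))

open PoisAux in
theorem osc (hP : PoisStmt) : OscStmt := by
  intro ν f ρ A σ r z z' hf hb hσ hsub hr0 hr1 hz'
  obtain ⟨e, he, hsub'⟩ := (isCompact_closedBall z σ).exists_thickening_subset_open isOpen_ball hsub
  rw [thickening_closedBall he hσ.le] at hsub'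
  have h0 : ∀ w ∈ ball (0 : ℂ) ρ, f w ≠ 0 := fun w hw =>
    norm_pos_iff.1 ((exp_pos _).trans_le (hb w hw).1)
  have hw : z' ∈ ball z σ := mem_ball_iff_norm.2 (hz'.trans_lt (by nlinarith))
  have hsp : sphere z |σ| ⊆ ball (0 : ℂ) ρ := by
    rw [abs_of_pos hσ]
    exact sphere_subset_closedBall.trans hsub
  have hc : ContinuousOn (lg f) (sphere z |σ|) :=
    continuousOn_lg (hf.continuousOn.mono hsp) fun w hw => h0 w (hsp hw)
  have h1 := hP ν f z σ (e + σ) hσ (by linarith) (hf.mono hsub') (fun w hw => h0 w (hsub' hw)) z' hw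
  have h2 : circleAverage (fun ζ => poissonKernel z z' ζ * lg f ζ) z σ ≤
      circleAverage (fun ζ => lg f ζ + 2 * r * A) z σ := by
    refine circleAverage_mono ((ker_cont hw).mul hc).circleIntegrable'
      (hc.add continuousOn_const).circleIntegrable' fun ζ hζ => ?_
    have a1 : lg f ζ ≤ 0 := log_nonpos (norm_nonneg _) (hb ζ (hsp hζ)).2
    have a2 : -A ≤ lg f ζ := (le_log_iff_exp_le (norm_pos_iff.2 (h0 ζ (hsp hζ)))).2 (hb ζ (hsp hζ)).1
    have a3 : 1 - 2 * r ≤ poissonKernel z z' ζ := by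
      refine le_trans ?_ (ker_ge (by rwa [abs_of_pos hσ] at hζ) hw)
      have := norm_nonneg (z' - z)
      rw [le_div_iff₀ (by positivity)]
      nlinarith [mul_nonneg hr0 this]
    nlinarith [mul_le_mul_of_nonpos_right a3 a1, mul_le_mul_of_nonneg_left a2 hr0]
  rw [circleAverage_fun_add hc.circleIntegrable' (circleIntegrable_const _ _ _),
    circleAverage_const] at h2
  unfold Tch
  linarith

end Pool.Agent.Lib.MP_45f16c_ag
end

-- part Pool.Agent.Lib.MP_45f16c_ag.Gauge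
section

/-! Monotonicity of the characteristic and the Herglotz normalisation. -/

set_option autoImplicit false
open Metric

namespace Pool.Agent.Lib.MP_45f16c_ag

namespace GaugeAux

theorem pk_shift (c w ζ : ℂ) : poissonKernel c w (ζ + c) = poissonKernel 0 (w - c) ζ := by
  simp [poissonKernel_def]

theorem pk_nonneg {c w ζ : ℂ} {R : ℝ} (hw : w ∈ ball c R) (hζ : ζ ∈ sphere c R) :
    0 ≤ poissonKernel c w ζ := by
  rw [poissonKernel_def]
  apply div_nonneg _ (by positivity)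
  have h1 : ‖ζ - c‖ = R := mem_sphere_iff_norm.1 hζ
  have h2 : ‖w - c‖ < R := mem_ball_iff_norm.1 hw
  rw [h1]
  nlinarith [norm_nonneg (w - c)]

theorem pk_cont {c w : ℂ} {R : ℝ} (hw : w ∈ ball c R) :
    ContinuousOn (poissonKernel c w) (sphere c |R|) := by
  rw [poissonKernel_eq_re_herglotzRieszKernel]
  exact Complex.continuous_re.comp_continuousOn (continuousOn_herglotzRieszKernel_sphere hw)

theorem pk_center {c ζ : ℂ} {R : ℝ} (hR : 0 < R) (hζ : ζ ∈ sphere c |R|) :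
    poissonKernel c c ζ = 1 := by
  have h1 : ‖ζ - c‖ = R := by
    rw [mem_sphere_iff_norm.1 hζ, abs_of_pos hR]
  rw [poissonKernel_def, sub_self, norm_zero, sub_zero (ζ - c), h1]
  have : R ^ 2 ≠ 0 := by positivity
  field_simp
  ring

/-- The Poisson integral of a continuous function is the real part of a holomorphic function. -/
theorem herglotz {u : ℂ → ℝ} (hu : Continuous u) (c : ℂ) (R : ℝ) :
    ∃ h : ℂ → ℂ, DifferentiableOn ℂ h (ball c R) ∧ ∀ w ∈ ball c R,
      (h w).re = Real.circleAverage (fun ζ => poissonKernel c w ζ * u ζ) c R := by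
  have hv : Continuous fun ζ : ℂ => u (ζ + c) := hu.comp (continuous_id.add continuous_const)
  have hi : CircleIntegrable (fun ζ : ℂ => u (ζ + c)) 0 R := hv.continuousOn.circleIntegrable'
  have hi' : CircleIntegrable (fun ζ : ℂ => ((u (ζ + c) : ℝ) : ℂ)) 0 R :=
    (Complex.continuous_ofReal.comp hv).continuousOn.circleIntegrable'
  have hd := differentiableOn_circleAverage_herglotzRieszKernel_smul hi'
  have hm : ∀ w ∈ ball c R, w - c ∈ ball (0 : ℂ) R := fun w hw => by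
    simpa using mem_ball_iff_norm.1 hw
  refine ⟨fun w => Real.circleAverage
    (fun ζ => herglotzRieszKernel 0 (w - c) ζ • ((u (ζ + c) : ℝ) : ℂ)) 0 R, ?_, ?_⟩
  · exact hd.comp (differentiable_id.sub_const c).differentiableOn hm
  · intro w hw
    have := re_circleAverage_herglotzRieszKernel_smul hi (hm w hw)
    rw [this, ← poissonKernel_eq_re_herglotzRieszKernel, ← Real.circleAverage_map_add_const
      (f := fun ζ => poissonKernel c w ζ * u ζ)]
    congr 1
    ext ζ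
    simp [pk_shift]

/-- Mean value property of the real part. -/
theorem re_mean {h : ℂ → ℂ} {U : Set ℂ} (hh : DifferentiableOn ℂ h U) {z : ℂ} {s : ℝ}
    (hs : 0 < s) (hU : closedBall z s ⊆ U) :
    Real.circleAverage (fun ζ => (h ζ).re) z s = (h z).re := by
  have h1 : DiffContOnCl ℂ h (ball z |s|) := by
    rw [abs_of_pos hs]
    apply DifferentiableOn.diffContOnCl
    rw [closure_ball z hs.ne']
    exact hh.mono hU
  have h2 : CircleIntegrable h z s :=
    (hh.continuousOn.mono (sphere_subset_closedBall.trans hU)).circleIntegrable hs.le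
  have h3 := Complex.reCLM.circleAverage_comp_comm h2
  rw [h1.circleAverage] at h3
  exact h3

/-- Poisson formula for the real part. -/
theorem re_poisson {h : ℂ → ℂ} {U : Set ℂ} (hh : DifferentiableOn ℂ h U) {c w : ℂ} {R : ℝ}
    (hw : w ∈ ball c R) (hU : closedBall c R ⊆ U) :
    Real.circleAverage (fun ζ => poissonKernel c w ζ * (h ζ).re) c R = (h w).re := by
  have hR : 0 < R := pos_of_mem_ball hw
  have h1 : DiffContOnCl ℂ h (ball c R) := by
    apply DifferentiableOn.diffContOnCl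
    rw [closure_ball c hR.ne']
    exact hh.mono hU
  have h0 : ContinuousOn h (sphere c |R|) := by
    rw [abs_of_pos hR]
    exact hh.continuousOn.mono (sphere_subset_closedBall.trans hU)
  have h2 : CircleIntegrable (poissonKernel c w • h) c R :=
    ((pk_cont hw).smul h0).circleIntegrable'
  have h3 := Complex.reCLM.circleAverage_comp_comm h2
  rw [h1.circleAverage_poissonKernel_smul hw] at h3
  rw [show (h w).re = Complex.reCLM (h w) from rfl, ← h3]
  congr 1
  ext ζ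
  simp

theorem avg_scale (u : ℂ → ℝ) (a z : ℂ) (t s : ℝ) :
    Real.circleAverage (fun ζ => u (a + t * ζ)) z s = Real.circleAverage u (a + t * z) (t * s) := by
  unfold Real.circleAverage circleMap
  have e : ∀ θ : ℝ, a + t * (z + s * Complex.exp (θ * Complex.I))
      = a + t * z + ((t * s : ℝ) : ℂ) * Complex.exp (θ * Complex.I) := fun θ => by
    push_cast
    ring
  simp only [e]

variable {ν : ℕ} {f : ℂ → Fin ν → ℂ}

/-- The harmonic majorant on a disc. -/
theorem majorant (hP : PoisStmt) (hf : Ent f) (c : ℂ) {R : ℝ} (hR : 0 < R) :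
    ∃ h : ℂ → ℂ, DifferentiableOn ℂ h (ball c R) ∧
      (∀ w ∈ ball c R,
        (h w).re = Real.circleAverage (fun ζ => poissonKernel c w ζ * lg f ζ) c R) ∧
      (∀ w ∈ ball c R, lg f w ≤ (h w).re) ∧ (h c).re = Real.circleAverage (lg f) c R := by
  obtain ⟨h, h1, h2⟩ := herglotz hf.continuous_lg c R
  refine ⟨h, h1, h2, fun w hw => ?_, ?_⟩
  · rw [h2 w hw]
    exact hP ν f c R (R + 1) hR (by linarith) hf.diff.differentiableOn (fun z _ => hf.ne z) w hw
  · rw [h2 c (mem_ball_self hR)]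
    apply Real.circleAverage_congr_sphere
    intro ζ hζ
    simp [pk_center hR hζ]

theorem avg_mono (hP : PoisStmt) (hf : Ent f) (a : ℂ) {s t : ℝ} (hs : 0 ≤ s) (hst : s ≤ t) :
    Real.circleAverage (lg f) a s ≤ Real.circleAverage (lg f) a t := by
  rcases hst.eq_or_lt with rfl | hlt
  · exact le_rfl
  have ht : 0 < t := hs.trans_lt hlt
  obtain ⟨h, h1, -, h3, h4⟩ := majorant hP hf a ht
  rw [← h4]
  rcases hs.eq_or_lt with rfl | hs0
  · rw [Real.circleAverage_zero]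
    exact h3 a (mem_ball_self ht)
  have hsub : closedBall a s ⊆ ball a t := closedBall_subset_ball hlt
  rw [← re_mean h1 hs0 hsub]
  apply Real.circleAverage_mono (hf.circleIntegrable a s)
  · exact (Complex.continuous_re.comp_continuousOn
      (h1.continuousOn.mono (sphere_subset_closedBall.trans hsub))).circleIntegrable hs
  · intro x hx
    rw [abs_of_pos hs0] at hx
    exact h3 x (hsub (sphere_subset_closedBall hx))

theorem ent_scale (hf : Ent f) (a : ℂ) (t : ℝ) : Ent fun ζ => f (a + t * ζ) :=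
  ⟨hf.diff.comp ((differentiable_id.const_mul (t : ℂ)).const_add a), fun _ => hf.ne _⟩

theorem lg_gauge (hf : Ent f) (h : ℂ → ℂ) (ζ : ℂ) :
    lg (fun w => Complex.exp (-h w) • f w) ζ = lg f ζ - (h ζ).re := by
  unfold lg
  rw [norm_smul, Real.log_mul (norm_ne_zero_iff.2 (Complex.exp_ne_zero _))
    (norm_ne_zero_iff.2 (hf.ne ζ)), Complex.norm_exp, Real.log_exp, Complex.neg_re]
  ring

/-- The normalisation for an entire curve on the disc of radius `ρ` about the origin. -/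
theorem gauge_zero (hP : PoisStmt) (hf : Ent f) {ρ : ℝ} (hρ : 0 < ρ) :
    ∃ h : ℂ → ℂ, DifferentiableOn ℂ h (ball 0 ρ) ∧
      ∀ ζ ∈ ball (0 : ℂ) ρ, lg f ζ ≤ (h ζ).re ∧
        (h ζ).re ≤ Real.circleAverage (lg f) ζ (2 * ρ) := by
  obtain ⟨h, h1, h2, h3, -⟩ := majorant hP hf 0 hρ
  refine ⟨h, h1, fun ζ hζ => ⟨h3 ζ hζ, ?_⟩⟩
  obtain ⟨k, k1, -, k3, k4⟩ := majorant hP hf ζ (by positivity : 0 < 2 * ρ)
  have hsub : closedBall (0 : ℂ) ρ ⊆ ball ζ (2 * ρ) := by
    intro w hw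
    rw [mem_closedBall, dist_zero_right] at hw
    rw [mem_ball, dist_zero_right] at hζ
    rw [mem_ball, dist_eq_norm]
    linarith [norm_sub_le w ζ]
  rw [← k4, h2 ζ hζ, ← re_poisson k1 hζ hsub]
  have hk : ContinuousOn (fun w => (k w).re) (sphere (0 : ℂ) |ρ|) := by
    rw [abs_of_pos hρ]
    exact Complex.continuous_re.comp_continuousOn
      (k1.continuousOn.mono (sphere_subset_closedBall.trans hsub))
  apply Real.circleAverage_mono
  · exact ((pk_cont hζ).mul hf.continuous_lg.continuousOn).circleIntegrable'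
  · exact ((pk_cont hζ).mul hk).circleIntegrable'
  · intro x hx
    rw [abs_of_pos hρ] at hx
    exact mul_le_mul_of_nonneg_left (k3 x (hsub (sphere_subset_closedBall hx))) (pk_nonneg hζ hx)

end GaugeAux

open GaugeAux

theorem mono (hP : PoisStmt) : MonoStmt := by
  intro ν f hf a s t hs hst
  have h0 := avg_mono hP hf a le_rfl hs
  have h1 := avg_mono hP hf a hs hst
  rw [Real.circleAverage_zero] at h0
  unfold Tch
  constructor <;> linarith

theorem gauge (hP : PoisStmt) : GaugeStmt := by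
  intro ν f hf a t ρ ht hρ
  have hF := ent_scale hf a t
  obtain ⟨h, h1, h2⟩ := gauge_zero hP hF hρ
  have hlg : lg (fun ζ => f (a + t * ζ)) = fun ζ => lg f (a + t * ζ) := rfl
  have hg : lg (fun w => Complex.exp (-h w) • f (a + t * w))
      = fun ζ => lg f (a + t * ζ) - (h ζ).re := by
    ext ζ
    exact lg_gauge hF h ζ
  refine ⟨fun w => Complex.exp (-h w) • f (a + t * w), ?_, ?_, ?_, ?_⟩
  · exact h1.neg.cexp.smul hF.diff.differentiableOn
  · exact fun ζ => ⟨Complex.exp (-h ζ), Complex.exp_ne_zero _, rfl⟩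
  · intro ζ hζ
    obtain ⟨e1, e2⟩ := h2 ζ hζ
    rw [hlg, avg_scale, show t * (2 * ρ) = 2 * ρ * t by ring] at e2
    rw [hlg] at e1
    rw [hg]
    unfold Tch
    constructor <;> simp only <;> linarith
  · intro z s hs hsub
    unfold Tch
    have hi : CircleIntegrable (fun ζ => (h ζ).re) z s :=
      (Complex.continuous_re.comp_continuousOn
        (h1.continuousOn.mono (sphere_subset_closedBall.trans hsub))).circleIntegrable hs.le
    have hj : CircleIntegrable (fun ζ => lg f (a + t * ζ)) z s := hF.circleIntegrable z s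
    rw [hg, Real.circleAverage_fun_sub hj hi, re_mean h1 hs hsub, avg_scale]
    ring

end Pool.Agent.Lib.MP_45f16c_ag
end

-- part Pool.Agent.Lib.MP_45f16c_ag.Hofer
section

/-! Point selection for entire curves. -/

set_option autoImplicit false
open Metric

namespace Pool.Agent.Lib.MP_45f16c_ag

namespace HoferAux

variable {ν : ℕ} {f : ℂ → Fin ν → ℂ}

/-- The characteristic of a nonconstant curve is unbounded. -/
theorem unb (hG : GaugeStmt) (hf : Ent f) (hn : NonConst f) (τ : ℝ) :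
    ∃ (a : ℂ) (t : ℝ), 0 < t ∧ τ ≤ Tch f a t := by
  by_contra hc
  have hlt : ∀ (a : ℂ) (t : ℝ), 0 < t → Tch f a t < τ := fun a t ht =>
    lt_of_not_ge fun h => hc ⟨a, t, ht, h⟩
  obtain ⟨z, w, i, j, hD⟩ := hn
  have hz0 : 0 < ‖f z‖ := norm_pos_iff.2 (hf.ne z)
  have hw0 : 0 < ‖f w‖ := norm_pos_iff.2 (hf.ne w)
  have hD0 : 0 < ‖f z i * f w j - f z j * f w i‖ := norm_pos_iff.2 (sub_ne_zero.2 hD)
  set c := Real.exp (-τ) / ‖f z‖ * (Real.exp (-τ) / ‖f w‖) * ‖f z i * f w j - f z j * f w i‖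
    with hcdef
  have hc0 : 0 < c := by positivity
  set ρ := ‖z - w‖ + 1 + 6 * ‖z - w‖ / c with hρ
  have h6 : 0 ≤ 6 * ‖z - w‖ / c := by positivity
  have hρ0 : 0 < ρ := by positivity
  obtain ⟨g, hd, hl, hb, -⟩ := hG ν f hf w 1 ρ one_pos hρ0
  have hgne : ∀ ζ, g ζ ≠ 0 := fun ζ => by
    obtain ⟨l, hl0, e⟩ := hl ζ
    rw [e]
    exact smul_ne_zero hl0 (hf.ne _)
  have hhi : ∀ ζ ∈ ball (0 : ℂ) ρ, ‖g ζ‖ ≤ 1 := fun ζ hζ => by
    rw [← exp_lg (hgne ζ)]
    exact Real.exp_le_one_iff.2 (hb ζ hζ).2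
  have hlo : ∀ ζ ∈ ball (0 : ℂ) ρ, Real.exp (-τ) ≤ ‖g ζ‖ := fun ζ hζ => by
    rw [← exp_lg (hgne ζ)]
    refine Real.exp_le_exp.2 (le_trans ?_ (hb ζ hζ).1)
    exact neg_le_neg (hlt _ _ (by positivity)).le
  have m0 : (0 : ℂ) ∈ ball (0 : ℂ) ρ := mem_ball_self hρ0
  have m1 : z - w ∈ ball (0 : ℂ) ρ := by
    rw [mem_ball_zero_iff, hρ]
    linarith
  have hS := Complex.dist_le_div_mul_dist_of_mapsTo_ball (R₂ := 3) hd (fun ζ hζ => by
    rw [mem_closedBall, dist_eq_norm]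
    have := norm_sub_le (g ζ) (g 0)
    linarith [hhi ζ hζ, hhi 0 m0]) m1
  rw [dist_eq_norm, dist_zero_right] at hS
  obtain ⟨l0, -, e0⟩ := hl 0
  obtain ⟨l1, -, e1⟩ := hl (z - w)
  simp only [Complex.ofReal_one, mul_zero, add_zero, one_mul, add_sub_cancel] at e0 e1
  have b0 : Real.exp (-τ) / ‖f w‖ ≤ ‖l0‖ := by
    rw [div_le_iff₀ hw0, ← norm_smul, ← e0]
    exact hlo 0 m0
  have b1 : Real.exp (-τ) / ‖f z‖ ≤ ‖l1‖ := by
    rw [div_le_iff₀ hz0, ← norm_smul, ← e1]
    exact hlo _ m1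
  have e : l1 * l0 * (f z i * f w j - f z j * f w i) =
      (g (z - w) - g 0) i * g 0 j - (g (z - w) - g 0) j * g 0 i := by
    rw [e0, e1]
    simp only [Pi.sub_apply, Pi.smul_apply, smul_eq_mul]
    ring
  have k : ∀ a b, ‖(g (z - w) - g 0) a * g 0 b‖ ≤ 3 / ρ * ‖z - w‖ := fun a b => by
    rw [norm_mul]
    calc _ ≤ ‖g (z - w) - g 0‖ * 1 :=
          mul_le_mul (norm_le_pi_norm _ a) ((norm_le_pi_norm _ b).trans (hhi 0 m0))
            (norm_nonneg _) (norm_nonneg _)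
      _ ≤ _ := by rwa [mul_one]
  have h1 : c ≤ 2 * (3 / ρ * ‖z - w‖) := by
    calc c ≤ ‖l1‖ * ‖l0‖ * ‖f z i * f w j - f z j * f w i‖ := by
          rw [hcdef]
          gcongr
      _ = ‖l1 * l0 * (f z i * f w j - f z j * f w i)‖ := by rw [norm_mul, norm_mul]
      _ ≤ _ := by
          rw [e, two_mul]
          exact (norm_sub_le _ _).trans (add_le_add (k i j) (k j i))
  have h2 : c * ρ ≤ 6 * ‖z - w‖ := by
    calc c * ρ ≤ 2 * (3 / ρ * ‖z - w‖) * ρ := mul_le_mul_of_nonneg_right h1 hρ0.le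
      _ = _ := by field_simp; ring
  have h3 : c * ρ = c * (‖z - w‖ + 1) + 6 * ‖z - w‖ := by
    rw [hρ]
    field_simp
  have h4 : 0 < c * (‖z - w‖ + 1) := by positivity
  linarith

/-- The characteristic is uniformly small at small scales. -/
theorem small (hf : Ent f) (a : ℂ) (R : ℝ) {τ : ℝ} (hτ : 0 < τ) :
    ∃ δ > 0, ∀ z ∈ closedBall a R, ∀ t, 0 < t → t < δ → Tch f z t < τ := by
  have hu := (isCompact_closedBall a (R + 1)).uniformContinuousOn_of_continuous
    hf.continuous_lg.continuousOn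
  obtain ⟨δ, hδ, h⟩ := Metric.uniformContinuousOn_iff.1 hu (τ / 2) (half_pos hτ)
  refine ⟨min δ 1, lt_min hδ one_pos, fun z hz t ht htδ => ?_⟩
  have h1 : Real.circleAverage (lg f) z t ≤ lg f z + τ / 2 := by
    refine Real.circleAverage_mono_on_of_le_circle (hf.circleIntegrable z t) fun x hx => ?_
    rw [mem_sphere, abs_of_pos ht] at hx
    have hz' : dist z a ≤ R := hz
    have hx' : x ∈ closedBall a (R + 1) := by
      rw [mem_closedBall]
      linarith [dist_triangle x z a, min_le_right δ 1]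
    have := h x hx' z (closedBall_subset_closedBall (by linarith) hz)
      (by linarith [min_le_left δ 1])
    rw [Real.dist_eq] at this
    linarith [(abs_lt.1 this).2]
  rw [Tch]
  linarith

end HoferAux

open HoferAux

theorem hofer (hG : GaugeStmt) : HoferStmt := by
  intro ν f hf hn τ C hτ hC
  by_contra hc
  have step : ∀ (a : ℂ) (t : ℝ), 0 < t → τ ≤ Tch f a t →
      ∃ z ∈ closedBall a (C * t), τ ≤ Tch f z (t / 2) := fun a t ht h => by
    by_contra h2
    exact hc ⟨a, t, ht, h, fun z hz => (lt_of_not_ge fun h3 => h2 ⟨z, hz, h3⟩).le⟩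
  obtain ⟨a, t, ht, h0⟩ := unb hG hf hn τ
  have it : ∀ k : ℕ, ∃ z, dist z a ≤ 2 * C * t - 2 * C * (t * (1 / 2) ^ k) ∧
      τ ≤ Tch f z (t * (1 / 2) ^ k) := by
    intro k
    induction k with
    | zero => exact ⟨a, by simp, by simpa using h0⟩
    | succ k ih =>
      obtain ⟨z, hz, h⟩ := ih
      obtain ⟨y, hy, h'⟩ := step z _ (by positivity) h
      have e : t * (1 / 2) ^ (k + 1) = t * (1 / 2) ^ k / 2 := by ring
      refine ⟨y, ?_, by rwa [e]⟩
      have hy' : dist y z ≤ C * (t * (1 / 2) ^ k) := hy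
      rw [e]
      linarith [dist_triangle y z a]
  obtain ⟨δ, hδ, hs⟩ := small hf a (2 * C * t) hτ
  obtain ⟨k, hk⟩ := exists_pow_lt_of_lt_one (div_pos hδ ht) (by norm_num : (1 / 2 : ℝ) < 1)
  obtain ⟨z, hz, h⟩ := it k
  have hp : 0 < t * (1 / 2 : ℝ) ^ k := by positivity
  have hp' : 0 < 2 * C * (t * (1 / 2 : ℝ) ^ k) := by positivity
  have := hs z (by rw [mem_closedBall]; linarith) _ hp (by rwa [lt_div_iff₀' ht] at hk)
  linarith

end Pool.Agent.Lib.MP_45f16c_ag
end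

-- part Pool.Agent.Lib.MP_45f16c_ag.Sel
section

/-! Scale selection: every entire curve contains a fast disc or a slow disc. -/

set_option autoImplicit false
open Metric

namespace Pool.Agent.Lib.MP_45f16c_ag

namespace SelAux

theorem exists_step (P : ℕ → Prop) (h0 : ¬ P 0) :
    ∀ I : ℕ, P I → ∃ i, i < I ∧ ¬ P i ∧ P (i + 1) := by
  intro I
  induction I with
  | zero => intro h; exact absurd h h0
  | succ I ih =>
    intro h
    by_cases hI : P I
    · obtain ⟨i, hi, h1, h2⟩ := ih hI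
      exact ⟨i, Nat.lt_succ_of_lt hi, h1, h2⟩
    · exact ⟨I, Nat.lt_succ_self I, hI, h⟩

theorem iter (hD : DblStmt) {ν : ℕ} {f : ℂ → Fin ν → ℂ} (hf : Ent f) {a : ℂ} {t R M : ℝ}
    (ht : 0 < t) (h : ∀ z ∈ closedBall a R, Tch f z (t / 2) ≤ M) (i : ℕ) :
    ∀ z ∈ closedBall a (R + t - (3 / 2) ^ i * t), Tch f z ((3 / 2) ^ i * t / 2) ≤ 6 ^ i * M := by
  induction i with
  | zero =>
    intro z hz
    have := h z (by simpa using hz)
    simpa using this
  | succ i ih =>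
    intro z hz
    have hs : 0 < (3 / 2 : ℝ) ^ i * t / 2 := by positivity
    have key := hD ν f hf z ((3 / 2) ^ i * t / 2) (6 ^ i * M) hs (fun w hw => by
      refine ih w ?_
      rw [mem_closedBall] at hz hw ⊢
      have h3 := dist_triangle w z a
      rw [pow_succ] at hz
      linarith)
    have e1 : (3 / 2 : ℝ) ^ (i + 1) * t / 2 = 3 / 2 * ((3 / 2) ^ i * t / 2) := by ring
    have e2 : (6 : ℝ) ^ (i + 1) * M = 6 * (6 ^ i * M) := by ring
    rw [e1, e2]
    exact key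

theorem dist_aff (a : ℂ) {t : ℝ} (ht : 0 < t) (ζ : ℂ) : dist (a + t * ζ) a = t * ‖ζ‖ := by
  rw [dist_eq_norm, add_sub_cancel_left, norm_mul, Complex.norm_real, Real.norm_eq_abs,
    abs_of_pos ht]

theorem disc_of (hG : GaugeStmt) {ν : ℕ} {f : ℂ → Fin ν → ℂ} (hf : Ent f) {a : ℂ}
    {t ρ K T : ℝ} (ht : 0 < t) (hρ : 2 ≤ ρ)
    (hup : ∀ z ∈ closedBall a (ρ * t), Tch f z (2 * ρ * t) ≤ K * T) (hlo : T ≤ Tch f a t) :
    ∃ g : ℂ → Fin ν → ℂ, (∀ ζ, ∃ (l w : ℂ), g ζ = l • f w) ∧ Disc ρ K T g ∧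
      ∀ (z : ℂ) (s : ℝ), 0 < s → closedBall z s ⊆ ball 0 ρ →
        Tch g z s = Tch f (a + t * z) (t * s) := by
  obtain ⟨g, hd, hl, hb, hT⟩ := hG ν f hf a t ρ ht (by linarith)
  have hpos : ∀ ζ, 0 < ‖g ζ‖ := by
    intro ζ
    obtain ⟨l, hl0, e⟩ := hl ζ
    rw [e, norm_pos_iff]
    exact smul_ne_zero hl0 (hf.ne _)
  refine ⟨g, fun ζ => ?_, ⟨hd, fun z hz => ?_, fun z hz => ?_, ?_⟩, hT⟩
  · obtain ⟨l, -, e⟩ := hl ζ
    exact ⟨l, _, e⟩
  · have h1 := (hb z hz).1
    have hz' : a + t * z ∈ closedBall a (ρ * t) := by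
      rw [mem_closedBall, dist_aff a ht]
      rw [mem_ball_zero_iff] at hz
      nlinarith
    have h2 := hup _ hz'
    rw [← Real.exp_log (hpos z)]
    refine Real.exp_le_exp.2 ?_
    unfold lg at h1
    linarith
  · have h1 := (hb z hz).2
    unfold lg at h1
    exact (Real.log_nonpos_iff (hpos z).le).1 h1
  · rw [hT 0 1 one_pos (closedBall_subset_ball (by linarith))]
    simpa using hlo

end SelAux

open SelAux in
theorem selS (hG : GaugeStmt) (hM : MonoStmt) (hD : DblStmt) (hH : HoferStmt) : SelStmt := by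
  intro ρf hρf
  obtain ⟨n, hn⟩ := pow_unbounded_of_one_lt (4 * ρf) (by norm_num : (1 : ℝ) < 3 / 2)
  refine ⟨max (6 ^ n) 4, le_trans (by norm_num) (le_max_right _ _), ?_⟩
  intro ρs θ hρs hθ
  obtain ⟨I, hI⟩ := pow_unbounded_of_one_lt θ⁻¹ (by norm_num : (1 : ℝ) < 2)
  have hIθ : 1 ≤ 2 ^ I * θ := by
    have := mul_lt_mul_of_pos_right hI hθ
    rw [inv_mul_cancel₀ hθ.ne'] at this
    exact this.le
  have hq : (1 : ℝ) ≤ 2 * ρs := by linarith
  have hqI : (1 : ℝ) ≤ (2 * ρs) ^ I := one_le_pow₀ hq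
  have hqI0 : (0 : ℝ) < (2 * ρs) ^ I := by linarith
  set σ : ℝ := 1 / (2 * (2 * ρs) ^ I) with hσ
  have hσ0 : 0 < σ := by positivity
  have hσI : σ * (2 * ρs) ^ I = 1 / 2 := by rw [hσ]; field_simp
  have hσ1 : σ ≤ 1 := by nlinarith
  refine ⟨σ, hσ0, hσ1, ?_⟩
  intro ν f hf hnc τ hτ
  have hτ0 : (0 : ℝ) < τ := by
    by_contra hneg
    have : (τ : ℝ) = 0 := le_antisymm (not_lt.1 hneg) (Nat.cast_nonneg τ)
    rw [this] at hτ
    linarith
  have h32 : (0 : ℝ) < (3 / 2) ^ n := by positivity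
  obtain ⟨a, t, ht, hlo, hup⟩ := hH ν f hf hnc τ (ρf + (3 / 2) ^ n) hτ0 (by linarith)
  -- scales
  have hti : ∀ i : ℕ, 0 < t * σ * (2 * ρs) ^ i := fun i => by positivity
  have htle : ∀ i : ℕ, i ≤ I → t * σ * (2 * ρs) ^ i ≤ t / 2 := by
    intro i hi
    have h1 : (2 * ρs) ^ i ≤ (2 * ρs) ^ I := pow_le_pow_right₀ hq hi
    have h2 : t * σ * (2 * ρs) ^ i ≤ t * σ * (2 * ρs) ^ I :=
      mul_le_mul_of_nonneg_left h1 (by positivity)
    have h3 : t * σ * (2 * ρs) ^ I = t / 2 := by rw [mul_assoc, hσI]; ring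
    linarith
  have hreg : ∀ i : ℕ, i ≤ I → ∀ z ∈ closedBall a (ρf * t / 2 + t * σ * (2 * ρs) ^ i),
      Tch f z (t * σ * (2 * ρs) ^ i) ≤ τ := by
    intro i hi z hz
    refine le_trans (hM ν f hf z _ _ (hti i).le (htle i hi)).2 (hup z ?_)
    refine closedBall_subset_closedBall ?_ hz
    have := htle i hi
    nlinarith
  let A : ℕ → Prop := fun i => ∀ z ∈ closedBall a (ρf * t / 2 + t * σ * (2 * ρs) ^ i),
    Tch f z (t * σ * (2 * ρs) ^ i) ≤ 2 ^ i * θ * τ
  have hAI : A I := by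
    intro z hz
    refine le_trans (hreg I le_rfl z hz) ?_
    nlinarith
  by_cases hA0 : A 0
  · -- the fast disc
    have hup' : ∀ z ∈ closedBall a (ρf * t), Tch f z (2 * ρf * t) ≤ max (6 ^ n) 4 * (τ : ℝ) := by
      intro z hz
      have h1 := iter hD hf ht hup n z (closedBall_subset_closedBall (by nlinarith) hz)
      have h2 : 2 * ρf * t ≤ (3 / 2) ^ n * t / 2 := by nlinarith
      have h3 := (hM ν f hf z _ _ (by positivity) h2).2
      have h4 : (6 : ℝ) ^ n * τ ≤ max (6 ^ n) 4 * (τ : ℝ) :=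
        mul_le_mul_of_nonneg_right (le_max_left _ _) hτ0.le
      linarith
    obtain ⟨g, hg, hdisc, hT⟩ := disc_of hG hf ht hρf hup' hlo
    refine ⟨g, hg, Or.inl ⟨hdisc, fun z hz => ?_⟩⟩
    rw [mem_ball_zero_iff] at hz
    have hsub : closedBall z σ ⊆ ball 0 ρf := by
      intro w hw
      rw [mem_closedBall, dist_eq_norm] at hw
      rw [mem_ball_zero_iff]
      have : ‖w‖ ≤ ‖w - z‖ + ‖z‖ := by simpa using norm_add_le (w - z) z
      linarith
    rw [hT z σ hσ0 hsub]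
    have h1 := hA0 (a + t * z) (by
      rw [mem_closedBall, dist_aff a ht]
      have := hti 0
      nlinarith)
    simpa using h1
  · -- a slow disc
    obtain ⟨i, hi, hAi, hAi1⟩ := exists_step A hA0 I hAI
    simp only [A, not_forall, not_le] at hAi
    obtain ⟨z', hz', hlt⟩ := hAi
    have h2i : (1 : ℝ) ≤ 2 ^ i := one_le_pow₀ (by norm_num)
    set x : ℝ := 2 ^ i * θ * τ with hx
    have hxθ : θ * τ ≤ x := by rw [hx]; nlinarith
    have hx2 : 2 ≤ x := le_trans hτ hxθ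
    have hfl : (⌊x⌋₊ : ℝ) ≤ x := Nat.floor_le (by linarith)
    have hfl' : x < ⌊x⌋₊ + 1 := Nat.lt_floor_add_one x
    have hzτ := hreg i hi.le z' hz'
    have hup' : ∀ z ∈ closedBall z' (ρs * (t * σ * (2 * ρs) ^ i)),
        Tch f z (2 * ρs * (t * σ * (2 * ρs) ^ i)) ≤ max (6 ^ n) 4 * (⌊x⌋₊ : ℝ) := by
      intro z hz
      have e : 2 * ρs * (t * σ * (2 * ρs) ^ i) = t * σ * (2 * ρs) ^ (i + 1) := by ring
      have h1 := hAi1 z (by
        rw [mem_closedBall] at hz hz' ⊢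
        have h3 := dist_triangle z z' a
        have h4 := hti i
        rw [← e]
        nlinarith)
      have h2 : (2 : ℝ) ^ (i + 1) * θ * τ = 2 * x := by rw [hx]; ring
      have h4 : 4 * (⌊x⌋₊ : ℝ) ≤ max (6 ^ n) 4 * (⌊x⌋₊ : ℝ) :=
        mul_le_mul_of_nonneg_right (le_max_right _ _) (Nat.cast_nonneg _)
      rw [e]
      linarith
    obtain ⟨g, hg, hdisc, -⟩ := disc_of hG hf (hti i) hρs hup' (by linarith)
    refine ⟨g, hg, Or.inr ⟨⌊x⌋₊, by linarith, ?_, hdisc⟩⟩
    have : (⌊x⌋₊ : ℝ) ≤ τ := by linarith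
    exact_mod_cast this

end Pool.Agent.Lib.MP_45f16c_ag
end

-- part Pool.Agent.Lib.MP_45f16c_ag.Three
section

/-! Three linear forms without approximate common zero along a disc. -/

set_option autoImplicit false
open Metric Finset

namespace Pool.Agent.Lib.MP_45f16c_ag

noncomputable section

namespace ThreeAux

variable {ν : ℕ}

/-- an integer vector as a complex vector -/
def cv {L : ℕ} (k : Fin ν → Fin L) : Fin ν → ℂ := fun a => ((k a : ℕ) : ℂ)

theorem norm_cv {L : ℕ} (k : Fin ν → Fin L) : ‖cv k‖ ≤ L := by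
  refine (pi_norm_le_iff_of_nonneg (Nat.cast_nonneg _)).2 fun a => ?_
  rw [cv, Complex.norm_natCast]
  exact_mod_cast (k a).2.le

open Classical in
/-- integer forms that are small at `x` -/
def bad (L : ℕ) (x : Fin ν → ℂ) : Finset (Fin ν → Fin L) :=
  univ.filter fun k => ‖lf (cv k) x‖ < ‖x‖ / 2

theorem card_bad (L : ℕ) (x : Fin ν → ℂ) :
    #(bad L x) * L ≤ Fintype.card (Fin ν → Fin L) := by
  classical
  by_cases hx : x = 0
  · have : bad L x = ∅ := filter_eq_empty_iff.2 fun k _ h => by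
      rw [hx, norm_zero, zero_div] at h
      exact absurd h (not_lt.2 (norm_nonneg _))
    simp [this]
  obtain ⟨a, ha⟩ : ∃ a, ‖x‖ ≤ ‖x a‖ := by
    by_contra hc
    push Not at hc
    exact lt_irrefl _ ((pi_norm_lt_iff (norm_pos_iff.2 hx)).2 hc)
  have h1 : #(bad L x) * L = #(bad L x ×ˢ (univ : Finset (Fin L))) := by simp
  rw [h1, ← card_univ]
  refine card_le_card_of_injOn (fun p => Function.update p.1 a p.2) (fun _ _ => mem_univ _) ?_
  rintro ⟨k, t⟩ hk ⟨k', t'⟩ hk' e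
  have e1 : t = t' := by simpa using congrFun e a
  have e2 : ∀ b, b ≠ a → k b = k' b := fun b hb => by simpa [hb] using congrFun e b
  have b1 : ‖lf (cv k) x‖ < ‖x‖ / 2 := (mem_filter.1 (mem_product.1 hk).1).2
  have b2 : ‖lf (cv k') x‖ < ‖x‖ / 2 := (mem_filter.1 (mem_product.1 hk').1).2
  have e3 : lf (cv k) x - lf (cv k') x = (((k a : ℕ) - (k' a : ℕ) : ℤ) : ℂ) * x a := by
    rw [← lf_sub_left, lf, sum_eq_single a (fun b _ hb => by simp [cv, e2 b hb]) (by simp)]
    simp [cv]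
  have e4 : k a = k' a := by
    by_contra hne
    have h2 : (1 : ℝ) ≤ ‖(((k a : ℕ) - (k' a : ℕ) : ℤ) : ℂ)‖ := by
      rw [Complex.norm_intCast]
      have h4 : ((k a : ℕ) : ℤ) - (k' a : ℕ) ≠ 0 := fun h => hne (Fin.ext (by omega))
      rw [← Int.cast_abs, ← Int.cast_one, Int.cast_le]
      exact Int.one_le_abs h4
    have h3 := norm_sub_le (lf (cv k) x) (lf (cv k') x)
    rw [e3, norm_mul] at h3
    nlinarith [norm_nonneg (x a)]
  refine Prod.ext (funext fun b => ?_) e1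
  by_cases hb : b = a
  · exact hb ▸ e4
  · exact e2 b hb

/-- a triple of integer forms that is not small at any of few points -/
theorem exists_triple {ι : Type} [Fintype ι] (L : ℕ) (x : ι → Fin ν → ℂ)
    (h : Fintype.card ι < L ^ 3) :
    ∃ k : Fin 3 → Fin ν → Fin L, ∀ p, ∃ i, ‖x p‖ / 2 ≤ ‖lf (cv (k i)) (x p)‖ := by
  classical
  have hL : 0 < L := Nat.pos_of_ne_zero fun e => by simp [e] at h
  have : Nonempty (Fin L) := ⟨⟨0, hL⟩⟩
  by_contra hc
  push Not at hc
  set N := Fintype.card (Fin ν → Fin L) with hN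
  have h1 : (univ : Finset (Fin 3 → Fin ν → Fin L)) ⊆
      univ.biUnion fun p => Fintype.piFinset fun _ => bad L (x p) := fun k _ => by
    obtain ⟨p, hp⟩ := hc k
    exact mem_biUnion.2 ⟨p, mem_univ _, Fintype.mem_piFinset.2 fun i =>
      mem_filter.2 ⟨mem_univ _, hp i⟩⟩
  have h2 := (card_le_card h1).trans card_biUnion_le
  have h3 : (∑ p, #(Fintype.piFinset fun _ : Fin 3 => bad L (x p))) * L ^ 3 ≤
      Fintype.card ι * N ^ 3 := by
    rw [sum_mul, ← card_univ, ← smul_eq_mul]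
    refine sum_le_card_nsmul _ _ _ fun p _ => ?_
    rw [Fintype.card_piFinset, prod_const, card_univ, Fintype.card_fin, ← mul_pow]
    exact Nat.pow_le_pow_left (card_bad L (x p)) 3
  rw [card_univ, Fintype.card_fun, Fintype.card_fin, ← hN] at h2
  have h4 : 0 < N ^ 3 := pow_pos Fintype.card_pos 3
  have h5 := (Nat.mul_le_mul_right (L ^ 3) h2).trans h3
  nlinarith

theorem grid (n : ℕ) (hn : 0 < n) (t : ℝ) (ht : |t| ≤ 2) :
    ∃ j : Fin (4 * n + 1), |((j : ℕ) : ℝ) / n - 2 - t| ≤ 1 / n := by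
  have hn' : (0 : ℝ) < n := by exact_mod_cast hn
  obtain ⟨t1, t2⟩ := abs_le.1 ht
  have h0 : 0 ≤ (t + 2) * n := by nlinarith
  have h1 := Nat.floor_le h0
  have h2 := Nat.lt_floor_add_one ((t + 2) * n)
  refine ⟨⟨⌊(t + 2) * n⌋₊, Nat.lt_succ_of_le (Nat.floor_le_of_le (by push_cast; nlinarith))⟩, ?_⟩
  have e : ((⌊(t + 2) * n⌋₊ : ℕ) : ℝ) / n - 2 - t = (⌊(t + 2) * n⌋₊ - (t + 2) * n) / n := by
    field_simp; ring
  show |((⌊(t + 2) * n⌋₊ : ℕ) : ℝ) / n - 2 - t| ≤ 1 / n
  rw [e, abs_div, abs_of_pos hn']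
  exact div_le_div_of_nonneg_right (abs_le.2 ⟨by linarith, by linarith⟩) hn'.le

/-- the points of the net -/
def pt (n : ℕ) (p : Fin (4 * n + 1) × Fin (4 * n + 1)) : ℂ :=
  ⟨((p.1 : ℕ) : ℝ) / n - 2, ((p.2 : ℕ) : ℝ) / n - 2⟩

theorem net (n : ℕ) (hn : 0 < n) {z : ℂ} (hz : z ∈ closedBall (0 : ℂ) 2) :
    ∃ p, pt n p ∈ closedBall z (2 / n) := by
  rw [mem_closedBall_zero_iff] at hz
  obtain ⟨j, hj⟩ := grid n hn z.re ((Complex.abs_re_le_norm z).trans hz)
  obtain ⟨k, hk⟩ := grid n hn z.im ((Complex.abs_im_le_norm z).trans hz)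
  refine ⟨(j, k), ?_⟩
  rw [mem_closedBall, dist_eq_norm]
  refine (Complex.norm_le_abs_re_add_abs_im _).trans ?_
  simp only [Complex.sub_re, Complex.sub_im, pt]
  have : (2 : ℝ) / n = 1 / n + 1 / n := by ring
  linarith

theorem near {f : ℂ → Fin ν → ℂ} {Γ r : ℝ} (hΓ : 0 ≤ Γ) (hf : DifferentiableOn ℂ f (ball 0 3))
    (hd : ∀ z ∈ ball (0 : ℂ) 3, ‖deriv f z‖ ≤ Γ * ‖f z‖) (hr : 0 ≤ r) (hr1 : r < 1)
    (hr2 : Γ * r ≤ 1 / 2) {z w : ℂ} (hz : z ∈ closedBall (0 : ℂ) 2) (hw : w ∈ closedBall z r) :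
    ‖f w - f z‖ ≤ 2 * Γ * r * ‖f z‖ := by
  have hs : closedBall z r ⊆ ball 0 3 := closedBall_subset_ball' (by
    have := mem_closedBall.1 hz
    linarith)
  obtain ⟨u, hu, hM⟩ := (isCompact_closedBall z r).exists_isMaxOn ⟨z, mem_closedBall_self hr⟩
    (hf.continuousOn.mono hs).norm
  have key : ∀ v ∈ closedBall z r, ‖f v - f z‖ ≤ Γ * ‖f u‖ * r := fun v hv => by
    have := (convex_closedBall z r).norm_image_sub_le_of_norm_deriv_le (f := f)
      (C := Γ * ‖f u‖) (fun y hy => hf.differentiableAt (isOpen_ball.mem_nhds (hs hy)))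
      (fun y hy => (hd y (hs hy)).trans (mul_le_mul_of_nonneg_left (hM hy) hΓ))
      (mem_closedBall_self hr) hv
    refine this.trans (mul_le_mul_of_nonneg_left ?_ (by positivity))
    rwa [← dist_eq_norm]
  have h1 := key u hu
  have h2 := norm_sub_norm_le (f u) (f z)
  have h3 : ‖f u‖ ≤ 2 * ‖f z‖ := by nlinarith [norm_nonneg (f u)]
  have h4 := key w hw
  have h5 : 0 ≤ Γ * r := mul_nonneg hΓ hr
  nlinarith

end ThreeAux

open ThreeAux in
theorem three : ThreeStmt := by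
  intro ν
  refine ⟨110000 * (ν + 1) ^ 2, by positivity, fun f Γ hΓ hf hd => ?_⟩
  obtain ⟨G, hG1, hG2⟩ : ∃ G : ℕ, Γ ≤ G ∧ (G : ℝ) ≤ 2 * Γ :=
    ⟨⌈Γ⌉₊, Nat.le_ceil Γ, by have := Nat.ceil_lt_add_one (a := Γ) (by linarith); linarith⟩
  have hG : 0 < G := by
    have : (0 : ℝ) < G := by linarith
    exact_mod_cast this
  obtain ⟨L, hL⟩ : ∃ L : ℕ, L = 6401 * ((ν + 1) * G) ^ 2 := ⟨_, rfl⟩
  obtain ⟨n, hn⟩ : ∃ n : ℕ, n = 16 * ((ν + 1) * G) * L := ⟨_, rfl⟩
  have hu : 0 < (ν + 1) * G := by positivity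
  have hL0 : 0 < L := by rw [hL]; positivity
  have hn0 : 0 < n := by rw [hn]; positivity
  obtain ⟨k, hk⟩ := exists_triple L (fun p => f (pt n p)) (by
    rw [Fintype.card_prod, Fintype.card_fin]
    calc (4 * n + 1) * (4 * n + 1) ≤ (5 * n) * (5 * n) := Nat.mul_le_mul (by omega) (by omega)
      _ = 6400 * ((ν + 1) * G) ^ 2 * L ^ 2 := by rw [hn]; ring
      _ < L * L ^ 2 := Nat.mul_lt_mul_of_pos_right (by have := pow_pos hu 2; omega) (by positivity)
      _ = L ^ 3 := by ring)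
  have hL1 : (1 : ℝ) ≤ L := by exact_mod_cast hL0
  have hν : (0 : ℝ) ≤ ν := Nat.cast_nonneg ν
  have hn1 : 16 * ((ν + 1) * L) * Γ ≤ n := by
    rw [hn]; push_cast
    have : 0 ≤ 16 * (((ν : ℝ) + 1) * L) := by positivity
    nlinarith
  have hn2 : (1 : ℝ) ≤ (ν + 1) * L := by nlinarith
  have hn3 : 16 * Γ ≤ n := by nlinarith
  have hn4 : (0 : ℝ) < n := by linarith
  refine ⟨fun i => ((L : ℂ)⁻¹) • cv (k i), ?_, fun z hz => ?_⟩
  · refine (pi_norm_le_iff_of_nonneg zero_le_one).2 fun i => ?_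
    rw [norm_smul, norm_inv, Complex.norm_natCast, inv_mul_le_iff₀ (by linarith), mul_one]
    exact norm_cv _
  obtain ⟨p, hp⟩ := net n hn0 hz
  obtain ⟨i, hi⟩ := hk p
  refine ⟨i, ?_⟩
  have h1 := near (by linarith) hf hd (by positivity) (by rw [div_lt_one hn4]; linarith)
    (by rw [← mul_div_assoc, div_le_iff₀ hn4]; linarith) hz hp
  obtain ⟨ε, hε⟩ : ∃ ε : ℝ, ε = 2 * Γ * (2 / n) := ⟨_, rfl⟩
  rw [← hε] at h1
  have hε0 : 0 ≤ ε := by rw [hε]; positivity
  have hε1 : (ν + 1) * L * ε ≤ 1 / 4 := by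
    rw [hε, ← mul_div_assoc, ← mul_div_assoc, div_le_iff₀ hn4]; linarith
  have h2 : ‖lf (cv (k i)) (f (pt n p)) - lf (cv (k i)) (f z)‖ ≤ ν * L * (ε * ‖f z‖) := by
    rw [← lf_sub_right]
    refine (norm_lf_le _ _).trans (mul_le_mul (mul_le_mul_of_nonneg_left (norm_cv _) hν) h1
      (norm_nonneg _) (by positivity))
  have h3 := norm_sub_norm_le (lf (cv (k i)) (f (pt n p))) (lf (cv (k i)) (f z))
  have h4 := norm_sub_norm_le (f z) (f (pt n p))
  rw [norm_sub_rev] at h4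
  have h5 : 0 ≤ ε * ‖f z‖ := by positivity
  have h6 : ‖f z‖ ≤ 4 * ‖lf (cv (k i)) (f z)‖ := by
    have a1 := mul_le_mul_of_nonneg_right hε1 (norm_nonneg (f z))
    have a2 := mul_le_mul_of_nonneg_right hL1 h5
    nlinarith
  have h7 : 4 * (L : ℝ) ≤ 110000 * (ν + 1) ^ 2 * Γ ^ 2 := by
    have a1 : (G : ℝ) ^ 2 ≤ (2 * Γ) ^ 2 := pow_le_pow_left₀ (Nat.cast_nonneg G) hG2 2
    have a2 : (0 : ℝ) ≤ (ν + 1) ^ 2 := by positivity
    have a3 := mul_le_mul_of_nonneg_left a1 a2
    have a4 : (0 : ℝ) ≤ (ν + 1) ^ 2 * Γ ^ 2 := by positivity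
    rw [hL]; push_cast
    nlinarith
  rw [lf_smul_left, norm_mul, norm_inv, Complex.norm_natCast]
  calc ‖f z‖ ≤ 4 * ‖lf (cv (k i)) (f z)‖ := h6
    _ = 4 * (L : ℝ) * ((L : ℝ)⁻¹ * ‖lf (cv (k i)) (f z)‖) := by field_simp
    _ ≤ _ := mul_le_mul_of_nonneg_right h7 (by positivity)

end

end Pool.Agent.Lib.MP_45f16c_ag
end
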