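import Pool.Agent.Lib.MP_45f16c_ag.Basic

-- part Pool.Agent.Lib.MP_45f16c_ag.True
section

/-! A true disc gives an approximate solution of the truncated problem. -/

set_option autoImplicit false
open Metric MeasureTheory MvPolynomial

namespace Pool.Agent.Lib.MP_45f16c_ag

noncomputable section

namespace TrueAux

/-- Normalised truncation. -/
theorem truncB (hT : TruncStmt) (m : ℕ) {R B δ : ℝ} (hR : 8 ≤ R) (hB : 1 ≤ B)
    (hδ : 2 * B * (4 / R) ^ m ≤ δ) (h : ℂ → ℂ) (hd : DifferentiableOn ℂ h (ball 0 R))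
    (hb : ∀ z ∈ ball (0 : ℂ) R, ‖h z‖ ≤ B) :
    ∃ a : Fin m → ℂ, (∀ k, ‖a k‖ ≤ 1) ∧ ∀ z ∈ closedBall (0 : ℂ) 2,
      ‖(B : ℂ) * ∑ k : Fin m, a k * (z / 2) ^ (k : ℕ) - h z‖ ≤ δ := by
  obtain ⟨a, ha, hz⟩ := hT m h R B hR hd hb
  have hB0 : 0 < B := by linarith
  have hBc : (B : ℂ) ≠ 0 := by exact_mod_cast hB0.ne'
  refine ⟨fun k => a k / B, fun k => ?_, fun z hz' => ?_⟩
  · rw [norm_div, Complex.norm_real, Real.norm_of_nonneg hB0.le, div_le_one hB0]
    exact ha k
  · have e : (B : ℂ) * ∑ k : Fin m, a k / B * (z / 2) ^ (k : ℕ) =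
        ∑ k : Fin m, a k * (z / 2) ^ (k : ℕ) := by
      rw [Finset.mul_sum]
      exact Finset.sum_congr rfl fun k _ => by field_simp
    rw [e, norm_sub_rev]
    exact (hz z hz').trans hδ

theorem norm_div_le_one {u : ℂ} {t : ℝ} (ht : 0 < t) (h : ‖u‖ ≤ t) : ‖u / (t : ℂ)‖ ≤ 1 := by
  rw [norm_div, Complex.norm_real, Real.norm_of_nonneg ht.le, div_le_one ht]
  exact h

/-- The point of the cube assembled from its blocks. -/
def asm {ν m : ℕ} (B : ℝ) (af : Fin ν → Fin m → ℂ) (ab : Fin 3 → Fin ν → Fin m → ℂ)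
    (l : Fin ν → ℂ) (q : ℕ → ℂ) (ag : Fin m → ℂ) : Unk ν m → ℂ := fun p =>
  match p.1 with
  | .inl a => af a p.2
  | .inr (.inl la) => ab la.1 la.2 p.2
  | .inr (.inr (.inl a)) => if (p.2 : ℕ) = 0 then l a / B else 0
  | .inr (.inr (.inr false)) => q p.2 / B
  | .inr (.inr (.inr true)) => ag p.2

variable {ν m : ℕ} {B : ℝ} {af : Fin ν → Fin m → ℂ} {ab : Fin 3 → Fin ν → Fin m → ℂ}
  {l : Fin ν → ℂ} {q : ℕ → ℂ} {ag : Fin m → ℂ}

theorem norm_asm (hB : 1 ≤ B) (hf : ∀ a k, ‖af a k‖ ≤ 1) (hb : ∀ i a k, ‖ab i a k‖ ≤ 1)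
    (hl : ‖l‖ ≤ 1) (hq : ∀ s, ‖q s‖ ≤ B) (hg : ∀ k, ‖ag k‖ ≤ 1) :
    ‖asm B af ab l q ag‖ ≤ 1 := by
  refine (pi_norm_le_iff_of_nonneg zero_le_one).2 ?_
  rintro ⟨α, k⟩
  have hB0 : 0 < B := by linarith
  rcases α with a | la | a | t
  · exact hf a k
  · exact hb la.1 la.2 k
  · change ‖if (k : ℕ) = 0 then l a / B else 0‖ ≤ 1
    split_ifs
    · exact norm_div_le_one hB0 (((norm_le_pi_norm l a).trans hl).trans hB)
    · simp
  · cases t
    · exact norm_div_le_one hB0 (hq k)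
    · exact hg k

theorem lx_asm (hB : 1 ≤ B) (hm : 1 ≤ m) : lx B (asm B af ab l q ag) = l := by
  funext a
  have hBc : (B : ℂ) ≠ 0 := by exact_mod_cast (show (0 : ℝ) < B by linarith).ne'
  change (B : ℂ) * ∑ k : Fin m, (if (k : ℕ) = 0 then l a / B else 0) * ((0 : ℂ) / 2) ^ (k : ℕ) = l a
  rw [Finset.sum_eq_single (⟨0, hm⟩ : Fin m) (fun k _ hk => by
    rw [if_neg fun h => hk (Fin.ext h), zero_mul]) (by simp)]
  simp only [if_true, pow_zero, mul_one]
  field_simp

theorem Qx_asm (hB : 1 ≤ B) {k : ℕ} (hk : k ≤ m) (z : ℂ) :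
    Qx B k (asm B af ab l q ag) z = Qp k q z := by
  have hBc : (B : ℂ) ≠ 0 := by exact_mod_cast (show (0 : ℝ) < B by linarith).ne'
  change z ^ k + (B : ℂ) * ∑ s : Fin m,
    (if (s : ℕ) < k then q s / B * (z / 2) ^ (s : ℕ) else 0) = _
  rw [Fin.sum_univ_eq_sum_range (fun s => if s < k then q s / B * (z / 2) ^ s else 0) m,
    ← Finset.sum_filter, Qp, Finset.mul_sum]
  congr 1
  refine Finset.sum_congr ?_ fun s _ => by field_simp
  ext s
  simp only [Finset.mem_filter, Finset.mem_range]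
  omega

end TrueAux

open TrueAux in
theorem trueS (hT : TruncStmt) : TrueStmt := by
  intro ν d N m M cl pr c f b l q g R Γ δ hR hm hk hB hδ hδ1 hz hσ hσ1 hc hf hb hg hball hl hq
    hQ hsm hω hε hε' hΓb hϑ hβ0 hβ1 hf0 hδϑ hfin
  have hB0 : 0 < pr.B := by linarith
  have hδ0 : 0 ≤ δ := le_trans (by positivity) hδ
  choose af haf hfa using fun a : Fin ν => truncB hT m hR hB hδ (fun z => f z a)
    (differentiableOn_pi.1 hf a) fun z hz' =>
      ((norm_le_pi_norm (f z) a).trans (hball z hz').1).trans hB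
  choose ab hab hba using fun (i : Fin 3) (a : Fin ν) => truncB hT m hR hB hδ (fun z => b i z a)
    (differentiableOn_pi.1 (hb i) a) fun z hz' =>
      (norm_le_pi_norm (b i z) a).trans ((hball z hz').2.1 i)
  obtain ⟨ag, hag, hga⟩ := truncB hT m hR hB hδ g hg fun z hz' => (hball z hz').2.2.1
  set x : Unk ν m → ℂ := asm pr.B af ab l q ag with hx
  have hF : ∀ w ∈ closedBall (0 : ℂ) 2, ‖fx pr.B x w - f w‖ ≤ δ := fun w hw =>
    (pi_norm_le_iff_of_nonneg hδ0).2 fun a => hfa a w hw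
  have hBb : ∀ i, ∀ w ∈ closedBall (0 : ℂ) 2, ‖bx pr.B x i w - b i w‖ ≤ δ := fun i w hw =>
    (pi_norm_le_iff_of_nonneg hδ0).2 fun a => hba i a w hw
  have hG : ∀ w ∈ closedBall (0 : ℂ) 2,
      ‖pol pr.B x (.inr (.inr (.inr true))) w - g w‖ ≤ δ := fun w hw => hga w hw
  have hsub : closedBall (0 : ℂ) 2 ⊆ ball 0 R := closedBall_subset_ball (by linarith)
  have hBδ : δ ≤ pr.B * δ := le_mul_of_one_le_left hδ0 hB
  have hν0 : (0 : ℝ) ≤ ν := Nat.cast_nonneg ν
  refine ⟨x, norm_asm hB haf hab hl hq hag, ?_⟩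
  rintro (⟨i, s, t⟩ | a | a)
  · set w := node (cl.z i) cl.σ M s with hw
    have hwi : w ∈ closedBall (cl.z i) cl.σ := node_mem _ hσ.le M s
    have hw2 : w ∈ closedBall (0 : ℂ) 2 := small_disc_subset (hz i) hσ1 hwi
    have hwn : ‖w‖ ≤ 2 := mem_closedBall_zero_iff.1 hw2
    obtain ⟨hf1, hbB, -, hev, hP, hL⟩ := hball w (hsub hw2)
    obtain ⟨hωp, hδω, hE⟩ := hω i
    have hft : ‖fx pr.B x w‖ ≤ ‖f w‖ + δ :=
      (norm_le_norm_add_norm_sub' _ (f w)).trans (by gcongr; exact hF w hw2)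
    rcases t with _ | la | j | _
    · change ‖eval (fx pr.B x w) (form c) / ((pr.ε * cl.ω i ^ d : ℝ) : ℂ)‖ ≤ 1
      refine norm_div_le_one (by positivity) ?_
      have h1 := (hsm i w hwi).1
      have h0 : 0 ≤ Γ * cl.ω i := (norm_nonneg _).trans h1
      have h2 := form_lip c (x := fx pr.B x w) (x' := f w) (R := 2 * Γ * cl.ω i)
        (by linarith) (by linarith)
      rw [hev, sub_zero] at h2
      refine h2.trans (le_trans ?_ hE)
      have h3 : 0 ≤ (2 * Γ * cl.ω i) ^ (d - 1) := pow_nonneg (by linarith) _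
      calc (Fintype.card (Mon ν d) : ℝ) * ‖c‖ *
            (d * ‖fx pr.B x w - f w‖ * (2 * Γ * cl.ω i) ^ (d - 1))
          ≤ Fintype.card (Mon ν d) * 1 * (d * δ * (2 * Γ * cl.ω i) ^ (d - 1)) := by
            gcongr; exact hF w hw2
        _ = _ := by ring
    · change ‖bx pr.B x la.1 w la.2 / ((pr.Γb * cl.ω i : ℝ) : ℂ)‖ ≤ 1
      refine norm_div_le_one (by positivity) ((norm_le_pi_norm _ la.2).trans ?_)
      refine le_trans ?_ ((hsm i w hwi).2 la.1)
      exact (norm_le_norm_add_norm_sub' _ (b la.1 w)).trans (by gcongr; exact hBb la.1 w hw2)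
    · change ‖(lf (bx pr.B x j w) (fx pr.B x w) - pr.Ptz j w) / (pr.ε' : ℂ)‖ ≤ 1
      refine norm_div_le_one hε' (le_trans ?_ hfin)
      have e : lf (bx pr.B x j w) (fx pr.B x w) - pr.Ptz j w =
          lf (bx pr.B x j w - b j w) (fx pr.B x w) + lf (b j w) (fx pr.B x w - f w) +
            (cl.P j w - pr.Ptz j w) := by
        rw [lf_sub_left, lf_sub_right, hP j]; ring
      have h1 : ‖lf (bx pr.B x j w - b j w) (fx pr.B x w)‖ ≤ ν * δ * 2 :=
        (norm_lf_le _ _).trans (by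
          gcongr
          · exact hBb j w hw2
          · linarith)
      have h2 : ‖lf (b j w) (fx pr.B x w - f w)‖ ≤ ν * pr.B * δ :=
        (norm_lf_le _ _).trans (by
          gcongr
          · exact hbB j
          · exact hF w hw2)
      have h3 := (hQ w hw2).2 j
      have h4 : ν * δ ≤ ν * (pr.B * δ) := by gcongr
      rw [e]
      refine (norm_add₃_le).trans ?_
      nlinarith
    · change ‖(lf (lx pr.B x) (fx pr.B x w) - pr.β * Qx pr.B pr.k x w * gx pr.B x w) /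
        (pr.ε' : ℂ)‖ ≤ 1
      refine norm_div_le_one hε' (le_trans ?_ hfin)
      have e : lf (lx pr.B x) (fx pr.B x w) - pr.β * Qx pr.B pr.k x w * gx pr.B x w =
          lf l (fx pr.B x w - f w) - pr.β * Qp pr.k q w * w *
            (pol pr.B x (.inr (.inr (.inr true))) w - g w) := by
        rw [hx, lx_asm hB hm, Qx_asm hB hk, lf_sub_right, hL, gx]; ring
      have h1 : ‖lf l (fx pr.B x w - f w)‖ ≤ ν * 1 * δ :=
        (norm_lf_le _ _).trans (by gcongr; exact hF w hw2)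
      have h2 : ‖pr.β * Qp pr.k q w * w * (pol pr.B x (.inr (.inr (.inr true))) w - g w)‖ ≤
          1 * pr.B * 2 * δ := by
        rw [norm_mul, norm_mul, norm_mul, Complex.norm_real, Real.norm_of_nonneg hβ0]
        gcongr
        · exact (hQ w hw2).1
        · exact hG w hw2
      have h4 : ν * δ ≤ ν * (pr.B * δ) := by gcongr
      rw [e]
      refine (norm_sub_le _ _).trans ?_
      nlinarith
  · change ‖fx pr.B x 0 a / ((2 * pr.ϑ : ℝ) : ℂ)‖ ≤ 1
    refine norm_div_le_one (by positivity) ((norm_le_pi_norm _ a).trans ?_)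
    have h0 := hF 0 (mem_closedBall_self (by norm_num))
    have := norm_le_norm_add_norm_sub' (fx pr.B x 0) (f 0)
    linarith
  · change ‖lx pr.B x a‖ ≤ 1
    rw [hx, lx_asm hB hm]
    exact (norm_le_pi_norm l a).trans hl

end

end Pool.Agent.Lib.MP_45f16c_ag
end

-- part Pool.Agent.Lib.MP_45f16c_ag.Region
section

/-! In the region, bounded lifts force a numerical inequality. -/

set_option autoImplicit false
open Metric MvPolynomial
open scoped ComplexConjugate

namespace Pool.Agent.Lib.MP_45f16c_ag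

namespace RegionAux

noncomputable section

variable {ν d m N : ℕ}

theorem pow_lip (k : ℕ) {z w : ℂ} (hz : ‖z‖ ≤ 1) (hw : ‖w‖ ≤ 1) :
    ‖z ^ k - w ^ k‖ ≤ k * ‖z - w‖ := by
  have := (prod_lip (List.replicate k ()) (fun _ => z) (fun _ => w) zero_le_one (norm_nonneg _)
    (fun _ => hz) (fun _ => hw) fun _ => le_rfl).2
  simpa using this

theorem pol_lip {B : ℝ} (hB : 0 ≤ B) (x : Unk ν m → ℂ) (α : Blk ν) {z w : ℂ} (hz : ‖z‖ ≤ 1)
    (hw : ‖w‖ ≤ 1) : ‖pol B x α z - pol B x α w‖ ≤ B * m * (m * ‖x‖) * ‖z - w‖ := by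
  rw [pol, pol, ← mul_sub, ← Finset.sum_sub_distrib, norm_mul, Complex.norm_real,
    Real.norm_of_nonneg hB, mul_assoc, mul_assoc]
  gcongr
  refine (norm_sum_le _ _).trans ((Finset.sum_le_card_nsmul _ _ (m * ‖x‖ * ‖z - w‖)
    fun k _ => ?_).trans (by simp))
  rw [← mul_sub, norm_mul]
  have h1 := pow_lip k (z := z / 2) (w := w / 2) (by rw [norm_div, Complex.norm_two]; linarith)
    (by rw [norm_div, Complex.norm_two]; linarith)
  have h2 : ‖z / 2 - w / 2‖ ≤ ‖z - w‖ := by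
    rw [← sub_div, norm_div, Complex.norm_two]; linarith [norm_nonneg (z - w)]
  have h3 : (k : ℝ) ≤ m := by exact_mod_cast k.2.le
  calc _ ≤ ‖x‖ * (m * ‖z - w‖) := by
        gcongr
        · exact norm_le_pi_norm _ _
        · exact h1.trans (by gcongr)
    _ = _ := by ring

/-- The reflected monic factor. -/
def Qs (B : ℝ) (k : ℕ) (x : Unk ν m → ℂ) (z : ℂ) : ℂ :=
  1 + B * ∑ s : Fin m, if (s : ℕ) < k then
    conj (x (.inr (.inr (.inr false)), s)) / 2 ^ (s : ℕ) * z ^ (k - s) else 0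

theorem Qs_zero (B : ℝ) (k : ℕ) (x : Unk ν m → ℂ) : Qs B k x 0 = 1 := by
  unfold Qs
  rw [Finset.sum_eq_zero fun s _ => ?_]
  · simp
  · split_ifs with h
    · rw [zero_pow (by omega), mul_zero]
    · rfl

theorem Qs_circle (B : ℝ) (k : ℕ) (x : Unk ν m → ℂ) {z : ℂ} (hz : ‖z‖ = 1) :
    ‖Qs B k x z‖ = ‖Qx B k x z‖ := by
  have h1 : z * conj z = 1 := by rw [Complex.mul_conj', hz]; simp
  have : Qs B k x z = z ^ k * conj (Qx B k x z) := by
    simp only [Qs, Qx, map_add, map_mul, map_pow, Complex.conj_ofReal, map_sum, mul_add]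
    rw [← mul_pow, h1, one_pow, mul_left_comm, Finset.mul_sum _ _ (z ^ k)]
    congr 2
    refine Finset.sum_congr rfl fun s _ => ?_
    split_ifs with h
    · have e : z ^ k = z ^ (k - s) * z ^ (s : ℕ) := by rw [← pow_add, Nat.sub_add_cancel h.le]
      have e2 : z ^ (s : ℕ) * conj z ^ (s : ℕ) = 1 := by rw [← mul_pow, h1, one_pow]
      simp only [map_mul, map_pow, map_div₀, map_ofNat, div_pow, e]
      linear_combination (-(conj (x (.inr (.inr (.inr false)), s)) / 2 ^ (s : ℕ) *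
        z ^ (k - s))) * e2
    · simp
  rw [this, norm_mul, norm_pow, hz, one_pow, one_mul, Complex.norm_conj]

theorem coef_le (x : Unk ν m → ℂ) (s : Fin m) :
    ‖conj (x (.inr (.inr (.inr false)), s)) / 2 ^ (s : ℕ)‖ ≤ ‖x‖ := by
  rw [norm_div, Complex.norm_conj, norm_pow, Complex.norm_two]
  exact (div_le_self (norm_nonneg _) (one_le_pow₀ one_le_two)).trans (norm_le_pi_norm _ _)

theorem norm_Qs_le {B : ℝ} (hB : 0 ≤ B) (k : ℕ) (x : Unk ν m → ℂ) {z : ℂ} (hz : ‖z‖ ≤ 1) :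
    ‖Qs B k x z‖ ≤ 1 + B * (m * ‖x‖) := by
  refine (norm_add_le _ _).trans ?_
  rw [norm_one, norm_mul, Complex.norm_real, Real.norm_of_nonneg hB]
  gcongr
  refine (norm_sum_le _ _).trans ((Finset.sum_le_card_nsmul _ _ ‖x‖ fun s _ => ?_).trans (by simp))
  split_ifs
  · rw [norm_mul, norm_pow]
    exact (mul_le_of_le_one_right (norm_nonneg _) (pow_le_one₀ (norm_nonneg _) hz)).trans
      (coef_le x s)
  · simp

theorem Qs_lip {B : ℝ} (hB : 0 ≤ B) {k : ℕ} (hk : k ≤ m) (x : Unk ν m → ℂ) {z w : ℂ}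
    (hz : ‖z‖ ≤ 1) (hw : ‖w‖ ≤ 1) :
    ‖Qs B k x z - Qs B k x w‖ ≤ B * m * (m * ‖x‖) * ‖z - w‖ := by
  rw [Qs, Qs, add_sub_add_left_eq_sub, ← mul_sub, ← Finset.sum_sub_distrib, norm_mul,
    Complex.norm_real, Real.norm_of_nonneg hB, mul_assoc, mul_assoc]
  gcongr
  refine (norm_sum_le _ _).trans ((Finset.sum_le_card_nsmul _ _ (m * ‖x‖ * ‖z - w‖)
    fun s _ => ?_).trans (by simp))
  split_ifs
  · rw [← mul_sub, norm_mul]
    have h3 : ((k - s : ℕ) : ℝ) ≤ m := by exact_mod_cast (by omega : k - s ≤ m)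
    calc _ ≤ ‖x‖ * (m * ‖z - w‖) := by
          gcongr
          · exact coef_le x s
          · exact (pow_lip _ hz hw).trans (by gcongr)
      _ = _ := by ring
  · simp only [sub_self, norm_zero]; positivity

theorem differentiable_Qs (B : ℝ) (k : ℕ) (x : Unk ν m → ℂ) : Differentiable ℂ (Qs B k x) := by
  refine (Differentiable.const_mul (Differentiable.fun_sum fun s _ => ?_) _).const_add _
  split_ifs <;> fun_prop

theorem gam_lip {B S : ℝ} (hB : 1 ≤ B) (hS : 1 ≤ S) {k : ℕ} (hk : k ≤ m) {x : Unk ν m → ℂ}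
    (hx : ‖x‖ ≤ S) {z w : ℂ} (hz : ‖z‖ ≤ 1) (hw : ‖w‖ ≤ 1) :
    ‖Qs B k x z * gx B x z - Qs B k x w * gx B x w‖ ≤
      3 * ((m + 1) ^ 2 * B * S) ^ 2 * ‖z - w‖ := by
  have hB0 : 0 ≤ B := by linarith
  set X := (m + 1) ^ 2 * B * S with hX
  have hm : (0 : ℝ) ≤ m := by positivity
  have hBS : 1 ≤ B * S := by nlinarith
  have a1 : 1 + B * (m * ‖x‖) ≤ X := by
    have : B * (m * ‖x‖) ≤ B * (m * S) := by gcongr
    nlinarith [mul_nonneg hm (by linarith : 0 ≤ B * S), mul_nonneg (sq_nonneg (m : ℝ))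
      (by linarith : 0 ≤ B * S)]
  have a2 : B * m * (m * ‖x‖) ≤ X := by
    have : B * m * (m * ‖x‖) ≤ B * m * (m * S) := by gcongr
    nlinarith [mul_nonneg hm (by linarith : 0 ≤ B * S)]
  have a3 : B * m * ‖x‖ ≤ X := by nlinarith
  have b1 := (norm_Qs_le hB0 k x hz).trans a1
  have b2 : ‖Qs B k x z - Qs B k x w‖ ≤ X * ‖z - w‖ := (Qs_lip hB0 hk x hz hw).trans (by gcongr)
  have b3 : ‖gx B x w‖ ≤ X := by
    refine (norm_add_le _ _).trans (le_trans ?_ a1)
    rw [norm_one, norm_mul, ← mul_assoc]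
    exact add_le_add le_rfl ((mul_le_of_le_one_left (norm_nonneg _) hw).trans
      (norm_pol_le hB0 x _ (by linarith)))
  have b4 : ‖gx B x z - gx B x w‖ ≤ 2 * X * ‖z - w‖ := by
    have e : gx B x z - gx B x w = (z - w) * pol B x (.inr (.inr (.inr true))) z +
      w * (pol B x (.inr (.inr (.inr true))) z - pol B x (.inr (.inr (.inr true))) w) := by
      simp only [gx]; ring
    rw [e]
    refine (norm_add_le _ _).trans ?_
    rw [norm_mul, norm_mul]
    have c1 : ‖z - w‖ * ‖pol B x (.inr (.inr (.inr true))) z‖ ≤ ‖z - w‖ * X := by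
      gcongr; exact (norm_pol_le hB0 x _ (by linarith)).trans a3
    have c2 := (mul_le_of_le_one_left (norm_nonneg _) hw).trans
      ((pol_lip hB0 x (.inr (.inr (.inr true))) hz hw).trans
        (mul_le_mul_of_nonneg_right a2 (norm_nonneg _)))
    linarith
  have e : Qs B k x z * gx B x z - Qs B k x w * gx B x w =
    Qs B k x z * (gx B x z - gx B x w) + (Qs B k x z - Qs B k x w) * gx B x w := by ring
  have hX0 : 0 ≤ X := by positivity
  rw [e]
  refine (norm_add_le _ _).trans ?_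
  rw [norm_mul, norm_mul]
  have c1 := mul_le_mul b1 b4 (norm_nonneg _) hX0
  have c2 := mul_le_mul b2 b3 (norm_nonneg _) (by positivity)
  nlinarith

theorem pd_fx (B : ℝ) (x : Unk ν m → ℂ) (a : Fin ν) : PD ℂ m fun w => fx B x w a :=
  PD.pol_z B x _

theorem pd_cons (cl : Cls N) (pr : Par m) (hd : 1 ≤ d) (hm : 1 ≤ m) (hk : pr.k ≤ m) (i : Fin N)
    (t : Typ ν) (v : (Unk ν m → ℂ) × (Mon ν d → ℂ)) :
    PD ℂ ((d + 2) * m) (cons cl pr i t v) := by
  have h1 : 3 * m ≤ (d + 2) * m := Nat.mul_le_mul_right _ (by omega)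
  have h2 : ∀ s : Fin m, PD ℂ m fun z : ℂ => (z / 2) ^ (s : ℕ) := fun s =>
    ((PD.id'.div_const 2).pow s).mono (by simp)
  rcases t with _ | la | l | _
  · exact ((PD.eval_form (pd_fx pr.B v.1) fun a => PD.const (v.2 a)).mono
      (by rw [add_mul]; omega)).div_const _
  · exact ((PD.pol_z pr.B v.1 _).mono (by omega)).div_const _
  · exact (((PD.lf (fun a => PD.pol_z pr.B v.1 _) (pd_fx pr.B v.1)).mono (by omega)).sub
      ((PD.sum _ fun s _ => (h2 s).const_mul _).mono (by omega))).div_const _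
  · have a1 : PD ℂ (0 + m) fun w => lf (lx pr.B v.1) (fx pr.B v.1 w) :=
      PD.lf (fun a => PD.const (lx pr.B v.1 a)) (pd_fx pr.B v.1)
    have a2 : PD ℂ m (Qx pr.B pr.k v.1) :=
      ((PD.id'.pow pr.k).mono (by omega)).add (PD.const_mul _ (PD.sum _ fun s _ =>
        PD.ite _ ((h2 s).const_mul _) (PD.const' _ _)))
    have a3 : PD ℂ (1 + m) (gx pr.B v.1) :=
      (PD.const' _ _).add (PD.id'.mul (PD.pol_z pr.B v.1 _))
    exact ((a1.mono (by omega)).sub ((a2.const_mul pr.β).mul_le a3 (by omega))).div_const _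

theorem fderiv_E (cl : Cls N) (pr : Par m) (M : ℕ) (i : Fin N) (s : Fin M)
    (v u : (Unk ν m → ℂ) × (Mon ν d → ℂ)) :
    fderiv ℂ (Gm cl pr M (.inl (i, s, .inl ()))) v u =
      (eval (fx pr.B v.1 (node (cl.z i) cl.σ M s)) (form u.2) +
        lf (grad v.2 (fx pr.B v.1 (node (cl.z i) cl.σ M s)))
          (fx pr.B u.1 (node (cl.z i) cl.σ M s))) / ((pr.ε * cl.ω i ^ d : ℝ) : ℂ) := by
  set w := node (cl.z i) cl.σ M s
  let A : ((Unk ν m → ℂ) × (Mon ν d → ℂ)) →L[ℂ] (Fin ν → ℂ) :=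
    (fxL pr.B w).comp (ContinuousLinearMap.fst ℂ _ _)
  let B : ((Unk ν m → ℂ) × (Mon ν d → ℂ)) →L[ℂ] (Mon ν d → ℂ) := ContinuousLinearMap.snd ℂ _ _
  have hA : ∀ v, A v = fx pr.B v.1 w := fun v => fxL_apply _ _ _
  have e : Gm cl pr M (.inl (i, s, .inl ())) =
      fun v => eval (A v) (form (B v)) * ((pr.ε * cl.ω i ^ d : ℝ) : ℂ)⁻¹ := by
    funext v; rw [hA, ← div_eq_mul_inv]; rfl
  have hd : Differentiable ℂ fun v => eval (A v) (form (B v)) :=
    (PD.eval_form (fun a => (PD.apply a).comp_clm A) fun a => (PD.apply a).comp_clm B).differentiable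
  rw [e, fderiv_mul_const (hd v), smul_apply, fderiv_eval_form, hA, hA,
    smul_eq_mul, mul_comm, ← div_eq_mul_inv]
  rfl

theorem norm_le_of_div {a : ℂ} {r S : ℝ} (hr : 0 < r) (h : ‖a / (r : ℂ)‖ ≤ S) : ‖a‖ ≤ S * r := by
  rwa [norm_div, Complex.norm_real, Real.norm_of_nonneg hr.le, div_le_iff₀ hr] at h

end

end RegionAux

open RegionAux in
theorem region (hA : ALStmt) (hI : InterpStmt) (hP : ProjStmt) : RegionStmt := by
  intro ν d j D η hν hD hη
  obtain ⟨C, c₀, hC, hc₀, hA⟩ := hA ν d j D η hν hD hη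
  refine ⟨C, c₀, hC, hc₀, ?_⟩
  intro N m M cl pr ρ Γ S Λ δ L B' Λ' hv hm hk hM hΓ hS hΛ hB hε hε' hΓb hϑ hβ hβ1 hL hPt h1 h2
    h3 h4 h5 h6 h7 v hv2 hv1 hG ⟨χ, hχ⟩
  have hd : 1 ≤ d := by omega
  have hB0 : 0 ≤ pr.B := by linarith
  have hM0 : (0 : ℝ) < M := by exact_mod_cast (by omega : 0 < M)
  have hν0 : (0 : ℝ) < ν := by exact_mod_cast (by omega : 0 < ν)
  set W := 2 * ν * M * S * pr.Γb * Γ with hW
  have hW0 : 0 < W := by positivity
  set f := fx pr.B v.1 with hf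
  have hc : ∀ i t, ∀ w ∈ closedBall (cl.z i) cl.σ, ‖cons cl pr i t v w‖ ≤ M * S := fun i t =>
    hI _ M _ _ _ _ hM (pd_cons cl pr hd hm hk i t v) hv.σpos fun s => hG (.inl (i, s, t))
  have hlo : ∀ i, ∀ w ∈ closedBall (cl.z i) cl.σ, cl.ω i ≤ W * ‖f w‖ := fun i w hw => by
    have hω := hv.ωpos i
    obtain ⟨l, hl⟩ := hv.lo i w hw
    have a1 : ‖bx pr.B v.1 l w‖ ≤ M * S * (pr.Γb * cl.ω i) :=
      (pi_norm_le_iff_of_nonneg (by positivity)).2 fun a =>
        norm_le_of_div (by positivity) (hc i (.inr (.inl (l, a))) w hw)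
    have a2 : ‖lf (bx pr.B v.1 l w) (f w) - pr.Ptz l w‖ ≤ M * S * pr.ε' :=
      norm_le_of_div hε' (hc i (.inr (.inr (.inl l))) w hw)
    have a3 := hPt l w (small_disc_subset (hv.hz i) hv.σle hw)
    have a4 : ‖lf (bx pr.B v.1 l w) (f w)‖ ≤ ν * (M * S * (pr.Γb * cl.ω i)) * ‖f w‖ :=
      (norm_lf_le _ _).trans (by gcongr)
    have a5 : ‖cl.P l w‖ ≤ ν * (M * S * (pr.Γb * cl.ω i)) * ‖f w‖ + (M * S * pr.ε' + δ) := by
      have e : cl.P l w = lf (bx pr.B v.1 l w) (f w) -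
        (lf (bx pr.B v.1 l w) (f w) - pr.Ptz l w) + (cl.P l w - pr.Ptz l w) := by ring
      rw [e]
      linarith [norm_add_le (lf (bx pr.B v.1 l w) (f w) -
        (lf (bx pr.B v.1 l w) (f w) - pr.Ptz l w)) (cl.P l w - pr.Ptz l w),
        norm_sub_le (lf (bx pr.B v.1 l w) (f w)) (lf (bx pr.B v.1 l w) (f w) - pr.Ptz l w)]
    have a6 := mul_le_mul_of_nonneg_left a5 (by linarith : 0 ≤ Γ)
    have a7 := h1 i
    refine le_of_mul_le_mul_left ?_ hω
    rw [hW]
    nlinarith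
  have hLf : ∀ w : ℂ, ‖w‖ ≤ 1 → L ≤ ‖f w‖ := fun w hw => by
    obtain ⟨i, hi⟩ := hv.cover w hw
    exact le_of_mul_le_mul_left ((mul_comm W L).le.trans ((h2 i).trans (hlo i w hi))) hW0
  have hfΛ : ∀ w : ℂ, ‖w‖ ≤ 1 → ‖f w‖ ≤ pr.B * m * S := fun w hw =>
    (norm_fx_le hB0 v.1 (by linarith)).trans (by gcongr)
  obtain ⟨y, hy, hyχ⟩ := (hP (Mon ν d)).2 j χ
  choose ξ hξ1 hξ2 using fun a => hχ (prj y a) fun i => hyχ i a
  have hb : ∀ a, Λ * ‖prj y a‖ ≤ Λ * (1 + j) := fun a => by gcongr; exact norm_prj_le hy a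
  set c₁ := pr.β / (ν * S + 1) with hc₁
  have hνS : 0 < ν * S + 1 := by positivity
  have hc₁0 : 0 < c₁ := by positivity
  have hc₁1 : c₁ ≤ 1 := (div_le_one hνS).2 (by nlinarith)
  set X := (m + 1) ^ 2 * pr.B * S with hX
  have hm0 : (0 : ℝ) ≤ m := by positivity
  have hBS : 1 ≤ pr.B * S := by nlinarith
  have hX1 : pr.B * m * (m * S) ≤ X ∧ pr.B * m * S ≤ X ∧ 1 ≤ X := by
    have a1 := mul_nonneg hm0 (by linarith : 0 ≤ pr.B * S)
    have a2 := mul_nonneg (sq_nonneg (m : ℝ)) (by linarith : 0 ≤ pr.B * S)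
    refine ⟨?_, ?_, ?_⟩ <;> rw [hX] <;> nlinarith
  have hXB : X ≤ B' := by nlinarith [hX1.2.2]
  have key := hA v.2 hv2 y hy f (fun a => fx pr.B (ξ a))
    (fun z => (c₁ : ℂ) * (Qs pr.B pr.k v.1 z * gx pr.B v.1 z)) L B' Λ'
    (M * (Λ * (1 + j)) * pr.ε * W ^ d) (differentiable_fx _ _) (fun a => differentiable_fx _ _)
    (((differentiable_Qs _ _ _).mul (((PD.const' _ 1).add
      (PD.id'.mul (PD.pol_z pr.B v.1 _))).differentiable)).const_mul _) hL
    ((hLf 0 (by simp)).trans ((hfΛ 0 (by simp)).trans (hX1.2.1.trans hXB))) (by positivity) h7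
    (fun z hz => ?_) (fun z hz w hw => ?_) fun z hz => ?_
  · have e : gx pr.B v.1 0 = 1 := by simp [gx]
    simp only [Qs_zero, e, mul_one, Complex.norm_real, Real.norm_of_nonneg hc₁0.le] at key
    refine key.trans ?_
    have hΛ' : 0 ≤ Λ' := le_trans (by positivity) h5
    have : ‖f 0‖ ≤ 2 * pr.ϑ * S := (pi_norm_le_iff_of_nonneg (by positivity)).2 fun a =>
      (norm_le_of_div (by positivity) (hG (.inr (.inl a)))).trans (mul_comm _ _).le
    gcongr
  · rw [mem_closedBall_zero_iff] at hz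
    refine ⟨hLf z hz, (hfΛ z hz).trans h5, fun a => ⟨((norm_fx_le hB0 _ (by linarith)).trans
      (by gcongr; exact (hξ1 a).trans (hb a))).trans h6, ?_⟩⟩
    obtain ⟨i, hi⟩ := hv.cover z hz
    have hω := hv.ωpos i
    have a1 := hI ((d + 2) * m) M (fun w => (eval (f w) (form (prj y a)) +
      lf (grad v.2 (f w)) (fx pr.B (ξ a) w)) / ((pr.ε * cl.ω i ^ d : ℝ) : ℂ)) (cl.z i) cl.σ
      (Λ * (1 + j)) hM (PD.div_const _ (PD.add ?_ ?_)) hv.σpos (fun s => ?_) z hi
    · refine (norm_le_of_div (by positivity) a1).trans ?_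
      calc _ ≤ M * (Λ * (1 + j)) * (pr.ε * (W * ‖f z‖) ^ d) := by gcongr; exact hlo i z hi
        _ = _ := by rw [mul_pow]; ring
    · exact (PD.eval_form (pd_fx pr.B v.1) fun b => PD.const (prj y a b)).mono
        (by rw [add_mul]; omega)
    · refine (PD.lf (e := (d - 1) * m + 0) (fun b => ?_) (pd_fx pr.B (ξ a))).mono ?_
      · exact (PD.eval_form (pd_fx pr.B v.1) fun b' => PD.const (dcL ν d b v.2 b')).congr
          fun w => grad_eq _ _ _
      · have : (d - 1) * m ≤ d * m := Nat.mul_le_mul_right _ (by omega)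
        rw [add_mul]; omega
    · have := (hξ2 a (.inl (i, s, .inl ()))).trans (hb a)
      rwa [fderiv_E] at this
  · rw [mem_closedBall_zero_iff] at hz hw
    constructor
    · refine (pi_norm_le_iff_of_nonneg (by have := hX1.2.2; have : 0 ≤ B' := by linarith
                                           positivity)).2 fun a => ?_
      refine (pol_lip hB0 v.1 _ hz hw).trans ?_
      gcongr
      exact le_trans (by gcongr) (hX1.1.trans hXB)
    · rw [← mul_sub, norm_mul, Complex.norm_real, Real.norm_of_nonneg hc₁0.le]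
      refine (mul_le_of_le_one_left (norm_nonneg _) hc₁1).trans
        ((gam_lip hB hS hk hv1 hz hw).trans ?_)
      gcongr
  · obtain ⟨i, hi⟩ := hv.cover z hz.le
    have a1 : ‖lf (lx pr.B v.1) (f z) - pr.β * Qx pr.B pr.k v.1 z * gx pr.B v.1 z‖ ≤
        M * S * pr.ε' := norm_le_of_div hε' (hc i (.inr (.inr (.inr ()))) z hi)
    have a2 : ‖lx pr.B v.1‖ ≤ S :=
      (pi_norm_le_iff_of_nonneg (by linarith)).2 fun a => hG (.inr (.inr a))
    have a3 : ‖lf (lx pr.B v.1) (f z)‖ ≤ ν * S * ‖f z‖ := (norm_lf_le _ _).trans (by gcongr)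
    have a4 := norm_sub_le (lf (lx pr.B v.1) (f z))
      (lf (lx pr.B v.1) (f z) - pr.β * Qx pr.B pr.k v.1 z * gx pr.B v.1 z)
    rw [sub_sub_cancel, norm_mul, norm_mul, Complex.norm_real, Real.norm_of_nonneg hβ.le] at a4
    have a5 := hLf z hz.le
    rw [norm_mul, norm_mul, Qs_circle _ _ _ hz, Complex.norm_real, Real.norm_of_nonneg hc₁0.le,
      hc₁, div_mul_eq_mul_div, div_le_iff₀ hνS]
    nlinarith

end Pool.Agent.Lib.MP_45f16c_ag
end

-- part Pool.Agent.Lib.MP_45f16c_ag.Smooth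
section

/-! Almost every hypersurface is smooth. -/

set_option autoImplicit false
open Metric MeasureTheory MvPolynomial
open scoped ComplexConjugate

namespace Pool.Agent.Lib.MP_45f16c_ag

noncomputable section

namespace SmoothAux

variable {ν d : ℕ}

/-- The monomial `X a ^ d * X b`. -/
def mm (d : ℕ) (a b : Fin ν) : Mon ν (d + 1) :=
  ⟨Finsupp.single a d + Finsupp.single b 1, mem_mon.2 (by simp)⟩

theorem mm_inj (a : Fin ν) : Function.Injective (mm d a) := fun b b' h => by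
  have h1 : Finsupp.single a d + Finsupp.single b 1 = Finsupp.single a d + Finsupp.single b' 1 :=
    congrArg Subtype.val h
  exact Finsupp.single_left_injective one_ne_zero (add_left_cancel h1)

theorem monomial_mm (a b : Fin ν) (z : ℂ) :
    monomial (mm d a b).1 z = C z * (X a ^ d * X b) := by
  rw [X_pow_eq_monomial, X, monomial_mul, C_mul_monomial]
  simp [mm]

open Classical in
/-- The coefficient vector with the special coordinates removed. -/
def c0 (a : Fin ν) (c : Mon ν (d + 1) → ℂ) (m : Mon ν (d + 1)) : ℂ :=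
  if m ∈ Set.range (mm d a) then 0 else c m

/-- The point read off from the special coordinates. -/
def xx (a : Fin ν) (c : Mon ν (d + 1) → ℂ) (b : Fin ν) : ℂ := if b = a then 1 else c (mm d a b)

/-- The special coordinates which make the point singular. -/
def ww (a : Fin ν) (c : Mon ν (d + 1) → ℂ) (b : Fin ν) : ℂ :=
  if b = a then -eval (xx a c) (form (c0 a c)) +
    ∑ b' ∈ Finset.univ.erase a, grad (c0 a c) (xx a c) b' * xx a c b'
  else -grad (c0 a c) (xx a c) b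

/-- The parametrisation of the singular forms. -/
def par (a : Fin ν) (c : Mon ν (d + 1) → ℂ) : Mon ν (d + 1) → ℂ :=
  c0 a c + ∑ b, Pi.single (mm d a b) (ww a c b)

theorem split (a : Fin ν) (c : Mon ν (d + 1) → ℂ) :
    c = c0 a c + ∑ b, Pi.single (mm d a b) (c (mm d a b)) := by
  funext m
  rw [Pi.add_apply, Finset.sum_apply, c0]
  by_cases h : m ∈ Set.range (mm d a)
  · rw [if_pos h]
    obtain ⟨b, rfl⟩ := h
    rw [Finset.sum_eq_single b (fun b' _ hb => Pi.single_eq_of_ne ((mm_inj a).ne hb.symm) _)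
      (by simp)]
    simp
  · rw [if_neg h, Finset.sum_eq_zero fun b _ => Pi.single_eq_of_ne (fun e => h ⟨b, e.symm⟩) _,
      add_zero]

theorem form_split (a : Fin ν) (c : Mon ν (d + 1) → ℂ) :
    form c = form (c0 a c) + ∑ b, C (c (mm d a b)) * (X a ^ d * X b) := by
  conv_lhs => rw [split a c, form_add, form_sum]
  simp only [form_single, monomial_mm]

theorem mem_image (a : Fin ν) (c : Mon ν (d + 1) → ℂ) (x : Fin ν → ℂ) (hx : x a = 1)
    (h0 : eval x (form c) = 0) (h1 : ∀ b, grad c x b = 0) :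
    ∃ c', c' (mm d a a) = 0 ∧ par a c' = c := by
  set c' := Function.extend (mm d a) (Function.update x a 0) c with hc'
  have e1 : ∀ b, c' (mm d a b) = Function.update x a 0 b := fun b => (mm_inj a).extend_apply _ _ b
  have e2 : c0 a c' = c0 a c := by
    funext m
    unfold c0
    by_cases h : m ∈ Set.range (mm d a)
    · rw [if_pos h, if_pos h]
    · rw [if_neg h, if_neg h, hc', Function.extend_apply' _ _ _ h]
  have e3 : xx a c' = x := by
    funext b
    unfold xx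
    by_cases h : b = a
    · rw [if_pos h, h, hx]
    · rw [if_neg h, e1, Function.update_of_ne h]
  have e4 : ∀ b, b ≠ a → grad (c0 a c) x b = -c (mm d a b) := by
    intro b hb
    have h := h1 b
    unfold grad at h ⊢
    rw [form_split a c, map_add, map_add, map_sum, map_sum, Finset.sum_eq_single b] at h
    · rw [eq_neg_iff_add_eq_zero, ← h]
      simp [Derivation.leibniz_pow, pderiv_X_of_ne hb.symm, hx]
    · intro b' _ hb'
      simp [Derivation.leibniz_pow, pderiv_X_of_ne hb.symm, pderiv_X_of_ne hb']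
    · simp
  have e5 : -eval x (form (c0 a c)) = ∑ b, c (mm d a b) * x b := by
    rw [form_split a c, map_add, map_sum] at h0
    rw [neg_eq_iff_add_eq_zero, ← h0]
    simp [hx]
  refine ⟨c', by rw [e1, Function.update_self], ?_⟩
  conv_rhs => rw [split a c]
  rw [par, e2]
  congr 1
  refine Finset.sum_congr rfl fun b _ => ?_
  congr 1
  rw [ww, e2, e3]
  by_cases h : b = a
  · rw [if_pos h, e5, h, ← Finset.add_sum_erase _ _ (Finset.mem_univ a), hx, mul_one, add_assoc,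
      ← Finset.sum_add_distrib, Finset.sum_eq_zero, add_zero]
    intro b' hb'
    rw [e4 b' (Finset.ne_of_mem_erase hb')]
    ring
  · rw [if_neg h, e4 b h, neg_neg]

theorem diff_eval {E : Type} [NormedAddCommGroup E] [NormedSpace ℂ E] {φ : E → Fin ν → ℂ}
    {c : E → Mon ν d → ℂ} (hφ : Differentiable ℂ φ) (hc : Differentiable ℂ c) :
    Differentiable ℂ fun v => eval (φ v) (form (c v)) := by
  simp only [eval_form, mon]
  fun_prop

theorem diff_c0 (a : Fin ν) : Differentiable ℂ (c0 (d := d) a) := by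
  refine differentiable_pi.2 fun m => ?_
  unfold c0
  by_cases h : m ∈ Set.range (mm d a)
  · simp only [if_pos h]; fun_prop
  · simp only [if_neg h]; fun_prop

theorem diff_xx (a : Fin ν) : Differentiable ℂ (xx (d := d) a) := by
  refine differentiable_pi.2 fun b => ?_
  unfold xx
  by_cases h : b = a
  · simp only [if_pos h]; fun_prop
  · simp only [if_neg h]; fun_prop

theorem diff_grad (a b : Fin ν) :
    Differentiable ℂ fun c : Mon ν (d + 1) → ℂ => grad (c0 a c) (xx a c) b := by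
  simp only [grad_eq]
  exact diff_eval (diff_xx a)
    ((LinearMap.toContinuousLinearMap (dcL ν (d + 1) b)).differentiable.comp (diff_c0 a))

theorem diff_ww (a b : Fin ν) : Differentiable ℂ fun c : Mon ν (d + 1) → ℂ => ww a c b := by
  unfold ww
  by_cases h : b = a
  · simp only [if_pos h]
    exact (diff_eval (diff_xx a) (diff_c0 a)).fun_neg.fun_add (Differentiable.fun_sum fun b' _ =>
      (diff_grad a b').fun_mul (differentiable_pi.1 (diff_xx a) b'))
  · simp only [if_neg h]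
    exact (diff_grad a b).fun_neg

theorem diff_par (a : Fin ν) : Differentiable ℂ (par (d := d) a) := by
  refine (diff_c0 a).fun_add (Differentiable.fun_sum fun b _ => ?_)
  exact (ContinuousLinearMap.single ℂ (fun _ : Mon ν (d + 1) => ℂ) (mm d a b)).differentiable.comp
    (diff_ww a b)

theorem null_image (a : Fin ν) :
    volume (par a '' {c : Mon ν (d + 1) → ℂ | c (mm d a a) = 0}) = 0 := by
  refine addHaar_image_eq_zero_of_differentiableOn_of_addHaar_eq_zero volume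
    ((diff_par a).restrictScalars ℝ).differentiableOn ?_
  refine Measure.addHaar_submodule volume
    (LinearMap.ker (LinearMap.proj (R := ℝ) (φ := fun _ : Mon ν (d + 1) => ℂ) (mm d a a))) ?_
  intro h
  have : (fun _ => (1 : ℂ)) ∈
      LinearMap.ker (LinearMap.proj (R := ℝ) (φ := fun _ : Mon ν (d + 1) => ℂ) (mm d a a)) := by
    rw [h]; trivial
  simp at this

end SmoothAux

open SmoothAux in
theorem smooth : SmoothStmt := by
  intro ν d hd
  obtain ⟨d, rfl⟩ : ∃ d', d = d' + 1 := ⟨d - 1, by omega⟩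
  refine measure_mono_null ?_ (measure_iUnion_null fun a : Fin ν => null_image (d := d) a)
  intro c hc
  simp only [IsSmooth, Set.mem_compl_iff, Set.mem_ofPred_eq, not_forall, not_exists, not_not] at hc
  obtain ⟨x, hx, h0, h1⟩ := hc
  obtain ⟨a, ha⟩ := Function.ne_iff.1 hx
  refine Set.mem_iUnion.2 ⟨a, ?_⟩
  refine mem_image a c ((x a)⁻¹ • x) (inv_mul_cancel₀ ha) ?_ fun b => ?_
  · rw [eval_form_smul, h0, mul_zero]
  · rw [grad_smul, Pi.smul_apply, show grad c x b = 0 from h1 b, smul_zero]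

end

end Pool.Agent.Lib.MP_45f16c_ag
end
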