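import Pool.Agent.Lib.MP_45f16c_ag.Basic

-- part Pool.Agent.Lib.MP_45f16c_ag.Fast
section

/-! Finite classes of discs. -/

set_option autoImplicit false
open Metric

namespace Pool.Agent.Lib.MP_45f16c_ag

namespace FastAux

variable {ν : ℕ} {f f' : ℂ → Fin ν → ℂ}

theorem cover (R : ℝ) {s : ℝ} (hs : 0 < s) : ∃ (N : ℕ) (z : Fin N → ℂ), (∀ i, ‖z i‖ ≤ R) ∧
    ∀ w : ℂ, ‖w‖ ≤ R → ∃ i, ‖w - z i‖ ≤ s := by
  obtain ⟨t, h1, h2, h3⟩ := (isCompact_closedBall (0 : ℂ) R).finite_cover_balls hs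
  obtain ⟨N, z, -, rfl⟩ := h2.fin_param
  refine ⟨N, z, fun i => mem_closedBall_zero_iff.1 (h1 ⟨i, rfl⟩), fun w hw => ?_⟩
  obtain ⟨_, ⟨i, rfl⟩, h4⟩ := Set.mem_iUnion₂.1 (h3 (mem_closedBall_zero_iff.2 hw))
  exact ⟨i, (mem_ball_iff_norm.1 h4).le⟩

theorem deriv_le {R s C : ℝ} {w : ℂ} (hf : DifferentiableOn ℂ f (ball 0 R)) (hs : 0 < s)
    (hw : ‖w‖ + s < R) (hC : ∀ z, ‖z - w‖ ≤ s → ‖f z‖ ≤ C) : ‖deriv f w‖ ≤ C / s := by
  refine Complex.norm_deriv_le_of_forall_mem_sphere_norm_le hs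
    (DifferentiableOn.diffContOnCl (hf.mono ?_)) fun z hz => hC z (mem_sphere_iff_norm.1 hz).le
  rw [closure_ball _ hs.ne']
  exact closedBall_subset_ball' (by rw [dist_zero_right]; linarith)

/-- Discs whose norm oscillates little at the scale `s`. -/
structure Adm (ρ s E : ℝ) (f : ℂ → Fin ν → ℂ) : Prop where
  diff : DifferentiableOn ℂ f (ball 0 (ρ + 2))
  pos : ∀ z, ‖z‖ ≤ ρ → 0 < ‖f z‖
  osc : ∀ z z', ‖z‖ ≤ ρ → ‖z' - z‖ ≤ s → ‖f z'‖ ≤ E ^ 2 * ‖f z‖

theorem adm_of (hO : OscStmt) {ρ K T θ σ r : ℝ} (hρ : 3 ≤ ρ) (hT : 0 ≤ T) (hσ : 0 < σ)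
    (hσ1 : σ ≤ 1) (hr : 0 ≤ r) (hr1 : r < 1) (hrK : 2 * r * K ≤ θ)
    (h : Disc (2 * ρ + 2) K T f) (h' : ∀ z ∈ ball (0 : ℂ) (ρ + 1), Tch f z σ ≤ θ * T) :
    Adm ρ (r * σ) (Real.exp (θ * T)) f := by
  have hb : ∀ z : ℂ, ‖z‖ ≤ ρ + 1 → z ∈ ball (0 : ℂ) (2 * ρ + 2) := fun z hz =>
    mem_ball_zero_iff.2 (by linarith)
  refine ⟨h.diff.mono (ball_subset_ball (by linarith)),
    fun z hz => norm_pos_iff.2 (h.ne (hb z (by linarith))), fun z z' hz hz' => ?_⟩
  have h1 := hO ν f (2 * ρ + 2) (K * T) σ r z z' h.diff (fun w hw => ⟨h.lo w hw, h.hi w hw⟩) hσ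
    (closedBall_subset_ball' (by rw [dist_zero_right]; linarith)) hr hr1 hz'
  have h2 := h' z (mem_ball_zero_iff.2 (by linarith))
  have h3 : 2 * r * (K * T) ≤ θ * T := by nlinarith
  have h4 : ‖z'‖ ≤ ρ + 1 := by
    have := norm_le_insert' z' z
    nlinarith
  rw [← exp_lg (h.ne (hb z' h4)), ← exp_lg (h.ne (hb z (by linarith))), ← Real.exp_nat_mul,
    ← Real.exp_add]
  refine Real.exp_le_exp.2 ?_
  push_cast
  linarith

theorem Adm.der {ρ s E : ℝ} (h : Adm ρ s E f) (hs : 0 < s) (hs1 : s ≤ 1) (hE : s⁻¹ ≤ E) {w : ℂ}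
    (hw : ‖w‖ ≤ ρ) : ‖deriv f w‖ ≤ E ^ 3 * ‖f w‖ := by
  refine (deriv_le h.diff hs (by linarith) fun z hz => h.osc w z hw hz).trans ?_
  rw [div_eq_mul_inv]
  calc E ^ 2 * ‖f w‖ * s⁻¹ ≤ E ^ 2 * ‖f w‖ * E := by gcongr
    _ = E ^ 3 * ‖f w‖ := by ring

theorem Adm.cmp {ρ s E : ℝ} (h : Adm ρ s E f) (h' : Adm ρ s E f') (hE : 0 ≤ E) {J : ℕ}
    {y : Fin J → ℂ} (hy : ∀ j, ‖y j‖ ≤ ρ) (hc : ∀ w : ℂ, ‖w‖ ≤ ρ → ∃ j, ‖w - y j‖ ≤ s)
    (he : ∀ j, ‖f' (y j)‖ ≤ E * ‖f (y j)‖) {w : ℂ} (hw : ‖w‖ ≤ ρ) : ‖f' w‖ ≤ E ^ 5 * ‖f w‖ := by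
  obtain ⟨j, hj⟩ := hc w hw
  have h1 := h'.osc (y j) w (hy j) hj
  have h2 := h.osc w (y j) hw (by rwa [norm_sub_rev])
  calc ‖f' w‖ ≤ E ^ 2 * ‖f' (y j)‖ := h1
    _ ≤ E ^ 2 * (E * ‖f (y j)‖) := by gcongr; exact he j
    _ ≤ E ^ 2 * (E * (E ^ 2 * ‖f w‖)) := by gcongr
    _ = E ^ 5 * ‖f w‖ := by ring

theorem pow_mul_le {E x : ℝ} (hE : 1 ≤ E) (hx : 0 ≤ x) {k : ℕ} (hk : k ≤ 20) :
    E ^ k * x ≤ E ^ 20 * x := mul_le_mul_of_nonneg_right (pow_le_pow_right₀ hE hk) hx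

/-- The class of a disc. -/
theorem cls_of {ρ s E C : ℝ} (hρ : 3 ≤ ρ) (hs : 0 < s) (hs1 : s ≤ 1) (hE1 : 1 ≤ E)
    (hE : s⁻¹ ≤ E) (hC : C ^ 2 ≤ E) (hν : (ν : ℝ) ^ 2 ≤ E)
    (h3 : ∀ (f : ℂ → Fin ν → ℂ) (Γ : ℝ), 1 ≤ Γ → DifferentiableOn ℂ f (ball 0 3) →
      (∀ z ∈ ball (0 : ℂ) 3, ‖deriv f z‖ ≤ Γ * ‖f z‖) → ∃ l : Fin 3 → Fin ν → ℂ, ‖l‖ ≤ 1 ∧
        ∀ z ∈ closedBall (0 : ℂ) 2, ∃ i, ‖f z‖ ≤ C * Γ ^ 2 * ‖lf (l i) (f z)‖)
    {N : ℕ} {z : Fin N → ℂ} (hz : ∀ i, ‖z i‖ ≤ 1) (hc : ∀ w : ℂ, ‖w‖ ≤ 1 → ∃ i, ‖w - z i‖ ≤ s)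
    (h' : Adm ρ s E f') : ∃ cl : Cls N, cl.Valid ρ (E ^ 20) ∧ ∀ f : ℂ → Fin ν → ℂ, Adm ρ s E f →
      (∀ w : ℂ, ‖w‖ ≤ ρ → ‖f' w‖ ≤ E ^ 5 * ‖f w‖ ∧ ‖f w‖ ≤ E ^ 5 * ‖f' w‖) →
      cl.Mem ρ (E ^ 20) f := by
  have hE0 : 0 ≤ E := by linarith
  obtain ⟨l, hl, hl'⟩ := h3 f' (E ^ 3) (one_le_pow₀ hE1)
    (h'.diff.mono (ball_subset_ball (by linarith)))
    fun w hw => h'.der hs hs1 hE ((mem_ball_zero_iff.1 hw).le.trans hρ)
  have hw2 : ∀ i, ∀ w ∈ closedBall (z i) s, ‖w‖ ≤ 2 := fun i w hw =>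
    mem_closedBall_zero_iff.1 (small_disc_subset (hz i) hs1 hw)
  have o1 : ∀ i, ∀ w ∈ closedBall (z i) s, ‖f' (z i)‖ ≤ E ^ 2 * ‖f' w‖ := fun i w hw =>
    h'.osc w (z i) (by linarith [hw2 i w hw]) (mem_closedBall_iff_norm'.1 hw)
  have o2 : ∀ i, ∀ w ∈ closedBall (z i) s, ‖f' w‖ ≤ E ^ 2 * ‖f' (z i)‖ := fun i w hw =>
    h'.osc (z i) w (by linarith [hz i]) (mem_closedBall_iff_norm.1 hw)
  refine ⟨⟨z, s, fun i => ‖f' (z i)‖, fun i w => lf (l i) (f' w) ^ 2⟩,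
    ⟨hz, hs, hs1, fun w hw => (hc w hw).imp fun i hi => mem_closedBall_iff_norm.2 hi,
      fun i => h'.pos _ (by linarith [hz i]), fun i => ?_, fun i w hw => ?_⟩,
    fun f h hm => ⟨fun i w hw => ?_, fun i w hw => ?_, fun i w hw => ?_, fun w hw => ?_⟩⟩
  · have hd := differentiableOn_pi.1 (h'.diff.mono (ball_subset_ball (show ρ ≤ ρ + 2 by linarith)))
    exact (DifferentiableOn.fun_sum fun a _ => (hd a).const_mul (l i a)).pow 2
  · obtain ⟨k, hk⟩ := hl' w (mem_closedBall_zero_iff.2 (hw2 i w hw))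
    refine ⟨k, ?_⟩
    have h1 : ‖f' (z i)‖ ≤ E ^ 2 * (C * (E ^ 3) ^ 2 * ‖lf (l k) (f' w)‖) :=
      (o1 i w hw).trans (by gcongr)
    dsimp only
    rw [norm_pow]
    calc ‖f' (z i)‖ ^ 2 ≤ (E ^ 2 * (C * (E ^ 3) ^ 2 * ‖lf (l k) (f' w)‖)) ^ 2 := by gcongr
      _ = C ^ 2 * (E ^ 16 * ‖lf (l k) (f' w)‖ ^ 2) := by ring
      _ ≤ E * (E ^ 16 * ‖lf (l k) (f' w)‖ ^ 2) := by gcongr
      _ = E ^ 17 * ‖lf (l k) (f' w)‖ ^ 2 := by ring
      _ ≤ _ := pow_mul_le hE1 (by positivity) (by norm_num)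
  · have h1 := (hm w (by linarith [hw2 i w hw])).1
    calc ‖f' (z i)‖ ≤ E ^ 2 * (E ^ 5 * ‖f w‖) := (o1 i w hw).trans (by gcongr)
      _ = E ^ 7 * ‖f w‖ := by ring
      _ ≤ _ := pow_mul_le hE1 (norm_nonneg _) (by norm_num)
  · have h1 := o2 i w hw
    calc ‖f w‖ ≤ E ^ 5 * (E ^ 2 * ‖f' (z i)‖) :=
          (hm w (by linarith [hw2 i w hw])).2.trans (by gcongr)
      _ = E ^ 7 * ‖f' (z i)‖ := by ring
      _ ≤ _ := pow_mul_le hE1 (norm_nonneg _) (by norm_num)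
  · have h1 := (hm w (mem_ball_zero_iff.1 hw).le).1
    have h2 : ‖l i‖ ≤ 1 := (norm_le_pi_norm l i).trans hl
    have h4 : ‖lf (l i) (f' w)‖ ≤ ν * 1 * (E ^ 5 * ‖f w‖) :=
      (norm_lf_le _ _).trans (by gcongr)
    dsimp only
    rw [norm_pow]
    calc ‖lf (l i) (f' w)‖ ^ 2 ≤ (ν * 1 * (E ^ 5 * ‖f w‖)) ^ 2 := by gcongr
      _ = (ν : ℝ) ^ 2 * (E ^ 10 * ‖f w‖ ^ 2) := by ring
      _ ≤ E * (E ^ 10 * ‖f w‖ ^ 2) := by gcongr
      _ = E ^ 11 * ‖f w‖ ^ 2 := by ring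
      _ ≤ _ := pow_mul_le hE1 (by positivity) (by norm_num)
  · exact (h.der hs hs1 hE (mem_ball_zero_iff.1 hw).le).trans
      (pow_mul_le hE1 (norm_nonneg _) (by norm_num))

theorem level {a b t : ℝ} (ht : 0 < t) (ha : a ≤ 0) (h : ⌊-a / t⌋₊ = ⌊-b / t⌋₊) : a ≤ t + b := by
  have h1 : (⌊-a / t⌋₊ : ℝ) ≤ -a / t := Nat.floor_le (div_nonneg (by linarith) ht.le)
  have h2 := Nat.lt_floor_add_one (-b / t)
  rw [← h] at h2
  have h3 : -b / t < -a / t + 1 := by linarith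
  rw [div_add_one ht.ne', div_lt_div_iff_of_pos_right ht] at h3
  linarith

end FastAux

open FastAux in
theorem fast (hO : OscStmt) (h3 : ThreeStmt) : FastStmt := by
  intro ν ρ K g hρ hK hg
  obtain ⟨θ, hθ, rfl⟩ : ∃ θ : ℝ, 0 < θ ∧ g = 20 * θ := ⟨g / 20, by positivity, by ring⟩
  refine ⟨θ, hθ, fun σ hσ hσ1 => ?_⟩
  obtain ⟨C, -, hC⟩ := h3 ν
  have hK0 : 0 < K := by linarith
  obtain ⟨r, hr, hr1, hrK⟩ : ∃ r : ℝ, 0 < r ∧ r < 1 ∧ 2 * r * K ≤ θ := by
    refine ⟨min (1 / 2) (θ / (2 * K)), lt_min (by norm_num) (by positivity),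
      (min_le_left _ _).trans_lt (by norm_num), ?_⟩
    calc 2 * min (1 / 2) (θ / (2 * K)) * K ≤ 2 * (θ / (2 * K)) * K := by
          gcongr
          exact min_le_right _ _
      _ = θ := by field_simp
  have hs : 0 < r * σ := by positivity
  have hs1 : r * σ ≤ 1 := by nlinarith
  obtain ⟨N, z, hz, hzc⟩ := cover 1 hs
  obtain ⟨J, y, hy, hyc⟩ := cover ρ hs
  refine ⟨N, Fintype.card (Fin J → Fin (⌊K / θ⌋₊ + 1)), ((r * σ)⁻¹ + C ^ 2 + ν ^ 2) / θ,
    fun T hT => ?_⟩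
  have p1 : 0 < (r * σ)⁻¹ := by positivity
  have p2 : 0 ≤ C ^ 2 := by positivity
  have p3 : (0 : ℝ) ≤ ν ^ 2 := by positivity
  have hT' : (r * σ)⁻¹ + C ^ 2 + ν ^ 2 ≤ θ * T := by rwa [div_le_iff₀' hθ] at hT
  have hθT : 0 < θ * T := by linarith
  have hT0 : 0 < T := (mul_pos_iff_of_pos_left hθ).1 hθT
  have hE := Real.add_one_le_exp (θ * T)
  have hΓ : Real.exp (20 * θ * T) = Real.exp (θ * T) ^ 20 := by
    rw [← Real.exp_nat_mul]
    congr 1
    push_cast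
    ring
  have hyb : ∀ j, y j ∈ ball (0 : ℂ) (2 * ρ + 2) := fun j =>
    mem_ball_zero_iff.2 (by linarith [hy j])
  rw [hΓ]
  have key : ∀ p : Fin J → Fin (⌊K / θ⌋₊ + 1), ∃ cl : Cls N,
      cl.Valid ρ (Real.exp (θ * T) ^ 20) ∧ ∀ f : ℂ → Fin ν → ℂ, Disc (2 * ρ + 2) K T f →
        (∀ z ∈ ball (0 : ℂ) (ρ + 1), Tch f z σ ≤ θ * T) →
        (∀ j, ⌊-lg f (y j) / (θ * T)⌋₊ = p j) → cl.Mem ρ (Real.exp (θ * T) ^ 20) f := by
    intro p
    by_cases hp : ∃ f : ℂ → Fin ν → ℂ, Disc (2 * ρ + 2) K T f ∧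
        (∀ z ∈ ball (0 : ℂ) (ρ + 1), Tch f z σ ≤ θ * T) ∧ ∀ j, ⌊-lg f (y j) / (θ * T)⌋₊ = p j
    · obtain ⟨f', d', t', e'⟩ := hp
      have a' := adm_of hO hρ hT0.le hσ hσ1 hr.le hr1 hrK d' t'
      obtain ⟨cl, hv, hm⟩ := cls_of hρ hs hs1 (by linarith) (by linarith) (by linarith)
        (by linarith) hC hz hzc a'
      refine ⟨cl, hv, fun f d t e => ?_⟩
      have a := adm_of hO hρ hT0.le hσ hσ1 hr.le hr1 hrK d t
      have lv : ∀ {u v : ℂ → Fin ν → ℂ}, Disc (2 * ρ + 2) K T u → Disc (2 * ρ + 2) K T v →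
          (∀ j, ⌊-lg u (y j) / (θ * T)⌋₊ = p j) → (∀ j, ⌊-lg v (y j) / (θ * T)⌋₊ = p j) →
          ∀ j, ‖u (y j)‖ ≤ Real.exp (θ * T) * ‖v (y j)‖ := fun du dv eu ev j => by
        rw [← exp_lg (du.ne (hyb j)), ← exp_lg (dv.ne (hyb j)), ← Real.exp_add]
        exact Real.exp_le_exp.2 (level hθT (du.lg_le (hyb j)) ((eu j).trans (ev j).symm))
      exact hm f a fun w hw => ⟨a.cmp a' (Real.exp_pos _).le hy hyc (lv d' d e' e) hw,
        a'.cmp a (Real.exp_pos _).le hy hyc (lv d d' e e') hw⟩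
    · refine ⟨⟨z, r * σ, fun _ => 1, fun _ _ => 1⟩, ⟨hz, hs, hs1,
        fun w hw => (hzc w hw).imp fun i hi => mem_closedBall_iff_norm.2 hi, fun _ => one_pos,
        fun _ => differentiableOn_const _, fun i w _ => ⟨0, ?_⟩⟩,
        fun f d t e => (hp ⟨f, d, t, e⟩).elim⟩
      simpa using one_le_pow₀ (n := 20) (show 1 ≤ Real.exp (θ * T) by linarith)
  choose cl hv hm using key
  refine ⟨fun n => cl ((Fintype.equivFin _).symm n), fun n => hv _, fun f d t => ?_⟩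
  have hlt : ∀ j, ⌊-lg f (y j) / (θ * T)⌋₊ < ⌊K / θ⌋₊ + 1 := fun j => by
    refine Nat.lt_succ_of_le (Nat.floor_le_floor ?_)
    have := d.le_lg (hyb j)
    rw [div_le_div_iff₀ hθT hθ]
    nlinarith
  refine ⟨Fintype.equivFin _ fun j => ⟨_, hlt j⟩, ?_⟩
  simp only [Equiv.symm_apply_apply]
  exact hm _ f d t fun j => rfl

theorem slow : SlowStmt := by
  refine ⟨⟨fun _ => 0, 1, fun _ => 1, fun _ _ => 1⟩, fun ν ρ K T hρ hK hT => ?_⟩
  have hKT : 0 ≤ K * T := by positivity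
  have h1 : 1 ≤ Real.exp ((2 * K + 1) * T) := Real.one_le_exp (by positivity)
  refine ⟨⟨fun _ => by simp, one_pos, le_rfl, fun w hw => ⟨0, mem_closedBall_zero_iff.2 hw⟩,
    fun _ => one_pos, fun _ => differentiableOn_const _, fun _ _ _ => ⟨0, by simpa using h1⟩⟩,
    fun f h => ?_⟩
  have hb : ∀ w : ℂ, ‖w‖ ≤ ρ + 1 → w ∈ ball (0 : ℂ) (2 * ρ) := fun w hw =>
    mem_ball_zero_iff.2 (by linarith)
  have h2 : ∀ w : ℂ, ‖w‖ ≤ ρ + 1 → 1 ≤ Real.exp ((2 * K + 1) * T) * ‖f w‖ ^ 2 := fun w hw => by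
    have := h.lo w (hb w hw)
    calc (1 : ℝ) ≤ Real.exp ((2 * K + 1) * T + 2 * -(K * T)) := Real.one_le_exp (by linarith)
      _ = Real.exp ((2 * K + 1) * T) * Real.exp (-(K * T)) ^ 2 := by
        rw [Real.exp_add, ← Real.exp_nat_mul]
        norm_num
      _ ≤ _ := by gcongr
  have h3 : ∀ w : ℂ, ‖w‖ ≤ ρ + 1 → 1 ≤ Real.exp ((2 * K + 1) * T) * ‖f w‖ := fun w hw => by
    refine (h2 w hw).trans (mul_le_mul_of_nonneg_left ?_ (Real.exp_pos _).le)
    nlinarith [h.hi w (hb w hw), norm_nonneg (f w)]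
  refine ⟨fun _ w hw => h3 w ?_, fun _ w hw => ?_, fun _ w hw => ?_, fun w hw => ?_⟩
  · linarith [mem_closedBall_zero_iff.1 hw]
  · have := h.hi w (hb w (by linarith [mem_closedBall_zero_iff.1 hw]))
    dsimp only
    linarith
  · simpa using h2 w (by linarith [mem_ball_zero_iff.1 hw])
  · have hw' := mem_ball_zero_iff.1 hw
    refine (FastAux.deriv_le (C := 1) h.diff one_pos (by linarith) fun z hz =>
      h.hi z (mem_ball_zero_iff.2 ?_)).trans ?_
    · linarith [norm_le_insert' z w]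
    · rw [div_one]
      exact h3 w (by linarith)

end Pool.Agent.Lib.MP_45f16c_ag
end

-- part Pool.Agent.Lib.MP_45f16c_ag.Mon
section

/-! The growth certificate: a linear form whose zeros in the unit disc account for the growth. -/

set_option autoImplicit false
open Metric MeasureTheory Polynomial Real

namespace Pool.Agent.Lib.MP_45f16c_ag

namespace MonAux

variable {ν : ℕ}

/-- The moment curve. -/
def mom (ν : ℕ) (τ : ℂ) : Fin ν → ℂ := fun a => τ ^ (a : ℕ)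

/-- The polynomial with coefficient vector `x`. -/
noncomputable def pp (x : Fin ν → ℂ) : ℂ[X] := ∑ a : Fin ν, monomial (a : ℕ) (x a)

theorem eval_pp (x : Fin ν → ℂ) (τ : ℂ) : (pp x).eval τ = lf (mom ν τ) x := by
  simp [pp, lf, mom, eval_finsetSum, mul_comm]

theorem coeff_pp (x : Fin ν → ℂ) (a : Fin ν) : (pp x).coeff a = x a := by
  simp [pp, coeff_monomial, Fin.val_inj]

theorem natDegree_pp (x : Fin ν → ℂ) : (pp x).natDegree ≤ ν :=
  natDegree_sum_le_of_forall_le _ _ fun a _ => (natDegree_monomial_le _).trans a.2.le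

theorem pp_ne {x : Fin ν → ℂ} (hx : x ≠ 0) : pp x ≠ 0 := fun h => hx (funext fun a => by
  rw [← coeff_pp x a, h]; simp)

theorem mahler {x : Fin ν → ℂ} (hx : x ≠ 0) : log ‖x‖ - ν ≤ (pp x).logMahlerMeasure := by
  have hM := mahlerMeasure_pos_of_ne_zero (pp_ne hx)
  have h1 : ‖x‖ ≤ 2 ^ ν * (pp x).mahlerMeasure := by
    refine (pi_norm_le_iff_of_nonneg (by positivity)).2 fun a => ?_
    rw [← coeff_pp x a]
    refine (norm_coeff_le_choose_mul_mahlerMeasure _ _).trans ?_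
    gcongr
    exact_mod_cast (Nat.choose_le_two_pow _ _).trans
      (Nat.pow_le_pow_right (by norm_num) (natDegree_pp x))
  have h2 := log_le_log (norm_pos_iff.2 hx) h1
  rw [log_mul (by positivity) hM.ne', log_pow] at h2
  have h3 : log 2 ≤ 1 := by have := log_le_sub_one_of_pos (show (0 : ℝ) < 2 by norm_num); linarith
  have h4 : (ν : ℝ) * log 2 ≤ ν * 1 := by gcongr
  rw [logMahlerMeasure_eq_log_MahlerMeasure]
  linarith

theorem norm_mom {τ : ℂ} (h : ‖τ‖ = 1) : ‖mom ν τ‖ ≤ 1 :=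
  (pi_norm_le_iff_of_nonneg zero_le_one).2 fun a => by simp [mom, h]

theorem norm_lf_mom {τ : ℂ} (h : ‖τ‖ = 1) {x : Fin ν → ℂ} (hx : ‖x‖ ≤ 1) :
    ‖lf (mom ν τ) x‖ ≤ ν := by
  refine (norm_lf_le _ _).trans ?_
  have := norm_mom (ν := ν) h
  calc (ν : ℝ) * ‖mom ν τ‖ * ‖x‖ ≤ ν * 1 * 1 := by gcongr
    _ = ν := by ring

/-- A linear form that is large on average along a loop. -/
theorem exists_form (x : ℝ → Fin ν → ℂ) (hc : Continuous x) (h0 : ∀ t, x t ≠ 0)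
    (h1 : ∀ t, ‖x t‖ ≤ 1) {x₀ : Fin ν → ℂ} (hx₀ : x₀ ≠ 0) :
    ∃ τ : ℂ, ‖τ‖ = 1 ∧ lf (mom ν τ) x₀ ≠ 0 ∧
      ∫ t in (0 : ℝ)..2 * π, (log ‖x t‖ - ν) ≤
        ∫ t in (0 : ℝ)..2 * π, log ‖lf (mom ν τ) (x t)‖ := by
  set μ : Measure ℝ := volume.restrict (Set.Ioc 0 (2 * π)) with hμ
  have hπ : 0 < 2 * π := two_pi_pos
  have hfin : IsFiniteMeasure μ := by rw [hμ]; infer_instance
  have hreal : μ.real Set.univ = 2 * π := by
    simp [hμ, Measure.real, pi_pos.le]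
  have hne : μ ≠ 0 := fun h => by
    rw [h] at hreal
    simp only [measureReal_zero_apply] at hreal
    exact hπ.ne hreal
  set F : ℝ → ℝ → ℝ := fun t θ => log ‖lf (mom ν (circleMap 0 1 θ)) (x t)‖ with hF
  have hmeas : Measurable (Function.uncurry F) := by
    refine measurable_log.comp (Continuous.measurable ?_)
    unfold lf mom
    fun_prop
  have hint : ∀ t, Integrable (F t) μ := fun t => by
    have := (intervalIntegrable_mahlerMeasure (pp (x t))).1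
    simp only [eval_pp] at this
    exact this
  have hlow : ∀ t, 2 * π * (log ‖x t‖ - ν) ≤ ∫ θ, F t θ ∂μ := fun t => by
    have h := mahler (h0 t)
    rw [logMahlerMeasure_def, circleAverage_def, intervalIntegral.integral_of_le hπ.le,
      smul_eq_mul, le_inv_mul_iff₀ hπ] at h
    simpa only [eval_pp] using h
  have hle : ∀ t θ, F t θ ≤ ν := fun t θ =>
    (log_le_self (norm_nonneg _)).trans (norm_lf_mom (by simp) (h1 t))
  have hlc : Continuous fun t => log ‖x t‖ - ν :=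
    (hc.norm.log fun t => norm_ne_zero_iff.2 (h0 t)).sub continuous_const
  have hli : Integrable (fun t => log ‖x t‖ - ν) μ := (hlc.intervalIntegrable 0 (2 * π)).1
  have hprod : Integrable (Function.uncurry F) (μ.prod μ) := by
    refine (integrable_prod_iff hmeas.aestronglyMeasurable).2
      ⟨Filter.Eventually.of_forall hint, ?_⟩
    refine Integrable.mono' (g := fun t => 2 * π * (2 * ν) - 2 * π * (log ‖x t‖ - ν))
      ((integrable_const _).sub (hli.const_mul _))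
      hmeas.aestronglyMeasurable.norm.integral_prod_right' (Filter.Eventually.of_forall fun t => ?_)
    rw [Real.norm_of_nonneg (integral_nonneg fun θ => norm_nonneg _)]
    have h2 : ∫ θ, ‖Function.uncurry F (t, θ)‖ ∂μ ≤ ∫ θ, (2 * ν - F t θ) ∂μ := by
      refine integral_mono (hint t).norm ((integrable_const _).sub (hint t)) fun θ => ?_
      have := hle t θ
      have h3 : (0 : ℝ) ≤ ν := Nat.cast_nonneg _
      simp only [Function.uncurry_apply_pair, Real.norm_eq_abs]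
      exact abs_le.2 ⟨by linarith, by linarith⟩
    rw [integral_sub (integrable_const _) (hint t), integral_const, hreal, smul_eq_mul] at h2
    linarith [hlow t]
  have hN : μ (circleMap 0 1 ⁻¹' {z | (pp x₀).IsRoot z}) = 0 :=
    Measure.absolutelyContinuous_of_le Measure.restrict_le_self
      (((finite_setOfPred_isRoot (pp_ne hx₀)).countable.preimage_circleMap 0 one_ne_zero).measure_zero _)
  obtain ⟨θ, hθ, hav⟩ := exists_notMem_null_average_le hne hprod.integral_prod_right hN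
  refine ⟨circleMap 0 1 θ, by simp, fun h => hθ ?_, ?_⟩
  · simpa [IsRoot, eval_pp] using h
  · rw [intervalIntegral.integral_of_le hπ.le, intervalIntegral.integral_of_le hπ.le]
    refine le_trans ?_ hav
    rw [average_eq, hreal, smul_eq_mul, le_inv_mul_iff₀ hπ, ← integral_const_mul]
    have h4 := integral_integral_swap hprod
    refine le_trans ?_ h4.le
    exact integral_mono (hli.const_mul _) hprod.integral_prod_left hlow

theorem maxmod {h : ℂ → ℂ} {ρ r M : ℝ} (hd : DifferentiableOn ℂ h (ball 0 ρ)) (h0 : 0 < r)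
    (hr : r < ρ) (hM : ∀ z : ℂ, ‖z‖ = r → ‖h z‖ ≤ M) {z : ℂ} (hz : z ∈ closedBall (0 : ℂ) r) :
    ‖h z‖ ≤ M := by
  refine Complex.norm_le_of_forall_mem_frontier_norm_le (U := ball 0 r) isBounded_ball
    (hd.mono ?_).diffContOnCl (fun w hw => hM w ?_) ?_
  · rw [closure_ball _ h0.ne']
    exact closedBall_subset_ball hr
  · rw [frontier_ball _ h0.ne'] at hw
    simpa using hw
  · rwa [closure_ball _ h0.ne']

section Q

variable {k : ℕ} {a : Fin k → ℂ}

/-- The monic polynomial with the given zeros. -/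
noncomputable def QQ (a : Fin k → ℂ) : ℂ[X] := ∏ i, (X - C (a i))

theorem eval_QQ (z : ℂ) : (QQ a).eval z = ∏ i, (z - a i) := by simp [QQ, eval_prod]

theorem monic_QQ : (QQ a).Monic := monic_prod_X_sub_C _ _

theorem natDegree_QQ : (QQ a).natDegree = k := by simp [QQ]

theorem mahler_QQ (ha : ∀ i, a i ∈ closedBall (0 : ℂ) 1) : (QQ a).mahlerMeasure = 1 := by
  have : ∀ s : Finset (Fin k), (∏ i ∈ s, (X - C (a i))).mahlerMeasure = 1 := fun s => by
    induction s using Finset.induction_on with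
    | empty => simp
    | insert i s hi ih =>
      rw [Finset.prod_insert hi, mahlerMeasure_mul, ih, mahlerMeasure_X_sub_C, mul_one]
      exact max_eq_left (by simpa using ha i)
  exact this _

/-- The lower coefficients in the basis `(z/2)^s`. -/
noncomputable def qq (a : Fin k → ℂ) (s : ℕ) : ℂ := 2 ^ s * (QQ a).coeff s

theorem Qp_qq (z : ℂ) : Qp k (qq a) z = ∏ i, (z - a i) := by
  rw [← eval_QQ, (monic_QQ (a := a)).as_sum, natDegree_QQ, Qp, eval_add, eval_pow, eval_X,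
    eval_finsetSum]
  congr 1
  refine Finset.sum_congr rfl fun s _ => ?_
  simp only [qq, eval_mul, eval_C, eval_pow, eval_X, div_pow]
  field_simp

theorem two_pow_choose (k s : ℕ) : 2 ^ s * k.choose s ≤ 3 ^ k := by
  by_cases h : s ≤ k
  · rw [show (3 : ℕ) = 2 + 1 from rfl, add_pow]
    have := Finset.single_le_sum (f := fun m => 2 ^ m * 1 ^ (k - m) * (k.choose m : ℕ))
      (fun i _ => Nat.zero_le _) (Finset.mem_range.2 (Nat.lt_succ_of_le h))
    simpa using this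
  · simp [Nat.choose_eq_zero_of_lt (not_le.1 h)]

theorem norm_qq (ha : ∀ i, a i ∈ closedBall (0 : ℂ) 1) (s : ℕ) : ‖qq a s‖ ≤ 3 ^ k := by
  have h := norm_coeff_le_choose_mul_mahlerMeasure s (QQ a)
  rw [mahler_QQ ha, natDegree_QQ, mul_one] at h
  have h2 : ((2 : ℝ) ^ s * k.choose s) ≤ 3 ^ k := by exact_mod_cast two_pow_choose k s
  rw [qq, norm_mul, norm_pow, Complex.norm_two]
  exact le_trans (by gcongr) h2

theorem prod_le (ha : ∀ i, a i ∈ closedBall (0 : ℂ) 1) {z : ℂ} (hz : ‖z‖ ≤ 2) :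
    ‖∏ i, (z - a i)‖ ≤ 3 ^ k := by
  rw [norm_prod]
  calc ∏ i, ‖z - a i‖ ≤ ∏ _i : Fin k, (3 : ℝ) :=
        Finset.prod_le_prod (fun _ _ => norm_nonneg _) fun i _ => by
          have : ‖a i‖ ≤ 1 := by simpa using ha i
          linarith [norm_sub_le z (a i)]
    _ = 3 ^ k := by simp

theorem le_prod (ha : ∀ i, a i ∈ closedBall (0 : ℂ) 1) {z : ℂ} (hz : 4 ≤ ‖z‖) :
    3 ^ k ≤ ‖∏ i, (z - a i)‖ := by
  rw [norm_prod]
  calc (3 : ℝ) ^ k = ∏ _i : Fin k, (3 : ℝ) := by simp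
    _ ≤ _ := Finset.prod_le_prod (fun _ _ => by norm_num) fun i _ => by
      have : ‖a i‖ ≤ 1 := by simpa using ha i
      linarith [norm_sub_norm_le z (a i)]

/-- Jensen's formula after splitting off the zeros. -/
theorem jensen (ha : ∀ i, a i ∈ closedBall (0 : ℂ) 1) {u ψ : ℂ → ℂ} {ρ : ℝ} (hρ : 1 < ρ)
    (hψ : DifferentiableOn ℂ ψ (ball 0 ρ)) (h0 : ∀ z ∈ closedBall (0 : ℂ) 1, ψ z ≠ 0)
    (hu : ∀ z ∈ ball (0 : ℂ) ρ, u z = (∏ i, (z - a i)) * ψ z) :
    circleAverage (fun z => log ‖u z‖) 0 1 = log ‖ψ 0‖ := by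
  have han : AnalyticOnNhd ℂ ψ (closedBall 0 |1|) := by
    rw [abs_one]
    exact (hψ.analyticOnNhd isOpen_ball).mono (closedBall_subset_ball hρ)
  have h1 : circleAverage (fun z => log ‖u z‖) 0 1 =
      circleAverage (fun z => log ‖(QQ a).eval z‖ + log ‖ψ z‖) 0 1 := by
    refine circleAverage_congr_codiscreteWithin ?_ one_ne_zero
    filter_upwards [compl_finite_mem_codiscreteWithin (Set.finite_range a),
      Filter.self_mem_codiscreteWithin _] with z hz hs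
    have hz1 : z ∈ closedBall (0 : ℂ) 1 := by
      rw [abs_one] at hs
      exact sphere_subset_closedBall hs
    rw [hu z (closedBall_subset_ball hρ hz1), norm_mul, eval_QQ, log_mul]
    · exact norm_ne_zero_iff.2 (Finset.prod_ne_zero_iff.2 fun i _ =>
        sub_ne_zero.2 fun h => hz ⟨i, h.symm⟩)
    · exact norm_ne_zero_iff.2 (h0 z hz1)
  have h2 : CircleIntegrable (fun z => log ‖(QQ a).eval z‖) 0 1 :=
    intervalIntegrable_mahlerMeasure (QQ a)
  rw [h1, circleAverage_fun_add h2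
    (han.mono sphere_subset_closedBall).meromorphicOn.circleIntegrable_log_norm,
    ← logMahlerMeasure_def, logMahlerMeasure_eq_log_MahlerMeasure, mahler_QQ ha, log_one, zero_add]
  exact han.circleAverage_log_norm_of_ne_zero (by rwa [abs_one])

end Q

end MonAux

open MonAux in
theorem monS (hF : FactStmt) : MonStmt := by
  intro ν
  refine ⟨ν + 2, by positivity, fun ρ K T f hρ hf => ?_⟩
  have hν : (0 : ℝ) ≤ ν := Nat.cast_nonneg _
  have h0 : (0 : ℂ) ∈ ball (0 : ℂ) ρ := mem_ball_self (by linarith)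
  have hcm : ∀ t, circleMap 0 1 t ∈ ball (0 : ℂ) ρ := fun t => by
    simp only [mem_ball_zero_iff, norm_circleMap_zero, abs_one]
    linarith
  have hsph : sphere (0 : ℂ) |1| ⊆ ball 0 ρ := by
    rw [abs_one]
    exact sphere_subset_closedBall.trans (closedBall_subset_ball (by linarith))
  obtain ⟨τ, hτ, hτ0, hav⟩ := exists_form (fun t => f (circleMap 0 1 t))
    (hf.diff.continuousOn.comp_continuous (continuous_circleMap 0 1) hcm)
    (fun t => hf.ne (hcm t)) (fun t => hf.hi _ (hcm t)) (hf.ne h0)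
  set u : ℂ → ℂ := fun z => lf (mom ν τ) (f z) with hu
  have hud : DifferentiableOn ℂ u (ball 0 ρ) := by
    unfold u lf
    exact DifferentiableOn.fun_sum fun a _ => (differentiableOn_pi.1 hf.diff a).const_mul _
  have hub : ∀ z ∈ ball (0 : ℂ) ρ, ‖u z‖ ≤ ν := fun z hz => norm_lf_mom hτ (hf.hi z hz)
  obtain ⟨k, a, ψ, ha, hψ, hψ0, hfac⟩ := hF u 0 1 ρ (by linarith) hud ⟨0, h0, hτ0⟩
  have hci : CircleIntegrable (lg f) 0 1 :=
    (continuousOn_lg (hf.diff.continuousOn.mono hsph) fun z hz => hf.ne (hsph hz)).circleIntegrable'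
  have hA : circleAverage (lg f) 0 1 - ν ≤ log ‖ψ 0‖ := by
    rw [← jensen ha (by linarith) hψ hψ0 hfac, ← circleAverage_const (ν : ℝ) 0 1,
      ← circleAverage_fun_sub hci (circleIntegrable_const _ _ _), circleAverage_def,
      circleAverage_def, smul_eq_mul, smul_eq_mul]
    exact mul_le_mul_of_nonneg_left hav (inv_nonneg.2 two_pi_pos.le)
  have hA0 : circleAverage (lg f) 0 1 ≤ 0 :=
    circleAverage_mono_on_of_le_circle hci fun z hz => hf.lg_le (hsph hz)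
  have hgr : T ≤ circleAverage (lg f) 0 1 - lg f 0 := hf.gr
  have hp : ψ 0 ≠ 0 := hψ0 0 (mem_closedBall_self zero_le_one)
  have hp' : 0 < ‖ψ 0‖ := norm_pos_iff.2 hp
  have hl0 : 0 ≤ -lg f 0 := by linarith [hf.lg_le h0]
  set i₀ := ⌈-log ‖ψ 0‖⌉₊ with hi₀
  set i₁ := ⌊-lg f 0⌋₊ with hi₁
  have e0 : exp (-(i₀ : ℝ)) ≤ ‖ψ 0‖ := by
    rw [← exp_log hp']
    exact exp_le_exp.2 (by linarith [Nat.le_ceil (-log ‖ψ 0‖)])
  have e1 : 1 ≤ exp (i₀ : ℝ) * ‖ψ 0‖ := by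
    have := mul_le_mul_of_nonneg_left e0 (exp_pos (i₀ : ℝ)).le
    rwa [← exp_add, add_neg_cancel, exp_zero] at this
  have e2 : 1 ≤ exp (i₀ : ℝ) := one_le_exp (Nat.cast_nonneg _)
  have hbig : ∀ z ∈ ball (0 : ℂ) ρ, 4 ≤ ‖z‖ → 3 ^ k * ‖ψ z‖ ≤ ν := fun z hz h4 => by
    have h5 := hub z hz
    rw [hfac z hz, norm_mul] at h5
    exact le_trans (by gcongr; exact le_prod ha h4) h5
  have h3k : (1 : ℝ) ≤ 3 ^ k := one_le_pow₀ (by norm_num)
  have hgd : DifferentiableOn ℂ (fun z => dslope ψ 0 z / ψ 0) (ball 0 ρ) :=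
    ((Complex.differentiableOn_dslope (isOpen_ball.mem_nhds h0)).2 hψ).div_const _
  refine ⟨i₀, i₁, k, ((exp (-(i₀ : ℝ)) : ℂ) / ψ 0) • mom ν τ, qq a, fun z => dslope ψ 0 z / ψ 0,
    ?_, norm_qq ha, fun z hz => ?_, ?_, hgd.mono (ball_subset_ball (by linarith)),
    fun z hz => ⟨?_, ?_⟩, ?_, ?_, ?_⟩
  · rw [norm_smul, norm_div, Complex.norm_real, Real.norm_of_nonneg (exp_pos _).le]
    exact mul_le_one₀ ((div_le_one hp').2 e0) (norm_nonneg _) (norm_mom hτ)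
  · rw [Qp_qq]
    exact prod_le ha (by simpa using hz)
  · have h5 : ‖ψ 0‖ ≤ ν / 3 ^ k := maxmod (r := 4) hψ (by norm_num) (by linarith)
      (fun z hz => by
        rw [le_div_iff₀ (by positivity), mul_comm]
        exact hbig z (mem_ball_zero_iff.2 (by linarith)) hz.ge)
      (mem_closedBall_self (by norm_num))
    rw [le_div_iff₀ (by positivity)] at h5
    calc (3 : ℝ) ^ k ≤ exp (i₀ : ℝ) * ‖ψ 0‖ * 3 ^ k := le_mul_of_one_le_left (by positivity) e1
      _ = exp (i₀ : ℝ) * (‖ψ 0‖ * 3 ^ k) := by ring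
      _ ≤ exp (i₀ : ℝ) * (ν + 2) := by gcongr; linarith
      _ = _ := by ring
  · refine maxmod (r := ρ / 2) hgd (by linarith) (by linarith) (fun w hw => ?_)
      (ball_subset_closedBall hz)
    have hw0 : w ≠ 0 := norm_pos_iff.1 (by linarith)
    have h5 := hbig w (mem_ball_zero_iff.2 (by linarith)) (by linarith)
    have h6 : ‖ψ w‖ ≤ ν := le_trans (le_mul_of_one_le_left (norm_nonneg _) h3k) h5
    have h7 : ‖dslope ψ 0 w‖ ≤ ν + ‖ψ 0‖ := by
      rw [dslope_of_ne _ hw0, slope_def_field, sub_zero, norm_div]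
      refine (div_le_self (norm_nonneg _) (by linarith)).trans ((norm_sub_le _ _).trans ?_)
      linarith
    rw [norm_div, div_le_iff₀ hp']
    nlinarith [mul_le_mul_of_nonneg_left e1 hν, mul_le_mul_of_nonneg_right e2 hp'.le]
  · have hz' : z ∈ ball (0 : ℂ) ρ := ball_subset_ball (by linarith) hz
    have h5 : z * dslope ψ 0 z = ψ z - ψ 0 := by simpa using sub_smul_dslope ψ 0 z
    rw [lf_smul_left, Qp_qq, ← mul_div_assoc, h5]
    have h6 := hfac z hz'
    simp only [hu] at h6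
    rw [h6]
    field_simp
    ring
  · rw [← exp_lg (hf.ne h0)]
    exact exp_le_exp.2 (by linarith [Nat.floor_le hl0])
  · linarith [Nat.floor_le hl0, hf.le_lg h0]
  · have h5 := Nat.lt_floor_add_one (-lg f 0)
    by_cases h6 : 0 ≤ -log ‖ψ 0‖
    · have h7 := Nat.ceil_lt_add_one h6
      linarith
    · have h7 : i₀ = 0 := Nat.ceil_eq_zero.2 (not_le.1 h6).le
      rw [h7]
      push_cast
      linarith

end Pool.Agent.Lib.MP_45f16c_ag
end

-- part Pool.Agent.Lib.MP_45f16c_ag.Green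
section

/-! Koszul vanishing for base point free families, by descent from the complete family. -/

set_option autoImplicit false
set_option linter.unusedSectionVars false
open MvPolynomial

namespace Pool.Agent.Lib.MP_45f16c_ag

namespace GreenAux

variable {ν : ℕ} {ι : Type} [Fintype ι] [DecidableEq ι] {p : Fin ν → ℂ}

theorem sg_hom (s : Finset ι) (i : ι) : (sg (MvPolynomial (Fin ν) ℂ) s i).IsHomogeneous 0 := by
  unfold sg
  rcases neg_one_pow_eq_or (MvPolynomial (Fin ν) ℂ)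
    (s.filter fun a => Fintype.equivFin ι a < Fintype.equivFin ι i).card with h | h <;> rw [h]
  · exact isHomogeneous_one _ _
  · exact (isHomogeneous_one _ _).neg

theorem ch_zero (k r : ℕ) : InCh p k r (0 : Finset ι → MvPolynomial (Fin ν) ℂ) :=
  ⟨Hq.zero r, fun _ => ⟨isHomogeneous_zero _ _ _, by simp⟩⟩

theorem ch_add {k r : ℕ} {ω ω' : Finset ι → MvPolynomial (Fin ν) ℂ} (h : InCh p k r ω)
    (h' : InCh p k r ω') : InCh p k r (ω + ω') :=
  ⟨h.1.add h'.1, fun s => ⟨(h.2 s).1.add (h'.2 s).1, by simp [(h.2 s).2, (h'.2 s).2]⟩⟩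

theorem ch_neg {k r : ℕ} {ω : Finset ι → MvPolynomial (Fin ν) ℂ} (h : InCh p k r ω) :
    InCh p k r (-ω) :=
  ⟨h.1.neg, fun s => ⟨(h.2 s).1.neg, by simp [(h.2 s).2]⟩⟩

theorem ch_sub {k r : ℕ} {ω ω' : Finset ι → MvPolynomial (Fin ν) ℂ} (h : InCh p k r ω)
    (h' : InCh p k r ω') : InCh p k r (ω - ω') := by
  rw [sub_eq_add_neg]; exact ch_add h (ch_neg h')

theorem ch_smul {k r e : ℕ} {ω : Finset ι → MvPolynomial (Fin ν) ℂ} (h : InCh p k r ω)
    {a : MvPolynomial (Fin ν) ℂ} (ha : a.IsHomogeneous e) : InCh p (k + e) r (a • ω) :=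
  ⟨h.1.smul a, fun s => ⟨by rw [add_comm]; exact ha.mul (h.2 s).1, by simp [(h.2 s).2]⟩⟩

theorem ch_sum {k r : ℕ} {α : Type} (t : Finset α) {ω : α → Finset ι → MvPolynomial (Fin ν) ℂ}
    (h : ∀ a ∈ t, InCh p k r (ω a)) : InCh p k r (∑ a ∈ t, ω a) :=
  Finset.sum_induction _ _ (fun _ _ => ch_add) (ch_zero k r) h

theorem ch_ann {k r : ℕ} {ω : Finset ι → MvPolynomial (Fin ν) ℂ} (h : InCh p k (r + 1) ω)
    (i : ι) : InCh p k r (ann _ i ω) := by
  refine ⟨h.1.ann i, fun s => ?_⟩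
  rw [ann_apply]
  split_ifs
  · exact ⟨isHomogeneous_zero _ _ _, by simp⟩
  · exact ⟨by simpa using (sg_hom s i).mul (h.2 _).1, by simp [(h.2 _).2]⟩

theorem ch_cre {k r : ℕ} {ω : Finset ι → MvPolynomial (Fin ν) ℂ} (h : InCh p k r ω)
    (i : ι) : InCh p k (r + 1) (cre _ i ω) := by
  refine ⟨h.1.cre i, fun s => ?_⟩
  rw [cre_apply]
  split_ifs
  · exact ⟨by simpa using (sg_hom s i).mul (h.2 _).1, by simp [(h.2 _).2]⟩
  · exact ⟨isHomogeneous_zero _ _ _, by simp⟩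

theorem ch_wed {k r e : ℕ} {ω : Finset ι → MvPolynomial (Fin ν) ℂ} (h : InCh p k r ω)
    {v : ι → MvPolynomial (Fin ν) ℂ} (hv : ∀ i, (v i).IsHomogeneous e) :
    InCh p (k + e) (r + 1) (wed v ω) := by
  rw [wed_apply]
  exact ch_sum _ fun i _ => ch_smul (ch_cre h i) (hv i)

/-- Homogeneous components of a product with a homogeneous factor. -/
theorem hc_mul {d : ℕ} (n : ℕ) (h : MvPolynomial (Fin ν) ℂ) {g : MvPolynomial (Fin ν) ℂ}
    (hg : g.IsHomogeneous d) :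
    homogeneousComponent (n + d) (h * g) = homogeneousComponent n h * g := by
  conv_lhs => rw [← sum_homogeneousComponent h]
  conv_rhs => rw [← sum_homogeneousComponent h]
  rw [Finset.sum_mul, map_sum, map_sum, Finset.sum_mul]
  refine Finset.sum_congr rfl fun j _ => ?_
  rw [homogeneousComponent_of_mem ((homogeneousComponent_isHomogeneous j h).mul hg),
    homogeneousComponent_of_mem (homogeneousComponent_isHomogeneous j h)]
  by_cases hj : n = j <;> simp [hj]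

/-- The homogeneous Nullstellensatz for a base point free family. -/
theorem null {d : ℕ} (hd : 1 ≤ d) {g : ι → MvPolynomial (Fin ν) ℂ}
    (hg : ∀ i, (g i).IsHomogeneous d) (hb : ∀ x : Fin ν → ℂ, x ≠ 0 → ∃ i, eval x (g i) ≠ 0)
    {a : MvPolynomial (Fin ν) ℂ} (ha : a.IsHomogeneous d) :
    ∃ (M : ℕ) (v : ι → MvPolynomial (Fin ν) ℂ), (∀ i, (v i).IsHomogeneous (M * d)) ∧
      ∑ i, v i * g i = a ^ (M + 1) := by
  have h1 : a ∈ (Ideal.span (Set.range g)).radical := by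
    rw [← vanishingIdeal_zeroLocus_eq_radical (K := ℂ), mem_vanishingIdeal_iff]
    intro x hx
    by_cases h0 : x = 0
    · have := eval_smul_of_isHomogeneous ha 0 x
      rw [zero_smul, zero_pow (by omega), zero_mul] at this
      rw [h0]; exact this
    · obtain ⟨i, hi⟩ := hb x h0
      exact absurd (hx _ (Ideal.subset_span ⟨i, rfl⟩)) hi
  obtain ⟨M, hM⟩ := h1
  have h2 : a ^ (M + 1) ∈ Ideal.span (Set.range g) := by
    rw [pow_succ]; exact Ideal.mul_mem_right _ _ hM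
  obtain ⟨h, hh⟩ := Ideal.mem_span_range_iff_exists_fun.1 h2
  refine ⟨M, fun i => homogeneousComponent (M * d) (h i),
    fun i => homogeneousComponent_isHomogeneous _ _, ?_⟩
  have h3 : (a ^ (M + 1)).IsHomogeneous (M * d + d) := by
    have := ha.pow (M + 1)
    rwa [show d * (M + 1) = M * d + d by ring] at this
  rw [← homogeneousComponent_eq_self h3, ← hh, map_sum]
  exact Finset.sum_congr rfl fun i _ => (hc_mul _ _ (hg i)).symm

section step
variable {R : Type} [CommRing R]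

theorem ann_cre_self (i : ι) (ω : Finset ι → R) :
    ann R i (cre R i ω) + cre R i (ann R i ω) = ω := by
  rw [ann_cre, if_pos rfl]

theorem kos_cre0 {g : ι → R} {i : ι} (hi : g i = 0) (ω : Finset ι → R) :
    kos g (cre R i ω) = -cre R i (kos g ω) := by
  rw [kos_cre, hi, zero_smul, zero_sub]

theorem kos_ann_cre {g : ι → R} {i : ι} (hi : g i = 0) (ω : Finset ι → R) :
    kos g (ann R i (cre R i ω)) = ann R i (cre R i (kos g ω)) := by
  rw [kos_ann, kos_cre0 hi, map_neg, neg_neg]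

theorem kos_single (g : ι → R) (i : ι) (a : R) (ω : Finset ι → R) :
    kos (g + Pi.single i a) ω = kos g ω + a • ann R i ω := by
  rw [kos_add]
  congr 1
  rw [kos_apply, Finset.sum_eq_single i]
  · simp
  · intro j _ hj; simp [hj]
  · simp

end step

/-- Division by powers of the extra generator. -/
theorem descend {d m : ℕ} {g : ι → MvPolynomial (Fin ν) ℂ} {i : ι} (hi : g i = 0)
    {a : MvPolynomial (Fin ν) ℂ} (ha : a.IsHomogeneous d)
    (H : ∀ r k : ℕ, r + m + 1 ≤ k → KExact p (g + Pi.single i a) d k r)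
    {r k : ℕ} (hk : r + m + 2 ≤ k) {β : Finset ι → MvPolynomial (Fin ν) ℂ}
    (hβ : InCh p (k + d) r β) (h1 : kos g β = 0) (h2 : ann _ i β = 0) (N : ℕ) :
    ∀ γ, InCh p (k + N * d) (r + 1) γ → kos g γ = a ^ N • β →
      ∃ δ, InCh p k (r + 1) δ ∧ kos g δ = β := by
  induction N with
  | zero => exact fun γ hγ e => ⟨γ, by simpa using hγ, by simpa using e⟩
  | succ N ih =>
    intro γ hγ e
    have hb : InCh p (k + N * d + d) r (a ^ N • β) := by
      have := ch_smul hβ (ha.pow N)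
      rwa [show k + d + d * N = k + N * d + d by ring] at this
    rw [show k + (N + 1) * d = k + N * d + d by ring] at hγ
    have e1 : kos g (a ^ N • β) = 0 := by rw [map_smul, h1, smul_zero]
    have e2 : ann _ i (a ^ N • β) = 0 := by rw [map_smul, h2, smul_zero]
    have e3 : ann _ i (cre _ i (a ^ N • β)) = a ^ N • β := by
      have := ann_cre_self i (a ^ N • β)
      rwa [e2, map_zero, add_zero] at this
    have e4 : kos g (ann _ i (cre _ i γ)) = a • a ^ N • β := by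
      rw [kos_ann_cre hi, e, pow_succ', mul_smul, map_smul, map_smul, e3]
    have e5 : ann _ i (cre _ i (a ^ N • β) - ann _ i (cre _ i γ)) = a ^ N • β := by
      rw [map_sub, e3, ann_ann_self, sub_zero]
    obtain ⟨δ, hδ, e6⟩ := H (r + 1) (k + N * d) (by omega) _
      (ch_sub (ch_cre hb i) (ch_ann (ch_cre hγ i) i)) (by
        rw [kos_single, e5, map_sub, e4, kos_cre0 hi, e1]; simp)
    refine ih (-ann _ i δ) (ch_neg (ch_ann hδ i)) ?_
    rw [← e5, ← e6, kos_single, map_neg, kos_ann, neg_neg, map_add, map_smul, ann_ann_self,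
      smul_zero, add_zero]

/-- One step of the descent. -/
theorem step {d m : ℕ} (hd : 1 ≤ d) {g : ι → MvPolynomial (Fin ν) ℂ}
    (hg : ∀ i, (g i).IsHomogeneous d) (hb : ∀ x : Fin ν → ℂ, x ≠ 0 → ∃ i, eval x (g i) ≠ 0)
    {i : ι} (hi : g i = 0) {a : MvPolynomial (Fin ν) ℂ} (ha : a.IsHomogeneous d)
    (H : ∀ r k : ℕ, r + m + 1 ≤ k → KExact p (g + Pi.single i a) d k r)
    (r k : ℕ) (hk : r + m + 2 ≤ k) : KExact p g d k r := by
  have A : ∀ r : ℕ, r + m + 2 ≤ k → ∀ β, InCh p (k + d) r β → kos g β = 0 → ann _ i β = 0 →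
      ∃ δ, InCh p k (r + 1) δ ∧ kos g δ = β := fun r hk β hβ h1 h2 => by
    obtain ⟨M, v, hv, e⟩ := null hd hg hb ha
    refine descend hi ha H hk hβ h1 h2 (M + 1) (wed v β) ?_ ?_
    · have := ch_wed hβ hv
      rwa [show k + d + M * d = k + (M + 1) * d by ring] at this
    · rw [kos_wed, e, h1, map_zero, sub_zero]
  intro β hβ h1
  obtain ⟨δ₁, hδ₁, e₁⟩ := A r hk _ (ch_ann (ch_cre hβ i) i)
    (by rw [kos_ann_cre hi, h1, map_zero, map_zero]) (ann_ann_self _ _)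
  rcases r with _ | r
  · refine ⟨δ₁, hδ₁, ?_⟩
    have := ann_cre_self i β
    rw [hβ.1.ann_zero, map_zero, add_zero] at this
    rw [e₁, this]
  · obtain ⟨δ₂, hδ₂, e₂⟩ := A r (by omega) _ (ch_ann hβ i)
      (by rw [kos_ann, h1, map_zero, neg_zero]) (ann_ann_self _ _)
    refine ⟨δ₁ - cre _ i δ₂, ch_sub hδ₁ (ch_cre hδ₂ i), ?_⟩
    rw [map_sub, e₁, kos_cre0 hi, e₂, sub_neg_eq_add, ann_cre_self]

end GreenAux

theorem green (hB : BaseStmt) : GreenStmt := by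
  intro ν d ι _ _ g p J hp hd hg hs
  induction J using Finset.induction_on with
  | empty => exact fun _ r k hk => by simpa using hB ν d ι g p hp hd hg hs r k (by simpa using hk)
  | insert i J hi ih =>
    intro hb r k hk
    have H := ih fun x hx => by
      obtain ⟨j, hj, e⟩ := hb x hx
      exact ⟨j, fun h => hj (Finset.mem_insert_of_mem h), e⟩
    have e : (fun j => if j ∈ J then 0 else g j) =
        (fun j => if j ∈ insert i J then 0 else g j) + Pi.single i (g i) := by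
      funext j
      by_cases hj : j = i
      · subst hj; simp [hi]
      · simp [hj]
    rw [e] at H
    rw [Finset.card_insert_of_notMem hi] at hk
    refine GreenAux.step hd (fun j => ?_) (fun x hx => ?_) (by simp) (hg i) H r k (by omega)
    · split_ifs
      · exact isHomogeneous_zero _ _ _
      · exact hg j
    · obtain ⟨j, hj, e⟩ := hb x hx
      exact ⟨j, by rwa [if_neg hj]⟩

end Pool.Agent.Lib.MP_45f16c_ag
end

-- part Pool.Agent.Lib.MP_45f16c_ag.Unif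
section

/-! Uniform solvability in compact families of exact complexes, and orthogonal projections. -/

set_option autoImplicit false
open scoped ComplexConjugate InnerProductSpace
open Filter Topology

namespace Pool.Agent.Lib.MP_45f16c_ag

noncomputable section

namespace UnifAux

theorem homotopy {E F G : Type} [AddCommGroup E] [Module ℂ E] [AddCommGroup F] [Module ℂ F]
    [AddCommGroup G] [Module ℂ G] (L : E →ₗ[ℂ] F) (M : F →ₗ[ℂ] G)
    (h : ∀ w, M w = 0 ↔ ∃ v, L v = w) :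
    ∃ (S : F →ₗ[ℂ] E) (T : G →ₗ[ℂ] F), ∀ w, L (S w) + T (M w) = w := by
  obtain ⟨s, hs⟩ := L.rangeRestrict.exists_rightInverse_of_surjective L.range_rangeRestrict
  obtain ⟨π, hπ⟩ := (LinearMap.range L).subtype.exists_leftInverse_of_injective
    (Submodule.ker_subtype _)
  have hπ' : ∀ u : LinearMap.range L, π u = u := fun u => LinearMap.congr_fun hπ u
  have hs' : ∀ u : LinearMap.range L, L (s u) = u := fun u =>
    congrArg Subtype.val (LinearMap.congr_fun hs u)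
  have hk : LinearMap.ker (M ∘ₗ (LinearMap.ker π).subtype) = ⊥ := by
    rw [LinearMap.ker_eq_bot']
    rintro ⟨w, hw⟩ hM
    obtain ⟨v, hv⟩ := (h w).1 hM
    have h1 := hπ' ⟨w, v, hv⟩
    have h2 : π w = 0 := hw
    have h3 : (⟨w, v, hv⟩ : LinearMap.range L) = 0 := h1.symm.trans h2
    have h4 : w = 0 := congrArg Subtype.val h3
    exact Subtype.ext h4
  obtain ⟨g, hg⟩ := LinearMap.exists_leftInverse_of_injective _ hk
  refine ⟨s ∘ₗ π, (LinearMap.ker π).subtype ∘ₗ g, fun w => ?_⟩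
  have hmem : w - (π w : F) ∈ LinearMap.ker π := by
    rw [LinearMap.mem_ker, map_sub, hπ', sub_self]
  have hM0 : M (π w : F) = 0 := (h _).2 (π w).2
  have hMw : M w = M (w - (π w : F)) := by rw [map_sub, hM0, sub_zero]
  have h4 : g (M (w - (π w : F))) = ⟨_, hmem⟩ := LinearMap.congr_fun hg ⟨_, hmem⟩
  simp only [LinearMap.comp_apply, Submodule.subtype_apply]
  rw [hs', hMw, h4]
  simp

theorem solve {E F G : Type} [NormedAddCommGroup E] [NormedSpace ℂ E]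
    [NormedAddCommGroup F] [NormedSpace ℂ F] [FiniteDimensional ℂ F]
    [NormedAddCommGroup G] [NormedSpace ℂ G]
    (L : E →ₗ[ℂ] F) (M : F →ₗ[ℂ] G) (S : F →ₗ[ℂ] E) (T : G →ₗ[ℂ] F)
    (h : ∀ w, M w = 0 ↔ ∃ v, L v = w)
    (hA : ∀ u, ‖L (S u) + T (M u) - u‖ ≤ 1 / 2 * ‖u‖) (w : F) (hw : M w = 0) :
    ∃ u, L (S u) = w ∧ ‖u‖ ≤ 2 * ‖w‖ := by
  have hlow : ∀ u, M u = 0 → ‖u‖ ≤ 2 * ‖L (S u)‖ := by
    intro u hu
    have h1 := hA u
    rw [hu, map_zero, add_zero] at h1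
    have h2 : ‖u‖ ≤ ‖L (S u)‖ + ‖L (S u) - u‖ := by
      have := norm_sub_le (L (S u)) (L (S u) - u)
      simpa using this
    linarith
  let B : LinearMap.ker M →ₗ[ℂ] LinearMap.ker M :=
    (L ∘ₗ S).restrict (fun u _ => (h _).2 ⟨S u, rfl⟩)
  have hinj : Function.Injective B := by
    rw [← LinearMap.ker_eq_bot, LinearMap.ker_eq_bot']
    intro u hu
    have h1 : L (S u) = 0 := congrArg Subtype.val hu
    have h2 := hlow u u.2
    rw [h1, norm_zero, mul_zero] at h2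
    exact Subtype.ext (norm_le_zero_iff.1 h2)
  obtain ⟨u, hu⟩ := (LinearMap.injective_iff_surjective.1 hinj) ⟨w, hw⟩
  have h1 : L (S u) = w := congrArg Subtype.val hu
  exact ⟨u, h1, h1 ▸ hlow u u.2⟩

end UnifAux

theorem unif : UnifStmt := by
  intro X E F G _ _ _ _ _ _ _ _ _ _ K L M hK hL hM hex
  refine hK.induction_on (p := fun s => ∃ C : ℝ, 0 < C ∧ ∀ t ∈ s, t ∈ K → ∀ w, M t w = 0 →
    ∃ v, L t v = w ∧ ‖v‖ ≤ C * ‖w‖) ⟨1, one_pos, by simp⟩ ?_ ?_ ?_ |>.imp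
    fun C hC => ⟨hC.1, fun t ht => hC.2 t ht ht⟩
  · rintro s t hst ⟨C, hC, h⟩
    exact ⟨C, hC, fun x hx => h x (hst hx)⟩
  · rintro s t ⟨C, hC, h⟩ ⟨C', hC', h'⟩
    refine ⟨C + C', by positivity, fun x hx hxK w hw => ?_⟩
    have hw0 := norm_nonneg w
    rcases hx with hx | hx
    · obtain ⟨v, hv, hn⟩ := h x hx hxK w hw
      exact ⟨v, hv, by nlinarith⟩
    · obtain ⟨v, hv, hn⟩ := h' x hx hxK w hw
      exact ⟨v, hv, by nlinarith⟩
  · intro t0 ht0
    obtain ⟨S, T, hST⟩ := UnifAux.homotopy (L t0) (M t0) (hex t0 ht0)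
    let A : X → F →L[ℂ] F := fun t =>
      LinearMap.toContinuousLinearMap (L t ∘ₗ S + T ∘ₗ M t - LinearMap.id)
    have hA : Continuous A := by
      rw [continuous_clm_apply]
      intro y
      exact ((hL (S y)).add (T.continuous_of_finiteDimensional.comp (hM y))).sub continuous_const
    have hA0 : A t0 = 0 := by
      ext y
      simp [A, hST]
    have hev : ∀ᶠ t in 𝓝 t0, ‖A t‖ < 1 / 2 := by
      apply hA.norm.continuousAt.eventually_lt continuousAt_const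
      rw [hA0, norm_zero]
      norm_num
    refine ⟨_, mem_nhdsWithin_of_mem_nhds hev,
      2 * (‖LinearMap.toContinuousLinearMap S‖ + 1), by positivity, fun t ht htK w hw => ?_⟩
    have ht' : ‖A t‖ < 1 / 2 := ht
    obtain ⟨u, hu, hn⟩ := UnifAux.solve (L t) (M t) S T (hex t htK) (fun u =>
      ((A t).le_opNorm u).trans (mul_le_mul_of_nonneg_right ht'.le (norm_nonneg u))) w hw
    refine ⟨S u, hu, ?_⟩
    have h1 : ‖S u‖ ≤ ‖LinearMap.toContinuousLinearMap S‖ * ‖u‖ :=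
      (LinearMap.toContinuousLinearMap S).le_opNorm u
    have h2 := norm_nonneg (LinearMap.toContinuousLinearMap S)
    have h3 := norm_nonneg w
    nlinarith

namespace UnifAux

variable {α : Type} [Fintype α] [DecidableEq α]

theorem expand (w : α → ℂ) :
    (WithLp.toLp 2 w : EuclideanSpace ℂ α) = ∑ a, w a • EuclideanSpace.single a (1 : ℂ) := by
  ext b
  simp [Finset.sum_apply, Pi.single_apply]

theorem part1 (W : Submodule ℂ (α → ℂ)) : ∃ P : α → α → ℂ, (∀ a, P a ∈ W) ∧ ‖P‖ ≤ 1 ∧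
    ∀ w ∈ W, w = ∑ a, w a • P a := by
  let W' : Submodule ℂ (EuclideanSpace ℂ α) := W.comap (WithLp.linearEquiv 2 ℂ (α → ℂ)).toLinearMap
  refine ⟨fun a => (W'.starProjection (EuclideanSpace.single a 1)).ofLp,
    fun a => W'.starProjection_apply_mem _, ?_, fun w hw => ?_⟩
  · refine (pi_norm_le_iff_of_nonneg zero_le_one).2 fun a =>
      (pi_norm_le_iff_of_nonneg zero_le_one).2 fun b => ?_
    refine (PiLp.norm_apply_le _ b).trans ((W'.norm_starProjection_apply_le _).trans ?_)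
    simp
  · have h1 : W'.starProjection (WithLp.toLp 2 w) = WithLp.toLp 2 w :=
      Submodule.starProjection_eq_self_iff.2 hw
    have h2 := congrArg WithLp.ofLp h1
    rw [expand w, map_sum] at h2
    simp only [map_smul, WithLp.ofLp_sum, WithLp.ofLp_smul] at h2
    rw [h2]
    ext b
    simp [Finset.sum_apply, Pi.single_apply]

theorem part2 (j : ℕ) (χ : Fin j → (α → ℂ) →ₗ[ℂ] ℂ) : ∃ y : Fin j → α → ℂ, ‖y‖ ≤ 1 ∧
    ∀ i a, χ i (prj y a) = 0 := by
  let Φ : EuclideanSpace ℂ α →ₗ[ℂ] (Fin j → ℂ) :=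
    LinearMap.pi χ ∘ₗ (WithLp.linearEquiv 2 ℂ (α → ℂ)).toLinearMap
  let U : Submodule ℂ (EuclideanSpace ℂ α) := (LinearMap.ker Φ)ᗮ
  have hU : Module.finrank ℂ U ≤ j := by
    have h1 := (LinearMap.ker Φ).finrank_add_finrank_orthogonal
    have h2 := Φ.finrank_range_add_finrank_ker
    have h3 := (LinearMap.range Φ).finrank_le
    rw [Module.finrank_fin_fun] at h3
    show Module.finrank ℂ (LinearMap.ker Φ)ᗮ ≤ j
    omega
  let b := stdOrthonormalBasis ℂ U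
  let y : Fin j → α → ℂ := fun l =>
    if h : (l : ℕ) < Module.finrank ℂ U then (b ⟨l, h⟩ : EuclideanSpace ℂ α).ofLp else 0
  refine ⟨y, ?_, fun i a => ?_⟩
  · refine (pi_norm_le_iff_of_nonneg zero_le_one).2 fun l =>
      (pi_norm_le_iff_of_nonneg zero_le_one).2 fun c => ?_
    simp only [y]
    split_ifs with h
    · exact (PiLp.norm_apply_le _ c).trans (b.orthonormal.1 _).le
    · simp
  · have h1 : EuclideanSpace.single a (1 : ℂ) - U.starProjection (EuclideanSpace.single a 1)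
        ∈ LinearMap.ker Φ := by
      have := U.sub_starProjection_mem_orthogonal (EuclideanSpace.single a (1 : ℂ))
      rwa [Submodule.orthogonal_orthogonal] at this
    have h2 : (U.starProjection (EuclideanSpace.single a (1 : ℂ))).ofLp
        = ∑ l, conj (y l a) • y l := by
      rw [b.starProjection_eq_sum_rankOne, _root_.sum_apply, WithLp.ofLp_sum]
      refine Fintype.sum_of_injective (Fin.castLE hU) (Fin.castLE_injective hU) _ _ ?_ ?_
      · intro l hl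
        have : ¬ (l : ℕ) < Module.finrank ℂ U := fun h => hl ⟨⟨l, h⟩, rfl⟩
        simp [y, this]
      · intro k
        simp [y, EuclideanSpace.inner_single_right]
    have h3 := congrFun (LinearMap.mem_ker.1 h1) i
    rw [prj, ← h2]
    exact h3

end UnifAux

theorem projS : ProjStmt := fun _ _ _ => ⟨UnifAux.part1, UnifAux.part2⟩

end

end Pool.Agent.Lib.MP_45f16c_ag
end
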