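import Pool.Agent.Lib.MP_45f16c_ag.CoreA

/-! The measure estimate for one class. -/

set_option autoImplicit false
open Metric MeasureTheory MvPolynomial Filter Topology Real

namespace Pool.Agent.Lib.MP_45f16c_ag

namespace CoreAux

noncomputable section

theorem region_step {ν d j D N m : ℕ} {η K g T ρ Cd Cm C c₀ p : ℝ} {cl : Cls N}
    {Pt : Fin 3 → Fin m → ℂ} {i₀ i₁ k : ℕ}
    (hReg : ∀ (N m M : ℕ) (cl : Cls N) (pr : Par m) (ρ Γ S Λ δ L B' Λ' : ℝ), cl.Valid ρ Γ →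
      1 ≤ m → pr.k ≤ m → (d + 2) * m < M → 1 ≤ Γ → 1 ≤ S → 0 < Λ → 1 ≤ pr.B →
      0 < pr.ε → 0 < pr.ε' → 0 < pr.Γb → 0 < pr.ϑ → 0 < pr.β → pr.β ≤ 1 → 0 < L →
      (∀ i, ∀ z ∈ closedBall (0 : ℂ) 2, ‖cl.P i z - pr.Ptz i z‖ ≤ δ) →
      (∀ i, 2 * Γ * (M * S * pr.ε' + δ) ≤ cl.ω i ^ 2) →
      (∀ i, L * (2 * ν * M * S * pr.Γb * Γ) ≤ cl.ω i) →
      M * S * pr.ε' ≤ L → 3 * ((m + 1) ^ 2 * pr.B * S) ^ 2 ≤ B' →
      pr.B * m * S ≤ Λ' → pr.B * m * (Λ * (1 + j)) ≤ Λ' →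
      M * (Λ * (1 + j)) * pr.ε * (2 * ν * M * S * pr.Γb * Γ) ^ d ≤ c₀ * (L / B') ^ 2 →
      ∀ v : (Unk ν m → ℂ) × (Mon ν d → ℂ), v.2 ∈ Usm ν d η → ‖v.1‖ ≤ S →
        (∀ r : Con ν N M, ‖Gm cl pr M r v‖ ≤ S) →
        LiftL (fun r : Con ν N M => fderiv ℂ (Gm cl pr M r) v) j Λ →
        (pr.β / (ν * S + 1)) ^ (D + (ν - 1)) ≤ C * Λ' ^ (ν - 1) * (2 * pr.ϑ * S) ^ D)
    (hν : 2 ≤ ν) (hK : 1 ≤ K) (hT : 1 ≤ T) (hg : 0 < g) (hg3 : g ≤ 3 * K) (hC : 0 < C)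
    (hc₀ : 0 < c₀) (hCd0 : 0 < Cd) (hD : 120 * K * ν ≤ D) (hm1 : 1 ≤ m) (hCm : 40 * Cm ≤ T)
    (hCm0 : 0 < Cm) (hp1 : 1 ≤ p) (hmp : (m : ℝ) + 1 ≤ p) (hMp : (((d + 2) * m + 1 : ℕ) : ℝ) ≤ p)
    (e1 : 4 * p ^ 2 ≤ exp T) (e2 : 2 * ν * (Cd + 1) * p ^ 2 ≤ exp T) (e3 : 3 * p ^ 6 ≤ exp T)
    (e4 : (1 + j) * p ^ 1 ≤ exp T)
    (e5 : (1 + j) * (2 * ν * (Cd + 1)) ^ d / c₀ * p ^ (2 * d + 1) ≤ exp T)
    (e6 : C * (ν + 1) ^ (D + (ν - 1)) * 2 ^ D * p ^ (D + (ν - 1) + D) ≤ exp T)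
    (hv : cl.Valid ρ (exp (g * T))) (hω : ∀ i, exp (-(4 * (K * T))) ≤ cl.ω i)
    (hPt : ∀ z ∈ closedBall (0 : ℂ) 2, ∀ i,
      ‖cl.P i z - ∑ s : Fin m, Pt i s * (z / 2) ^ (s : ℕ)‖ ≤ del d K g T)
    (hi₁ : (i₁ : ℝ) ≤ K * T) (hi₀ : (i₀ : ℝ) + T ≤ i₁ + Cm) (hk : k ≤ m)
    (v : (Unk ν m → ℂ) × (Mon ν d → ℂ)) (hv2 : v.2 ∈ Usm ν d η) (hv1 : ‖v.1‖ ≤ p)
    (hG : ∀ r : Con ν N ((d + 2) * m + 1),
      ‖Gm cl (par d K g T Cd Pt i₀ i₁ k) ((d + 2) * m + 1) r v‖ ≤ p) :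
    ¬LiftL (fun r : Con ν N ((d + 2) * m + 1) =>
      fderiv ℂ (Gm cl (par d K g T Cd Pt i₀ i₁ k) ((d + 2) * m + 1) r) v) j
      (exp (104 * (K * T))) := by
  intro hL
  set u := K * T with hu
  have hTu : T ≤ u := by nlinarith
  set w := d * (g * T) with hw
  have hw0 : 0 ≤ w := by positivity
  have hgu : g * T ≤ 3 * u := by nlinarith
  set Γ := exp (g * T) with hΓ
  have hΓ1 : 1 ≤ Γ := one_le_exp (by positivity)
  have hΓ3 : Γ ≤ exp (3 * u) := exp_le_exp.2 hgu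
  set M : ℕ := (d + 2) * m + 1 with hM
  have hMS : M * p ≤ p ^ 2 := by rw [sq]; gcongr
  have hp2 : 1 ≤ p ^ 2 := one_le_pow₀ hp1
  have hW : 2 * ν * M * p * ((Cd + 1) * Γ ^ 3) * Γ ≤ 2 * ν * (Cd + 1) * p ^ 2 * Γ ^ 4 := by
    calc _ = 2 * ν * (Cd + 1) * (M * p) * Γ ^ 4 := by ring
      _ ≤ _ := by gcongr
  have hΓ4 : Γ ^ 4 ≤ exp (12 * u) := by
    rw [hΓ, ← exp_nat_mul]; exact exp_le_exp.2 (by push_cast; linarith)
  have hδ : del d K g T ≤ exp (-(20 * u)) := exp_le_exp.2 (by linarith)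
  have key := hReg N m M cl (par d K g T Cd Pt i₀ i₁ k) ρ Γ p (exp (104 * u)) (del d K g T)
    (exp (-(17 * u))) (exp (17 * u)) (exp (113 * u)) hv hm1 hk (by omega) hΓ1 hp1 (exp_pos _)
    (one_le_exp (by linarith)) (exp_pos _) (exp_pos _) (by simp only [par]; positivity)
    (exp_pos _) (exp_pos _) (exp_le_one_iff.2 (by simp)) (exp_pos _) (fun i z hz => hPt z hz i)
    (fun i => ?_) (fun i => ?_) ?_ ?_ ?_ ?_ ?_ v hv2 hv1 hG hL
  · change (exp (-(i₀ : ℝ)) / (ν * p + 1)) ^ (D + (ν - 1)) ≤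
      C * exp (113 * u) ^ (ν - 1) * (2 * exp (-(i₁ : ℝ)) * p) ^ D at key
    obtain ⟨q, rfl⟩ : ∃ q, ν = q + 1 := ⟨ν - 1, by omega⟩
    simp only [Nat.add_sub_cancel] at key e6
    rw [div_pow, div_le_iff₀ (by positivity), ← exp_nat_mul, ← exp_nat_mul] at key
    have a1 : ((q + 1 : ℕ) * p + 1) ^ (D + q) ≤ (((q + 1 : ℕ) + 1) * p) ^ (D + q) := by
      gcongr; linarith
    have a2 : C * exp (q * (113 * u)) * (2 * exp (-(i₁ : ℝ)) * p) ^ D *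
        ((q + 1 : ℕ) * p + 1) ^ (D + q) ≤ exp (T + (q * (113 * u) + D * -(i₁ : ℝ))) := by
      calc _ ≤ C * exp (q * (113 * u)) * (2 * exp (-(i₁ : ℝ)) * p) ^ D *
            (((q + 1 : ℕ) + 1) * p) ^ (D + q) := by gcongr
        _ = C * ((q + 1 : ℕ) + 1) ^ (D + q) * 2 ^ D * p ^ (D + q + D) *
            (exp (q * (113 * u)) * exp (-(i₁ : ℝ)) ^ D) := by
          rw [mul_pow, mul_pow, mul_pow, pow_add p (D + q) D]; ring
        _ ≤ _ := by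
          rw [← exp_nat_mul, ← exp_add]
          exact mle e6 le_rfl (exp_pos _).le
    have a3 := exp_le_exp.1 (key.trans a2)
    push_cast at a3 hD
    have hq : (0 : ℝ) ≤ q := by positivity
    have a4 : (i₀ : ℝ) * q ≤ u * q := by gcongr; linarith
    have a5 : (39 / 40 * T) * D ≤ (i₁ - i₀) * D := by gcongr; linarith
    have a6 : (39 / 40 * T) * (120 * K * (q + 1)) ≤ (39 / 40 * T) * D := by gcongr
    have a7 : (39 / 40 * T) * (120 * K * (q + 1)) = 117 * u * (q + 1) := by rw [hu]; ring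
    nlinarith
  · change 2 * Γ * (M * p * exp (-(20 * u)) + del d K g T) ≤ _
    have a1 : 2 * Γ * (M * p * exp (-(20 * u)) + del d K g T) ≤
        4 * p ^ 2 * Γ * exp (-(20 * u)) := by
      have a2 : M * p * exp (-(20 * u)) ≤ p ^ 2 * exp (-(20 * u)) := by gcongr
      have a3 : del d K g T ≤ p ^ 2 * exp (-(20 * u)) :=
        hδ.trans (le_mul_of_one_le_left (exp_pos _).le hp2)
      nlinarith
    have a4 : exp (-(8 * u)) ≤ cl.ω i ^ 2 := by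
      rw [show -(8 * u) = (2 : ℕ) * -(4 * u) by push_cast; ring, exp_nat_mul]
      gcongr; exact hω i
    exact a1.trans ((ele (mle (mle e1 hΓ3 (by positivity)) le_rfl (exp_pos _).le)
      (by linarith)).trans a4)
  · change exp (-(17 * u)) * (2 * ν * M * p * ((Cd + 1) * Γ ^ 3) * Γ) ≤ _
    exact (ele (mle le_rfl (hW.trans (mle e2 hΓ4 (by positivity))) (by positivity))
      (by linarith)).trans (hω i)
  · change M * p * exp (-(20 * u)) ≤ _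
    exact ele (mle (hMS.trans (by linarith : p ^ 2 ≤ exp T)) le_rfl (exp_pos _).le) (by linarith)
  · change 3 * ((m + 1) ^ 2 * exp (8 * u) * p) ^ 2 ≤ _
    calc _ ≤ 3 * (p ^ 2 * exp (8 * u) * p) ^ 2 := by gcongr
      _ = 3 * p ^ 6 * exp (8 * u) * exp (8 * u) := by ring
      _ ≤ _ := ele (mle (mle e3 le_rfl (exp_pos _).le) le_rfl (exp_pos _).le) (by linarith)
  · change exp (8 * u) * m * p ≤ _
    calc _ ≤ exp (8 * u) * p * p := by gcongr; linarith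
      _ = p ^ 2 * exp (8 * u) := by ring
      _ ≤ _ := ele (mle (by linarith : p ^ 2 ≤ exp T) le_rfl (exp_pos _).le) (by linarith)
  · change exp (8 * u) * m * (exp (104 * u) * (1 + j)) ≤ _
    calc _ ≤ exp (8 * u) * p * (exp (104 * u) * (1 + j)) := by gcongr; linarith
      _ = (1 + j) * p ^ 1 * exp (8 * u) * exp (104 * u) := by ring
      _ ≤ _ := ele (mle (mle e4 le_rfl (exp_pos _).le) le_rfl (exp_pos _).le) (by linarith)
  · change M * (exp (104 * u) * (1 + j)) * exp (-(194 * u) - 4 * w) *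
      (2 * ν * M * p * ((Cd + 1) * Γ ^ 3) * Γ) ^ d ≤ _
    have a1 : (Γ ^ 4) ^ d = exp (4 * w) := by
      rw [hΓ, ← exp_nat_mul, ← exp_nat_mul, hw]; congr 1; push_cast; ring
    have a2 : (exp (-(17 * u)) / exp (17 * u)) ^ 2 = exp (-(68 * u)) := by
      rw [← exp_sub, ← exp_nat_mul]; congr 1; push_cast; ring
    rw [a2]
    calc _ ≤ p * (exp (104 * u) * (1 + j)) * exp (-(194 * u) - 4 * w) *
          (2 * ν * (Cd + 1) * p ^ 2 * Γ ^ 4) ^ d := by gcongr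
      _ = c₀ * ((1 + j) * (2 * ν * (Cd + 1)) ^ d / c₀ * p ^ (2 * d + 1) * exp (104 * u) *
          exp (-(194 * u) - 4 * w) * exp (4 * w)) := by
        rw [mul_pow, mul_pow _ (p ^ 2), a1, ← pow_mul, pow_succ]; field_simp
      _ ≤ _ := by
        gcongr
        exact ele (mle (mle (mle e5 le_rfl (exp_pos _).le) le_rfl (exp_pos _).le) le_rfl
          (exp_pos _).le) (by linarith)

theorem count_step {ν d j m a κ : ℕ} {K T C p x : ℝ} (hν : 2 ≤ ν) (hK : 1 ≤ K) (hT : 1 ≤ T)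
    (hC : 0 < C) (hj : 25 * ν * log (2 * d + 3) ≤ j) (hm : (m : ℝ) ≤ 208 * (K * T) + 1)
    (hκ : κ = (5 * ν + 2) * m) (hmp : (m : ℝ) + 1 ≤ p) (hx0 : 0 ≤ x) (hx : x ≤ p)
    (e : C * (2 * d + 3) ^ (2 * a) * p ^ (4 * a + 3) ≤ exp T) :
    ((m + 1) ^ 3 : ℕ) * (C * (p * x) ^ (2 * a) * (2 * ((d + 1 : ℕ) : ℝ) + 1) ^ (2 * (κ + a)) /
      exp (104 * (K * T)) ^ (j + 1)) ≤ exp (-T) := by
  set u := K * T with hu
  have hTu : T ≤ u := by nlinarith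
  have hp : 0 ≤ p := by have : (0 : ℝ) ≤ m := by positivity
                        linarith
  set Lg := log (2 * d + 3) with hLg
  have hL : 1 ≤ Lg := by
    rw [hLg, le_log_iff_exp_le (by positivity)]
    have : (0 : ℝ) ≤ d := by positivity
    linarith [exp_one_lt_three]
  have a0 : (2 * ((d + 1 : ℕ) : ℝ) + 1) = 2 * d + 3 := by push_cast; ring
  have a1 : (2 * d + 3 : ℝ) ^ (2 * κ) = exp ((2 * κ : ℕ) * Lg) := by
    rw [exp_nat_mul, hLg, exp_log (by positivity)]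
  have hν' : (2 : ℝ) ≤ ν := by exact_mod_cast hν
  have a2 : ((2 * κ : ℕ) : ℝ) * Lg ≤ 2508 * (ν * Lg * u) := by
    have b1 : (κ : ℝ) ≤ 6 * ν * (209 * u) := by
      rw [hκ]; push_cast
      exact mul_le_mul (by linarith) (by linarith) (by positivity) (by positivity)
    push_cast
    nlinarith
  have a3 : 2600 * (ν * Lg * u) ≤ (j + 1 : ℕ) * (104 * u) := by
    push_cast
    nlinarith
  have a4 : 2 * u ≤ ν * Lg * u := by
    have : 2 ≤ ν * Lg := by nlinarith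
    gcongr
  rw [a0, mul_add, pow_add, a1, ← exp_nat_mul, ← mul_div_assoc, div_le_iff₀ (exp_pos _),
    ← exp_add]
  calc _ ≤ p ^ 3 * (C * (p * p) ^ (2 * a) * (exp ((2 * κ : ℕ) * Lg) * (2 * d + 3) ^ (2 * a))) := by
        push_cast; gcongr
    _ = C * (2 * d + 3) ^ (2 * a) * p ^ (4 * a + 3) * exp ((2 * κ : ℕ) * Lg) := by
        rw [← sq, ← pow_mul]; ring
    _ ≤ _ := ele (mle e le_rfl (exp_pos _).le) (by linarith)

theorem card_unk (ν m : ℕ) : Fintype.card (Unk ν m) = (5 * ν + 2) * m := by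
  simp only [Fintype.card_prod, Fintype.card_sum, Fintype.card_fin, Fintype.card_bool]; ring

theorem card_le (ν d N m a : ℕ) :
    2 * Fintype.card (Unk ν m) + Fintype.card (Con ν N ((d + 2) * m + 1)) + 2 ≤
      (2 * (5 * ν + 2) + N * (d + 2) * (3 * ν + 5) + 2 * ν + 2 + a + (d + 2)) * (m + 1) ∧
    Fintype.card (Unk ν m) + a + Fintype.card (Con ν N ((d + 2) * m + 1)) ≤
      (2 * (5 * ν + 2) + N * (d + 2) * (3 * ν + 5) + 2 * ν + 2 + a + (d + 2)) * (m + 1) := by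
  have cR : Fintype.card (Con ν N ((d + 2) * m + 1)) =
      N * (((d + 2) * m + 1) * (3 * ν + 5)) + 2 * ν := by
    simp only [Fintype.card_prod, Fintype.card_sum, Fintype.card_fin, Fintype.card_unit]; ring
  have hMle : (d + 2) * m + 1 ≤ (d + 2) * (m + 1) := by rw [mul_add]; omega
  have cR' : N * (((d + 2) * m + 1) * (3 * ν + 5)) ≤ N * (d + 2) * (3 * ν + 5) * (m + 1) := by
    calc _ ≤ N * ((d + 2) * (m + 1) * (3 * ν + 5)) := by gcongr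
      _ = _ := by ring
  rw [card_unk, cR]
  generalize N * (((d + 2) * m + 1) * (3 * ν + 5)) = x at *
  generalize N * (d + 2) * (3 * ν + 5) = y at *
  constructor <;> nlinarith [Nat.zero_le (a * m), Nat.zero_le (d * m), Nat.zero_le (ν * m)]

theorem choice {K : ℝ} (hK : 1 ≤ K) {ν d : ℕ} (hν : 2 ≤ ν)
    (hA : (120 * K + 27) * ν * log (2 * d + 3) ≤ d) :
    ∃ j D : ℕ, 25 * ν * log (2 * d + 3) ≤ j ∧ D + 2 * ν + j = d + 1 ∧ 120 * K * ν ≤ D ∧ 1 ≤ d := by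
  have hν' : (2 : ℝ) ≤ ν := by exact_mod_cast hν
  have hL : 1 ≤ log (2 * d + 3) := by
    rw [le_log_iff_exp_le (by positivity)]
    have : (0 : ℝ) ≤ d := by positivity
    linarith [exp_one_lt_three]
  set j := ⌈25 * ν * log (2 * d + 3)⌉₊ with hj
  have hj1 : 25 * ν * log (2 * d + 3) ≤ j := Nat.le_ceil _
  have hj2 : (j : ℝ) < 25 * ν * log (2 * d + 3) + 1 := Nat.ceil_lt_add_one (by positivity)
  have hKν : (120 * K + 2) * ν ≤ (120 * K + 2) * ν * log (2 * d + 3) :=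
    le_mul_of_one_le_right (by positivity) hL
  have h0 : 120 * K * ν + 2 * ν + j ≤ d + 1 := by nlinarith
  have hKν0 : 0 ≤ 120 * K * ν := by positivity
  obtain ⟨D, hD⟩ : ∃ D, D + 2 * ν + j = d + 1 :=
    ⟨d + 1 - (2 * ν + j), by
      have : 2 * ν + j ≤ d + 1 := by exact_mod_cast (by linarith : (2 * ν + j : ℝ) ≤ d + 1)
      omega⟩
  have hD' : 120 * K * ν ≤ D := by
    have : (D : ℝ) + 2 * ν + j = d + 1 := by exact_mod_cast hD
    linarith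
  exact ⟨j, D, hj1, hD, hD', by omega⟩

theorem level {K T : ℝ} (hK : 1 ≤ K) (hT : 1 ≤ T) (c₁ : ℕ) :
    ∃ m : ℕ, 208 * (K * T) ≤ m ∧ (m : ℝ) ≤ 208 * (K * T) + 1 ∧ 1 ≤ m ∧ K * T ≤ m ∧
      ∀ x : ℕ, x ≤ c₁ * (m + 1) → (x : ℝ) ≤ c₁ * (210 * K) * T := by
  have hu : 1 ≤ K * T := by nlinarith
  set m := ⌈208 * (K * T)⌉₊ with hm
  have hm1 : 208 * (K * T) ≤ m := Nat.le_ceil _
  have hm2 : (m : ℝ) < 208 * (K * T) + 1 := Nat.ceil_lt_add_one (by positivity)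
  refine ⟨m, hm1, hm2.le, by exact_mod_cast (by linarith : (1 : ℝ) ≤ m), by linarith,
    fun x hx => ?_⟩
  have h1 : (x : ℝ) ≤ c₁ * (m + 1) := by exact_mod_cast hx
  have h2 : (c₁ : ℝ) * (m + 1) ≤ c₁ * (210 * (K * T)) := by gcongr; linarith
  linarith

end

end CoreAux

open CoreAux in
theorem core (hSard : SardStmt) (hTrue : TrueStmt) (hReg : RegionStmt) (hDiv : DivStmt)
    (hMon : MonStmt) (hTr : TruncStmt) : CoreStmt := by
  intro K hK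
  refine ⟨120 * K + 27, by linarith, fun ν d hν hA η g ρ N hη hg hg3 hρ => ?_⟩
  obtain ⟨j, D, hj1, hD, hD', hd⟩ := choice hK hν hA
  have hR := eight_le hg hρ
  obtain ⟨CS, hCS, hS⟩ := hSard (Mon ν d) j
  obtain ⟨C, c₀, hC, hc₀, hRg⟩ := hReg ν d j D η hν hD hη
  obtain ⟨Cd, hCd, hDv⟩ := hDiv ν ρ (by linarith)
  obtain ⟨Cm, hCm, hMn⟩ := hMon ν
  set a := Fintype.card (Mon ν d) with ha
  set c₁ : ℕ := 2 * (5 * ν + 2) + N * (d + 2) * (3 * ν + 5) + 2 * ν + 2 + a + (d + 2) with hc₁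
  set c₂ : ℝ := c₁ * (210 * K) with hc₂
  refine eventually_atTop.1 ?_
  filter_upwards [eventually_ge_atTop 1, eventually_ge_atTop (40 * Cm), ev Cd 1 0,
    ev (a * d * 2 ^ d) 1 0, ev (3 * ν + 3) 1 0, ev 4 c₂ 2, ev (2 * ν * (Cd + 1)) c₂ 2, ev 3 c₂ 6,
    ev (1 + j) c₂ 1, ev ((1 + j) * (2 * ν * (Cd + 1)) ^ d / c₀) c₂ (2 * d + 1),
    ev (C * (ν + 1) ^ (D + (ν - 1)) * 2 ^ D) c₂ (D + (ν - 1) + D),
    ev (CS * (2 * d + 3) ^ (2 * a)) c₂ (4 * a + 3)] with T hT hTm b1 b2 b3 e1 e2 e3 e4 e5 e6 e7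
  intro cl hv
  simp only [pow_zero, mul_one] at b1 b2 b3
  set p := c₂ * T with hp
  obtain ⟨m, hm1, hm2, hm3, hm4, hle⟩ := level hK hT c₁
  rw [← hc₂, ← hp] at hle
  set M : ℕ := (d + 2) * m + 1 with hM
  have cκ := card_unk ν m
  have hMle : M ≤ (d + 2) * (m + 1) := by rw [hM, mul_add]; omega
  have hmp : (m : ℝ) + 1 ≤ p := by
    exact_mod_cast hle (m + 1) (Nat.le_mul_of_pos_left _ (by omega))
  have hMp : (M : ℝ) ≤ p := hle M (hMle.trans (Nat.mul_le_mul_right _ (by omega)))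
  have hp1 : 1 ≤ p := by have : (0 : ℝ) ≤ m := by positivity
                         linarith
  have hSp : (2 * Fintype.card (Unk ν m) + Fintype.card (Con ν N M) + 2 : ℝ) ≤ p := by
    exact_mod_cast hle _ (card_le ν d N m a).1
  have hxp : (Fintype.card (Unk ν m) + a + Fintype.card (Con ν N M) : ℝ) ≤ p := by
    exact_mod_cast hle _ (card_le ν d N m a).2
  by_cases hne : ∃ f : ℂ → Fin ν → ℂ, Disc ρ K T f ∧ cl.Mem ρ (exp (g * T)) f
  swap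
  · refine (measure_mono (t := ∅) ?_).trans (by simp)
    rintro c ⟨_, f, f1, _, f3⟩
    exact hne ⟨f, f1, f3⟩
  obtain ⟨f₀, f1, f2⟩ := hne
  have hω := omega_ge hR hg3 (by linarith) hv f1 f2
  have hsub : ball (0 : ℂ) (ρ / 2) ⊆ ball 0 ρ := ball_subset_ball (by linarith)
  choose Pt _ hPt using fun l => hTr m (cl.P l) (ρ / 2) (exp (8 * (K * T))) hR
    ((hv.diff l).mono hsub) fun z hz => (f2.P l z (hsub hz)).trans (by
      have h1 : ‖f₀ z‖ ^ 2 ≤ exp 0 := by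
        rw [exp_zero]; exact pow_le_one₀ (norm_nonneg _) (f1.hi z (hsub hz))
      have h2 : g * T ≤ 3 * K * T := by gcongr
      exact ele (mle le_rfl h1 (by positivity)) (by linarith [mul_pos hg (by linarith : 0 < T)]))
  have hPt' : ∀ z ∈ closedBall (0 : ℂ) 2, ∀ i,
      ‖cl.P i z - ∑ s : Fin m, Pt i s * (z / 2) ^ (s : ℕ)‖ ≤ del d K g T :=
    fun z hz i => (hPt i z hz).trans (trunc_le hK hT hg hρ hm1)
  let B : ℕ × ℕ × ℕ → Set (Mon ν d → ℂ) := fun t =>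
    {y | ((t.2.1 : ℝ) ≤ K * T ∧ (t.1 : ℝ) + T ≤ t.2.1 + Cm ∧ t.2.2 ≤ m) ∧ y ∈ Usm ν d η ∧
      ∃ x : Unk ν m → ℂ, ‖x‖ ≤ 1 ∧
        ∀ r : Con ν N M, ‖Gm cl (par d K g T Cd Pt t.1 t.2.1 t.2.2) M r (x, y)‖ ≤ 1}
  let I := Finset.range (m + 1) ×ˢ Finset.range (m + 1) ×ˢ Finset.range (m + 1)
  have hcov : {c | c ∈ Usm ν d η ∧ ∃ f : ℂ → Fin ν → ℂ, Disc ρ K T f ∧ OnX c ρ f ∧
      cl.Mem ρ (Real.exp (g * T)) f} ⊆ ⋃ t ∈ I, B t := by
    rintro c ⟨hc, f, g1, g2, g3⟩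
    obtain ⟨i₀, i₁, k, t1, t2, t3, t4⟩ := true_step (M := M) hTrue hK hT hg hg3 hd hρ hm1 hCd b1
      (by linarith) b2 b3 hv hPt' hDv hMn hc.1 g1 g2 g3
    refine Set.mem_iUnion₂.2 ⟨(i₀, i₁, k), ?_, ⟨t1, t2, t3⟩, hc, t4⟩
    simp only [I, Finset.mem_product, Finset.mem_range, Nat.lt_succ_iff]
    exact ⟨by exact_mod_cast (by linarith : (i₀ : ℝ) ≤ m),
      by exact_mod_cast (by linarith : (i₁ : ℝ) ≤ m), t3⟩
  have hB : ∀ t, volume (B t) ≤ ENNReal.ofReal (CS * (p * (Fintype.card (Unk ν m) + a +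
      Fintype.card (Con ν N M))) ^ (2 * a) * (2 * ((d + 1 : ℕ) : ℝ) + 1) ^
        (2 * (Fintype.card (Unk ν m) + a)) / exp (104 * (K * T)) ^ (j + 1)) := fun t => by
    by_cases ht : (t.2.1 : ℝ) ≤ K * T ∧ (t.1 : ℝ) + T ≤ t.2.1 + Cm ∧ t.2.2 ≤ m
    · refine (measure_mono fun y hy => hy.2).trans (hS (Unk ν m) (Con ν N M) (d + 1) _
        (Usm ν d η) p _ (by omega) (gdeg ν d N m M cl _ hd) (isClosed_Usm η).measurableSet
        (Usm_subset η) hSp (exp_pos _) fun v v1 v2 v3 => ?_)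
      exact region_step hRg hν hK hT hg hg3 hC hc₀ hCd hD' hm3 hTm hCm hp1 hmp hMp e1 e2 e3 e4 e5
        e6 hv hω hPt' ht.1 ht.2.1 ht.2.2 v v1 v2 v3
    · rw [show B t = ∅ from Set.eq_empty_of_forall_notMem fun y hy => ht hy.1]; simp
  refine (measure_mono hcov).trans ((measure_biUnion_finset_le _ _).trans
    ((Finset.sum_le_card_nsmul _ _ _ fun t _ => hB t).trans ?_))
  have hI : I.card = (m + 1) ^ 3 := by simp [I]; ring
  rw [hI, nsmul_eq_mul, ← ENNReal.ofReal_natCast, ← ENNReal.ofReal_mul (by positivity)]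
  exact ENNReal.ofReal_le_ofReal (count_step hν hK hT hCS hj1 hm2 cκ hmp (by positivity) hxp e7)

end Pool.Agent.Lib.MP_45f16c_ag
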