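import Pool.Agent.Lib.MP_45f16c_ag.Stmts

/-! The area inequality with multiplicity (adapted from the library of MP_cdc9ab_al). -/

set_option autoImplicit false
open scoped ENNReal Topology
open Finset MeasureTheory

namespace Pool.Agent.Lib.MP_45f16c_ag

theorem area : AreaStmt := by
  intro E _ _ _ _ _ μ _ Φ U B N hΦ hU hB hN
  classical
  have : CompleteSpace E := FiniteDimensional.complete ℝ E
  let O := {s | (fderiv ℝ Φ s).det ≠ 0}
  have h1 : ∀ s ∈ O, ∃ V, IsOpen V ∧ s ∈ V ∧ V ⊆ O ∧ Set.InjOn Φ V := by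
    intro s hs
    have h2 := hΦ.contDiffAt.hasStrictFDerivAt (x := s) one_ne_zero
    let e := (fderiv ℝ Φ s).toContinuousLinearEquivOfDetNeZero hs
    have h3 : HasStrictFDerivAt Φ (e : E →L[ℝ] E) s := h2
    have h4 : ∀ᶠ t in 𝓝 s, (fderiv ℝ Φ t).det ≠ 0 :=
      (ContinuousLinearMap.continuous_det.continuousAt.comp
        (hΦ.contDiffAt.continuousAt_fderiv one_ne_zero)).eventually_ne hs
    obtain ⟨V, h5, h6, h7⟩ := mem_nhds_iff.1 (h3.eventually_left_inverse.and h4)
    exact ⟨V, h6, h7, fun t ht => (h5 ht).2, Set.LeftInvOn.injOn fun t ht => (h5 ht).1⟩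
  choose! V h2 h3 h4 h5 using h1
  obtain ⟨T, h6, h7, h8⟩ := TopologicalSpace.countable_cover_nhdsWithin (f := V) (s := O)
    fun s hs => mem_nhdsWithin_of_mem_nhds ((h2 s hs).mem_nhds (h3 s hs))
  have := h7.to_subtype
  obtain ⟨e, he⟩ := exists_surjective_nat (Option T)
  let V' : ℕ → Set E := fun k => (e k).elim ∅ fun t => V t ∩ U
  have h9 : ∀ k, MeasurableSet (V' k) ∧ V' k ⊆ O ∩ U ∧ Set.InjOn Φ (V' k) := fun k => by
    simp only [V']
    cases e k with
    | none => simp
    | some t =>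
      exact ⟨(h2 t (h6 t.2)).measurableSet.inter hU,
        Set.inter_subset_inter_left _ (h4 t (h6 t.2)), (h5 t (h6 t.2)).mono Set.inter_subset_left⟩
  let W := disjointed V'
  have hW : ∀ k, MeasurableSet (W k) := MeasurableSet.disjointed fun k => (h9 k).1
  have hW1 : ∀ k, W k ⊆ O ∩ U := fun k => (disjointed_subset V' k).trans (h9 k).2.1
  have hW2 : ∀ k, Set.InjOn Φ (W k) := fun k => (h9 k).2.2.mono (disjointed_subset V' k)
  have hW3 : ∀ k, ∀ x ∈ W k, HasFDerivWithinAt Φ (fderiv ℝ Φ x) (W k) x := fun k x _ =>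
    (hΦ.differentiable one_ne_zero x).hasFDerivAt.hasFDerivWithinAt
  have hI : ∀ k, MeasurableSet (Φ '' W k) := fun k =>
    measurable_image_of_fderivWithin (hW k) (hW3 k) (hW2 k)
  have h10 : O ∩ U ⊆ ⋃ k, W k := fun s hs => by
    obtain ⟨t, ht, h⟩ := Set.mem_iUnion₂.1 (h8 hs.1)
    obtain ⟨k, hk⟩ := he (some ⟨t, ht⟩)
    rw [iUnion_disjointed]
    exact Set.mem_iUnion.2 ⟨k, by simpa [V', hk] using ⟨h, hs.2⟩⟩
  calc ∫⁻ s in U, ENNReal.ofReal |(fderiv ℝ Φ s).det| ∂μ
      ≤ ∫⁻ s in ⋃ k, W k, ENNReal.ofReal |(fderiv ℝ Φ s).det| ∂μ := by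
        rw [← lintegral_indicator hU, ← lintegral_indicator (.iUnion hW)]
        refine lintegral_mono fun s => ?_
        by_cases hs' : s ∈ U
        · by_cases hs : s ∈ O
          · rw [Set.indicator_of_mem hs', Set.indicator_of_mem (h10 ⟨hs, hs'⟩)]
          · have : (fderiv ℝ Φ s).det = 0 := by simpa [O] using hs
            simp [Set.indicator_of_mem hs', this]
        · simp [Set.indicator_of_notMem hs']
    _ ≤ ∑' k, ∫⁻ s in W k, ENNReal.ofReal |(fderiv ℝ Φ s).det| ∂μ := lintegral_iUnion_le _ _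
    _ = ∑' k, ∫⁻ y, (Φ '' W k).indicator 1 y ∂μ := by
        refine tsum_congr fun k => ?_
        rw [lintegral_indicator_one (hI k),
          ← lintegral_abs_det_fderiv_eq_addHaar_image μ (hW k) (hW3 k) (hW2 k)]
    _ = ∫⁻ y, ∑' k, (Φ '' W k).indicator 1 y ∂μ :=
        (lintegral_tsum fun k => (measurable_one.indicator (hI k)).aemeasurable).symm
    _ ≤ ∫⁻ y, (⋃ k, Φ '' W k).indicator (fun _ => (N : ℝ≥0∞)) y ∂μ := by
        refine lintegral_mono fun y => ENNReal.summable.tsum_le_of_sum_le fun s => ?_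
        by_cases hy : y ∈ ⋃ k, Φ '' W k
        · rw [Set.indicator_of_mem hy]
          have h11 : ∀ k, y ∈ Φ '' W k → ∃ x ∈ W k, Φ x = y := fun _ h => h
          choose! x h12 h13 using h11
          have h14 := hN y ((s.filter fun k => y ∈ Φ '' W k).image x) fun t ht => by
            obtain ⟨k, hk, rfl⟩ := mem_image.1 ht
            have hk' := (mem_filter.1 hk).2
            exact ⟨h13 k hk', (hW1 k (h12 k hk')).1⟩
          rw [card_image_of_injOn fun k hk l hl e => by
            by_contra hne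
            exact Set.disjoint_left.1 (disjoint_disjointed V' hne)
              (h12 k (mem_filter.1 hk).2) (e ▸ h12 l (mem_filter.1 hl).2)] at h14
          simp only [Set.indicator_apply, Pi.one_apply, sum_boole]
          exact_mod_cast h14
        · rw [sum_eq_zero fun k _ => Set.indicator_of_notMem
            (fun h => hy (Set.mem_iUnion.2 ⟨k, h⟩)) _]
          exact zero_le
    _ = N * μ (⋃ k, Φ '' W k) := lintegral_indicator_const (.iUnion hI) _
    _ ≤ N * μ B := by
        gcongr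
        refine Set.iUnion_subset fun k => ?_
        rintro _ ⟨x, hx, rfl⟩
        exact hB x (hW1 k hx).2

end Pool.Agent.Lib.MP_45f16c_ag
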