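import Pool.Agent.Lib.MP_45f16c_ag.Basic

/-! Doubling for the Nevanlinna characteristic. -/

set_option autoImplicit false
open Metric MeasureTheory Real

namespace Pool.Agent.Lib.MP_45f16c_ag

noncomputable section

namespace DblAux

theorem circ (a : ℂ) (s θ x : ℝ) :
    circleMap (circleMap a s θ) s (2 * x + θ) = circleMap a (2 * s * cos x) (θ + x) := by
  simp only [circleMap]
  push_cast
  rw [Complex.cos]
  have e1 : Complex.exp (θ * Complex.I) =
      Complex.exp (-x * Complex.I) * Complex.exp ((θ + x) * Complex.I) := by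
    rw [← Complex.exp_add]; congr 1; ring
  have e2 : Complex.exp ((2 * x + θ) * Complex.I) =
      Complex.exp (x * Complex.I) * Complex.exp ((θ + x) * Complex.I) := by
    rw [← Complex.exp_add]; congr 1; ring
  rw [e1, e2]; ring

theorem int_avg (u : ℂ → ℝ) (c : ℂ) (R η : ℝ) :
    ∫ θ in (0 : ℝ)..2 * π, u (circleMap c R (θ + η)) = 2 * π * circleAverage u c R := by
  rw [circleAverage_eq_integral_add η, smul_eq_mul, ← mul_assoc,
    mul_inv_cancel₀ (by positivity), one_mul]

/-- The double average computed in two ways. -/
theorem swap {u : ℂ → ℝ} (hu : Continuous u) (a : ℂ) (s : ℝ) :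
    ∫ θ in (0 : ℝ)..2 * π, circleAverage u (circleMap a s θ) s =
      ∫ η in (0 : ℝ)..2 * π, circleAverage u a (2 * s * cos ((η - π / 3) / 2)) := by
  have hc : Continuous fun p : ℝ × ℝ =>
      u (circleMap a (2 * s * cos ((p.2 - π / 3) / 2)) (p.1 + (p.2 - π / 3) / 2)) := by
    unfold circleMap; fun_prop
  have h := intervalIntegral_intervalIntegral_swap (a := 0) (b := 2 * π) (c := 0) (d := 2 * π)
    (F := fun θ η => u (circleMap a (2 * s * cos ((η - π / 3) / 2)) (θ + (η - π / 3) / 2)))
    ((hc.continuousOn.integrableOn_compact (isCompact_uIcc.prod isCompact_uIcc)).mono_set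
      (Set.prod_mono Set.uIoc_subset_uIcc Set.uIoc_subset_uIcc))
  have e1 : ∀ θ : ℝ, ∫ η in (0 : ℝ)..2 * π,
      u (circleMap a (2 * s * cos ((η - π / 3) / 2)) (θ + (η - π / 3) / 2)) =
      2 * π * circleAverage u (circleMap a s θ) s := fun θ => by
    rw [← int_avg u _ s (θ - π / 3)]
    congr 1
    funext η
    rw [← circ]
    congr 2
    ring
  simp only [e1, int_avg, intervalIntegral.integral_const_mul] at h
  exact mul_left_cancel₀ (by positivity) h

end DblAux

open DblAux

theorem dbl (hM : MonoStmt) : DblStmt := by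
  intro ν f hf a s M hs h
  have hu := hf.continuous_lg
  have hπ := pi_pos
  have sw := swap hu a s
  have cA : Continuous fun η : ℝ => circleAverage (lg f) a (2 * s * cos ((η - π / 3) / 2)) :=
    (hu.circleAverage (c := a)).comp (by fun_prop)
  have cB : Continuous fun θ : ℝ => circleAverage (lg f) (circleMap a s θ) s := by
    simp only [circleAverage, smul_eq_mul]
    refine continuous_const.mul
      (intervalIntegral.continuous_parametric_intervalIntegral_of_continuous' ?_ _ _)
    unfold circleMap Function.uncurry
    fun_prop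
  have cC : Continuous fun θ : ℝ => lg f (circleMap a s θ) := hu.comp (continuous_circleMap a s)
  have up : ∫ θ in (0 : ℝ)..2 * π, circleAverage (lg f) (circleMap a s θ) s ≤
      ∫ θ in (0 : ℝ)..2 * π, (lg f (circleMap a s θ) + M) := by
    refine intervalIntegral.integral_mono_on (by positivity) (cB.intervalIntegrable _ _)
      ((cC.add continuous_const).intervalIntegrable _ _) fun θ _ => ?_
    have := h _ (circleMap_mem_closedBall a hs.le θ)
    unfold Tch at this
    linarith
  have e0 := int_avg (lg f) a s 0
  simp only [add_zero] at e0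
  rw [intervalIntegral.integral_add (cC.intervalIntegrable _ _) intervalIntegrable_const, e0,
    intervalIntegral.integral_const, sw, ← intervalIntegral.integral_add_adjacent_intervals
      (b := 2 * π / 3) (cA.intervalIntegrable _ _) (cA.intervalIntegrable _ _)] at up
  have l1 : ∫ _ in (0 : ℝ)..2 * π / 3, circleAverage (lg f) a (3 / 2 * s) ≤
      ∫ η in (0 : ℝ)..2 * π / 3, circleAverage (lg f) a (2 * s * cos ((η - π / 3) / 2)) := by
    refine intervalIntegral.integral_mono_on (by positivity) intervalIntegrable_const
      (cA.intervalIntegrable _ _) fun η hη => ?_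
    have a1 := one_sub_sq_div_two_le_cos (x := (η - π / 3) / 2)
    have a2 := pi_le_four
    have a3 : ((η - π / 3) / 2) ^ 2 ≤ (2 / 3) ^ 2 :=
      sq_le_sq' (by linarith [hη.1]) (by linarith [hη.2])
    have := (hM ν f hf a (3 / 2 * s) (2 * s * cos ((η - π / 3) / 2)) (by positivity)
      (by nlinarith)).2
    unfold Tch at this
    linarith
  have l2 : ∫ _ in (2 * π / 3 : ℝ)..2 * π, lg f a ≤
      ∫ η in (2 * π / 3 : ℝ)..2 * π, circleAverage (lg f) a (2 * s * cos ((η - π / 3) / 2)) := by
    refine intervalIntegral.integral_mono_on (by linarith) intervalIntegrable_const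
      (cA.intervalIntegrable _ _) fun η _ => ?_
    have := (hM ν f hf a _ _ (abs_nonneg (2 * s * cos ((η - π / 3) / 2))) le_rfl).1
    unfold Tch at this
    rw [circleAverage_abs_radius] at this
    linarith
  have h0 := h a (mem_closedBall_self hs.le)
  simp only [intervalIntegral.integral_const, smul_eq_mul] at l1 l2 up
  unfold Tch at h0 ⊢
  by_contra hn
  nlinarith

end

end Pool.Agent.Lib.MP_45f16c_ag
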