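import Mathlib

/-! Planar Cauchy integrals, holomorphic parameter integrals and the Pompeiu formula
(copied from the library of MP_dfc9b7_an). -/

set_option autoImplicit false
open Filter Topology Set Metric MeasureTheory
open scoped Real

namespace Pool.Agent.Lib.MP_45f16c_ag

noncomputable section

/-- Bounded measurable functions with bounded support. -/
structure BC (ψ : ℂ → ℂ) (Λ : ℝ) : Prop where
  meas : AEStronglyMeasurable ψ volume
  bd : ∀ w, ‖ψ w‖ ≤ Λ
  supp : ∃ R, ∀ w, R < ‖w‖ → ψ w = 0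

/-- Planar Cauchy integral. -/
def CI (ψ : ℂ → ℂ) (z : ℂ) : ℂ := ∫ w, ψ w / (w - z)

variable {ψ : ℂ → ℂ} {Λ : ℝ}

theorem BC.nonneg (h : BC ψ Λ) : 0 ≤ Λ := (norm_nonneg _).trans (h.bd 0)

theorem BC.integrable (h : BC ψ Λ) : Integrable ψ := by
  obtain ⟨R, hR⟩ := h.supp
  refine Integrable.mono' (g := indicator (closedBall 0 R) fun _ => Λ)
    ((integrable_indicator_iff measurableSet_closedBall).2
      (integrableOn_const measure_closedBall_lt_top.ne)) h.meas (ae_of_all _ fun w => ?_)
  by_cases hw : w ∈ closedBall (0:ℂ) R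
  · rw [indicator_of_mem hw]; exact h.bd w
  · rw [indicator_of_notMem hw, hR w (by simpa using hw), norm_zero]

theorem inv_ball_integrable (z : ℂ) (r : ℝ) :
    Integrable (indicator (ball z r) fun w => ‖w - z‖⁻¹) := by
  have h1 : IntegrableOn (fun w : ℂ => ‖w‖⁻¹) (ball 0 r) :=
    integrableOn_ball_of_norm_le_rpow (C := 1) (α := 1) (by simp) (by simp)
      (ae_of_all _ fun w => by simp [Real.rpow_neg_one]) (by fun_prop)
  have h2 := ((integrable_indicator_iff measurableSet_ball).2 h1).comp_sub_right z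
  refine h2.congr (ae_of_all _ fun w => ?_)
  simp only [indicator, mem_ball, dist_eq_norm, sub_zero]

theorem inv_ball_integral (z : ℂ) {r : ℝ} (hr : 0 < r) :
    ∫ w, indicator (ball z r) (fun w => ‖w - z‖⁻¹) w = 2 * π * r := by
  have h1 := integral_fun_norm_addHaar (volume : Measure ℂ) (indicator (Iio r) fun y : ℝ => y⁻¹)
  have h2 := integral_sub_right_eq_self (μ := (volume : Measure ℂ))
    (fun w : ℂ => indicator (Iio r) (fun y : ℝ => y⁻¹) ‖w‖) z
  have e1 : ∫ w, indicator (ball z r) (fun w => ‖w - z‖⁻¹) w =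
      ∫ w : ℂ, indicator (Iio r) (fun y : ℝ => y⁻¹) ‖w - z‖ :=
    integral_congr_ae (ae_of_all _ fun w => by simp only [indicator, mem_ball, dist_eq_norm, mem_Iio])
  have e2 : ∫ y in Ioi (0:ℝ), y ^ (Module.finrank ℝ ℂ - 1) • indicator (Iio r) (fun y : ℝ => y⁻¹) y
      = r := by
    rw [setIntegral_congr_fun (g := indicator (Iio r) fun _ => (1:ℝ)) measurableSet_Ioi
      fun y hy => by
        have : y ≠ 0 := ne_of_gt hy
        simp only [indicator, Complex.finrank_real_complex]
        split_ifs <;> simp [this], integral_indicator measurableSet_Iio,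
      Measure.restrict_restrict measurableSet_Iio, Iio_inter_Ioi]
    simp [hr.le]
  rw [e1, h2, h1, e2]
  simp [Measure.real, Complex.volume_ball]
  ring

theorem BC.div_le (h : BC ψ Λ) (z : ℂ) {r : ℝ} (hr : 0 < r) (w : ℂ) :
    ‖ψ w / (w - z)‖ ≤ Λ * indicator (ball z r) (fun w => ‖w - z‖⁻¹) w + ‖ψ w‖ / r := by
  rw [norm_div]
  by_cases hw : w ∈ ball z r
  · rw [indicator_of_mem hw, ← div_eq_mul_inv]
    have := div_le_div_of_nonneg_right (h.bd w) (norm_nonneg (w - z))
    have : 0 ≤ ‖ψ w‖ / r := by positivity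
    linarith
  · rw [indicator_of_notMem hw, mul_zero, zero_add]
    rw [mem_ball, dist_eq_norm, not_lt] at hw
    exact div_le_div_of_nonneg_left (norm_nonneg _) hr hw

theorem BC.integrable_div (h : BC ψ Λ) (z : ℂ) : Integrable fun w => ψ w / (w - z) :=
  Integrable.mono' (((inv_ball_integrable z 1).const_mul Λ).add (h.integrable.norm.div_const 1))
    (h.meas.mul (by fun_prop : Measurable fun w : ℂ => (w - z)⁻¹).aestronglyMeasurable)
    (ae_of_all _ fun w => h.div_le z one_pos w)

theorem BC.int_div_le (h : BC ψ Λ) (z : ℂ) {r : ℝ} (hr : 0 < r) :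
    ∫ w, ‖ψ w / (w - z)‖ ≤ 2 * π * Λ * r + (∫ w, ‖ψ w‖) / r := by
  refine (integral_mono (h.integrable_div z).norm
    (((inv_ball_integrable z r).const_mul Λ).add (h.integrable.norm.div_const r))
    fun w => h.div_le z hr w).trans (le_of_eq ?_)
  rw [integral_add' ((inv_ball_integrable z r).const_mul Λ) (h.integrable.norm.div_const r),
    integral_const_mul, inv_ball_integral z hr, integral_div]
  ring

theorem BC.norm_CI_le (h : BC ψ Λ) (z : ℂ) {r : ℝ} (hr : 0 < r) :
    ‖CI ψ z‖ ≤ 2 * π * Λ * r + (∫ w, ‖ψ w‖) / r :=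
  (norm_integral_le_integral_norm _).trans (h.int_div_le z hr)

theorem int_norm_le_of_ball {c : ℂ} {R : ℝ} (hR : 0 ≤ R) (h : ∀ w, ‖ψ w‖ ≤ Λ)
    (h0 : ∀ w, R < ‖w - c‖ → ψ w = 0) : ∫ w, ‖ψ w‖ ≤ Λ * (π * R ^ 2) := by
  have h1 : ∫ w, ‖ψ w‖ ≤ ∫ w, indicator (closedBall c R) (fun _ => Λ) w := by
    refine integral_mono_of_nonneg (ae_of_all _ fun w => norm_nonneg _)
      ((integrable_indicator_iff measurableSet_closedBall).2
        (integrableOn_const measure_closedBall_lt_top.ne)) (ae_of_all _ fun w => ?_)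
    by_cases hw : w ∈ closedBall c R
    · simp only [indicator_of_mem hw]; exact h w
    · simp only [indicator_of_notMem hw]
      rw [h0 w (by simpa [dist_eq_norm] using hw), norm_zero]
  refine h1.trans (le_of_eq ?_)
  rw [integral_indicator measurableSet_closedBall, setIntegral_const]
  simp [Measure.real, Complex.volume_closedBall, hR]
  ring

theorem BC.norm_CI_le_ball (h : BC ψ Λ) {c : ℂ} {R : ℝ} (hR : 0 < R)
    (h0 : ∀ w, R < ‖w - c‖ → ψ w = 0) (z : ℂ) : ‖CI ψ z‖ ≤ 3 * π * Λ * R := by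
  refine (h.norm_CI_le z hR).trans ?_
  have := div_le_div_of_nonneg_right (int_norm_le_of_ball hR.le h.bd h0) hR.le
  have e : Λ * (π * R ^ 2) / R = π * Λ * R := by field_simp
  linarith

theorem differentiableOn_param {U : Set ℂ} (hU : IsOpen U) {G : ℂ → ℂ → ℂ} {B : ℂ → ℝ}
    (hm : ∀ z ∈ U, AEStronglyMeasurable (G z) volume)
    (hd : ∀ w, DifferentiableOn ℂ (fun z => G z w) U) (hb : ∀ z ∈ U, ∀ w, ‖G z w‖ ≤ B w)
    (hB : Integrable B) : DifferentiableOn ℂ (fun z => ∫ w, G z w) U := by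
  intro z₀ hz₀
  obtain ⟨r, hr, hrU⟩ := Metric.isOpen_iff.1 hU z₀ hz₀
  have hsub : ∀ z ∈ ball z₀ (r / 2), ball z (r / 2) ⊆ U := fun z hz =>
    (ball_subset_ball' (by rw [mem_ball] at hz; linarith)).trans hrU
  have hmem : ∀ z ∈ ball z₀ (r / 2), z ∈ U := fun z hz => hsub z hz (mem_ball_self (by linarith))
  have key := hasDerivAt_integral_of_dominated_loc_of_deriv_le (μ := volume) (F := G)
    (ball_mem_nhds z₀ (half_pos hr)) (F' := fun z w => deriv (fun z => G z w) z)
    (bound := fun w => 2 * B w / (r / 2))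
    (by filter_upwards [hU.mem_nhds hz₀] with z hz using hm z hz)
    (hB.mono' (hm z₀ hz₀) (ae_of_all _ (hb z₀ hz₀))) ?_
    (ae_of_all _ fun w z hz => ?_) ((hB.const_mul 2).div_const _)
    (ae_of_all _ fun w z hz => ((hd w).differentiableAt (hU.mem_nhds (hmem z hz))).hasDerivAt)
  · exact key.2.differentiableAt.differentiableWithinAt
  · set t : ℕ → ℂ := fun n => ((r / 4 / (n + 1) : ℝ) : ℂ) with ht
    have ht0 : ∀ n, t n ≠ 0 := fun n => by
      simp only [ht]; exact_mod_cast (by positivity : r / 4 / ((n:ℝ) + 1) ≠ 0)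
    have ht1 : Tendsto t atTop (𝓝[≠] 0) := by
      refine tendsto_nhdsWithin_iff.2 ⟨?_, Eventually.of_forall ht0⟩
      have := (Complex.continuous_ofReal.tendsto 0).comp
        (tendsto_const_div_atTop_nhds_zero_nat (r / 4) |>.comp (tendsto_add_atTop_nat 1))
      refine this.congr fun n => by simp [ht]
    have ht2 : ∀ n, z₀ + t n ∈ U := fun n => hrU (by
      rw [mem_ball, dist_eq_norm, add_sub_cancel_left, ht, Complex.norm_real,
        Real.norm_of_nonneg (by positivity)]
      have : r / 4 / ((n:ℝ) + 1) ≤ r / 4 := div_le_self (by positivity) (by simp)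
      linarith)
    refine aestronglyMeasurable_of_tendsto_ae atTop
      (f := fun n w => (t n)⁻¹ • (G (z₀ + t n) w - G z₀ w))
      (fun n => ((hm _ (ht2 n)).sub (hm _ hz₀)).const_smul (t n)⁻¹) (ae_of_all _ fun w => ?_)
    exact (((hd w).differentiableAt (hU.mem_nhds hz₀)).hasDerivAt.tendsto_slope_zero).comp ht1
  · refine Complex.norm_deriv_le_div_of_mapsTo_ball ((hd w).mono (hsub z hz)) (fun u hu => ?_)
      (half_pos hr)
    rw [mem_closedBall, dist_eq_norm]
    linarith [norm_sub_le (G u w) (G z w), hb u (hsub z hz hu) w, hb z (hmem z hz) w]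

/-- The conjugate Wirtinger derivative. -/
def dbar (φ : ℂ → ℂ) (w : ℂ) : ℂ := (fderiv ℝ φ w 1 + Complex.I * fderiv ℝ φ w Complex.I) / 2

theorem norm_dbar_le (φ : ℂ → ℂ) (w : ℂ) : ‖dbar φ w‖ ≤ ‖fderiv ℝ φ w‖ := by
  unfold dbar
  have h1 := (fderiv ℝ φ w).le_opNorm 1
  have h2 := (fderiv ℝ φ w).le_opNorm Complex.I
  have h3 := norm_add_le (fderiv ℝ φ w 1) (Complex.I * fderiv ℝ φ w Complex.I)
  simp only [norm_one, mul_one, Complex.norm_I, norm_mul, one_mul] at h1 h2 h3
  rw [norm_div, Complex.norm_two]; linarith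

theorem clm_polar (A : ℂ →L[ℝ] ℂ) (e : ℂ) :
    A e + Complex.I * A (Complex.I * e) = (A 1 + Complex.I * A Complex.I) * (starRingEnd ℂ) e := by
  have h0 : ∀ x y : ℝ, A (x + y * Complex.I) = x * A 1 + y * A Complex.I := fun x y => by
    have : (x + y * Complex.I : ℂ) = x • (1:ℂ) + y • Complex.I := by simp
    rw [this, map_add, map_smul, map_smul, Complex.real_smul, Complex.real_smul]
  have h1 := h0 e.re e.im
  have h2 := h0 (-e.im) e.re
  have h3 : (starRingEnd ℂ) e = e.re - e.im * Complex.I := by apply Complex.ext <;> simp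
  have h4 : Complex.I * e = ((-e.im : ℝ) : ℂ) + e.re * Complex.I := by apply Complex.ext <;> simp
  rw [Complex.re_add_im] at h1
  rw [h4, h1, h2, h3]
  push_cast
  linear_combination (A Complex.I * e.im) * Complex.I_mul_I

theorem pompeiu {φ : ℂ → ℂ} (h1 : ContDiff ℝ 1 φ) (h2 : HasCompactSupport φ) (z : ℂ) :
    CI (dbar φ) z = -π * φ z := by
  have hd := h1.differentiable one_ne_zero
  have hc : Continuous (fderiv ℝ φ) := h1.continuous_fderiv one_ne_zero
  obtain ⟨R, hR0, hR⟩ := h2.isCompact.isBounded.subset_closedBall_lt 0 z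
  set e : ℝ → ℂ := fun θ => (Real.cos θ : ℂ) + (Real.sin θ : ℂ) * Complex.I with he
  have hen : ∀ θ, ‖e θ‖ = 1 := fun θ => by
    simp only [he]; push_cast; rw [← Complex.exp_mul_I]; simp
  have hec : Continuous e := by simp only [he]; fun_prop
  have hfar : ∀ (r θ : ℝ), R < r → z + r * e θ ∉ tsupport φ := fun r θ hr hm => by
    have := hR hm
    rw [mem_closedBall, dist_eq_norm, add_sub_cancel_left, norm_mul, hen, mul_one,
      Complex.norm_real, Real.norm_of_nonneg (by linarith)] at this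
    linarith
  have hint : ∀ v : ℝ → ℂ, Continuous v → (∀ θ, ‖v θ‖ = 1) →
      IntegrableOn (fun p : ℝ × ℝ => fderiv ℝ φ (z + p.1 * e p.2) (v p.2))
        (Ioi 0 ×ˢ Ioo (-π) π) := by
    intro v hv hv1
    have hcont : Continuous fun p : ℝ × ℝ => fderiv ℝ φ (z + p.1 * e p.2) (v p.2) :=
      (hc.comp (by fun_prop)).clm_apply (by fun_prop)
    refine IntegrableOn.of_forall_sdiff_eq_zero (s := Icc 0 R ×ˢ Icc (-π) π)
      (hcont.continuousOn.integrableOn_compact (isCompact_Icc.prod isCompact_Icc))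
      (measurableSet_Ioi.prod measurableSet_Ioo) fun p hp => ?_
    have : R < p.1 := by
      by_contra hc
      exact hp.2 ⟨⟨hp.1.1.le, not_lt.1 hc⟩, hp.1.2.1.le, hp.1.2.2.le⟩
    rw [fderiv_of_notMem_tsupport ℝ (hfar _ _ this)]; rfl
  have i1 := hint e hec hen
  have i2 := hint (fun θ => Complex.I * e θ) (by fun_prop) (fun θ => by simp [hen])
  have e1 : CI (dbar φ) z = ∫ p : ℝ × ℝ in Ioi 0 ×ˢ Ioo (-π) π,
      (fderiv ℝ φ (z + p.1 * e p.2) (e p.2) +
        Complex.I * fderiv ℝ φ (z + p.1 * e p.2) (Complex.I * e p.2)) / 2 := by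
    unfold CI
    rw [← integral_add_left_eq_self _ z, ← Complex.integral_comp_polarCoord_symm]
    refine setIntegral_congr_fun (measurableSet_Ioi.prod measurableSet_Ioo) fun p hp => ?_
    have hp0 : (p.1 : ℂ) ≠ 0 := by exact_mod_cast ne_of_gt hp.1
    have he0 : e p.2 ≠ 0 := fun h => by have := hen p.2; rw [h] at this; simp at this
    have hm : e p.2 * (starRingEnd ℂ) (e p.2) = 1 := by rw [Complex.mul_conj', hen]; simp
    simp only [Complex.polarCoord_symm_apply, add_sub_cancel_left, clm_polar, dbar,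
      Complex.real_smul]
    change (p.1 : ℂ) * (_ / 2 / (p.1 * e p.2)) = _
    field_simp
    linear_combination (-(fderiv ℝ φ (z + p.1 * e p.2) 1 +
      Complex.I * fderiv ℝ φ (z + p.1 * e p.2) Complex.I)) * hm
  have e2 : ∫ p : ℝ × ℝ in Ioi 0 ×ˢ Ioo (-π) π, fderiv ℝ φ (z + p.1 * e p.2) (e p.2) = -(2 * π) * φ z := by
    have i1' := i1
    rw [IntegrableOn, Measure.volume_eq_prod, ← Measure.prod_restrict] at i1'
    rw [Measure.volume_eq_prod, ← Measure.prod_restrict, integral_prod_symm _ i1']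
    have : ∀ θ, ∫ r in Ioi (0:ℝ), fderiv ℝ φ (z + r * e θ) (e θ) = -φ z := by
      intro θ
      have hder : ∀ r : ℝ, HasDerivAt (fun r : ℝ => φ (z + r * e θ))
          (fderiv ℝ φ (z + r * e θ) (e θ)) r := fun r =>
        (hd _).hasFDerivAt.comp_hasDerivAt r (by
          simpa using ((Complex.ofRealCLM.hasDerivAt (x := r)).mul_const (e θ)).const_add z)
      have hcont : Continuous fun r : ℝ => fderiv ℝ φ (z + r * e θ) (e θ) :=
        (hc.comp (by fun_prop)).clm_apply (by fun_prop)
      rw [integral_Ioi_of_hasDerivAt_of_tendsto' (m := 0) (fun r _ => hder r)]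
      · simp
      · refine IntegrableOn.of_forall_sdiff_eq_zero (s := Icc 0 R)
          (hcont.continuousOn.integrableOn_compact isCompact_Icc) measurableSet_Ioi fun r hr => ?_
        have : R < r := by
          by_contra hc
          exact hr.2 ⟨hr.1.le, not_lt.1 hc⟩
        rw [fderiv_of_notMem_tsupport ℝ (hfar _ _ this)]; rfl
      · refine tendsto_const_nhds.congr' ?_
        filter_upwards [eventually_gt_atTop R] with r hr
        exact (image_eq_zero_of_notMem_tsupport (hfar _ _ hr)).symm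
    simp only [this]
    rw [setIntegral_const]
    simp [Real.pi_pos.le, ← two_mul]
  have e3 : ∫ p : ℝ × ℝ in Ioi 0 ×ˢ Ioo (-π) π,
      fderiv ℝ φ (z + p.1 * e p.2) (Complex.I * e p.2) = 0 := by
    rw [Measure.volume_eq_prod, setIntegral_prod _ (by rwa [← Measure.volume_eq_prod])]
    refine setIntegral_eq_zero_of_forall_eq_zero fun r hr => ?_
    have hr0 : (r : ℂ) ≠ 0 := by exact_mod_cast ne_of_gt hr
    have hder : ∀ θ : ℝ, HasDerivAt (fun θ : ℝ => (r : ℂ)⁻¹ * φ (z + r * e θ))
        (fderiv ℝ φ (z + r * e θ) (Complex.I * e θ)) θ := fun θ => by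
      have a1 : HasDerivAt e (Complex.I * e θ) θ := by
        have := ((Real.hasDerivAt_cos θ).ofReal_comp).add
          (((Real.hasDerivAt_sin θ).ofReal_comp).mul_const Complex.I)
        refine HasDerivAt.congr_deriv this ?_
        simp only [he]; push_cast
        linear_combination (-Complex.sin θ) * Complex.I_mul_I
      have a2 := ((hd _).hasFDerivAt.comp_hasDerivAt θ
        ((a1.const_mul (r : ℂ)).const_add z)).const_mul (r : ℂ)⁻¹
      refine HasDerivAt.congr_deriv a2 ?_
      rw [← Complex.real_smul (x := r) (z := Complex.I * e θ), map_smul, Complex.real_smul]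
      field_simp
    have hcont : Continuous fun θ : ℝ => fderiv ℝ φ (z + r * e θ) (Complex.I * e θ) :=
      (hc.comp (by fun_prop)).clm_apply (by fun_prop)
    rw [← integral_Ioc_eq_integral_Ioo, ← intervalIntegral.integral_of_le (by linarith [Real.pi_pos]),
      intervalIntegral.integral_eq_sub_of_hasDerivAt (fun θ _ => hder θ)
        (hcont.intervalIntegrable _ _)]
    simp [he]
  rw [e1, integral_div, integral_add i1 (i2.const_mul _), integral_const_mul, e2, e3]
  ring

end

end Pool.Agent.Lib.MP_45f16c_ag
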