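import Pool.Agent.Lib.MP_45f16c_ag.Basic
import Pool.Agent.Lib.MP_45f16c_ag.CI

/-! Division with bounds through an explicit integral formula. -/

set_option autoImplicit false
open Filter Topology Set Metric MeasureTheory
open scoped Real ComplexConjugate

namespace Pool.Agent.Lib.MP_45f16c_ag

noncomputable section

namespace DivAux

/-- `φ` is real differentiable at `w` with conjugate Wirtinger derivative `B`. -/
def DB (φ : ℂ → ℂ) (w B : ℂ) : Prop := DifferentiableAt ℝ φ w ∧ dbar φ w = B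

variable {φ ψ : ℂ → ℂ} {w B C : ℂ}

theorem DB.mul (h : DB φ w B) (h' : DB ψ w C) :
    DB (fun z => φ z * ψ z) w (B * ψ w + φ w * C) := by
  refine ⟨h.1.mul h'.1, ?_⟩
  rw [← h.2, ← h'.2]
  unfold dbar
  rw [fderiv_fun_mul h.1 h'.1]
  simp only [add_apply, smul_apply, smul_eq_mul]
  ring

theorem DB.sum {ι : Type} (s : Finset ι) {g : ι → ℂ → ℂ} {D : ι → ℂ}
    (h : ∀ i ∈ s, DB (g i) w (D i)) : DB (fun z => ∑ i ∈ s, g i z) w (∑ i ∈ s, D i) := by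
  refine ⟨DifferentiableAt.fun_sum fun i hi => (h i hi).1, ?_⟩
  rw [← Finset.sum_congr rfl fun i hi => (h i hi).2]
  unfold dbar
  rw [fderiv_fun_sum fun i hi => (h i hi).1]
  simp only [sum_apply, Finset.mul_sum, ← Finset.sum_div,
    Finset.sum_add_distrib]

theorem DB.hol (h : HasDerivAt φ B w) : DB φ w 0 := by
  have h1 := h.hasFDerivAt.restrictScalars ℝ
  refine ⟨h1.differentiableAt, ?_⟩
  unfold dbar
  rw [h1.fderiv]
  simp only [ContinuousLinearMap.coe_restrictScalars', ContinuousLinearMap.toSpanSingleton_apply,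
    smul_eq_mul]
  linear_combination (B / 2) * Complex.I_mul_I

theorem DB.cj (h : HasDerivAt φ B w) : DB (fun z => conj (φ z)) w (conj B) := by
  have h1 := Complex.conjCLE.toContinuousLinearMap.hasFDerivAt.comp w
    (h.hasFDerivAt.restrictScalars ℝ)
  refine ⟨h1.differentiableAt, ?_⟩
  unfold dbar
  rw [show (fun z => conj (φ z)) = Complex.conjCLE.toContinuousLinearMap ∘ φ from rfl, h1.fderiv]
  simp only [ContinuousLinearMap.comp_apply, ContinuousLinearMap.coe_restrictScalars',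
    ContinuousLinearMap.toSpanSingleton_apply, smul_eq_mul, ContinuousLinearEquiv.coe_coe,
    Complex.conjCLE_apply, map_mul, map_one, Complex.conj_I]
  linear_combination (-conj B / 2) * Complex.I_mul_I

theorem DB.inv (h : DB φ w B) (h0 : φ w ≠ 0) : DB (fun z => (φ z)⁻¹) w (-B / φ w ^ 2) := by
  have h1 := (hasDerivAt_inv h0).comp_hasFDerivAt w h.1.hasFDerivAt
  refine ⟨h1.differentiableAt, ?_⟩
  rw [← h.2]
  unfold dbar
  rw [show (fun z => (φ z)⁻¹) = (fun y => y⁻¹) ∘ φ from rfl, h1.fderiv]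
  simp only [smul_apply, smul_eq_mul]
  ring

variable {ν : ℕ}

/-- The square of the Euclidean norm. -/
def nn (x : Fin ν → ℂ) : ℂ := ∑ a, x a * conj (x a)

/-- The dual vector. -/
def kk (x : Fin ν → ℂ) (a : Fin ν) : ℂ := conj (x a) * (nn x)⁻¹

/-- The conjugate Wirtinger derivative of the dual vector. -/
def mm (x y : Fin ν → ℂ) (a : Fin ν) : ℂ :=
  conj (y a) * (nn x)⁻¹ + conj (x a) * (-(∑ b, x b * conj (y b)) / nn x ^ 2)

theorem le_nn (x : Fin ν → ℂ) : ‖x‖ ^ 2 ≤ ‖nn x‖ := by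
  have h1 : nn x = ((∑ a, ‖x a‖ ^ 2 : ℝ) : ℂ) := by
    simp [nn, Complex.mul_conj']
  have h2 : 0 ≤ ∑ a, ‖x a‖ ^ 2 := Finset.sum_nonneg fun a _ => sq_nonneg _
  rw [h1, Complex.norm_real, Real.norm_of_nonneg h2]
  refine (Real.le_sqrt (norm_nonneg _) h2).1 ((pi_norm_le_iff_of_nonneg (Real.sqrt_nonneg _)).2
    fun a => Real.le_sqrt_of_sq_le ?_)
  exact Finset.single_le_sum (f := fun a => ‖x a‖ ^ 2) (fun a _ => sq_nonneg _) (Finset.mem_univ a)

theorem nn_ne {x : Fin ν → ℂ} (h : x ≠ 0) : nn x ≠ 0 :=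
  norm_pos_iff.1 ((pow_pos (norm_pos_iff.2 h) 2).trans_le (le_nn x))

theorem inv_nn_le {x : Fin ν → ℂ} (h : x ≠ 0) : ‖(nn x)⁻¹‖ ≤ ‖x‖⁻¹ * ‖x‖⁻¹ := by
  rw [norm_inv, ← mul_inv, ← sq]
  exact inv_anti₀ (pow_pos (norm_pos_iff.2 h) 2) (le_nn x)

theorem kk_le {x : Fin ν → ℂ} (h : x ≠ 0) : ‖kk x‖ ≤ ‖x‖⁻¹ := by
  have h0 := norm_pos_iff.2 h
  refine (pi_norm_le_iff_of_nonneg (by positivity)).2 fun a => ?_
  rw [kk, norm_mul, Complex.norm_conj]
  refine (mul_le_mul (norm_le_pi_norm x a) (inv_nn_le h) (norm_nonneg _) h0.le).trans_eq ?_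
  field_simp

theorem lf_kk {x : Fin ν → ℂ} (h : x ≠ 0) : lf x (kk x) = 1 := by
  simp only [lf, kk, ← mul_assoc, ← Finset.sum_mul]
  exact mul_inv_cancel₀ (nn_ne h)

theorem lf_mm (x y : Fin ν → ℂ) : lf x (mm x y) = 0 := by
  simp only [lf, mm, mul_add, Finset.sum_add_distrib, ← mul_assoc, ← Finset.sum_mul]
  change _ + nn x * _ = 0
  by_cases h : nn x = 0
  · simp [h]
  · field_simp
    ring

theorem mm_le {x y : Fin ν → ℂ} (h : x ≠ 0) {Γ : ℝ} (hy : ‖y‖ ≤ Γ * ‖x‖) :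
    ‖mm x y‖ ≤ (1 + ν) * Γ * ‖x‖⁻¹ := by
  have h0 := norm_pos_iff.2 h
  have hΓ : 0 ≤ Γ := nonneg_of_mul_nonneg_left ((norm_nonneg _).trans hy) h0
  refine (pi_norm_le_iff_of_nonneg (by positivity)).2 fun a => ?_
  have h1 : ‖conj (y a) * (nn x)⁻¹‖ ≤ Γ * ‖x‖ * (‖x‖⁻¹ * ‖x‖⁻¹) := by
    rw [norm_mul, Complex.norm_conj]
    exact mul_le_mul ((norm_le_pi_norm y a).trans hy) (inv_nn_le h) (norm_nonneg _)
      (by positivity)
  have h2 : ‖∑ b, x b * conj (y b)‖ ≤ ν * ‖x‖ * (Γ * ‖x‖) := by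
    refine (norm_lf_le x fun b => conj (y b)).trans (mul_le_mul_of_nonneg_left ?_ (by positivity))
    refine (pi_norm_le_iff_of_nonneg (by positivity)).2 fun b => ?_
    rw [Complex.norm_conj]
    exact (norm_le_pi_norm y b).trans hy
  have h3 : ‖conj (x a) * (-(∑ b, x b * conj (y b)) / nn x ^ 2)‖ ≤
      ‖x‖ * (ν * ‖x‖ * (Γ * ‖x‖) * (‖x‖⁻¹ * ‖x‖⁻¹) ^ 2) := by
    rw [norm_mul, Complex.norm_conj, div_eq_mul_inv, norm_mul, norm_neg, ← inv_pow, norm_pow]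
    exact mul_le_mul (norm_le_pi_norm x a) (mul_le_mul h2
      (pow_le_pow_left₀ (norm_nonneg _) (inv_nn_le h) 2) (by positivity) (by positivity))
      (by positivity) h0.le
  refine (norm_add_le_of_le h1 h3).trans_eq ?_
  field_simp

theorem db_kk {f : ℂ → Fin ν → ℂ} {y : Fin ν → ℂ} (h : HasDerivAt f y w) (h0 : f w ≠ 0)
    (a : Fin ν) : DB (fun z => kk (f z) a) w (mm (f w) y a) := by
  have h1 := hasDerivAt_pi.1 h
  have h2 : DB (fun z => nn (f z)) w (∑ b, f w b * conj (y b)) := by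
    have := DB.sum Finset.univ fun b _ => (DB.hol (h1 b)).mul (DB.cj (h1 b))
    simpa only [zero_mul, zero_add, nn] using this
  exact (DB.cj (h1 a)).mul (h2.inv (nn_ne h0))

theorem db_lf {f : ℂ → Fin ν → ℂ} {y : Fin ν → ℂ} (h : HasDerivAt f y w) (h0 : f w ≠ 0)
    (x : Fin ν → ℂ) : DB (fun z => lf x (kk (f z))) w (lf x (mm (f w) y)) := by
  have := DB.sum Finset.univ fun a _ => (DB.hol (hasDerivAt_const w (x a))).mul (db_kk h h0 a)
  simpa only [zero_mul, zero_add, lf] using this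

/-- A cut-off function. -/
structure Cut (ρ M : ℝ) (χ : ℂ → ℂ) : Prop where
  cd : ContDiff ℝ 1 χ
  supp : tsupport χ ⊆ closedBall 0 (3 * ρ / 4)
  one : ∀ w : ℂ, ‖w‖ < 5 * ρ / 8 → χ w = 1 ∧ dbar χ w = 0
  bd : ∀ w, ‖χ w‖ ≤ 1 ∧ ‖dbar χ w‖ ≤ M

theorem dbar_of_notMem (h : w ∉ tsupport φ) : dbar φ w = 0 := by
  unfold dbar
  rw [fderiv_of_notMem_tsupport ℝ h]
  simp

theorem continuous_dbar (h : ContDiff ℝ 1 φ) : Continuous (dbar φ) := by
  have hc : Continuous (fderiv ℝ φ) := h.continuous_fderiv one_ne_zero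
  unfold dbar
  fun_prop

theorem exists_cut {ρ : ℝ} (hρ : 0 < ρ) : ∃ (M : ℝ) (χ : ℂ → ℂ), 0 ≤ M ∧ Cut ρ M χ := by
  let b : ContDiffBump (0 : ℂ) := ⟨5 * ρ / 8, 3 * ρ / 4, by positivity, by linarith⟩
  have h1 : ContDiff ℝ 1 fun w => (b w : ℂ) := Complex.ofRealCLM.contDiff.comp b.contDiff
  have h2 : tsupport (fun w => (b w : ℂ)) ⊆ closedBall 0 (3 * ρ / 4) := by
    refine (closure_mono fun w hw => ?_).trans b.tsupport_eq.subset
    simpa using hw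
  have h3 : HasCompactSupport (dbar fun w => (b w : ℂ)) :=
    HasCompactSupport.intro (isCompact_closedBall 0 (3 * ρ / 4)) fun w hw =>
      dbar_of_notMem fun h => hw (h2 h)
  obtain ⟨M, hM⟩ := (continuous_dbar h1).bounded_above_of_compact_support h3
  refine ⟨M, fun w => (b w : ℂ), (norm_nonneg _).trans (hM 0), h1, h2, fun w hw => ⟨?_, ?_⟩,
    fun w => ⟨?_, hM w⟩⟩
  · rw [b.one_of_mem_closedBall (by simpa using hw.le), Complex.ofReal_one]
  · have h4 : (fun w => (b w : ℂ)) =ᶠ[𝓝 w] fun _ => 1 := by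
      filter_upwards [b.eventuallyEq_one_of_mem_ball (x := w) (by simpa using hw)] with u hu
      rw [hu]; simp
    unfold dbar
    rw [h4.fderiv_eq]
    simp
  · rw [Complex.norm_real, Real.norm_of_nonneg b.nonneg]
    exact b.le_one

theorem Cut.out {ρ M : ℝ} {χ : ℂ → ℂ} (h : Cut ρ M χ) (hw : 3 * ρ / 4 < ‖w‖) :
    χ w = 0 ∧ dbar χ w = 0 := by
  have h1 : w ∉ tsupport χ := fun h1 => by
    have := h.supp h1
    rw [mem_closedBall_zero_iff] at this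
    linarith
  exact ⟨image_eq_zero_of_notMem_tsupport h1, dbar_of_notMem h1⟩

/-- The hypotheses of the division theorem. -/
structure Hyp (ρ Γ : ℝ) (f : ℂ → Fin ν → ℂ) (P : ℂ → ℂ) : Prop where
  pos : 0 < ρ
  one : 1 ≤ Γ
  df : DifferentiableOn ℂ f (ball 0 ρ)
  dP : DifferentiableOn ℂ P (ball 0 ρ)
  bd : ∀ z ∈ ball (0 : ℂ) ρ, f z ≠ 0 ∧ ‖deriv f z‖ ≤ Γ * ‖f z‖ ∧ ‖P z‖ ≤ Γ * ‖f z‖ ^ 2

variable {ρ Γ M : ℝ} {f : ℂ → Fin ν → ℂ} {P χ : ℂ → ℂ}

/-- The densities. -/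
def psi (f : ℂ → Fin ν → ℂ) (P χ : ℂ → ℂ) (x : Fin ν → ℂ) (a : Fin ν) (ζ : ℂ) : ℂ :=
  kk (f ζ) a * P ζ * (dbar χ ζ * lf x (kk (f ζ)) + 2 * χ ζ * lf x (mm (f ζ) (deriv f ζ)))

/-- The regular form of the kernel. -/
def ker (f : ℂ → Fin ν → ℂ) (P χ : ℂ → ℂ) (a : Fin ν) (z ζ : ℂ) : ℂ :=
  kk (f ζ) a * P ζ * (dbar χ ζ * lf (f z) (kk (f ζ)) / (ζ - z) -
    2 * χ ζ * lf (dslope f ζ z) (mm (f ζ) (deriv f ζ)))

theorem ker_eq (a : Fin ν) {z ζ : ℂ} (h : ζ ≠ z) :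
    ker f P χ a z ζ = psi f P χ (f z) a ζ / (ζ - z) := by
  have h1 : ζ - z ≠ 0 := sub_ne_zero.2 h
  have h2 : z - ζ ≠ 0 := sub_ne_zero.2 h.symm
  rw [ker, psi, dslope_of_ne f h.symm, slope_def_module, lf_smul_left, lf_sub_left, lf_mm]
  field_simp
  ring

theorem Hyp.mem (h : Hyp ρ Γ f P) {ζ : ℂ} (hζ : ‖ζ‖ ≤ 3 * ρ / 4) : ζ ∈ ball (0 : ℂ) ρ := by
  rw [mem_ball_zero_iff]; linarith [h.pos]

theorem Hyp.kP (h : Hyp ρ Γ f P) {ζ : ℂ} (hζ : ζ ∈ ball (0 : ℂ) ρ) (a : Fin ν) :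
    ‖kk (f ζ) a * P ζ‖ ≤ Γ * ‖f ζ‖ := by
  obtain ⟨h1, -, h3⟩ := h.bd ζ hζ
  have h0 := norm_pos_iff.2 h1
  rw [norm_mul]
  refine (mul_le_mul ((norm_le_pi_norm _ a).trans (kk_le h1)) h3 (norm_nonneg _)
    (by positivity)).trans_eq ?_
  field_simp

theorem Hyp.lk (h : Hyp ρ Γ f P) {ζ : ℂ} (hζ : ζ ∈ ball (0 : ℂ) ρ) (x : Fin ν → ℂ) :
    ‖lf x (kk (f ζ))‖ ≤ ν * ‖x‖ * ‖f ζ‖⁻¹ :=
  (norm_lf_le _ _).trans (mul_le_mul_of_nonneg_left (kk_le (h.bd ζ hζ).1) (by positivity))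

theorem Hyp.lm (h : Hyp ρ Γ f P) {ζ : ℂ} (hζ : ζ ∈ ball (0 : ℂ) ρ) (x : Fin ν → ℂ) :
    ‖lf x (mm (f ζ) (deriv f ζ))‖ ≤ ν * ‖x‖ * ((1 + ν) * Γ * ‖f ζ‖⁻¹) :=
  (norm_lf_le _ _).trans
    (mul_le_mul_of_nonneg_left (mm_le (h.bd ζ hζ).1 (h.bd ζ hζ).2.1) (by positivity))

theorem Hyp.two (h : Hyp ρ Γ f P) (hc : Cut ρ M χ) {ζ : ℂ} (hζ : ζ ∈ ball (0 : ℂ) ρ)
    (x : Fin ν → ℂ) :
    ‖2 * χ ζ * lf x (mm (f ζ) (deriv f ζ))‖ ≤ 2 * (ν * ‖x‖ * ((1 + ν) * Γ * ‖f ζ‖⁻¹)) := by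
  rw [norm_mul, norm_mul, Complex.norm_two]
  exact mul_le_mul (by linarith [(hc.bd ζ).1]) (h.lm hζ x) (norm_nonneg _) zero_le_two

theorem Hyp.contDiffAt_kk (h : Hyp ρ Γ f P) {ζ : ℂ} (hζ : ζ ∈ ball (0 : ℂ) ρ) (a : Fin ν) :
    ContDiffAt ℝ 1 (fun z => kk (f z) a) ζ := by
  have h1 : ContDiffAt ℝ 1 f ζ :=
    (h.df.analyticAt (isOpen_ball.mem_nhds hζ)).contDiffAt.restrict_scalars ℝ
  have h2 := contDiffAt_pi.1 h1
  have h3 : ∀ b, ContDiffAt ℝ 1 (fun z => conj (f z b)) ζ := fun b =>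
    Complex.conjCLE.contDiff.contDiffAt.comp ζ (h2 b)
  exact (h3 a).mul ((ContDiffAt.sum fun b _ => (h2 b).mul (h3 b)).inv (nn_ne (h.bd ζ hζ).1))

theorem Hyp.bc (h : Hyp ρ Γ f P) (hc : Cut ρ M χ) (hM : 0 ≤ M) (x : Fin ν → ℂ) (a : Fin ν) :
    BC (psi f P χ x a) ((ν * M + 2 * ν * (1 + ν)) * Γ ^ 2 * ‖x‖) ∧
      ∀ w : ℂ, 3 * ρ / 4 < ‖w - 0‖ → psi f P χ x a w = 0 := by
  have h0 : ∀ w : ℂ, 3 * ρ / 4 < ‖w‖ → psi f P χ x a w = 0 := fun w hw => by
    simp [psi, hc.out hw]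
  have hΓ := h.one
  refine ⟨⟨?_, fun w => ?_, _, h0⟩, fun w hw => h0 w (by simpa using hw)⟩
  · have c1 : ContinuousOn f (ball 0 ρ) := h.df.continuousOn
    have c2 : ContinuousOn (deriv f) (ball 0 ρ) := (h.df.deriv isOpen_ball).continuousOn
    have c3 := h.dP.continuousOn
    have c4 := hc.cd.continuous
    have c5 := continuous_dbar hc.cd
    have c6 : ∀ z ∈ ball (0 : ℂ) ρ, nn (f z) ≠ 0 := fun z hz => nn_ne (h.bd z hz).1
    have c7 : ContinuousOn (fun z => nn (f z)) (ball 0 ρ) := by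
      unfold nn; fun_prop
    have c8 := c7.inv₀ c6
    have c9 : ∀ b, ContinuousOn (fun z => kk (f z) b) (ball 0 ρ) := fun b => by
      unfold kk; fun_prop
    have c10 : ∀ b, ContinuousOn (fun z => mm (f z) (deriv f z) b) (ball 0 ρ) := fun b => by
      unfold mm
      refine ContinuousOn.add (by fun_prop) (ContinuousOn.mul (by fun_prop)
        (ContinuousOn.div (by fun_prop) (c7.pow 2) fun z hz => pow_ne_zero 2 (c6 z hz)))
    have c11 : ContinuousOn (psi f P χ x a) (ball 0 ρ) := by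
      unfold psi lf
      fun_prop
    have e : psi f P χ x a = indicator (ball 0 ρ) (psi f P χ x a) := by
      refine (indicator_eq_self.2 fun w hw => ?_).symm
      exact h.mem (not_lt.1 fun h1 => hw (h0 w h1))
    rw [e, aestronglyMeasurable_indicator_iff measurableSet_ball]
    exact c11.aestronglyMeasurable measurableSet_ball
  · rcases lt_or_ge (3 * ρ / 4) ‖w‖ with hw | hw
    · rw [h0 w hw, norm_zero]; positivity
    have hw' := h.mem hw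
    have h1 := norm_pos_iff.2 (h.bd w hw').1
    have h2 : ‖dbar χ w * lf x (kk (f w))‖ ≤ M * Γ * (ν * ‖x‖ * ‖f w‖⁻¹) := by
      rw [norm_mul]
      exact mul_le_mul ((hc.bd w).2.trans (le_mul_of_one_le_right hM hΓ)) (h.lk hw' x)
        (norm_nonneg _) (by positivity)
    rw [psi, norm_mul]
    refine (mul_le_mul (h.kP hw' a) (norm_add_le_of_le h2 (h.two hc hw' x)) (norm_nonneg _)
      (by positivity)).trans_eq ?_
    field_simp

theorem ker_ae (a : Fin ν) (z : ℂ) :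
    (fun ζ => psi f P χ (f z) a ζ / (ζ - z)) =ᵐ[volume] ker f P χ a z := by
  filter_upwards [Measure.ae_ne volume z] with ζ hζ
  exact (ker_eq a hζ).symm

theorem differentiableOn_lf {U : Set ℂ} {g : ℂ → Fin ν → ℂ} (hg : DifferentiableOn ℂ g U)
    (x : Fin ν → ℂ) : DifferentiableOn ℂ (fun z => lf (g z) x) U :=
  DifferentiableOn.fun_sum fun a _ => (differentiableOn_pi.1 hg a).mul_const _

theorem Hyp.far (hc : Cut ρ M χ) {z ζ : ℂ} (hz : z ∈ ball (0 : ℂ) (ρ / 2)) (hζ : dbar χ ζ ≠ 0) :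
    ρ / 8 ≤ ‖ζ - z‖ := by
  have h1 : 5 * ρ / 8 ≤ ‖ζ‖ := not_lt.1 fun h => hζ (hc.one ζ h).2
  rw [mem_ball_zero_iff] at hz
  linarith [norm_sub_norm_le ζ z]

theorem Hyp.diff (h : Hyp ρ Γ f P) (hc : Cut ρ M χ) (hM : 0 ≤ M) (a : Fin ν) :
    DifferentiableOn ℂ (fun z => CI (psi f P χ (f z) a) z) (ball 0 (ρ / 2)) := by
  have hρ := h.pos
  have hΓ := h.one
  have s1 : closedBall (0 : ℂ) (3 * ρ / 4) ⊆ ball 0 ρ := closedBall_subset_ball (by linarith)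
  have s2 : ball (0 : ℂ) (ρ / 2) ⊆ closedBall 0 (3 * ρ / 4) :=
    ball_subset_closedBall.trans (closedBall_subset_closedBall (by linarith))
  obtain ⟨F, hF⟩ := (isCompact_closedBall (0 : ℂ) (3 * ρ / 4)).exists_bound_of_continuousOn
    (h.df.continuousOn.mono s1)
  have hF0 : 0 ≤ F := (norm_nonneg _).trans (hF 0 (mem_closedBall_self (by positivity)))
  have hd : ∀ ζ ∈ closedBall (0 : ℂ) (3 * ρ / 4), ‖deriv f ζ‖ ≤ Γ * F := fun ζ hζ =>
    (h.bd ζ (s1 hζ)).2.1.trans (mul_le_mul_of_nonneg_left (hF ζ hζ) (by linarith))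
  have hs : ∀ ζ ∈ closedBall (0 : ℂ) (3 * ρ / 4), ∀ z ∈ closedBall (0 : ℂ) (3 * ρ / 4),
      ‖dslope f ζ z‖ ≤ Γ * F := fun ζ hζ z hz => by
    rcases eq_or_ne z ζ with rfl | hne
    · rw [dslope_same]; exact hd z hz
    · have h1 := (convex_closedBall (0 : ℂ) (3 * ρ / 4)).norm_image_sub_le_of_norm_deriv_le
        (fun u hu => h.df.differentiableAt (isOpen_ball.mem_nhds (s1 hu))) hd hζ hz
      have h2 := norm_pos_iff.2 (sub_ne_zero.2 hne)
      rw [dslope_of_ne f hne, slope_def_module, norm_smul, norm_inv, inv_mul_le_iff₀ h2]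
      linarith
  refine (differentiableOn_param (G := ker f P χ a) (B := indicator (closedBall 0 (3 * ρ / 4))
    fun _ => Γ * (M * (ν * F) / (ρ / 8) + 2 * (ν * (Γ * F) * ((1 + ν) * Γ)))) isOpen_ball
    (fun z _ => ((h.bc hc hM (f z) a).1.integrable_div z).aestronglyMeasurable.congr (ker_ae a z))
    (fun ζ => ?_) (fun z hz ζ => ?_) ((integrable_indicator_iff measurableSet_closedBall).2
      (integrableOn_const measure_closedBall_lt_top.ne))).congr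
    fun z _ => integral_congr_ae (ker_ae a z)
  · rcases lt_or_ge (3 * ρ / 4) ‖ζ‖ with hw | hw
    · simp [ker, hc.out hw]
    have d1 := h.df.mono (s2.trans s1)
    have d2 := ((Complex.differentiableOn_dslope (isOpen_ball.mem_nhds (h.mem hw))).2 h.df).mono
      (s2.trans s1)
    refine DifferentiableOn.const_mul (DifferentiableOn.sub ?_
      ((differentiableOn_lf d2 _).const_mul _)) _
    by_cases h0 : dbar χ ζ = 0
    · simp [h0]
    · refine ((differentiableOn_lf d1 _).const_mul _).div (by fun_prop) fun z hz => ?_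
      exact norm_pos_iff.1 (lt_of_lt_of_le (by positivity) (Hyp.far hc hz h0))
  · rcases lt_or_ge (3 * ρ / 4) ‖ζ‖ with hw | hw
    · rw [indicator_of_notMem (by simpa using hw)]
      simp [ker, hc.out hw]
    have hw' := h.mem hw
    have hw'' : ζ ∈ closedBall (0 : ℂ) (3 * ρ / 4) := mem_closedBall_zero_iff.2 hw
    have h1 := norm_pos_iff.2 (h.bd ζ hw').1
    have h2 : ‖dbar χ ζ * lf (f z) (kk (f ζ)) / (ζ - z)‖ ≤ M * (ν * F * ‖f ζ‖⁻¹) / (ρ / 8) := by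
      by_cases h0 : dbar χ ζ = 0
      · rw [h0, zero_mul, zero_div, norm_zero]; positivity
      rw [norm_div, norm_mul]
      refine div_le_div₀ (by positivity) (mul_le_mul (hc.bd ζ).2 ((h.lk hw' _).trans ?_)
        (norm_nonneg _) hM) (by positivity) (Hyp.far hc hz h0)
      gcongr
      exact hF z (s2 hz)
    have h3 : ‖2 * χ ζ * lf (dslope f ζ z) (mm (f ζ) (deriv f ζ))‖ ≤
        2 * (ν * (Γ * F) * ((1 + ν) * Γ * ‖f ζ‖⁻¹)) := by
      refine (h.two hc hw' _).trans ?_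
      gcongr
      exact hs ζ hw'' z (s2 hz)
    rw [indicator_of_mem hw'', ker, norm_mul]
    refine (mul_le_mul (h.kP hw' a) (norm_sub_le_of_le h2 h3) (norm_nonneg _)
      (by positivity)).trans_eq ?_
    field_simp

theorem Hyp.rep (h : Hyp ρ Γ f P) (hc : Cut ρ M χ) (hM : 0 ≤ M) {z : ℂ}
    (hz : z ∈ ball (0 : ℂ) (ρ / 2)) :
    ∑ a, CI (psi f P χ (f z) a) z * f z a = -π * P z := by
  have hρ := h.pos
  have s1 : closedBall (0 : ℂ) (3 * ρ / 4) ⊆ ball 0 ρ := closedBall_subset_ball (by linarith)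
  rw [mem_ball_zero_iff] at hz
  set x := f z with hx
  have t1 : tsupport (fun ζ => χ ζ * (P ζ * (lf x (kk (f ζ)) * lf x (kk (f ζ))))) ⊆
      closedBall 0 (3 * ρ / 4) := tsupport_mul_subset_left.trans hc.supp
  have t2 : ContDiff ℝ 1 fun ζ => χ ζ * (P ζ * (lf x (kk (f ζ)) * lf x (kk (f ζ)))) := by
    refine contDiff_iff_contDiffAt.2 fun ζ => ?_
    by_cases hζ : ζ ∉ tsupport fun ζ => χ ζ * (P ζ * (lf x (kk (f ζ)) * lf x (kk (f ζ))))
    · exact contDiffAt_const.congr_of_eventuallyEq (notMem_tsupport_iff_eventuallyEq.1 hζ)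
    have h1 := s1 (t1 (not_not.1 hζ))
    have h2 : ContDiffAt ℝ 1 P ζ :=
      (h.dP.analyticAt (isOpen_ball.mem_nhds h1)).contDiffAt.restrict_scalars ℝ
    have h3 : ContDiffAt ℝ 1 (fun ζ => lf x (kk (f ζ))) ζ :=
      ContDiffAt.sum fun a _ => contDiffAt_const.mul (h.contDiffAt_kk h1 a)
    exact hc.cd.contDiffAt.mul (h2.mul (h3.mul h3))
  have t3 := pompeiu t2 ((isCompact_closedBall _ _).of_isClosed_subset (isClosed_tsupport _) t1) z
  rw [(hc.one z (by linarith)).1, ← hx, lf_kk (h.bd z (h.mem (by linarith))).1] at t3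
  simp only [mul_one, one_mul] at t3
  rw [← t3]
  unfold CI
  simp only [← integral_mul_const]
  rw [← integral_finsetSum _ fun a _ => ((h.bc hc hM x a).1.integrable_div z).mul_const _]
  refine integral_congr_ae (ae_of_all _ fun ζ => ?_)
  simp only [div_mul_eq_mul_div, ← Finset.sum_div]
  congr 1
  rcases lt_or_ge (3 * ρ / 4) ‖ζ‖ with hw | hw
  · rw [dbar_of_notMem fun h1 => hw.not_ge (mem_closedBall_zero_iff.1 (t1 h1))]
    simp [psi, hc.out hw]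
  have hw' := isOpen_ball.mem_nhds (h.mem hw)
  have h1 := db_lf (h.df.differentiableAt hw').hasDerivAt (h.bd ζ (h.mem hw)).1 x
  have h2 : DB χ ζ (dbar χ ζ) := ⟨hc.cd.differentiable one_ne_zero ζ, rfl⟩
  rw [(h2.mul ((DB.hol (h.dP.differentiableAt hw').hasDerivAt).mul (h1.mul h1))).2]
  have h3 : ∑ a, psi f P χ x a ζ * x a = lf x (kk (f ζ)) * (P ζ * (dbar χ ζ * lf x (kk (f ζ)) +
      2 * χ ζ * lf x (mm (f ζ) (deriv f ζ)))) := by
    rw [lf, Finset.sum_mul]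
    exact Finset.sum_congr rfl fun a _ => by rw [psi, lf]; ring
  rw [h3]
  ring

end DivAux

open DivAux in
theorem divS : DivStmt := by
  intro ν ρ hρ
  obtain ⟨M, χ, hM, hc⟩ := exists_cut hρ
  refine ⟨3 * (ν * M + 2 * ν * (1 + ν)) * (3 * ρ / 4) + 1, by positivity,
    fun f P Γ hΓ hf hP hb => ?_⟩
  have h : Hyp ρ Γ f P := ⟨hρ, hΓ, hf, hP, hb⟩
  have hπ : (π : ℂ) ≠ 0 := by exact_mod_cast Real.pi_pos.ne'
  refine ⟨fun z a => -(π : ℂ)⁻¹ * CI (psi f P χ (f z) a) z,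
    differentiableOn_pi.2 fun a => (h.diff hc hM a).const_mul _, fun z hz => ⟨?_, ?_⟩⟩
  · simp only [lf, mul_assoc, ← Finset.mul_sum]
    rw [h.rep hc hM hz]
    field_simp
  · refine (pi_norm_le_iff_of_nonneg (by positivity)).2 fun a => ?_
    have h1 := (h.bc hc hM (f z) a).1.norm_CI_le_ball (by positivity) (h.bc hc hM (f z) a).2 z
    have h2 := Real.pi_pos
    rw [norm_mul, norm_neg, norm_inv, Complex.norm_real, Real.norm_of_nonneg h2.le,
      inv_mul_le_iff₀ h2]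
    have h3 : 0 ≤ π * (Γ ^ 2 * ‖f z‖) := by positivity
    linarith

end

end Pool.Agent.Lib.MP_45f16c_ag
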