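import Pool.Agent.Lib.MP_45f16c_ag.Basic

/-! Uniform global generation of the Koszul cycles. -/

set_option autoImplicit false
set_option linter.unusedSectionVars false
open Metric MvPolynomial
open scoped ComplexConjugate

namespace Pool.Agent.Lib.MP_45f16c_ag

noncomputable section

attribute [local irreducible] form

namespace GenAux

variable {ν d j t : ℕ} {ι : Type} [Fintype ι] [DecidableEq ι]

/-- Coefficients in degree `t`. -/
def cf (ν t : ℕ) : MvPolynomial (Fin ν) ℂ →ₗ[ℂ] (Mon ν t → ℂ) := LinearMap.pi fun m => lcoeff ℂ m.1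

theorem form_cf {P : MvPolynomial (Fin ν) ℂ} (hP : P.IsHomogeneous t) : form (cf ν t P) = P :=
  form_coeff hP

theorem cf_apply (P : MvPolynomial (Fin ν) ℂ) (m : Mon ν t) : cf ν t P m = coeff m.1 P := rfl

theorem cf_form (c : Mon ν t → ℂ) : cf ν t (form c) = c := funext fun m => by
  rw [cf_apply, coeff_form]

/-- The chain with the given coefficients. -/
def fm (Θ : Finset ι → Mon ν t → ℂ) : Finset ι → MvPolynomial (Fin ν) ℂ := fun s => form (Θ s)

theorem kos_hom {g : ι → MvPolynomial (Fin ν) ℂ} {ω : Finset ι → MvPolynomial (Fin ν) ℂ}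
    (hg : ∀ i, (g i).IsHomogeneous d) (hω : ∀ s, (ω s).IsHomogeneous t) (s : Finset ι) :
    (kos g ω s).IsHomogeneous (t + d) := by
  rw [kos_apply, Finset.sum_apply, add_comm]
  refine IsHomogeneous.sum _ _ _ fun i _ => (hg i).mul ?_
  rw [ann_apply]
  split_ifs
  · exact isHomogeneous_zero _ _ _
  · have h : (sg (MvPolynomial (Fin ν) ℂ) s i).IsHomogeneous 0 := by
      rw [← map_sg (C : ℂ →+* MvPolynomial (Fin ν) ℂ)]
      exact isHomogeneous_C _ _
    simpa using h.mul (hω _)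

theorem fm_smul (a : ℂ) (Θ : Finset ι → Mon ν t → ℂ) :
    fm (a • Θ) = (C a : MvPolynomial (Fin ν) ℂ) • fm Θ := by
  funext s
  simp only [fm, Pi.smul_apply, form_smul, smul_eq_mul, smul_eq_C_mul]

/-- The Koszul differential in coefficients. -/
def kc (ν d t : ℕ) (ι : Type) [Fintype ι] [DecidableEq ι] : (ι → Mon ν d → ℂ) →ₗ[ℂ]
    (Finset ι → Mon ν t → ℂ) →ₗ[ℂ] (Finset ι → Mon ν (t + d) → ℂ) :=
  LinearMap.mk₂ ℂ (fun g Θ s => cf ν (t + d) (kos (fun i => form (g i)) (fm Θ) s))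
    (fun g g' Θ => by
      have : (fun i => form ((g + g') i)) = (fun i => form (g i)) + fun i => form (g' i) :=
        funext fun i => form_add _ _
      funext s
      rw [this]
      simp only [kos_add, Pi.add_apply, map_add])
    (fun a g Θ => by
      have : (fun i => form ((a • g) i)) =
          (C a : MvPolynomial (Fin ν) ℂ) • fun i => form (g i) := funext fun i => by
        simp only [Pi.smul_apply, form_smul, smul_eq_mul, smul_eq_C_mul]
      funext s
      rw [this]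
      simp only [kos_smul, Pi.smul_apply, smul_eq_mul, ← smul_eq_C_mul, map_smul])
    (fun g Θ Θ' => by
      have : fm (Θ + Θ') = fm Θ + fm Θ' := funext fun s => form_add _ _
      funext s
      simp only [this, Pi.add_apply, map_add])
    (fun a g Θ => by
      funext s
      simp only [fm_smul, map_smul, Pi.smul_apply, smul_eq_mul, ← smul_eq_C_mul])

theorem kc_apply (g : ι → Mon ν d → ℂ) (Θ : Finset ι → Mon ν t → ℂ) (s : Finset ι) :
    kc ν d t ι g Θ s = cf ν (t + d) (kos (fun i => form (g i)) (fm Θ) s) := rfl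

theorem fm_kc (g : ι → Mon ν d → ℂ) (Θ : Finset ι → Mon ν t → ℂ) :
    fm (kc ν d t ι g Θ) = kos (fun i => form (g i)) (fm Θ) := funext fun s =>
  form_cf (kos_hom (fun _ => form_isHomogeneous _) (fun _ => form_isHomogeneous _) s)

theorem fm_zero : fm (0 : Finset ι → Mon ν t → ℂ) = 0 := funext fun _ => form_zero

theorem fm_inj {Θ Θ' : Finset ι → Mon ν t → ℂ} (h : fm Θ = fm Θ') : Θ = Θ' :=
  funext fun s => by rw [← cf_form (Θ s), ← cf_form (Θ' s)]; exact congrArg _ (congrFun h s)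

theorem hq_fm {q : ℕ} {Θ : Finset ι → Mon ν t → ℂ} : Hq q (fm Θ) ↔ Hq q Θ :=
  ⟨fun h s hs => by rw [← cf_form (Θ s)]; exact (congrArg _ (h s hs)).trans (map_zero _),
    fun h s hs => by rw [fm, h s hs, form_zero]⟩

theorem hq_ev {q : ℕ} {Θ : Finset ι → Mon ν t → ℂ} (h : Hq q Θ) (p : Fin ν → ℂ) :
    Hq q (evC Θ p) := fun s hs => by rw [evC, h s hs, form_zero, map_zero]

theorem evC_eq (Θ : Finset ι → Mon ν t → ℂ) (p : Fin ν → ℂ) :
    evC Θ p = fun s => eval p (fm Θ s) := rfl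

theorem ev_kc (g : ι → Mon ν d → ℂ) (Θ : Finset ι → Mon ν t → ℂ) (p : Fin ν → ℂ) :
    evC (kc ν d t ι g Θ) p = kos (fun i => eval p (form (g i))) (evC Θ p) := by
  rw [evC_eq, evC_eq, fm_kc]
  funext s
  rw [map_kos]

/-- Evaluation as a linear map. -/
def evL (ι : Type) (t : ℕ) (p : Fin ν → ℂ) : (Finset ι → Mon ν t → ℂ) →ₗ[ℂ] (Finset ι → ℂ) where
  toFun Θ := evC Θ p
  map_add' Θ Θ' := funext fun s => by
    rw [Pi.add_apply, evC, evC, evC, Pi.add_apply, form_add, map_add]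
  map_smul' a Θ := funext fun s => by
    rw [Pi.smul_apply, evC, evC, Pi.smul_apply, form_smul, smul_eval, smul_eq_mul, RingHom.id_apply]

/-- The part of exterior degree `q`. -/
def cut (ι β : Type) [AddCommGroup β] [Module ℂ β] (q : ℕ) : (Finset ι → β) →ₗ[ℂ] (Finset ι → β) where
  toFun Θ s := if s.card = q then Θ s else 0
  map_add' Θ Θ' := funext fun s => by by_cases h : s.card = q <;> simp [h]
  map_smul' a Θ := funext fun s => by by_cases h : s.card = q <;> simp [h]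

theorem hq_cut {β : Type} [AddCommGroup β] [Module ℂ β] (q : ℕ) (Θ : Finset ι → β) :
    Hq q (cut ι β q Θ) := fun _ hs => if_neg hs

theorem cut_iff {β : Type} [AddCommGroup β] [Module ℂ β] {q : ℕ} {Θ : Finset ι → β} :
    cut ι β q Θ = Θ ↔ Hq q Θ :=
  ⟨fun h => h ▸ hq_cut q Θ, fun h => funext fun s => by
    by_cases hs : s.card = q
    · exact if_pos hs
    · exact (if_neg hs).trans (h s hs).symm⟩

theorem norm_cut (q : ℕ) (Θ : Finset ι → Mon ν t → ℂ) (s : Finset ι) (m : Mon ν t) :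
    ‖cut ι _ q Θ s m‖ ≤ ‖Θ‖ := by
  change ‖(if s.card = q then Θ s else 0) m‖ ≤ _
  split_ifs
  · exact (norm_le_pi_norm _ m).trans (norm_le_pi_norm _ s)
  · simp

/-- First map of the complex. -/
def LL (q t : ℕ) (g : ι → Mon ν d → ℂ) (p : Fin ν → ℂ) : (Finset ι → Mon ν t → ℂ) →ₗ[ℂ]
    (Finset ι → Mon ν (t + d) → ℂ) × (Finset ι → ℂ) :=
  ((kc ν d t ι g).prod (evL ι t p)) ∘ₗ cut ι _ q

/-- Second map of the complex. -/
def MM (q t : ℕ) (g : ι → Mon ν d → ℂ) (p : Fin ν → ℂ) :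
    (Finset ι → Mon ν (t + d) → ℂ) × (Finset ι → ℂ) →ₗ[ℂ]
      ((Finset ι → Mon ν (t + d + d) → ℂ) × (Finset ι → ℂ)) ×
        (Finset ι → Mon ν (t + d) → ℂ) × (Finset ι → ℂ) :=
  ((kc ν d (t + d) ι g ∘ₗ LinearMap.fst ℂ _ _).prod (evL ι (t + d) p ∘ₗ LinearMap.fst ℂ _ _ -
      kos (fun i => eval p (form (g i))) ∘ₗ LinearMap.snd ℂ _ _)).prod
    (LinearMap.prodMap (cut ι _ (q - 1) - LinearMap.id) (cut ι _ q - LinearMap.id))

theorem LL_apply (q t : ℕ) (g : ι → Mon ν d → ℂ) (p : Fin ν → ℂ) (Θ : Finset ι → Mon ν t → ℂ) :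
    LL q t g p Θ = (kc ν d t ι g (cut ι _ q Θ), evC (cut ι _ q Θ) p) := rfl

theorem MM_apply (q t : ℕ) (g : ι → Mon ν d → ℂ) (p : Fin ν → ℂ)
    (w : (Finset ι → Mon ν (t + d) → ℂ) × (Finset ι → ℂ)) :
    MM q t g p w = ((kc ν d (t + d) ι g w.1,
      evC w.1 p - kos (fun i => eval p (form (g i))) w.2),
      cut ι _ (q - 1) w.1 - w.1, cut ι _ q w.2 - w.2) := rfl

theorem MM_zero {q t : ℕ} {g : ι → Mon ν d → ℂ} {p : Fin ν → ℂ}
    {w : (Finset ι → Mon ν (t + d) → ℂ) × (Finset ι → ℂ)} : MM q t g p w = 0 ↔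
      (kc ν d (t + d) ι g w.1 = 0 ∧ evC w.1 p = kos (fun i => eval p (form (g i))) w.2) ∧
        Hq (q - 1) w.1 ∧ Hq q w.2 := by
  rw [MM_apply]
  simp only [Prod.mk_eq_zero, sub_eq_zero, cut_iff]

theorem exact_of {q t : ℕ} (hq : 1 ≤ q) {g : ι → Mon ν d → ℂ} {p : Fin ν → ℂ} (hp : p ≠ 0)
    (h : KExact p (fun i => form (g i)) d t (q - 1))
    (w : (Finset ι → Mon ν (t + d) → ℂ) × (Finset ι → ℂ)) :
    MM q t g p w = 0 ↔ ∃ v, LL q t g p v = w := by
  obtain ⟨r, rfl⟩ : ∃ r, q = r + 1 := ⟨q - 1, by omega⟩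
  rw [MM_zero, Nat.add_sub_cancel] at *
  constructor
  · rintro ⟨⟨h1, h2⟩, h3, h4⟩
    obtain ⟨a, ha⟩ := Function.ne_iff.1 hp
    set u : Finset ι → MvPolynomial (Fin ν) ℂ := fun s => C (w.2 s) * (C (p a)⁻¹ * X a) ^ t
    have u1 : ∀ s, (u s).IsHomogeneous t := fun s => by
      simpa using (isHomogeneous_C (Fin ν) (w.2 s)).mul
        (((isHomogeneous_C (Fin ν) (p a)⁻¹).mul (isHomogeneous_X ℂ a)).pow t)
    have u2 : (fun s => eval p (u s)) = w.2 := funext fun s => by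
      simp [u, inv_mul_cancel₀ (show p a ≠ 0 from ha)]
    have u3 : Hq (r + 1) u := fun s hs => by simp [u, h4 s hs]
    obtain ⟨β, ⟨b1, b2⟩, b3⟩ := h (fm w.1 - kos (fun i => form (g i)) u)
      ⟨(hq_fm.2 h3).sub (u3.kos _), fun s => ⟨(form_isHomogeneous _).sub
        (kos_hom (fun _ => form_isHomogeneous _) u1 s), by
          rw [Pi.sub_apply, map_sub, map_kos, u2, ← h2]
          exact sub_self _⟩⟩
      (by rw [map_sub, kos_kos_self, ← fm_kc, h1, fm_zero, sub_zero])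
    have e : fm (fun s => cf ν t ((β + u) s)) = β + u := funext fun s =>
      form_cf ((b2 s).1.add (u1 s))
    refine ⟨fun s => cf ν t ((β + u) s), ?_⟩
    rw [LL_apply, cut_iff.2 (hq_fm.1 (by rw [e]; exact b1.add u3))]
    refine Prod.ext (fm_inj ?_) (funext fun s => ?_)
    · rw [fm_kc, e, map_add, b3, sub_add_cancel]
    · rw [evC_eq, e]
      dsimp only
      rw [Pi.add_apply, map_add, (b2 s).2, zero_add]
      exact congrFun u2 s
  · rintro ⟨v, rfl⟩
    rw [LL_apply]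
    refine ⟨⟨fm_inj ?_, ev_kc _ _ _⟩, hq_fm.1 ?_, hq_ev (hq_cut _ _) p⟩
    · rw [fm_kc, fm_kc, kos_kos_self, fm_zero]
    · rw [fm_kc]
      exact (hq_fm.2 (hq_cut _ _)).kos _

section cont
variable {X : Type} [TopologicalSpace X] {g : X → ι → Mon ν d → ℂ} {p : X → Fin ν → ℂ}

theorem cont_kc (hg : Continuous g) (Θ : Finset ι → Mon ν t → ℂ) :
    Continuous fun x => kc ν d t ι (g x) Θ :=
  ((kc ν d t ι).flip Θ).continuous_of_finiteDimensional.comp hg

theorem cont_ev (hp : Continuous p) (Θ : Finset ι → Mon ν t → ℂ) :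
    Continuous fun x => evC Θ (p x) :=
  continuous_pi fun _ => continuous_eval_form hp continuous_const

theorem cont_LL (hg : Continuous g) (hp : Continuous p) (q t : ℕ) (v : Finset ι → Mon ν t → ℂ) :
    Continuous fun x => LL q t (g x) (p x) v := (cont_kc hg _).prodMk (cont_ev hp _)

theorem cont_MM (hg : Continuous g) (hp : Continuous p) (q t : ℕ)
    (w : (Finset ι → Mon ν (t + d) → ℂ) × (Finset ι → ℂ)) :
    Continuous fun x => MM q t (g x) (p x) w := by
  simp only [MM_apply, kos_apply]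
  exact ((cont_kc hg _).prodMk ((cont_ev hp _).sub (continuous_finsetSum _ fun i _ =>
    (continuous_eval_form hp ((continuous_apply i).comp hg)).smul continuous_const))).prodMk
    continuous_const

end cont

/-- Coefficients of the family, with last block `z`. -/
def gc (c : Mon ν d → ℂ) (y z : Fin j → Mon ν d → ℂ) : Gi ν d j → Mon ν d → ℂ :=
  Sum.elim (fun ab => cf ν d (X ab.2 * pderiv ab.1 (form c))) (Sum.elim (prj y) z)

theorem ev_inl (hd : 1 ≤ d) (c : Mon ν d → ℂ) (y z : Fin j → Mon ν d → ℂ) (p : Fin ν → ℂ)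
    (a b : Fin ν) : eval p (form (gc c y z (Sum.inl (a, b)))) = p b * grad c p a := by
  have h := (isHomogeneous_X ℂ b).mul ((form_isHomogeneous c).pderiv (i := a))
  rw [show 1 + (d - 1) = d by omega] at h
  rw [gc, Sum.elim_inl, form_cf h, map_mul, eval_X, grad]

theorem ev_gc (hd : 1 ≤ d) (c : Mon ν d → ℂ) (y : Fin j → Mon ν d → ℂ) (p : Fin ν → ℂ) :
    (fun i => eval p (form (gc c y 0 i))) = gen c y p := by
  funext i
  rcases i with ⟨a, b⟩ | m | l
  · exact ev_inl hd c y 0 p a b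
  · rfl
  · simp [gc, gen, form_zero]

theorem cont_gc : Continuous fun x : (Mon ν d → ℂ) × (Fin j → Mon ν d → ℂ) × (Fin ν → ℂ) =>
    gc x.1 x.2.1 0 := by
  refine continuous_pi fun i => ?_
  rcases i with ⟨a, b⟩ | m | l
  · exact (cf ν d ∘ₗ LinearMap.mulLeft ℂ (X b) ∘ₗ (pderiv a : Derivation ℂ _ _).toLinearMap ∘ₗ
      formL ν d).continuous_of_finiteDimensional.comp continuous_fst
  · exact (continuous_prj m).comp (continuous_fst.comp continuous_snd)
  · exact continuous_const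

theorem kexact (hG : GreenStmt) (hd : 1 ≤ d) {η : ℝ} (hη : 0 < η) {c : Mon ν d → ℂ}
    (hc : c ∈ Usm ν d η) (y : Fin j → Mon ν d → ℂ) {p : Fin ν → ℂ} (hp : p ≠ 0) {q : ℕ}
    (hq : 1 ≤ q) : KExact p (fun i => form (gc c y 0 i)) d (q + j) (q - 1) := by
  set J : Finset (Gi ν d j) := Finset.univ.image fun l : Fin j => Sum.inr (Sum.inr l) with hJ
  have e : (fun i => form (gc c y 0 i)) = fun i => if i ∈ J then 0 else form (gc c y y i) := by
    funext i
    rcases i with ab | m | l <;> simp [hJ, gc, form_zero]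
  have cJ : J.card ≤ j := Finset.card_image_le.trans (by simp)
  rw [e]
  refine hG ν d _ (fun i => form (gc c y y i)) p J hp hd (fun _ => form_isHomogeneous _)
    (fun P hP => ?_) (fun x hx => ?_) _ _ (by omega)
  · rw [← form_cf hP, ← Finset.univ_sum_single (cf ν d P), form_sum]
    refine Submodule.sum_mem _ fun m _ => ?_
    rw [← mul_one (cf ν d P m), ← smul_eq_mul, Pi.single_smul', form_smul, single_eq_prj y,
      form_add, form_sum]
    refine Submodule.smul_mem _ _ (Submodule.add_mem _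
      (Submodule.subset_span ⟨Sum.inr (Sum.inl m), rfl⟩) (Submodule.sum_mem _ fun l _ => ?_))
    rw [form_smul]
    exact Submodule.smul_mem _ _ (Submodule.subset_span ⟨Sum.inr (Sum.inr l), rfl⟩)
  · obtain ⟨a, ha⟩ := Function.ne_iff.1 (Usm.grad_ne hc hη hx)
    obtain ⟨b, hb⟩ := Function.ne_iff.1 hx
    exact ⟨Sum.inl (a, b), by simp [hJ], by rw [ev_inl hd]; exact mul_ne_zero hb ha⟩

end GenAux

open GenAux in
theorem genS (hG : GreenStmt) (hU : UnifStmt) (hP : ProjStmt) : GenStmt := by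
  intro ν d j q η hd hq hη
  obtain ⟨C, hC, H⟩ := hU ((Mon ν d → ℂ) × (Fin j → Mon ν d → ℂ) × (Fin ν → ℂ)) _ _ _
    (Usm ν d η ×ˢ closedBall 0 1 ×ˢ sphere 0 1) (fun x => LL q (q + j) (gc x.1 x.2.1 0) x.2.2)
    (fun x => MM q (q + j) (gc x.1 x.2.1 0) x.2.2)
    ((isCompact_Usm η).prod ((isCompact_closedBall 0 1).prod (isCompact_sphere 0 1)))
    (cont_LL cont_gc (continuous_snd.comp continuous_snd) _ _)
    (cont_MM cont_gc (continuous_snd.comp continuous_snd) _ _) fun x hx => by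
      have hp : x.2.2 ≠ 0 := ne_zero_of_mem_unit_sphere ⟨_, hx.2.2⟩
      exact exact_of hq hp (kexact hG hd hη hx.1 _ hp hq)
  refine ⟨Fintype.card (Finset (Gi ν d j) × Mon ν (q + j)), C, hC, fun c hc y hy => ?_⟩
  set e := Fintype.equivFin (Finset (Gi ν d j) × Mon ν (q + j))
  set cu := (LinearEquiv.curry ℂ ℂ (Finset (Gi ν d j)) (Mon ν (q + j))).toLinearMap
  obtain ⟨P, P1, P2, P3⟩ := (@hP (Finset (Gi ν d j) × Mon ν (q + j)) _ (Classical.decEq _)).1
    (LinearMap.ker (((kc ν d (q + j) _ (gc c y 0)).prod (cut _ _ q - LinearMap.id)) ∘ₗ cu))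
  have hW : ∀ w, w ∈ LinearMap.ker (((kc ν d (q + j) _ (gc c y 0)).prod
      (cut _ _ q - LinearMap.id)) ∘ₗ cu) ↔
      kc ν d (q + j) _ (gc c y 0) (cu w) = 0 ∧ Hq q (cu w) := fun w => by
    rw [← cut_iff, ← sub_eq_zero (b := cu w)]
    exact Prod.mk_eq_zero
  refine ⟨fun n => cu (P (e.symm n)), ?_, fun n p => ?_, fun p hp ω h1 h2 => ?_⟩
  · refine (pi_norm_le_iff_of_nonneg zero_le_one).2 fun n =>
      (pi_norm_le_iff_of_nonneg zero_le_one).2 fun s =>
        (pi_norm_le_iff_of_nonneg zero_le_one).2 fun m => ?_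
    exact ((norm_le_pi_norm (P (e.symm n)) (s, m)).trans (norm_le_pi_norm P _)).trans P2
  · obtain ⟨a, b⟩ := (hW _).1 (P1 (e.symm n))
    refine ⟨hq_ev b p, ?_⟩
    rw [← ev_gc hd, ← ev_kc, a]
    exact (evL _ _ p).map_zero
  · obtain ⟨v, v1, v2⟩ := H (c, y, p) ⟨hc, by simpa using hy, by simpa using hp⟩ (0, ω)
      (MM_zero.2 ⟨⟨map_zero _, by
        rw [ev_gc hd, h2]; exact (evL _ _ p).map_zero⟩, fun _ _ => rfl, h1⟩)
    rw [LL_apply, Prod.mk.injEq] at v1
    set w : Finset (Gi ν d j) × Mon ν (q + j) → ℂ := fun a => cut _ _ q v a.1 a.2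
    have ew : cu w = cut _ _ q v := rfl
    have s := P3 w ((hW w).2 ⟨v1.1, hq_cut _ _⟩)
    refine ⟨fun n => w (e.symm n), ?_, ?_⟩
    · refine (pi_norm_le_iff_of_nonneg (by positivity)).2 fun n => (norm_cut q v _ _).trans ?_
      simpa using v2
    · have k := congrArg (fun z => evL _ _ p (cu z)) s
      simp only [map_sum, map_smul] at k
      rw [← v1.2, e.symm.sum_comp fun a => w a • evC (cu (P a)) p]
      exact k

end

end Pool.Agent.Lib.MP_45f16c_ag
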