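import Pool.Agent.Lib.MP_45f16c_ag.Basic

/-! Pointwise algebra of the minors. -/

set_option autoImplicit false
set_option linter.unusedSectionVars false

namespace Pool.Agent.Lib.MP_45f16c_ag

namespace PAAux

variable {ι : Type} [Fintype ι] [DecidableEq ι] {ν : ℕ} (Ξ : ι → Fin ν → ℂ)

/-- iterated contraction -/
noncomputable def ctr : List (Fin ν) → (Finset ι → ℂ) →ₗ[ℂ] (Finset ι → ℂ)
  | [] => LinearMap.id
  | b :: l => kos (fun i => Ξ i b) ∘ₗ ctr l

theorem ctr_nil (ω : Finset ι → ℂ) : ctr Ξ [] ω = ω := rfl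

theorem ctr_cons (b : Fin ν) (l : List (Fin ν)) (ω : Finset ι → ℂ) :
    ctr Ξ (b :: l) ω = kos (fun i => Ξ i b) (ctr Ξ l ω) := rfl

theorem ctr_foldr (l : List (Fin ν)) (ω : Finset ι → ℂ) :
    l.foldr (fun b η => kos (fun i => Ξ i b) η) ω = ctr Ξ l ω := by
  induction l with
  | nil => rfl
  | cons b l ih => rw [List.foldr_cons, ih, ctr_cons]

theorem Del_eq (a : Fin ν) (ω : Finset ι → ℂ) :
    Del Ξ a ω = ctr Ξ ((List.finRange ν).erase a) ω ∅ := by
  rw [Del, ctr_foldr]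

theorem ctr_concat (l : List (Fin ν)) (b : Fin ν) (ω : Finset ι → ℂ) :
    ctr Ξ (l ++ [b]) ω = ctr Ξ l (kos (fun i => Ξ i b) ω) := by
  induction l with
  | nil => rfl
  | cons c l ih => rw [List.cons_append, ctr_cons, ih, ctr_cons]

theorem ctr_perm {l l' : List (Fin ν)} (h : l.Perm l') :
    ∃ s : ℂ, ‖s‖ = 1 ∧ ∀ ω, ctr Ξ l ω = s • ctr Ξ l' ω := by
  induction h with
  | nil => exact ⟨1, by simp, fun ω => by simp⟩
  | cons b _ ih =>
    obtain ⟨s, h1, h2⟩ := ih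
    exact ⟨s, h1, fun ω => by rw [ctr_cons, ctr_cons, h2, map_smul]⟩
  | swap a b l =>
    exact ⟨-1, by simp, fun ω => by
      rw [ctr_cons, ctr_cons, ctr_cons, ctr_cons, kos_kos, neg_one_smul]⟩
  | trans _ _ ih1 ih2 =>
    obtain ⟨s, h1, h2⟩ := ih1
    obtain ⟨t, h3, h4⟩ := ih2
    exact ⟨s * t, by rw [norm_mul, h1, h3, mul_one], fun ω => by rw [h2, h4, smul_smul]⟩

theorem ctr_kos (l : List (Fin ν)) (g : ι → ℂ) (ω : Finset ι → ℂ) :
    ctr Ξ l (kos g ω) = (-1 : ℂ) ^ l.length • kos g (ctr Ξ l ω) := by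
  induction l with
  | nil => simp [ctr_nil]
  | cons b l ih =>
    rw [ctr_cons, ih, map_smul, kos_kos, ctr_cons, List.length_cons, pow_succ, mul_smul,
      neg_one_smul]

theorem ctr_rep {l : List (Fin ν)} {c : Fin ν} (h : c ∈ l) (ω : Finset ι → ℂ) :
    ctr Ξ l (kos (fun i => Ξ i c) ω) = 0 := by
  induction l with
  | nil => simp at h
  | cons b l ih =>
    rcases List.mem_cons.1 h with rfl | h
    · rw [ctr_cons, ctr_kos, map_smul, kos_kos_self, smul_zero]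
    · rw [ctr_cons, ih h, map_zero]

theorem ctr_wed {l : List (Fin ν)} {v : ι → ℂ} (h : ∀ b ∈ l, ∑ i, v i * Ξ i b = 0)
    (ω : Finset ι → ℂ) : ctr Ξ l (wed v ω) = (-1 : ℂ) ^ l.length • wed v (ctr Ξ l ω) := by
  induction l with
  | nil => simp [ctr_nil]
  | cons b l ih =>
    rw [ctr_cons, ih fun c hc => h c (List.mem_cons_of_mem _ hc), map_smul, kos_wed,
      h b List.mem_cons_self, ctr_cons, List.length_cons, pow_succ, mul_smul, neg_one_smul,
      zero_smul, zero_sub]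

theorem ctr_one {l : List (Fin ν)} {v : ι → ℂ} (h : ∀ b ∈ l, ∑ i, v i * Ξ i b = 0) (b : Fin ν)
    (ω : Finset ι → ℂ) :
    ctr Ξ (l ++ [b]) (wed v ω) ∅ = (∑ i, v i * Ξ i b) * ctr Ξ l ω ∅ := by
  rw [ctr_concat, kos_wed, map_sub, map_smul, ctr_wed Ξ h]
  simp [wed_empty]

theorem ctr_two {l : List (Fin ν)} {v : ι → ℂ} (h : ∀ b ∈ l, ∑ i, v i * Ξ i b = 0)
    (b c : Fin ν) (ω : Finset ι → ℂ) :
    ctr Ξ (l ++ [b] ++ [c]) (wed v ω) ∅ = (∑ i, v i * Ξ i c) * ctr Ξ (l ++ [b]) ω ∅ -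
      (∑ i, v i * Ξ i b) * ctr Ξ (l ++ [c]) ω ∅ := by
  rw [ctr_concat, kos_wed, map_sub, map_smul, Pi.sub_apply, ctr_one Ξ h, ← ctr_concat]
  simp

theorem norm_ctr {Λ : ℝ} (hΛ : ‖Ξ‖ ≤ Λ) (l : List (Fin ν)) (ω : Finset ι → ℂ) :
    ‖ctr Ξ l ω‖ ≤ (Fintype.card ι * Λ) ^ l.length * ‖ω‖ := by
  have h0 : 0 ≤ Λ := (norm_nonneg _).trans hΛ
  induction l with
  | nil => simp [ctr_nil]
  | cons b l ih =>
    rw [ctr_cons, List.length_cons, pow_succ', mul_assoc]
    refine (norm_kos_le _ _).trans (mul_le_mul ?_ ih (norm_nonneg _) (by positivity))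
    refine mul_le_mul_of_nonneg_left ((pi_norm_le_iff_of_nonneg h0).2 fun i => ?_)
      (Nat.cast_nonneg _)
    exact (norm_le_pi_norm (Ξ i) b).trans ((norm_le_pi_norm Ξ i).trans hΛ)

/-- size of the contraction along a set of indices -/
noncomputable def nD (S : Finset (Fin ν)) (ω : Finset ι → ℂ) : ℝ := ‖ctr Ξ S.toList ω ∅‖

theorem nD_eq {l : List (Fin ν)} {S : Finset (Fin ν)} (h : l.Nodup) (h' : ∀ x, x ∈ l ↔ x ∈ S)
    (ω : Finset ι → ℂ) : ‖ctr Ξ l ω ∅‖ = nD Ξ S ω := by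
  have : l.Perm S.toList :=
    (List.perm_ext_iff_of_nodup h S.nodup_toList).2 fun x => by rw [h', Finset.mem_toList]
  obtain ⟨s, h1, h2⟩ := ctr_perm Ξ this
  rw [h2, Pi.smul_apply, norm_smul, h1, one_mul, nD]

theorem norm_Del (a : Fin ν) (ω : Finset ι → ℂ) :
    ‖Del Ξ a ω‖ = nD Ξ (Finset.univ.erase a) ω := by
  rw [Del_eq]
  exact nD_eq Ξ ((List.nodup_finRange ν).erase a)
    (fun x => by simp [(List.nodup_finRange ν).mem_erase_iff]) ω

theorem nD_concat {S S' : Finset (Fin ν)} {b : Fin ν} (hb : b ∉ S)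
    (h : ∀ x, x ∈ S' ↔ x ∈ S ∨ x = b) (ω : Finset ι → ℂ) :
    ‖ctr Ξ (S.toList ++ [b]) ω ∅‖ = nD Ξ S' ω := by
  refine nD_eq Ξ ?_ (fun x => by simp [h]) ω
  rw [List.nodup_append]
  refine ⟨S.nodup_toList, by simp, fun x hx y hy e => hb ?_⟩
  rw [List.mem_singleton.1 hy] at e
  rw [← e]; exact Finset.mem_toList.1 hx

theorem rel1 {H : Fin ν → ℂ} {θ α : Finset ι → ℂ}
    (h : ∑ c, H c • kos (fun i => Ξ i c) θ = α) {a b : Fin ν} (hab : a ≠ b) :
    ‖H a‖ * ‖Del Ξ b θ‖ ≤ ‖H b‖ * ‖Del Ξ a θ‖ + nD Ξ ((Finset.univ.erase a).erase b) α := by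
  set S := (Finset.univ.erase a).erase b with hS
  have e : ctr Ξ S.toList α ∅ =
      H a * ctr Ξ (S.toList ++ [a]) θ ∅ + H b * ctr Ξ (S.toList ++ [b]) θ ∅ := by
    rw [← h, map_sum, Finset.sum_eq_add a b hab (fun c _ hc => ?_) (by simp) (by simp)]
    · simp [ctr_concat]
    · rw [map_smul, ctr_rep Ξ (by simp [hS, hc.1, hc.2]), smul_zero]
  have e1 : ‖ctr Ξ (S.toList ++ [a]) θ ∅‖ = ‖Del Ξ b θ‖ := by
    rw [norm_Del]
    refine nD_concat Ξ (by simp [hS]) (fun x => ?_) θ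
    by_cases hx : x = a <;> simp [hS, hx, hab]
  have e2 : ‖ctr Ξ (S.toList ++ [b]) θ ∅‖ = ‖Del Ξ a θ‖ := by
    rw [norm_Del]
    refine nD_concat Ξ (by simp [hS]) (fun x => ?_) θ
    by_cases hx : x = b <;> simp [hS, hx, hab.symm]
  rw [nD, ← e1, ← e2, ← norm_mul, ← norm_mul]
  have : H a * ctr Ξ (S.toList ++ [a]) θ ∅ =
      ctr Ξ S.toList α ∅ - H b * ctr Ξ (S.toList ++ [b]) θ ∅ := by rw [e]; ring
  rw [this, add_comm]
  exact norm_sub_le _ _

theorem rel2 {v : Fin ν → ι → ℂ} {a₀ : Fin ν}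
    (h1 : ∀ a b, b ≠ a₀ → ∑ i, v a i * Ξ i b = if a = b then 1 else 0)
    (h2 : ∀ a, ‖∑ i, v a i * Ξ i a₀‖ ≤ 1) {α : Finset ι → ℂ} {B : ℝ}
    (hB : ∀ a a', ‖Del Ξ a' (wed (v a) α)‖ ≤ B) {a b : Fin ν} (hab : a ≠ b) :
    nD Ξ ((Finset.univ.erase a).erase b) α ≤ 2 * B := by
  have B0 : 0 ≤ B := (norm_nonneg _).trans (hB a a)
  have k1 : ∀ a, a ≠ a₀ → nD Ξ ((Finset.univ.erase a₀).erase a) α ≤ B := by
    intro a ha
    have := hB a a₀
    rw [norm_Del, ← nD_concat Ξ (S := (Finset.univ.erase a₀).erase a) (b := a) (by simp)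
      (fun x => by by_cases hx : x = a <;> simp [hx, ha]), ctr_one, h1 a a ha, if_pos rfl,
      one_mul] at this
    · exact this
    · intro c hc
      simp only [Finset.mem_toList, Finset.mem_erase] at hc
      rw [h1 a c hc.2.1, if_neg hc.1.symm]
  by_cases ha : a = a₀
  · subst ha
    have := k1 b hab.symm
    linarith
  by_cases hb : b = a₀
  · subst hb
    have := k1 a ha
    rw [Finset.erase_right_comm]
    linarith
  set S := ((Finset.univ.erase b).erase a).erase a₀ with hS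
  have h3 := hB a b
  have e0 : ‖ctr Ξ (S.toList ++ [a] ++ [a₀]) (wed (v a) α) ∅‖ =
      nD Ξ (Finset.univ.erase b) (wed (v a) α) := by
    refine nD_eq Ξ ?_ (fun x => ?_) _
    · rw [List.append_assoc, List.nodup_append]
      refine ⟨S.nodup_toList, by simp [ha], fun x hx y hy e => ?_⟩
      simp only [hS, Finset.mem_toList, Finset.mem_erase] at hx
      simp only [List.cons_append, List.nil_append, List.mem_cons, List.not_mem_nil,
        or_false] at hy
      rcases hy with rfl | rfl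
      · exact hx.2.1 e
      · exact hx.1 e
    · by_cases hx : x = a
      · simp [hx, hab]
      · by_cases hx' : x = a₀
        · simp [hx', Ne.symm hb]
        · simp [hS, hx, hx']
  rw [norm_Del, ← e0, ctr_two, h1 a a ha, if_pos rfl, one_mul] at h3
  · have e1 : ‖ctr Ξ (S.toList ++ [a]) α ∅‖ = nD Ξ ((Finset.univ.erase a₀).erase b) α := by
      refine nD_concat Ξ (by simp [hS]) (fun x => ?_) α
      by_cases hx : x = a
      · simp [hx, hab, ha]
      · simp [hS, hx, and_comm]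
    have e2 : ‖ctr Ξ (S.toList ++ [a₀]) α ∅‖ = nD Ξ ((Finset.univ.erase a).erase b) α := by
      refine nD_concat Ξ (by simp [hS]) (fun x => ?_) α
      by_cases hx : x = a₀
      · simp [hx, Ne.symm hb, Ne.symm ha]
      · simp [hS, hx, and_comm]
    have k2 := k1 b hb
    rw [← e1] at k2
    rw [← e2]
    have t1 : ‖(∑ i, v a i * Ξ i a₀) * ctr Ξ (S.toList ++ [a]) α ∅‖ ≤ B := by
      rw [norm_mul]
      exact (mul_le_of_le_one_left (norm_nonneg _) (h2 a)).trans k2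
    have t2 := norm_sub_le ((∑ i, v a i * Ξ i a₀) * ctr Ξ (S.toList ++ [a]) α ∅)
      ((∑ i, v a i * Ξ i a₀) * ctr Ξ (S.toList ++ [a]) α ∅ - ctr Ξ (S.toList ++ [a₀]) α ∅)
    rw [sub_sub_cancel] at t2
    linarith
  · intro c hc
    simp only [hS, Finset.mem_toList, Finset.mem_erase] at hc
    rw [h1 a c hc.1, if_neg hc.2.1.symm]

/-- the vacuum -/
def vac : Finset ι → ℂ := fun s => if s = ∅ then 1 else 0

theorem Hq_vac : Hq 0 (vac : Finset ι → ℂ) := fun s hs =>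
  if_neg fun e => hs (by rw [e]; rfl)

/-- iterated wedge -/
noncomputable def wl (v : Fin ν → ι → ℂ) : List (Fin ν) → Finset ι → ℂ
  | [] => vac
  | a :: l => wed (v a) (wl v l)

theorem Hq_wl (v : Fin ν → ι → ℂ) (l : List (Fin ν)) : Hq l.length (wl v l) := by
  induction l with
  | nil => exact Hq_vac
  | cons a l ih => exact ih.wed _

theorem kos_wl {v : Fin ν → ι → ℂ} {e : ι → ℂ} (h : ∀ a, ∑ i, v a i * e i = 0)
    (l : List (Fin ν)) : kos e (wl v l) = 0 := by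
  induction l with
  | nil => exact Hq_vac.kos_zero e
  | cons a l ih => rw [wl, kos_wed, h, ih, map_zero, zero_smul, sub_zero]

theorem norm_wl {v : Fin ν → ι → ℂ} {W : ℝ} (h0 : 0 ≤ W) (h : ∀ a, ‖v a‖ ≤ W)
    (l : List (Fin ν)) : ‖wl v l‖ ≤ (Fintype.card ι * W) ^ l.length := by
  induction l with
  | nil =>
    rw [List.length_nil, pow_zero]
    refine (pi_norm_le_iff_of_nonneg zero_le_one).2 fun s => ?_
    simp only [wl, vac]
    split_ifs <;> simp
  | cons a l ih =>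
    rw [wl, List.length_cons, pow_succ']
    exact (norm_wed_le _ _).trans (mul_le_mul (mul_le_mul_of_nonneg_left (h a)
      (Nat.cast_nonneg _)) ih (norm_nonneg _) (by positivity))

theorem ctr_wl {v : Fin ν → ι → ℂ} {a₀ : Fin ν}
    (h1 : ∀ a b, b ≠ a₀ → ∑ i, v a i * Ξ i b = if a = b then 1 else 0) {l : List (Fin ν)}
    (hn : l.Nodup) (ha : a₀ ∉ l) : ctr Ξ l.reverse (wl v l) ∅ = 1 := by
  induction l with
  | nil => simp [wl, vac, ctr_nil]
  | cons a l ih =>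
    rw [List.nodup_cons] at hn
    simp only [List.mem_cons, not_or] at ha
    rw [List.reverse_cons, wl, ctr_one, ih hn.2 ha.2, h1 a a (Ne.symm ha.1), if_pos rfl, one_mul]
    intro b hb
    rw [List.mem_reverse] at hb
    rw [h1 a b (fun e => ha.2 (e ▸ hb)), if_neg fun e : a = b => hn.1 (e ▸ hb)]

theorem Del_span {N : ℕ} (θ : Fin N → Finset ι → ℂ) (a : Fin N → ℂ) (b : Fin ν) :
    ‖Del Ξ b (∑ n, a n • θ n)‖ ≤ N * ‖a‖ * ‖fun n a => Del Ξ a (θ n)‖ := by
  rw [Del_eq, map_sum, Finset.sum_apply]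
  refine (norm_sum_le _ _).trans ((Finset.sum_le_card_nsmul _ _
    (‖a‖ * ‖fun n a => Del Ξ a (θ n)‖) fun n _ => ?_).trans (by simp [mul_assoc]))
  rw [map_smul, Pi.smul_apply, norm_smul, ← Del_eq]
  exact mul_le_mul (norm_le_pi_norm a n) ((norm_le_pi_norm (fun a => Del Ξ a (θ n)) b).trans
    (norm_le_pi_norm (fun n a => Del Ξ a (θ n)) n)) (norm_nonneg _) (norm_nonneg _)

end PAAux

open PAAux in
theorem pa : PAStmt := by
  intro ι _ _ ν N hν
  set c : ℝ := (Fintype.card ι : ℝ) with hc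
  have c0 : 0 ≤ c := Nat.cast_nonneg _
  have N0 : (0 : ℝ) ≤ N := Nat.cast_nonneg _
  have p1 : 0 ≤ c ^ (ν - 1) := by positivity
  have p2 : 0 ≤ N * (2 * c) ^ (ν - 1) := by positivity
  have p3 : 0 ≤ 4 * N * c ^ 2 := by positivity
  refine ⟨c ^ (ν - 1) + N * (2 * c) ^ (ν - 1) + 4 * N * c ^ 2 + 1, by positivity, ?_⟩
  intro e Ξ H w θ A A' W Λ E hH hA' hw he hW hΛ hA hE hε hθ hgen
  have A0 : 0 ≤ A := (norm_nonneg _).trans hA
  have W0 : 0 ≤ W := (norm_nonneg _).trans hW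
  have Λ0 : 0 ≤ Λ := (norm_nonneg _).trans hΛ
  have hlen : ∀ a : Fin ν, ((List.finRange ν).erase a).length = ν - 1 := fun a => by
    rw [List.length_erase_of_mem (List.mem_finRange a), List.length_finRange]
  set Δ := ‖fun n a => Del Ξ a (θ n)‖ with hΔ
  have Δ0 : 0 ≤ Δ := norm_nonneg _
  obtain ⟨a₀, -, ha₀⟩ := Finset.exists_max_image Finset.univ (fun a => ‖H a‖)
    ⟨⟨0, by omega⟩, Finset.mem_univ _⟩
  have H0 : H a₀ ≠ 0 := fun h => hH (funext fun a => by
    have := ha₀ a (Finset.mem_univ _)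
    rw [h, norm_zero] at this
    exact norm_le_zero_iff.1 this)
  have hr : ∀ a, ‖H a / H a₀‖ ≤ 1 := fun a => by
    rw [norm_div]
    exact div_le_one_of_le₀ (ha₀ a (Finset.mem_univ _)) (norm_nonneg _)
  let v : Fin ν → ι → ℂ := fun a => w a - (H a / H a₀) • w a₀
  have vs : ∀ a (g : ι → ℂ), ∑ i, v a i * g i =
      ∑ i, w a i * g i - H a / H a₀ * ∑ i, w a₀ i * g i := fun a g => by
    simp only [v, Pi.sub_apply, Pi.smul_apply, smul_eq_mul, sub_mul, Finset.sum_sub_distrib,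
      Finset.mul_sum, mul_assoc]
  have v1 : ∀ a b, b ≠ a₀ → ∑ i, v a i * Ξ i b = if a = b then 1 else 0 := fun a b hb => by
    rw [vs a fun i => Ξ i b, hw, hw, if_neg hb.symm, mul_zero, sub_zero]
  have v2 : ∀ a, ‖∑ i, v a i * Ξ i a₀‖ ≤ 1 := fun a => by
    rw [vs a fun i => Ξ i a₀, hw, hw, if_pos rfl, mul_one]
    split_ifs with h
    · rw [h, div_self H0]; simp
    · rw [zero_sub, norm_neg]; exact hr a
  have v3 : ∀ a, ∑ i, v a i * e i = 0 := fun a => by
    rw [vs, he, he]; field_simp; ring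
  have v4 : ∀ a, ‖v a‖ ≤ 2 * W := fun a => by
    refine (norm_sub_le _ _).trans ?_
    rw [norm_smul]
    have h1 := (norm_le_pi_norm w a).trans hW
    have h2 := (norm_le_pi_norm w a₀).trans hW
    have h3 := mul_le_of_le_one_left (norm_nonneg (w a₀)) (hr a)
    linarith
  have cyc : ∀ ω, Hq (ν - 1) ω → kos e ω = 0 → ∀ b, ‖Del Ξ b ω‖ ≤ N * (A' * ‖ω‖) * Δ := by
    intro ω h1 h2 b
    obtain ⟨a, h3, h4⟩ := hgen ω h1 h2
    have := Del_span Ξ θ a b
    rw [← h4] at this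
    exact this.trans (mul_le_mul_of_nonneg_right (mul_le_mul_of_nonneg_left h3 N0) Δ0)
  refine ⟨?_, ?_, fun n a b => ?_⟩
  · refine (pi_norm_le_iff_of_nonneg (by positivity)).2 fun n =>
      (pi_norm_le_iff_of_nonneg (by positivity)).2 fun a => ?_
    rw [Del_eq]
    refine (norm_le_pi_norm _ _).trans ((norm_ctr Ξ hΛ _ _).trans ?_)
    rw [hlen, mul_pow]
    have h1 := (norm_le_pi_norm θ n).trans hA
    have h2 : 0 ≤ A * Λ ^ (ν - 1) := by positivity
    calc c ^ (ν - 1) * Λ ^ (ν - 1) * ‖θ n‖ ≤ c ^ (ν - 1) * Λ ^ (ν - 1) * A :=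
          mul_le_mul_of_nonneg_left h1 (by positivity)
      _ = c ^ (ν - 1) * (A * Λ ^ (ν - 1)) := by ring
      _ ≤ _ := by rw [mul_assoc _ A]; exact mul_le_mul_of_nonneg_right (by linarith) h2
  · set l := (List.finRange ν).erase a₀ with hl
    have hn : l.Nodup := (List.nodup_finRange ν).erase a₀
    have h1 := cyc (wl v l) (by rw [← hlen a₀]; exact Hq_wl v l) (kos_wl v3 l) a₀
    have h2 : ‖Del Ξ a₀ (wl v l)‖ = 1 := by
      obtain ⟨s, s1, s2⟩ := ctr_perm Ξ (List.reverse_perm l).symm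
      rw [Del_eq, ← hl, s2, Pi.smul_apply, ctr_wl Ξ v1 hn
        (List.Nodup.not_mem_erase (List.nodup_finRange ν)), norm_smul, s1]
      simp
    have h3 := norm_wl (by positivity) v4 l
    rw [hlen] at h3
    rw [h2] at h1
    have h4 : 0 ≤ A' * W ^ (ν - 1) * Δ := by positivity
    calc (1 : ℝ) ≤ N * (A' * ‖wl v l‖) * Δ := h1
      _ ≤ N * (A' * (c * (2 * W)) ^ (ν - 1)) * Δ := by gcongr
      _ = N * (2 * c) ^ (ν - 1) * (A' * W ^ (ν - 1) * Δ) := by
          rw [show c * (2 * W) = 2 * c * W by ring, mul_pow]; ring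
      _ ≤ _ := by
          rw [mul_assoc _ A', mul_assoc _ (A' * _)]
          exact mul_le_mul_of_nonneg_right (by linarith) h4
  · have h4 : 0 ≤ A * A' * W * E * Δ := by positivity
    by_cases hab : a = b
    · subst hab
      exact le_add_of_nonneg_right (by positivity)
    let ε : ι → ℂ := fun i => e i + lf H (Ξ i)
    have hs : ∑ c, H c • kos (fun i => Ξ i c) (θ n) = kos ε (θ n) := by
      have : ε = e + ∑ c, H c • fun i => Ξ i c := by
        funext i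
        simp [ε, lf, Finset.sum_apply]
      rw [this, kos_add, (hθ n).2, zero_add, kos_sum]
      exact Finset.sum_congr rfl fun c _ => (kos_smul _ _ _).symm
    have hq : Hq (ν - 2) (kos ε (θ n)) := by
      refine Hq.kos ?_ _
      rw [show ν - 2 + 1 = ν - 1 by omega]; exact (hθ n).1
    have nε : ‖ε‖ ≤ E := (pi_norm_le_iff_of_nonneg hE).2 hε
    have nα : ‖kos ε (θ n)‖ ≤ c * E * A :=
      (norm_kos_le _ _).trans (mul_le_mul (mul_le_mul_of_nonneg_left nε c0)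
        ((norm_le_pi_norm θ n).trans hA) (norm_nonneg _) (by positivity))
    have hB : ∀ a a', ‖Del Ξ a' (wed (v a) (kos ε (θ n)))‖ ≤
        N * (A' * (c * (2 * W) * (c * E * A))) * Δ := by
      intro a a'
      refine (cyc _ ?_ ?_ a').trans ?_
      · rw [show ν - 1 = ν - 2 + 1 by omega]; exact hq.wed _
      · rw [kos_wed, v3, kos_kos, (hθ n).2]; simp
      · have : ‖wed (v a) (kos ε (θ n))‖ ≤ c * (2 * W) * (c * E * A) :=
          (norm_wed_le _ _).trans (mul_le_mul (mul_le_mul_of_nonneg_left (v4 a) c0) nα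
            (norm_nonneg _) (by positivity))
        gcongr
    refine (rel1 Ξ hs hab).trans (add_le_add le_rfl ((rel2 Ξ v1 v2 hB hab).trans ?_))
    calc 2 * (N * (A' * (c * (2 * W) * (c * E * A))) * Δ)
        = 4 * N * c ^ 2 * (A * A' * W * E * Δ) := by ring
      _ ≤ (c ^ (ν - 1) + N * (2 * c) ^ (ν - 1) + 4 * N * c ^ 2 + 1) * (A * A' * W * E * Δ) :=
          mul_le_mul_of_nonneg_right (by linarith) h4
      _ = _ := by ring

end Pool.Agent.Lib.MP_45f16c_ag
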