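import Pool.Agent.Lib.MP_45f16c_ag.Basic

-- part Pool.Agent.Lib.MP_45f16c_ag.Bez
section

/-! Bezout bound for nondegenerate real solutions of a polynomial map. -/

set_option autoImplicit false
open Filter Topology

namespace Pool.Agent.Lib.MP_45f16c_ag

namespace BezAux

variable {E : Type} [NormedAddCommGroup E] [NormedSpace ℝ E] [FiniteDimensional ℝ E] {n : ℕ}

/-- real coordinate -/
noncomputable def cr (b : Module.Basis (Fin n) ℝ E) (i : Fin n) : E →L[ℝ] ℝ :=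
  LinearMap.toContinuousLinearMap (b.coord i)

/-- complex valued coordinate -/
noncomputable def cc (b : Module.Basis (Fin n) ℝ E) (i : Fin n) : E →L[ℝ] ℂ :=
  Complex.ofRealCLM.comp (cr b i)

theorem cc_apply (b : Module.Basis (Fin n) ℝ E) (i : Fin n) (x : E) :
    cc b i x = ((b.repr x i : ℝ) : ℂ) := rfl

/-- monomial function -/
noncomputable def mn (b : Module.Basis (Fin n) ℝ E) (k : Fin n → ℕ) (x : E) : ℂ :=
  ∏ i, cc b i x ^ k i

theorem mn_add (b : Module.Basis (Fin n) ℝ E) (k k' : Fin n → ℕ) :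
    mn b (k + k') = mn b k * mn b k' := by
  funext x
  simp [mn, pow_add, Finset.prod_mul_distrib]

theorem mn_single (b : Module.Basis (Fin n) ℝ E) (i : Fin n) (m : ℕ) (x : E) :
    mn b (Pi.single i m) x = cc b i x ^ m := by
  rw [mn, Finset.prod_eq_single i] <;> simp +contextual

theorem pd_mn (b : Module.Basis (Fin n) ℝ E) (k : Fin n → ℕ) : PD ℝ (∑ i, k i) (mn b k) := by
  have := PD.prod (𝕜 := ℝ) Finset.univ (F := fun i x => cc b i x ^ k i) (k := fun i => k i * 1)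
    fun i _ => (PD.lin (cc b i)).pow (k i)
  simp only [mul_one] at this
  exact this

/-- span of the monomials of degree at most `m` -/
noncomputable def Mn (b : Module.Basis (Fin n) ℝ E) (m : ℕ) : Submodule ℂ (E → ℂ) :=
  Submodule.span ℂ {f | ∃ k : Fin n → ℕ, ∑ i, k i ≤ m ∧ f = mn b k}

theorem mem_Mn (b : Module.Basis (Fin n) ℝ E) {m : ℕ} {f : E → ℂ} (h : PD ℝ m f) : f ∈ Mn b m := by
  induction h with
  | const a =>
    have : (fun _ : E => a) = a • mn b 0 := by funext x; simp [mn]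
    rw [this]
    exact Submodule.smul_mem _ _ (Submodule.subset_span ⟨0, by simp, rfl⟩)
  | lin l =>
    have : (fun x : E => l x) = ∑ i, l (b i) • mn b (Pi.single i 1) := by
      funext x
      conv_lhs => rw [← b.sum_repr x, map_sum]
      simp [mn_single, cc_apply, mul_comm]
    rw [this]
    exact Submodule.sum_mem _ fun i _ =>
      Submodule.smul_mem _ _ (Submodule.subset_span ⟨_, by simp, rfl⟩)
  | add _ _ h1 h2 => exact Submodule.add_mem _ h1 h2
  | mul _ _ h1 h2 =>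
    have := Submodule.mul_mem_mul h1 h2
    rw [Mn, Mn, Submodule.span_mul_span] at this
    refine Submodule.span_mono ?_ this
    rintro _ ⟨_, ⟨k, hk, rfl⟩, _, ⟨k', hk', rfl⟩, rfl⟩
    refine ⟨k + k', ?_, (mn_add b k k').symm⟩
    simp only [Pi.add_apply, Finset.sum_add_distrib]
    omega
  | mono hn _ h1 =>
    refine Submodule.span_mono ?_ h1
    rintro _ ⟨k, hk, rfl⟩
    exact ⟨k, hk.trans hn, rfl⟩

/-- On a set where every pure power of degree `D + 1` has degree at most `D`. -/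
theorem card_le (b : Module.Basis (Fin n) ℝ E) (D : ℕ) (Z : Finset E) (g : Fin n → E → ℂ)
    (hg : ∀ i, PD ℝ D (g i)) (hZ : ∀ x ∈ Z, ∀ i, cc b i x ^ (D + 1) = g i x) :
    Z.card ≤ (D + 1) ^ n := by
  classical
  let r : (E → ℂ) →ₗ[ℂ] (Z → ℂ) := LinearMap.funLeft ℂ ℂ Subtype.val
  let w : (Fin n → Fin (D + 1)) → Z → ℂ := fun k => r (mn b fun i => k i)
  have h1 : ∀ m (f : E → ℂ), PD ℝ m f → r f ∈ Submodule.span ℂ (Set.range w) := by
    intro m
    induction m using Nat.strong_induction_on with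
    | _ m ih =>
      intro f hf
      have h2 : Mn b m ≤ (Submodule.span ℂ (Set.range w)).comap r := by
        refine Submodule.span_le.2 ?_
        rintro _ ⟨k, hk, rfl⟩
        by_cases h : ∀ i, k i < D + 1
        · exact Submodule.subset_span ⟨fun i => ⟨k i, h i⟩, rfl⟩
        · push Not at h
          obtain ⟨i, hi⟩ := h
          obtain ⟨k', rfl⟩ : ∃ k' : Fin n → ℕ, k = Pi.single i (D + 1) + k' := by
            refine ⟨k - Pi.single i (D + 1), funext fun j => ?_⟩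
            rw [Pi.add_apply, Pi.sub_apply]
            by_cases e : j = i
            · subst e; rw [Pi.single_eq_same]; omega
            · rw [Pi.single_eq_of_ne e]; omega
          have h3 : r (mn b (Pi.single i (D + 1) + k')) = r fun x => g i x * mn b k' x := by
            funext x
            change mn b (Pi.single i (D + 1) + k') x = g i x * mn b k' x
            rw [mn_add, Pi.mul_apply, mn_single, hZ x x.2]
          change r _ ∈ Submodule.span ℂ (Set.range w)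
          rw [h3]
          refine ih _ ?_ _ ((hg i).mul (pd_mn b k'))
          simp only [Pi.add_apply, Finset.sum_add_distrib, Finset.sum_pi_single', Finset.mem_univ,
            if_true] at hk
          omega
      exact h2 (mem_Mn b hf)
  have h2 : ∀ z z' : E, z ≠ z' → ∃ i, cc b i z - cc b i z' ≠ 0 := by
    intro z z' h
    by_contra hc
    push Not at hc
    refine h (b.ext_elem fun i => ?_)
    have := sub_eq_zero.1 (hc i)
    rw [cc_apply, cc_apply] at this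
    exact_mod_cast this
  have h3 : Submodule.span ℂ (Set.range w) = ⊤ := by
    rw [eq_top_iff, ← (Pi.basisFun ℂ Z).span_eq, Submodule.span_le]
    rintro _ ⟨z, rfl⟩
    have h4 : ∀ z' : Z, ∃ f : E → ℂ, PD ℝ 1 f ∧ f z = 1 ∧ (z' ≠ z → f z' = 0) := by
      intro z'
      by_cases e : z' = z
      · exact ⟨fun _ => 1, PD.const' 1 1, rfl, fun h => (h e).elim⟩
      · obtain ⟨i, hi⟩ := h2 z z' fun h => e (Subtype.ext h.symm)
        exact ⟨fun x => (cc b i x - cc b i z') / (cc b i z - cc b i z'),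
          ((PD.lin (cc b i)).sub (PD.const' 1 _)).div_const _, div_self hi, fun _ => by simp⟩
    choose f hf1 hf2 hf3 using h4
    have h5 := h1 _ _ (PD.prod Finset.univ (F := f) (k := fun _ => 1) fun a _ => hf1 a)
    have h6 : (r fun x => ∏ a, f a x) = Pi.basisFun ℂ Z z := by
      funext x
      change ∏ a, f a x = _
      by_cases e : x = z
      · subst e; simp [hf2]
      · rw [Finset.prod_eq_zero (Finset.mem_univ x) (hf3 x e)]
        simp [e]
    rwa [h6] at h5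
  simpa using finrank_le_of_span_eq_top h3

/-- Nondegenerate solutions persist under a small perturbation. -/
theorem persist (Ψ Q : E → E) (hΨ : ContDiff ℝ 1 Ψ) (hQ : ContDiff ℝ 1 Q) (z : E)
    (hz : (fderiv ℝ Ψ z).det ≠ 0) {V : Set E} (hV : V ∈ 𝓝 z) :
    ∀ᶠ ε : ℝ in 𝓝 0, ∃ x ∈ V, Ψ x + ε • Q x = Ψ z := by
  have : CompleteSpace E := FiniteDimensional.complete ℝ E
  have a1 : HasStrictFDerivAt (fun p : E × ℝ => Ψ p.1)
      ((fderiv ℝ Ψ z).comp (ContinuousLinearMap.fst ℝ E ℝ)) (z, 0) :=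
    HasStrictFDerivAt.comp (x := ((z, 0) : E × ℝ))
      (hΨ.contDiffAt.hasStrictFDerivAt one_ne_zero) hasStrictFDerivAt_fst
  have a2 : HasStrictFDerivAt (fun p : E × ℝ => Q p.1)
      ((fderiv ℝ Q z).comp (ContinuousLinearMap.fst ℝ E ℝ)) (z, 0) :=
    HasStrictFDerivAt.comp (x := ((z, 0) : E × ℝ))
      (hQ.contDiffAt.hasStrictFDerivAt one_ne_zero) hasStrictFDerivAt_fst
  have a3 : HasStrictFDerivAt (fun p : E × ℝ => p.2) (ContinuousLinearMap.snd ℝ E ℝ) (z, 0) :=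
    hasStrictFDerivAt_snd
  have h1 := ((a1.add (a3.smul a2)).prodMk a3).map_nhds_eq_of_surj (by
    rw [LinearMap.range_eq_top]
    rintro ⟨w, t⟩
    obtain ⟨u, hu⟩ := ((fderiv ℝ Ψ z).toContinuousLinearEquivOfDetNeZero hz).surjective
      (w - t • Q z)
    refine ⟨(u, t), ?_⟩
    have hu' : fderiv ℝ Ψ z u = w - t • Q z := hu
    simp [hu'])
  have h2 := Filter.image_mem_map (m := fun p : E × ℝ => (Ψ p.1 + p.2 • Q p.1, p.2))
    (prod_mem_nhds hV (Filter.univ_mem (f := 𝓝 (0 : ℝ))))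
  have h3 : Tendsto (fun ε : ℝ => (Ψ z, ε)) (𝓝 0)
      (map (fun p : E × ℝ => (Ψ p.1 + p.2 • Q p.1, p.2)) (𝓝 (z, 0))) := by
    have : Tendsto (fun ε : ℝ => (Ψ z, ε)) (𝓝 0) (𝓝 (Ψ z + (0 : ℝ) • Q z, 0)) := by
      rw [zero_smul, add_zero]
      exact (Continuous.prodMk_right (Ψ z)).tendsto 0
    exact this.mono_right h1.ge
  filter_upwards [h3 h2] with ε hε
  obtain ⟨⟨x, t⟩, hx, e⟩ := hε
  obtain ⟨e1, rfl⟩ := Prod.mk.inj e
  exact ⟨x, hx.1, e1⟩

end BezAux

open BezAux in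
theorem bez : BezStmt := by
  intro E _ _ _ D Ψ hΨ v Z hZ
  classical
  let b := Module.finBasis ℝ E
  let Q : E → E := fun x => ∑ i, cr b i x ^ (D + 1) • b i
  have hQ : ContDiff ℝ 1 Q :=
    ContDiff.sum fun i _ => ((cr b i).contDiff.pow (D + 1)).smul contDiff_const
  obtain ⟨V, h4, h5⟩ := Z.finite_toSet.t2_separation
  have h6 : ∀ᶠ ε : ℝ in 𝓝 0, ∀ z ∈ Z, ∃ x ∈ V z, Ψ x + ε • Q x = v :=
    (Filter.eventually_all_finset Z).2 fun z hz => by
      rw [← (hZ z hz).1]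
      exact persist Ψ Q hΨ.contDiff hQ z (hZ z hz).2 ((h4 z).2.mem_nhds (h4 z).1)
  obtain ⟨ε, h7, hε⟩ := ((h6.filter_mono (nhdsWithin_le_nhds (s := {0}ᶜ))).and
    self_mem_nhdsWithin).exists
  have hε' : (ε : ℂ) ≠ 0 := Complex.ofReal_ne_zero.2 hε
  choose! x h9 h10 using h7
  rw [← Finset.card_image_of_injOn (f := x) fun z hz z' hz' e => ?_]
  · refine card_le b D _ (fun i y => (cc b i v - cc b i (Ψ y)) / ε)
      (fun i => ((PD.const' D _).sub (hΨ (cc b i))).div_const _) fun y hy i => ?_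
    obtain ⟨z, hz, rfl⟩ := Finset.mem_image.1 hy
    have e : cc b i (Q (x z)) = cc b i (x z) ^ (D + 1) := by
      simp only [Q, map_sum, map_smul]
      rw [Finset.sum_eq_single i]
      · simp [cc_apply, cr]
      · intro j _ hj
        simp [cc_apply, hj]
      · simp
    rw [← h10 z hz, map_add, map_smul, e, Complex.real_smul]
    field_simp
    ring
  · by_contra hne
    exact Set.disjoint_left.1 (h5 hz hz' hne) (h9 z hz) (e ▸ h9 z' hz')

end Pool.Agent.Lib.MP_45f16c_ag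
end

-- part Pool.Agent.Lib.MP_45f16c_ag.Det
section

/-! Comparison of Jacobians when no bounded lift exists (determinant exchange lemma). -/

set_option autoImplicit false
open Module

namespace Pool.Agent.Lib.MP_45f16c_ag

noncomputable section

namespace DetAux

/-- One exchange step. -/
theorem exch_step {ι α : Type} [Fintype ι] [DecidableEq ι] (ρ : α → ι → ℝ) (e : ι → α)
    (he : ∀ i, ρ (e i) = Pi.single i 1) (Λ : ℝ) (hΛ : 0 < Λ) (I : ι → α) (s : Finset ι)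
    (hI : ∀ i, i ∉ s → I i = e i) (hd : (Matrix.of fun i => ρ (I i)).det ≠ 0)
    (η : ι → ℝ) (x : α) (h0 : ∀ i ∈ s, ρ (I i) ⬝ᵥ η = 0) (hx : Λ * ‖η‖ < |ρ x ⬝ᵥ η|) :
    ∃ i, Λ / Fintype.card ι * |(Matrix.of fun i => ρ (I i)).det| ≤
      |(Matrix.of fun k => ρ (Function.update I i x k)).det| := by
  set M : Matrix ι ι ℝ := Matrix.of fun i => ρ (I i) with hM
  set a : ι → ℝ := Matrix.vecMul (ρ x) M⁻¹ with ha
  have hxa : ρ x = ∑ k, a k • M k := by
    have h1 : Matrix.vecMul a M = ρ x := by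
      rw [ha, Matrix.vecMul_vecMul, Matrix.nonsing_inv_mul _ (Ne.isUnit hd), Matrix.vecMul_one]
    rw [← h1, Matrix.vecMul_eq_sum]
  have hrow : ∀ k, |M k ⬝ᵥ η| ≤ ‖η‖ := by
    intro k
    by_cases hk : k ∈ s
    · have : M k ⬝ᵥ η = 0 := h0 k hk
      rw [this, abs_zero]; exact norm_nonneg _
    · have : M k = Pi.single k 1 := by
        show ρ (I k) = _
        rw [hI k hk, he]
      rw [this, single_dotProduct, one_mul]
      exact norm_le_pi_norm η k
  have hne : Nonempty ι := by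
    by_contra hc
    rw [not_nonempty_iff] at hc
    have h1 : ρ x ⬝ᵥ η = 0 := by simp [dotProduct]
    rw [h1, abs_zero] at hx
    have : 0 ≤ Λ * ‖η‖ := by positivity
    linarith
  have hn : (0 : ℝ) < Fintype.card ι := by exact_mod_cast Fintype.card_pos
  have hex : ∃ i, Λ / Fintype.card ι ≤ |a i| := by
    by_contra hc
    push Not at hc
    have h1 : |ρ x ⬝ᵥ η| ≤ ∑ _k : ι, Λ / Fintype.card ι * ‖η‖ := by
      rw [hxa, sum_dotProduct]
      refine (Finset.abs_sum_le_sum_abs _ _).trans (Finset.sum_le_sum fun k _ => ?_)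
      rw [smul_dotProduct, smul_eq_mul, abs_mul]
      exact mul_le_mul (hc k).le (hrow k) (abs_nonneg _) (by positivity)
    rw [Finset.sum_const, Finset.card_univ, nsmul_eq_mul] at h1
    have h2 : (Fintype.card ι : ℝ) * (Λ / Fintype.card ι * ‖η‖) = Λ * ‖η‖ := by field_simp
    linarith
  obtain ⟨i, hi⟩ := hex
  refine ⟨i, ?_⟩
  have h3 : (Matrix.of fun k => ρ (Function.update I i x k)) = M.updateRow i (∑ k, a k • M k) := by
    rw [← hxa]
    ext k l
    by_cases hk : k = i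
    · subst hk; simp
    · simp [Matrix.updateRow_ne hk, Function.update_of_ne hk, hM]
  rw [h3, Matrix.det_updateRow_sum, smul_eq_mul, abs_mul]
  exact mul_le_mul_of_nonneg_right hi (abs_nonneg _)

/-- The exchange lemma. -/
theorem exch {ι α : Type} [Fintype ι] [DecidableEq ι] [Nonempty ι] (ρ : α → ι → ℝ) (e : ι → α)
    (he : ∀ i, ρ (e i) = Pi.single i 1) (Λ : ℝ) (hΛ : 0 < Λ) (j : ℕ)
    (H : ∀ (I : ι → α) (s : Finset ι), s.card ≤ j → ∃ (η : ι → ℝ) (x : α),
      (∀ i ∈ s, ρ (I i) ⬝ᵥ η = 0) ∧ Λ * ‖η‖ < |ρ x ⬝ᵥ η|) :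
    ∀ k, k ≤ j + 1 → ∃ (I : ι → α) (s : Finset ι), s.card ≤ k ∧ (∀ i, i ∉ s → I i = e i) ∧
      (Λ / Fintype.card ι) ^ k ≤ |(Matrix.of fun i => ρ (I i)).det| := by
  have hn : (0 : ℝ) < Fintype.card ι := by exact_mod_cast Fintype.card_pos
  intro k
  induction k with
  | zero =>
    intro _
    refine ⟨e, ∅, by simp, fun _ _ => rfl, ?_⟩
    have : (Matrix.of fun i => ρ (e i)) = 1 := by
      ext i l
      simp [he, Matrix.one_apply, Pi.single_apply, eq_comm]
    simp [this]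
  | succ k ih =>
    intro hk
    obtain ⟨I, s, hs, hI, hd⟩ := ih (by omega)
    have hpos : 0 < (Λ / Fintype.card ι) ^ k := by positivity
    have hd0 : (Matrix.of fun i => ρ (I i)).det ≠ 0 := by
      intro h; rw [h, abs_zero] at hd; linarith
    obtain ⟨η, x, h0, hx⟩ := H I s (by omega)
    obtain ⟨i, hi⟩ := exch_step ρ e he Λ hΛ I s hI hd0 η x h0 hx
    refine ⟨Function.update I i x, insert i s, (Finset.card_insert_le _ _).trans (by omega), ?_, ?_⟩
    · intro l hl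
      rw [Finset.mem_insert, not_or] at hl
      rw [Function.update_of_ne hl.1, hI l hl.2]
    · refine le_trans ?_ hi
      rw [pow_succ']
      exact mul_le_mul_of_nonneg_left hd (by positivity)

/-- Block triangular determinant. -/
theorem det_tri {U V : Type} [AddCommGroup U] [Module ℝ U] [AddCommGroup V] [Module ℝ V]
    [FiniteDimensional ℝ U] [FiniteDimensional ℝ V] (S : U × V →ₗ[ℝ] U × V)
    (hS : ∀ v, (S v).1 = v.1) :
    LinearMap.det S = LinearMap.det (LinearMap.snd ℝ U V ∘ₗ S ∘ₗ LinearMap.inr ℝ U V) := by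
  classical
  let b := Module.finBasis ℝ U
  let c := Module.finBasis ℝ V
  rw [← LinearMap.det_toMatrix (b.prod c), ← LinearMap.det_toMatrix c]
  have h : LinearMap.toMatrix (b.prod c) (b.prod c) S = Matrix.fromBlocks 1 0
      (LinearMap.toMatrix (b.prod c) (b.prod c) S).toBlocks₂₁
      (LinearMap.toMatrix c c (LinearMap.snd ℝ U V ∘ₗ S ∘ₗ LinearMap.inr ℝ U V)) := by
    ext (i | i) (k | k)
    · simp [LinearMap.toMatrix_apply, hS, Matrix.one_apply, Finsupp.single_apply, eq_comm]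
    · simp [LinearMap.toMatrix_apply, hS]
    · simp [Matrix.toBlocks₂₁]
    · simp [LinearMap.toMatrix_apply]
  rw [h, Matrix.det_fromBlocks_zero₁₂, Matrix.det_one, one_mul]

/-- Real coordinates. -/
def eqv (μ : Type) : (μ → ℂ) ≃ₗ[ℝ] (μ × Bool → ℝ) where
  toFun η := fun c => rc η c
  map_add' η η' := by
    funext c; rcases c with ⟨m, _ | _⟩ <;> simp [rc]
  map_smul' t η := by
    funext c; rcases c with ⟨m, _ | _⟩ <;> simp [rc]
  invFun y := fun m => (y (m, false) : ℂ) + (y (m, true) : ℂ) * Complex.I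
  left_inv η := by
    funext m; simp [rc]
  right_inv y := by
    funext c; rcases c with ⟨m, _ | _⟩ <;> simp [rc]

theorem eqv_apply {μ : Type} (η : μ → ℂ) (c : μ × Bool) : eqv μ η c = rc η c := rfl

theorem eqv_sel {μ α : Type} (I : μ × Bool → α × Bool) (u : α → ℂ) (c : μ × Bool) :
    eqv μ (sel I u) c = rc u (I c) := by
  rcases c with ⟨m, _ | _⟩ <;> simp [eqv_apply, rc, sel]

theorem norm_eqv_le {μ : Type} [Fintype μ] (η : μ → ℂ) : ‖eqv μ η‖ ≤ ‖η‖ := by
  refine (pi_norm_le_iff_of_nonneg (norm_nonneg _)).2 fun c => ?_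
  refine le_trans ?_ (norm_le_pi_norm η c.1)
  rcases c with ⟨m, _ | _⟩
  · exact Complex.abs_re_le_norm _
  · exact Complex.abs_im_le_norm _

/-- The coordinates of the graph of a linear family, as a complex linear map. -/
def crdL {κ μ 𝓡 : Type} (G' : 𝓡 → ((κ → ℂ) × (μ → ℂ)) →L[ℂ] ℂ) :
    ((κ → ℂ) × (μ → ℂ)) →ₗ[ℂ] (κ ⊕ μ ⊕ 𝓡 → ℂ) where
  toFun v := crd (fun r v => G' r v) v
  map_add' v w := by
    funext x; rcases x with k | m | r <;> simp [crd]
  map_smul' t v := by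
    funext x; rcases x with k | m | r <;> simp [crd]

theorem dot_row {ι : Type} [Fintype ι] [DecidableEq ι] (R : (ι → ℝ) →ₗ[ℝ] ℝ) (y : ι → ℝ) :
    (fun k => R (Pi.single k 1)) ⬝ᵥ y = R y := by
  conv_rhs => rw [pi_eq_sum_univ' y]
  simp [dotProduct, map_sum, mul_comm]

/-- Failure of bounded lifts gives large rows. -/
theorem large_row {κ μ 𝓡 : Type} [Fintype κ] [Fintype μ] (j : ℕ) (Λ : ℝ)
    (G' : 𝓡 → ((κ → ℂ) × (μ → ℂ)) →L[ℂ] ℂ) (hΛ : 0 < Λ) (hL : ¬LiftL G' j Λ)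
    (Γ : (μ → ℂ) →ₗ[ℝ] (κ → ℂ) × (μ → ℂ)) (hΓ : ∀ η, (Γ η).2 = η)
    {ι : Type} (φ : ι → (μ → ℂ) →ₗ[ℝ] ℝ) (s : Finset ι) (hs : s.card ≤ j) :
    ∃ (η : μ → ℂ) (x : (κ ⊕ μ ⊕ 𝓡) × Bool), (∀ i ∈ s, φ i η = 0) ∧
      Λ / 2 * ‖η‖ < |rc (crdL G' (Γ η)) x| := by
  classical
  obtain ⟨g⟩ : Nonempty (s ↪ Fin j) :=
    Function.Embedding.nonempty_of_card_le (by simpa using hs)
  let χ' : s → (μ → ℂ) →ₗ[ℂ] ℂ := fun i => Module.Dual.extendRCLike (𝕜 := ℂ) (φ i)
  unfold LiftL at hL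
  push Not at hL
  obtain ⟨η, hη, hξ⟩ := hL (Function.extend g χ' 0)
  have hz : ∀ i ∈ s, φ i η = 0 ∧ φ i (Complex.I • η) = 0 := by
    intro i hi
    have h1 := hη (g ⟨i, hi⟩)
    rw [g.injective.extend_apply] at h1
    have h2 : (φ i η : ℂ) - Complex.I * (φ i (Complex.I • η) : ℂ) = 0 := h1
    have h3 := congrArg Complex.re h2
    have h4 := congrArg Complex.im h2
    simp at h3 h4
    exact ⟨h3, h4⟩
  by_contra hc
  push Not at hc
  have hb : ∀ η' : μ → ℂ, (∀ i ∈ s, φ i η' = 0) → ∀ x, ‖crdL G' (Γ η') x‖ ≤ Λ * ‖η'‖ := by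
    intro η' h x
    have h1 : |(crdL G' (Γ η') x).re| ≤ Λ / 2 * ‖η'‖ := hc η' (x, false) h
    have h2 : |(crdL G' (Γ η') x).im| ≤ Λ / 2 * ‖η'‖ := hc η' (x, true) h
    have h3 := Complex.norm_le_abs_re_add_abs_im (crdL G' (Γ η') x)
    linarith
  set v : (κ → ℂ) × (μ → ℂ) := (1 / 2 : ℂ) • (Γ η - Complex.I • Γ (Complex.I • η)) with hv
  have hv2 : v.2 = η := by
    rw [hv]
    simp only [Prod.smul_snd, Prod.snd_sub, hΓ, smul_smul, Complex.I_mul_I]
    module
  have hall : ∀ x, ‖crdL G' v x‖ ≤ Λ * ‖η‖ := by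
    intro x
    have h1 := hb η (fun i hi => (hz i hi).1) x
    have h2 := hb (Complex.I • η) (fun i hi => (hz i hi).2) x
    rw [norm_smul, Complex.norm_I, one_mul] at h2
    rw [hv, map_smul, map_sub, map_smul]
    simp only [Pi.smul_apply, Pi.sub_apply, smul_eq_mul, norm_mul]
    have h3 := norm_sub_le (crdL G' (Γ η) x) (Complex.I * crdL G' (Γ (Complex.I • η)) x)
    rw [norm_mul, Complex.norm_I, one_mul] at h3
    have h4 : ‖(1 / 2 : ℂ)‖ = 1 / 2 := by simp
    rw [h4]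
    linarith
  have hξ1 : ‖v.1‖ ≤ Λ * ‖η‖ :=
    (pi_norm_le_iff_of_nonneg (by positivity)).2 fun k => hall (Sum.inl k)
  obtain ⟨r, hr⟩ := hξ v.1 hξ1
  have h5 := hall (Sum.inr (Sum.inr r))
  have h6 : crdL G' v (Sum.inr (Sum.inr r)) = G' r (v.1, η) := by
    rw [← hv2]; rfl
  rw [h6] at h5
  linarith

/-- A real coordinate as a real linear functional. -/
def rcL {α : Type} (x : α × Bool) : (α → ℂ) →ₗ[ℝ] ℝ := LinearMap.proj x ∘ₗ (eqv α).toLinearMap

theorem rcL_apply {α : Type} (x : α × Bool) (u : α → ℂ) : rcL x u = rc u x := rfl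

end DetAux

open DetAux in
theorem detS : DetStmt := by
  classical
  intro κ μ 𝓡 _ _ j Λ G' L hΛ hL
  let e : μ × Bool → (κ ⊕ μ ⊕ 𝓡) × Bool := fun c => (Sum.inr (Sum.inl c.1), c.2)
  set T₀ := L.prod (ContinuousLinearMap.snd ℝ (κ → ℂ) (μ → ℂ)) with hT₀
  by_cases h0 : T₀.det = 0
  · refine ⟨e, fun A _ => ?_⟩
    rw [h0, abs_zero]
    positivity
  let T : ((κ → ℂ) × (μ → ℂ)) ≃ₗ[ℝ] ((κ → ℂ) × (μ → ℂ)) :=
    LinearMap.equivOfDetNeZero (T₀ : ((κ → ℂ) × (μ → ℂ)) →ₗ[ℝ] ((κ → ℂ) × (μ → ℂ))) h0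
  have hT : ∀ v, T v = (L v, v.2) := fun v => rfl
  let Γ : (μ → ℂ) →ₗ[ℝ] (κ → ℂ) × (μ → ℂ) := T.symm.toLinearMap ∘ₗ LinearMap.inr ℝ _ _
  have hΓ : ∀ η, (Γ η).2 = η := by
    intro η
    have h1 : T (Γ η) = (0, η) := T.apply_symm_apply _
    rw [hT] at h1
    exact congrArg Prod.snd h1
  let R : (κ ⊕ μ ⊕ 𝓡) × Bool → (μ → ℂ) →ₗ[ℝ] ℝ :=
    fun x => rcL x ∘ₗ (crdL G').restrictScalars ℝ ∘ₗ Γ
  have hR : ∀ x η, R x η = rc (crdL G' (Γ η)) x := fun x η => rfl
  let ρ : (κ ⊕ μ ⊕ 𝓡) × Bool → μ × Bool → ℝ :=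
    fun x k => (R x ∘ₗ (eqv μ).symm.toLinearMap) (Pi.single k 1)
  have hρ : ∀ x η, ρ x ⬝ᵥ eqv μ η = R x η := by
    intro x η
    rw [dot_row (R x ∘ₗ (eqv μ).symm.toLinearMap)]
    simp
  have he : ∀ i, ρ (e i) = Pi.single i 1 := by
    intro i
    funext k
    have h1 : ∀ η, R (e i) η = eqv μ η i := by
      intro η
      rw [hR, eqv_apply]
      have : crdL G' (Γ η) (Sum.inr (Sum.inl i.1)) = η i.1 := by
        rw [← congrFun (hΓ η) i.1]; rfl
      simp only [rc, e, this]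
    show R (e i) ((eqv μ).symm (Pi.single k 1)) = _
    rw [h1, LinearEquiv.apply_symm_apply]
    simp [Pi.single_apply, eq_comm]
  have hne : Nonempty μ := by
    by_contra hc
    rw [not_nonempty_iff] at hc
    refine hL ⟨0, fun η _ => ⟨0, by simp; positivity, fun r => ?_⟩⟩
    have : η = 0 := Subsingleton.elim _ _
    subst this
    have h1 : ((0 : κ → ℂ), (0 : μ → ℂ)) = 0 := rfl
    rw [h1, map_zero]; simp
  obtain ⟨I, -, -, -, hI⟩ := exch ρ e he (Λ / 2) (by positivity) j (fun I s hs => by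
    obtain ⟨η, x, h1, h2⟩ := large_row j Λ G' hΛ hL Γ hΓ (fun i => R (I i)) s hs
    refine ⟨eqv μ η, x, fun i hi => by rw [hρ, h1 i hi], ?_⟩
    rw [hρ, hR]
    exact lt_of_le_of_lt (mul_le_mul_of_nonneg_left (norm_eqv_le η) (by positivity)) h2)
    (j + 1) le_rfl
  refine ⟨I, fun A hA => ?_⟩
  let S : ((κ → ℂ) × (μ → ℂ)) →ₗ[ℝ] ((κ → ℂ) × (μ → ℂ)) :=
    (L.prod A : ((κ → ℂ) × (μ → ℂ)) →L[ℝ] ((κ → ℂ) × (μ → ℂ))).toLinearMap ∘ₗ T.symm.toLinearMap
  have hS1 : ∀ v, (S v).1 = v.1 := by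
    intro v
    have h1 : T (T.symm v) = v := T.apply_symm_apply _
    rw [hT] at h1
    have h2 := congrArg Prod.fst h1
    exact h2
  have hdet : (L.prod A).det = LinearMap.det S * T₀.det := by
    have h1 : (L.prod A : ((κ → ℂ) × (μ → ℂ)) →L[ℝ] ((κ → ℂ) × (μ → ℂ))).toLinearMap =
        S ∘ₗ T.toLinearMap := by
      refine LinearMap.ext fun v => ?_
      show (L.prod A) v = (L.prod A) (T.symm (T v))
      rw [T.symm_apply_apply]
    rw [ContinuousLinearMap.det, h1, LinearMap.det_comp]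
    rfl
  have hdS : LinearMap.det S = (Matrix.of fun i => ρ (I i)).det := by
    rw [det_tri S hS1, ← LinearMap.det_conj _ (eqv μ), ← LinearMap.det_toMatrix']
    congr 1
    ext i k
    rw [LinearMap.toMatrix'_apply]
    have h1 : ∀ η, eqv μ (A (Γ η)) i = R (I i) η := by
      intro η
      rw [hA, eqv_sel, hR]; rfl
    exact h1 _
  have hc : (0 : ℝ) < Fintype.card μ := by exact_mod_cast Fintype.card_pos
  have hcard : (Fintype.card (μ × Bool) : ℝ) = 2 * Fintype.card μ := by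
    simp [Fintype.card_prod, mul_comm]
  rw [hdet, hdS, abs_mul, ← mul_assoc]
  refine le_mul_of_one_le_left (abs_nonneg _) ?_
  rw [hcard] at hI
  calc (1 : ℝ) = (4 * Fintype.card μ / Λ) ^ (j + 1) * (Λ / 2 / (2 * Fintype.card μ)) ^ (j + 1) := by
        rw [← mul_pow]
        have : 4 * (Fintype.card μ : ℝ) / Λ * (Λ / 2 / (2 * Fintype.card μ)) = 1 := by
          field_simp; norm_num
        rw [this, one_pow]
    _ ≤ _ := mul_le_mul_of_nonneg_left hI (by positivity)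

end

end Pool.Agent.Lib.MP_45f16c_ag
end

-- part Pool.Agent.Lib.MP_45f16c_ag.Sard
section

/-! The quantitative Sard lemma. -/

set_option autoImplicit false
open Metric MeasureTheory
open scoped ComplexConjugate ENNReal

namespace Pool.Agent.Lib.MP_45f16c_ag

namespace SardAux

theorem toR {E : Type} [NormedAddCommGroup E] [NormedSpace ℝ E] [NormedSpace ℂ E]
    [IsScalarTower ℝ ℂ E] {n : ℕ} {f : E → ℂ} (h : PD ℂ n f) : PD ℝ n f := by
  induction h with
  | const a => exact .const a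
  | lin l => exact .lin (l.restrictScalars ℝ)
  | add _ _ h1 h2 => exact h1.add h2
  | mul _ _ h1 h2 => exact h1.mul h2
  | mono hn _ h1 => exact h1.mono hn

variable {κ μ 𝓡 : Type} [Fintype κ] [Fintype μ] [Fintype 𝓡]

open Classical in
/-- The gradient of the penalty function. -/
noncomputable def gam (G : 𝓡 → (κ → ℂ) × (μ → ℂ) → ℂ) (v : (κ → ℂ) × (μ → ℂ)) : κ → ℂ :=
  fun k => v.1 k + ∑ r, G r v * conj (fderiv ℂ (G r) v (Pi.single k 1, 0))

theorem le_of_sq {a t : ℝ} (h : a ^ 2 ≤ t) : a ≤ (t + 1) / 2 := by nlinarith [sq_nonneg (a - 1)]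

/-- Penalty minimisation. -/
theorem exists_min {G : 𝓡 → (κ → ℂ) × (μ → ℂ) → ℂ} (hG : ∀ r, Differentiable ℂ (G r))
    {S : ℝ} (hS : (2 * Fintype.card κ + Fintype.card 𝓡 + 2 : ℝ) ≤ S) {y : μ → ℂ} {x₀ w : κ → ℂ}
    (hx : ‖x₀‖ ≤ 1) (hG₀ : ∀ r, ‖G r (x₀, y)‖ ≤ 1) (hw : ‖w‖ ≤ 1) :
    ∃ x, ‖x‖ ≤ S ∧ (∀ r, ‖G r (x, y)‖ ≤ S) ∧ gam G (x, y) = w := by
  classical
  let F : (κ → ℂ) → ℝ := fun x => ∑ k, ‖x k - w k‖ ^ 2 + ∑ r, ‖G r (x, y)‖ ^ 2
  have hFc : Continuous F := by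
    refine Continuous.add (by fun_prop) (continuous_finsetSum _ fun r _ => ?_)
    exact (((hG r).continuous.comp (by fun_prop)).norm).pow 2
  have hκ : (0 : ℝ) ≤ Fintype.card κ := Nat.cast_nonneg _
  have hR : (0 : ℝ) ≤ Fintype.card 𝓡 := Nat.cast_nonneg _
  have hF₀ : F x₀ ≤ 4 * Fintype.card κ + Fintype.card 𝓡 := by
    have h1 : ∑ k, ‖x₀ k - w k‖ ^ 2 ≤ ∑ _k : κ, (4 : ℝ) := Finset.sum_le_sum fun k _ => by
      have a1 := (norm_le_pi_norm x₀ k).trans hx
      have a2 := (norm_le_pi_norm w k).trans hw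
      have a3 := norm_sub_le (x₀ k) (w k)
      nlinarith [norm_nonneg (x₀ k - w k)]
    have h2 : ∑ r, ‖G r (x₀, y)‖ ^ 2 ≤ ∑ _r : 𝓡, (1 : ℝ) := Finset.sum_le_sum fun r _ => by
      nlinarith [norm_nonneg (G r (x₀, y)), hG₀ r]
    simp only [Finset.sum_const, Finset.card_univ, nsmul_eq_mul] at h1 h2
    show _ + _ ≤ _
    linarith
  have hbd : ∀ x, F x ≤ F x₀ → ‖x‖ ≤ S ∧ ∀ r, ‖G r (x, y)‖ ≤ S := by
    intro x hFx
    have h0 : ∑ k, ‖x k - w k‖ ^ 2 + ∑ r, ‖G r (x, y)‖ ^ 2 ≤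
        4 * Fintype.card κ + Fintype.card 𝓡 := hFx.trans hF₀
    have h1 : 0 ≤ ∑ k, ‖x k - w k‖ ^ 2 := Finset.sum_nonneg fun _ _ => sq_nonneg _
    have h2 : 0 ≤ ∑ r, ‖G r (x, y)‖ ^ 2 := Finset.sum_nonneg fun _ _ => sq_nonneg _
    refine ⟨(pi_norm_le_iff_of_nonneg (by linarith)).2 fun k => ?_, fun r => ?_⟩
    · have a1 : ‖x k - w k‖ ^ 2 ≤ ∑ k, ‖x k - w k‖ ^ 2 :=
        Finset.single_le_sum (f := fun k => ‖x k - w k‖ ^ 2) (fun _ _ => sq_nonneg _)
          (Finset.mem_univ k)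
      have a2 := le_of_sq (a1.trans (le_trans (le_add_of_nonneg_right h2) h0))
      have a3 := (norm_le_pi_norm w k).trans hw
      have a4 : ‖x k‖ ≤ ‖x k - w k‖ + ‖w k‖ := by simpa using norm_add_le (x k - w k) (w k)
      linarith
    · have a1 : ‖G r (x, y)‖ ^ 2 ≤ ∑ r, ‖G r (x, y)‖ ^ 2 :=
        Finset.single_le_sum (f := fun r => ‖G r (x, y)‖ ^ 2) (fun _ _ => sq_nonneg _)
          (Finset.mem_univ r)
      have a2 := le_of_sq (a1.trans (le_trans (le_add_of_nonneg_left h1) h0))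
      linarith
  obtain ⟨x, hmin⟩ := hFc.exists_forall_le_of_isBounded x₀
    ((isBounded_closedBall (x := (0 : κ → ℂ)) (r := S)).subset fun x hx' => by
      simpa using (hbd x hx').1)
  refine ⟨x, (hbd x (hmin x₀)).1, (hbd x (hmin x₀)).2, funext fun k => ?_⟩
  have key : ∀ c : ℂ, (c * conj (gam G (x, y) k - w k)).re = 0 := by
    intro c
    let e : κ → ℂ := Pi.single k c
    have hl : HasDerivAt (fun s : ℝ => x + s • e) e 0 := by
      simpa using ((hasDerivAt_id (0 : ℝ)).smul_const e).const_add x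
    have h1 : ∀ k', HasDerivAt (fun s : ℝ => ‖(x + s • e) k' - w k'‖ ^ 2)
        (2 * (e k' * conj (x k' - w k')).re) 0 := fun k' => by
      have a := ((hasDerivAt_pi.1 hl k').sub_const (w k')).norm_sq
      simpa only [Complex.inner, zero_smul, add_zero] using a
    have h2 : ∀ r, HasDerivAt (fun s : ℝ => ‖G r (x + s • e, y)‖ ^ 2)
        (2 * (fderiv ℂ (G r) (x, y) (e, 0) * conj (G r (x, y))).re) 0 := fun r => by
      have a0 : HasDerivAt (fun s : ℝ => ((x + s • e, y) : (κ → ℂ) × (μ → ℂ))) (e, 0) 0 :=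
        hl.prodMk (hasDerivAt_const _ _)
      have a1 := ((hG r (x, y)).hasFDerivAt.restrictScalars ℝ).comp_hasDerivAt_of_eq 0 a0
        (by simp)
      have a := a1.norm_sq
      simpa only [Complex.inner, Function.comp, zero_smul, add_zero,
        ContinuousLinearMap.coe_restrictScalars'] using a
    have h3 := (HasDerivAt.fun_sum fun k' (_ : k' ∈ Finset.univ) => h1 k').add
      (HasDerivAt.fun_sum fun r (_ : r ∈ Finset.univ) => h2 r)
    have h4 : IsLocalMin (fun s : ℝ => F (x + s • e)) 0 :=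
      Filter.Eventually.of_forall fun s => by simpa using hmin (x + s • e)
    have h5 := h4.hasDerivAt_eq_zero h3
    have h6 : ∑ k', 2 * (e k' * conj (x k' - w k')).re = 2 * (c * conj (x k - w k)).re := by
      rw [Finset.sum_eq_single k]
      · simp [e]
      · intro b _ hb
        simp [e, hb]
      · simp
    have h7 : ∀ r, fderiv ℂ (G r) (x, y) (e, 0) =
        c * fderiv ℂ (G r) (x, y) (Pi.single k 1, 0) := fun r => by
      rw [← smul_eq_mul, ← map_smul]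
      congr 1
      ext i
      · simp [e, Pi.single_apply]
      · simp
    have h8 : c * conj (gam G (x, y) k - w k) = c * conj (x k - w k) +
        ∑ r, fderiv ℂ (G r) (x, y) (e, 0) * conj (G r (x, y)) := by
      simp only [gam, h7, map_sub, map_add, map_sum, map_mul, Complex.conj_conj]
      rw [show ∀ a b d : ℂ, c * (a + b - d) = c * (a - d) + c * b from fun _ _ _ => by ring,
        Finset.mul_sum]
      congr 1
      exact Finset.sum_congr rfl fun r _ => by ring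
    rw [h6, ← Finset.mul_sum] at h5
    rw [h8, Complex.add_re, Complex.re_sum]
    linarith
  have k1 := key 1
  have k2 := key Complex.I
  rw [← sub_eq_zero]
  apply Complex.ext
  · simpa using k1
  · have k3 : -(w k).im + (gam G (x, y) k).im = 0 := by simpa using k2
    rw [Complex.sub_im, Complex.zero_im]
    linarith

theorem gam_pd {D : ℕ} {G : 𝓡 → (κ → ℂ) × (μ → ℂ) → ℂ} (hD : 1 ≤ D) (hG : ∀ r, PD ℂ D (G r)) :
    PV (2 * D) (gam G) :=
  PV.pi fun k => ((PD.fst_apply k).mono (by omega)).add (PD.sum _ fun r _ =>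
    (toR (hG r)).mul_le (toR ((hG r).fderiv_apply _)).cj (by omega))

theorem snd_pv {n : ℕ} (hn : 1 ≤ n) : PV n (fun v : (κ → ℂ) × (μ → ℂ) => v.2) :=
  PV.pi fun m => (PD.snd_apply m).mono hn

omit [Fintype 𝓡] in
theorem crd_pd {D : ℕ} {G : 𝓡 → (κ → ℂ) × (μ → ℂ) → ℂ} (hD : 1 ≤ D) (hG : ∀ r, PD ℂ D (G r))
    (c : κ ⊕ μ ⊕ 𝓡) : PD ℝ D fun v => crd G v c := by
  rcases c with k | m | r
  · exact (PD.fst_apply k).mono hD
  · exact (PD.snd_apply m).mono hD
  · exact toR (hG r)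

theorem rc_pd {E α : Type} [NormedAddCommGroup E] [NormedSpace ℝ E] {n : ℕ} {u : E → α → ℂ}
    (h : ∀ a, PD ℝ n fun v => u v a) (c : α × Bool) : PD ℝ n fun v => (rc (u v) c : ℂ) := by
  obtain ⟨a, b⟩ := c
  cases b
  · exact (h a).re
  · exact (h a).im

theorem sel_pv {E α : Type} [NormedAddCommGroup E] [NormedSpace ℝ E] {n : ℕ} {u : E → α → ℂ}
    (h : ∀ a, PD ℝ n fun v => u v a) (I : μ × Bool → α × Bool) : PV n fun v => sel I (u v) :=
  PV.pi fun _ => (rc_pd h _).add ((rc_pd h _).mul_const _)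

theorem norm_sel_le {α : Type} (I : μ × Bool → α × Bool) {u : α → ℂ} {S : ℝ} (hS : 0 ≤ S)
    (h : ∀ a, ‖u a‖ ≤ S) : ‖sel I u‖ ≤ 2 * S := by
  have h1 : ∀ c, |rc u c| ≤ S := by
    rintro ⟨a, b⟩
    cases b
    · exact (Complex.abs_re_le_norm _).trans (h a)
    · exact (Complex.abs_im_le_norm _).trans (h a)
  refine (pi_norm_le_iff_of_nonneg (by linarith)).2 fun m => (norm_add_le _ _).trans ?_
  rw [norm_mul, Complex.norm_I, mul_one, Complex.norm_real, Complex.norm_real, Real.norm_eq_abs,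
    Real.norm_eq_abs]
  linarith [h1 (I (m, false)), h1 (I (m, true))]

/-- A real coordinate as a linear map. -/
noncomputable def rcL {α : Type} [Fintype α] (c : α × Bool) : (α → ℂ) →L[ℝ] ℂ :=
  Complex.ofRealCLM.comp ((if c.2 then Complex.imCLM else Complex.reCLM).comp
    (ContinuousLinearMap.proj c.1))

theorem rcL_apply {α : Type} [Fintype α] (c : α × Bool) (u : α → ℂ) : rcL c u = rc u c := by
  obtain ⟨a, b⟩ := c
  cases b <;> rfl

/-- The selection as a linear map. -/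
noncomputable def selL {α : Type} [Fintype α] (I : μ × Bool → α × Bool) :
    (α → ℂ) →L[ℝ] (μ → ℂ) :=
  ContinuousLinearMap.pi fun m => rcL (I (m, false)) + Complex.I • rcL (I (m, true))

omit [Fintype μ] in
theorem selL_apply {α : Type} [Fintype α] (I : μ × Bool → α × Bool) (u : α → ℂ) :
    selL I u = sel I u := by
  funext m
  simp [selL, sel, rcL_apply, mul_comm]

/-- The coordinates of a linear graph as a linear map. -/
noncomputable def crdL (G' : 𝓡 → ((κ → ℂ) × (μ → ℂ)) →L[ℂ] ℂ) :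
    ((κ → ℂ) × (μ → ℂ)) →L[ℝ] (κ ⊕ μ ⊕ 𝓡 → ℂ) :=
  ContinuousLinearMap.pi (Sum.elim
    (fun k => (ContinuousLinearMap.proj k).comp (ContinuousLinearMap.fst ℝ (κ → ℂ) (μ → ℂ)))
    (Sum.elim
      (fun m => (ContinuousLinearMap.proj m).comp (ContinuousLinearMap.snd ℝ (κ → ℂ) (μ → ℂ)))
      fun r => (G' r).restrictScalars ℝ))

omit [Fintype κ] [Fintype μ] [Fintype 𝓡] in
theorem crdL_apply (G' : 𝓡 → ((κ → ℂ) × (μ → ℂ)) →L[ℂ] ℂ) (v : (κ → ℂ) × (μ → ℂ)) :
    crdL G' v = crd (fun r v => G' r v) v := by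
  funext c
  rcases c with k | m | r <;> rfl

omit [Fintype 𝓡] in
theorem crd_fderiv {G : 𝓡 → (κ → ℂ) × (μ → ℂ) → ℂ} (hG : ∀ r, Differentiable ℂ (G r))
    (v : (κ → ℂ) × (μ → ℂ)) : HasFDerivAt (crd G) (crdL fun r => fderiv ℂ (G r) v) v := by
  refine hasFDerivAt_pi.2 fun c => ?_
  rcases c with k | m | r
  · exact ((ContinuousLinearMap.proj k).comp
      (ContinuousLinearMap.fst ℝ (κ → ℂ) (μ → ℂ))).hasFDerivAt
  · exact ((ContinuousLinearMap.proj m).comp
      (ContinuousLinearMap.snd ℝ (κ → ℂ) (μ → ℂ))).hasFDerivAt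
  · exact (hG r v).hasFDerivAt.restrictScalars ℝ

theorem finrank_fun (α : Type) [Fintype α] : Module.finrank ℝ (α → ℂ) = 2 * Fintype.card α := by
  rw [Module.finrank_pi_fintype]
  simp [mul_comm]

/-- The estimate before the numerical simplification. -/
theorem main (hB : BezStmt) (hA : AreaStmt) (hD : DetStmt) {j D : ℕ}
    {G : 𝓡 → (κ → ℂ) × (μ → ℂ) → ℂ} {U : Set (μ → ℂ)} {S Λ : ℝ} (hD1 : 1 ≤ D)
    (hG : ∀ r, PD ℂ D (G r)) (hU : MeasurableSet U) (hU1 : U ⊆ closedBall 0 1)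
    (hS : (2 * Fintype.card κ + Fintype.card 𝓡 + 2 : ℝ) ≤ S) (hΛ : 0 < Λ)
    (hL : ∀ v : (κ → ℂ) × (μ → ℂ), v.2 ∈ U → ‖v.1‖ ≤ S → (∀ r, ‖G r v‖ ≤ S) →
      ¬LiftL (fun r => fderiv ℂ (G r) v) j Λ) :
    volume {y | y ∈ U ∧ ∃ x : κ → ℂ, ‖x‖ ≤ 1 ∧ ∀ r, ‖G r (x, y)‖ ≤ 1} ≤
      ((2 * (Fintype.card κ + Fintype.card μ + Fintype.card 𝓡)) ^ (2 * Fintype.card μ) : ℕ) *
        (ENNReal.ofReal ((4 * Fintype.card μ / Λ) ^ (j + 1)) *
          (((2 * D + 1) ^ (2 * (Fintype.card κ + Fintype.card μ)) : ℕ) *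
            volume (closedBall (0 : μ → ℂ) (2 * S)))) := by
  classical
  have hκ : (0 : ℝ) ≤ Fintype.card κ := Nat.cast_nonneg _
  have hR : (0 : ℝ) ≤ Fintype.card 𝓡 := Nat.cast_nonneg _
  have hS1 : 1 ≤ S := by linarith
  have hGd : ∀ r, Differentiable ℂ (G r) := fun r => (hG r).differentiable
  have hg := gam_pd hD1 hG
  have hgd : Differentiable ℝ (gam G) := (hg.contDiff (k := 1)).differentiable one_ne_zero
  let ν : Measure ((κ → ℂ) × (μ → ℂ)) := (volume : Measure (κ → ℂ)).prod volume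
  have hν : ν.IsAddHaarMeasure := Measure.prod.instIsAddHaarMeasure _ _
  let Ω : Set ((κ → ℂ) × (μ → ℂ)) :=
    {v | v.2 ∈ U} ∩ ({v | ‖v.1‖ ≤ S} ∩ ({v | ∀ r, ‖G r v‖ ≤ S} ∩ {v | ‖gam G v‖ ≤ 1}))
  have hΩ : MeasurableSet Ω := by
    refine (measurable_snd hU).inter (IsClosed.measurableSet (IsClosed.inter ?_ (.inter ?_ ?_)))
    · exact isClosed_le (by fun_prop) continuous_const
    · rw [Set.ofPred_forall]
      exact isClosed_iInter fun r => isClosed_le (hG r).continuous.norm continuous_const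
    · exact isClosed_le hgd.continuous.norm continuous_const
  let Ψ : (μ × Bool → (κ ⊕ μ ⊕ 𝓡) × Bool) → (κ → ℂ) × (μ → ℂ) → (κ → ℂ) × (μ → ℂ) :=
    fun I v => (gam G v, sel I (crd G v))
  have hΨ : ∀ I, PV (2 * D) (Ψ I) := fun I =>
    hg.prod (sel_pv (fun c => (crd_pd hD1 hG c).mono (by omega)) I)
  have hΨd : ∀ I v, fderiv ℝ (Ψ I) v =
      (fderiv ℝ (gam G) v).prod ((selL I).comp (crdL fun r => fderiv ℂ (G r) v)) := by
    intro I v
    refine HasFDerivAt.fderiv ((hgd v).hasFDerivAt.prodMk ?_)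
    have := (selL I).hasFDerivAt.comp v (crd_fderiv hGd v)
    refine this.congr_of_eventuallyEq (Filter.Eventually.of_forall fun v' => ?_)
    exact (selL_apply I _).symm
  set c : ℝ := (4 * Fintype.card μ / Λ) ^ (j + 1) with hc
  have hc0 : 0 ≤ c := by positivity
  set N : ℕ := (2 * D + 1) ^ (2 * (Fintype.card κ + Fintype.card μ)) with hN
  have hrk : Module.finrank ℝ ((κ → ℂ) × (μ → ℂ)) = 2 * (Fintype.card κ + Fintype.card μ) := by
    rw [Module.finrank_prod, finrank_fun, finrank_fun]; ring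
  have harea : ∀ I, ∫⁻ v in Ω, ENNReal.ofReal |(fderiv ℝ (Ψ I) v).det| ∂ν ≤
      N * (volume (closedBall (0 : κ → ℂ) 1) * volume (closedBall (0 : μ → ℂ) (2 * S))) := by
    intro I
    rw [← Measure.prod_prod]
    refine hA _ ν (Ψ I) Ω _ N (hΨ I).contDiff hΩ ?_ fun v Z hZ => ?_
    · rintro v ⟨h1, h2, h3, h4⟩
      refine ⟨by simpa using h4, mem_closedBall_zero_iff.2 (norm_sel_le I (by linarith) ?_)⟩
      rintro (k | m | r)
      · exact (norm_le_pi_norm v.1 k).trans h2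
      · exact (norm_le_pi_norm v.2 m).trans ((mem_closedBall_zero_iff.1 (hU1 h1)).trans hS1)
      · exact h3 r
    · have := hB _ (2 * D) (Ψ I) (hΨ I) v Z hZ
      rwa [hrk] at this
  have hmeas : ∀ I, Measurable fun v => ENNReal.ofReal |(fderiv ℝ (Ψ I) v).det| := fun I =>
    (ENNReal.continuous_ofReal.comp (ContinuousLinearMap.continuous_det.comp
      (((hΨ I).contDiff (k := 1)).continuous_fderiv one_ne_zero)).abs).measurable
  have hsub : closedBall (0 : κ → ℂ) 1 ×ˢ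
      {y | y ∈ U ∧ ∃ x : κ → ℂ, ‖x‖ ≤ 1 ∧ ∀ r, ‖G r (x, y)‖ ≤ 1} ⊆
      (fun v => (gam G v, v.2)) '' Ω := by
    rintro ⟨w, y⟩ ⟨hw, hy, x₀, h1, h2⟩
    have hw' : ‖w‖ ≤ 1 := mem_closedBall_zero_iff.1 hw
    obtain ⟨x, a1, a2, a3⟩ := exists_min hGd hS h1 h2 hw'
    refine ⟨(x, y), ⟨hy, a1, a2, ?_⟩, Prod.ext a3 rfl⟩
    show ‖gam G (x, y)‖ ≤ 1
    rwa [a3]
  have hpos : volume (closedBall (0 : κ → ℂ) 1) ≠ 0 :=
    (measure_closedBall_pos volume _ one_pos).ne'
  have hfin : volume (closedBall (0 : κ → ℂ) 1) ≠ ⊤ := measure_closedBall_lt_top.ne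
  refine (ENNReal.mul_le_mul_iff_right hpos hfin).1 ?_
  have hcard : Fintype.card (μ × Bool → (κ ⊕ μ ⊕ 𝓡) × Bool) =
      (2 * (Fintype.card κ + Fintype.card μ + Fintype.card 𝓡)) ^ (2 * Fintype.card μ) := by
    simp only [Fintype.card_fun, Fintype.card_prod, Fintype.card_sum, Fintype.card_bool]
    ring
  calc _ = ν (closedBall (0 : κ → ℂ) 1 ×ˢ
        {y | y ∈ U ∧ ∃ x : κ → ℂ, ‖x‖ ≤ 1 ∧ ∀ r, ‖G r (x, y)‖ ≤ 1}) :=
        (Measure.prod_prod _ _).symm
    _ ≤ ν ((fun v => (gam G v, v.2)) '' Ω) := measure_mono hsub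
    _ ≤ ∫⁻ v in Ω, ENNReal.ofReal |((fderiv ℝ (gam G) v).prod
          (ContinuousLinearMap.snd ℝ (κ → ℂ) (μ → ℂ))).det| ∂ν :=
        addHaar_image_le_lintegral_abs_det_fderiv ν hΩ fun v _ =>
          ((hgd v).hasFDerivAt.prodMk hasFDerivAt_snd).hasFDerivWithinAt
    _ ≤ ∫⁻ v in Ω, ∑ I, ENNReal.ofReal c * ENNReal.ofReal |(fderiv ℝ (Ψ I) v).det| ∂ν := by
        refine setLIntegral_mono' hΩ ?_
        rintro v ⟨h1, h2, h3, -⟩
        obtain ⟨I, hI⟩ := hD κ μ 𝓡 j Λ _ (fderiv ℝ (gam G) v) hΛ (hL v h1 h2 h3)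
        have := hI ((selL I).comp (crdL fun r => fderiv ℂ (G r) v)) fun v' => by
          rw [ContinuousLinearMap.comp_apply, selL_apply, crdL_apply]
        rw [← hΨd] at this
        refine le_trans ?_ (Finset.single_le_sum (f := fun I =>
          ENNReal.ofReal c * ENNReal.ofReal |(fderiv ℝ (Ψ I) v).det|) (fun _ _ => zero_le)
          (Finset.mem_univ I))
        rw [← ENNReal.ofReal_mul hc0]
        exact ENNReal.ofReal_le_ofReal this
    _ = ∑ I, ENNReal.ofReal c * ∫⁻ v in Ω, ENNReal.ofReal |(fderiv ℝ (Ψ I) v).det| ∂ν := by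
        rw [lintegral_finsetSum _ fun I _ => (hmeas I).const_mul _]
        exact Finset.sum_congr rfl fun I _ => lintegral_const_mul _ (hmeas I)
    _ ≤ ∑ _I : μ × Bool → (κ ⊕ μ ⊕ 𝓡) × Bool, ENNReal.ofReal c * (N *
          (volume (closedBall (0 : κ → ℂ) 1) * volume (closedBall (0 : μ → ℂ) (2 * S)))) :=
        Finset.sum_le_sum fun I _ => by gcongr; exact harea I
    _ = _ := by
        rw [Finset.sum_const, Finset.card_univ, hcard, nsmul_eq_mul]
        ring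

end SardAux

open SardAux in
theorem sard (hB : BezStmt) (hA : AreaStmt) (hD : DetStmt) : SardStmt := by
  intro μ _ j
  set b : ℝ := (volume (ball (0 : μ → ℂ) 1)).toReal with hb
  have hb0 : 0 ≤ b := ENNReal.toReal_nonneg
  have hbe : volume (ball (0 : μ → ℂ) 1) = ENNReal.ofReal b :=
    (ENNReal.ofReal_toReal measure_ball_lt_top.ne).symm
  refine ⟨(4 * Fintype.card μ) ^ (j + 1) * 4 ^ (2 * Fintype.card μ) * b + 1, by positivity, ?_⟩
  intro κ 𝓡 _ _ D G U S Λ hD1 hG hU hU1 hS hΛ hL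
  have hκ : (0 : ℝ) ≤ Fintype.card κ := Nat.cast_nonneg _
  have hR : (0 : ℝ) ≤ Fintype.card 𝓡 := Nat.cast_nonneg _
  have hS0 : 0 ≤ S := by linarith
  refine (main hB hA hD hD1 hG hU hU1 hS hΛ hL).trans ?_
  rw [Measure.addHaar_closedBall _ _ (by positivity), finrank_fun, hbe,
    ← ENNReal.ofReal_mul (by positivity), ← ENNReal.ofReal_natCast, ← ENNReal.ofReal_natCast,
    ← ENNReal.ofReal_mul (by positivity), ← ENNReal.ofReal_mul (by positivity),
    ← ENNReal.ofReal_mul (by positivity)]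
  refine ENNReal.ofReal_le_ofReal ?_
  push_cast
  set n : ℝ := Fintype.card κ + Fintype.card μ + Fintype.card 𝓡 with hn
  have hn0 : 0 ≤ n := by positivity
  set X : ℝ := (2 * D + 1) ^ (2 * (Fintype.card κ + Fintype.card μ)) with hX
  have hX0 : 0 ≤ X := by positivity
  have e4 : (4 : ℝ) ^ (2 * Fintype.card μ) = 2 ^ (2 * Fintype.card μ) * 2 ^ (2 * Fintype.card μ) := by
    rw [← mul_pow]; norm_num
  have e : (2 * n) ^ (2 * Fintype.card μ) * ((4 * Fintype.card μ / Λ) ^ (j + 1) *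
      (X * ((2 * S) ^ (2 * Fintype.card μ) * b))) =
      (4 * Fintype.card μ) ^ (j + 1) * 4 ^ (2 * Fintype.card μ) * b *
        (S * n) ^ (2 * Fintype.card μ) * X / Λ ^ (j + 1) := by
    rw [e4, div_pow, mul_pow 2 n, mul_pow 2 S, mul_pow S n]
    ring
  rw [e]
  gcongr
  linarith

end Pool.Agent.Lib.MP_45f16c_ag
end
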