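import Pool.Agent.Lib.MP_45f16c_ag.Small
import Pool.Agent.Lib.MP_45f16c_ag.Core
import Pool.Agent.Lib.MP_45f16c_ag.Area

import Pool.Agent.Lib.MP_45f16c_ag.Three

import Pool.Agent.Lib.MP_45f16c_ag.Dbl



import Pool.Agent.Lib.MP_45f16c_ag.Unif
import Pool.Agent.Lib.MP_45f16c_ag.Div




import Pool.Agent.Lib.MP_45f16c_ag.Gen
import Pool.Agent.Lib.MP_45f16c_ag.PA
import Pool.Agent.Lib.MP_45f16c_ag.AL
import Pool.Agent.Lib.MP_45f16c_ag.Sard


import Pool.Agent.Lib.MP_45f16c_ag.Smooth



/-! Almost every hypersurface of degree at least `K n log n` is smooth and Brody hyperbolic. -/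

set_option autoImplicit false
open MeasureTheory

namespace Pool.Agent.Lib.MP_45f16c_ag

theorem main : ∃ K : ℝ, ∀ n d : ℕ, 2 ≤ n → K * n * Real.log n ≤ d →
    ∀ᵐ c : Mon (n + 2) d → ℂ, IsSmooth (form c) ∧ IsBrody (form c) :=
  final (selS (gauge (pois fact)) (mono (pois fact)) (dbl (mono (pois fact)))
      (hofer (gauge (pois fact))))
    (fast (osc (pois fact)) three) slow
    (core (sard bez area detS) (trueS trunc)
      (region (al (genS (green base) unif projS) pa mp) interp projS) divS (monS fact) trunc)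
    smooth

end Pool.Agent.Lib.MP_45f16c_ag
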