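import Pool.Agent.Lib.MP_45f16c_ag.Stmts

/-! Toolbox: canonical anticommutation relations. -/

set_option autoImplicit false
set_option linter.unusedSectionVars false
open Metric

namespace Pool.Agent.Lib.MP_45f16c_ag

section ring
variable {R : Type} [CommRing R] {ι : Type} [Fintype ι] [DecidableEq ι]

theorem ann_apply (i : ι) (ω : Finset ι → R) (s : Finset ι) :
    ann R i ω s = if i ∈ s then 0 else sg R s i * ω (insert i s) := rfl

theorem cre_apply (i : ι) (ω : Finset ι → R) (s : Finset ι) :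
    cre R i ω s = if i ∈ s then sg R s i * ω (s.erase i) else 0 := rfl

theorem kos_apply (g : ι → R) (ω : Finset ι → R) : kos g ω = ∑ i, g i • ann R i ω := by
  simp [kos, LinearMap.sum_apply]

theorem wed_apply (v : ι → R) (ω : Finset ι → R) : wed v ω = ∑ i, v i • cre R i ω := by
  simp [wed, LinearMap.sum_apply]

theorem sg_mul_self (s : Finset ι) (i : ι) : sg R s i * sg R s i = 1 := by
  rw [sg, ← mul_pow]; simp

theorem sg_insert {s : Finset ι} {a : ι} (ha : a ∉ s) (i : ι) :
    sg R (insert a s) i =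
      (if Fintype.equivFin ι a < Fintype.equivFin ι i then -1 else 1) * sg R s i := by
  unfold sg
  rw [Finset.filter_insert]
  split_ifs with h
  · rw [Finset.card_insert_of_notMem (fun h' => ha (Finset.mem_filter.1 h').1), pow_succ]; ring
  · simp

theorem sg_insert_self {s : Finset ι} {i : ι} (ha : i ∉ s) : sg R (insert i s) i = sg R s i := by
  rw [sg_insert ha]; simp

theorem sg_erase_self (s : Finset ι) (i : ι) : sg R (s.erase i) i = sg R s i := by
  by_cases h : i ∈ s
  · conv_rhs => rw [← Finset.insert_erase h, sg_insert_self (Finset.notMem_erase i s)]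
  · rw [Finset.erase_eq_of_notMem h]

theorem sg_of_mem {s : Finset ι} {a : ι} (ha : a ∈ s) (i : ι) :
    sg R s i =
      (if Fintype.equivFin ι a < Fintype.equivFin ι i then -1 else 1) * sg R (s.erase a) i := by
  conv_lhs => rw [← Finset.insert_erase ha, sg_insert (Finset.notMem_erase a s)]

theorem sg_swap {i j : ι} (h : i ≠ j) :
    (if Fintype.equivFin ι i < Fintype.equivFin ι j then (-1 : R) else 1) =
      -(if Fintype.equivFin ι j < Fintype.equivFin ι i then (-1 : R) else 1) := by
  rcases lt_trichotomy (Fintype.equivFin ι i) (Fintype.equivFin ι j) with h1 | h1 | h1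
  · simp [h1, h1.not_gt]
  · exact absurd ((Fintype.equivFin ι).injective h1) h
  · simp [h1, h1.not_gt]

theorem ann_ann (i j : ι) (ω : Finset ι → R) : ann R i (ann R j ω) = -ann R j (ann R i ω) := by
  ext s
  simp only [Pi.neg_apply, ann_apply]
  by_cases hi : i ∈ s <;> by_cases hj : j ∈ s <;> by_cases hij : i = j <;>
    simp_all [eq_comm (a := j) (b := i)]
  rw [sg_insert hi, sg_insert hj, sg_swap hij, Finset.insert_comm]
  ring

theorem ann_ann_self (i : ι) (ω : Finset ι → R) : ann R i (ann R i ω) = 0 := by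
  ext s
  simp only [ann_apply]
  by_cases hi : i ∈ s <;> simp [hi]

theorem cre_cre (i j : ι) (ω : Finset ι → R) : cre R i (cre R j ω) = -cre R j (cre R i ω) := by
  ext s
  simp only [Pi.neg_apply, cre_apply]
  by_cases hi : i ∈ s <;> by_cases hj : j ∈ s <;> by_cases hij : i = j <;>
    simp_all [eq_comm (a := j) (b := i)]
  rw [Finset.erase_right_comm, sg_of_mem hi j, sg_of_mem hj i, sg_swap hij]
  split_ifs <;> ring

theorem cre_cre_self (i : ι) (ω : Finset ι → R) : cre R i (cre R i ω) = 0 := by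
  ext s
  simp only [cre_apply]
  by_cases hi : i ∈ s <;> simp [hi]

theorem ann_cre (i j : ι) (ω : Finset ι → R) :
    ann R i (cre R j ω) + cre R j (ann R i ω) = if i = j then ω else 0 := by
  ext s
  simp only [Pi.add_apply, ann_apply, cre_apply]
  by_cases hij : i = j
  · subst hij
    by_cases hi : i ∈ s
    · simp [hi, sg_erase_self, ← mul_assoc, sg_mul_self]
    · simp [hi, sg_insert_self hi, ← mul_assoc, sg_mul_self]
  · by_cases hi : i ∈ s <;> by_cases hj : j ∈ s <;> simp [hi, hj, hij, Ne.symm hij]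
    rw [sg_insert hi, sg_of_mem hj i, sg_swap hij, Finset.erase_insert_of_ne hij]
    split_ifs <;> ring

theorem kos_ann (g : ι → R) (j : ι) (ω : Finset ι → R) :
    kos g (ann R j ω) = -ann R j (kos g ω) := by
  simp only [kos_apply, map_sum, map_smul, ← Finset.sum_neg_distrib]
  exact Finset.sum_congr rfl fun i _ => by rw [ann_ann, smul_neg]

theorem kos_kos (g g' : ι → R) (ω : Finset ι → R) : kos g (kos g' ω) = -kos g' (kos g ω) := by
  rw [kos_apply g', kos_apply g', map_sum, ← Finset.sum_neg_distrib]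
  exact Finset.sum_congr rfl fun i _ => by rw [map_smul, kos_ann, smul_neg]

theorem kos_kos_self (g : ι → R) (ω : Finset ι → R) : kos g (kos g ω) = 0 := by
  simp only [kos_apply, map_sum, map_smul, Finset.smul_sum]
  rw [← Finset.sum_product']
  refine Finset.sum_involution (fun p _ => p.swap) (fun p _ => ?_) (fun p _ h e => h ?_)
    (fun p _ => by simp) (fun p _ => by simp)
  · simp only [Prod.fst_swap, Prod.snd_swap]
    rw [ann_ann, smul_comm (g p.1)]
    simp
  · have : p.1 = p.2 := (congrArg Prod.snd e)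
    rw [this, ann_ann_self]; simp

theorem kos_cre (g : ι → R) (j : ι) (ω : Finset ι → R) :
    kos g (cre R j ω) = g j • ω - cre R j (kos g ω) := by
  rw [eq_sub_iff_add_eq]
  simp only [kos_apply, map_sum, map_smul, ← Finset.sum_add_distrib, ← smul_add, ann_cre]
  simp [Finset.sum_ite_eq']

theorem kos_wed (g v : ι → R) (ω : Finset ι → R) :
    kos g (wed v ω) = (∑ i, v i * g i) • ω - wed v (kos g ω) := by
  simp only [wed_apply, map_sum, map_smul, kos_cre, smul_sub, Finset.sum_sub_distrib, smul_smul,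
    Finset.sum_smul]

theorem kos_add (g g' : ι → R) (ω : Finset ι → R) : kos (g + g') ω = kos g ω + kos g' ω := by
  simp [kos_apply, add_smul, Finset.sum_add_distrib]

theorem kos_smul (a : R) (g : ι → R) (ω : Finset ι → R) : kos (a • g) ω = a • kos g ω := by
  simp [kos_apply, Finset.smul_sum, smul_smul]

theorem kos_zero (ω : Finset ι → R) : kos (0 : ι → R) ω = 0 := by simp [kos_apply]

theorem kos_sum {α : Type} (s : Finset α) (g : α → ι → R) (ω : Finset ι → R) :
    kos (∑ a ∈ s, g a) ω = ∑ a ∈ s, kos (g a) ω := by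
  simp only [kos_apply, Finset.sum_apply, Finset.sum_smul]
  exact Finset.sum_comm

theorem cre_empty (i : ι) (ω : Finset ι → R) : cre R i ω ∅ = 0 := by simp [cre_apply]

theorem wed_empty (v : ι → R) (ω : Finset ι → R) : wed v ω ∅ = 0 := by
  simp [wed_apply, Finset.sum_apply, cre_empty]

omit [Fintype ι] [DecidableEq ι] in
theorem Hq.zero (q : ℕ) : Hq q (0 : Finset ι → R) := fun _ _ => rfl

omit [Fintype ι] [DecidableEq ι] in
theorem Hq.add {q : ℕ} {ω ω' : Finset ι → R} (h : Hq q ω) (h' : Hq q ω') : Hq q (ω + ω') :=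
  fun s hs => by simp [h s hs, h' s hs]

omit [Fintype ι] [DecidableEq ι] in
theorem Hq.sub {q : ℕ} {ω ω' : Finset ι → R} (h : Hq q ω) (h' : Hq q ω') : Hq q (ω - ω') :=
  fun s hs => by simp [h s hs, h' s hs]

omit [Fintype ι] [DecidableEq ι] in
theorem Hq.neg {q : ℕ} {ω : Finset ι → R} (h : Hq q ω) : Hq q (-ω) :=
  fun s hs => by simp [h s hs]

omit [Fintype ι] [DecidableEq ι] in
theorem Hq.smul {q : ℕ} {ω : Finset ι → R} (a : R) (h : Hq q ω) : Hq q (a • ω) :=
  fun s hs => by simp [h s hs]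

omit [Fintype ι] [DecidableEq ι] in
theorem Hq.sum {q : ℕ} {α : Type} (t : Finset α) {ω : α → Finset ι → R}
    (h : ∀ a ∈ t, Hq q (ω a)) : Hq q (∑ a ∈ t, ω a) :=
  fun s hs => by rw [Finset.sum_apply]; exact Finset.sum_eq_zero fun a ha => h a ha s hs

theorem Hq.ann {q : ℕ} {ω : Finset ι → R} (h : Hq (q + 1) ω) (i : ι) : Hq q (ann R i ω) :=
  fun s hs => by
    rw [ann_apply]
    split_ifs with hi
    · rfl
    · rw [h _ (by rw [Finset.card_insert_of_notMem hi]; omega), mul_zero]

theorem Hq.ann_zero {ω : Finset ι → R} (h : Hq 0 ω) (i : ι) :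
    Pool.Agent.Lib.MP_45f16c_ag.ann R i ω = 0 := by
  ext s
  rw [ann_apply]
  split_ifs with hi
  · rfl
  · rw [h _ (by rw [Finset.card_insert_of_notMem hi]; omega), mul_zero]; rfl

theorem Hq.cre {q : ℕ} {ω : Finset ι → R} (h : Hq q ω) (i : ι) : Hq (q + 1) (cre R i ω) :=
  fun s hs => by
    rw [cre_apply]
    split_ifs with hi
    · rw [h _ (by have := Finset.card_erase_add_one hi; omega), mul_zero]
    · rfl

theorem Hq.kos {q : ℕ} {ω : Finset ι → R} (h : Hq (q + 1) ω) (g : ι → R) : Hq q (kos g ω) := by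
  rw [kos_apply]; exact Hq.sum _ fun i _ => (h.ann i).smul _

theorem Hq.kos_zero {ω : Finset ι → R} (h : Hq 0 ω) (g : ι → R) :
    Pool.Agent.Lib.MP_45f16c_ag.kos g ω = 0 := by
  rw [kos_apply]; exact Finset.sum_eq_zero fun i _ => by rw [h.ann_zero, smul_zero]

theorem Hq.wed {q : ℕ} {ω : Finset ι → R} (h : Hq q ω) (v : ι → R) : Hq (q + 1) (wed v ω) := by
  rw [wed_apply]; exact Hq.sum _ fun i _ => (h.cre i).smul _

/-- The number operator. -/
theorem Hq.number {q : ℕ} {ω : Finset ι → R} (h : Hq q ω) :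
    ∑ i, Pool.Agent.Lib.MP_45f16c_ag.cre R i (Pool.Agent.Lib.MP_45f16c_ag.ann R i ω) =
      (q : R) • ω := by
  ext s
  have : ∀ i, Pool.Agent.Lib.MP_45f16c_ag.cre R i (Pool.Agent.Lib.MP_45f16c_ag.ann R i ω) s =
      if i ∈ s then ω s else 0 := fun i => by
    simp only [cre_apply, ann_apply]
    by_cases hi : i ∈ s <;> simp [hi, sg_erase_self, ← mul_assoc, sg_mul_self]
  simp only [Finset.sum_apply, this, Finset.sum_ite_mem, Finset.univ_inter, Finset.sum_const,
    Pi.smul_apply, smul_eq_mul, nsmul_eq_mul]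
  by_cases hs : s.card = q
  · rw [hs]
  · simp [h s hs]

section map
variable {R' : Type} [CommRing R'] (φ : R →+* R')

theorem map_sg (s : Finset ι) (i : ι) : φ (sg R s i) = sg R' s i := by simp [sg]

theorem map_ann (i : ι) (ω : Finset ι → R) (s : Finset ι) :
    φ (ann R i ω s) = ann R' i (fun t => φ (ω t)) s := by
  simp only [ann_apply]; split_ifs <;> simp [map_sg]

theorem map_cre (i : ι) (ω : Finset ι → R) (s : Finset ι) :
    φ (cre R i ω s) = cre R' i (fun t => φ (ω t)) s := by
  simp only [cre_apply]; split_ifs <;> simp [map_sg]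

theorem map_kos (g : ι → R) (ω : Finset ι → R) (s : Finset ι) :
    φ (kos g ω s) = kos (fun i => φ (g i)) (fun t => φ (ω t)) s := by
  simp [kos_apply, Finset.sum_apply, map_ann]

theorem map_wed (v : ι → R) (ω : Finset ι → R) (s : Finset ι) :
    φ (wed v ω s) = wed (fun i => φ (v i)) (fun t => φ (ω t)) s := by
  simp [wed_apply, Finset.sum_apply, map_cre]

end map

end ring

section norm
variable {ι : Type} [Fintype ι] [DecidableEq ι]

theorem norm_sg (s : Finset ι) (i : ι) : ‖sg ℂ s i‖ = 1 := by simp [sg]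

theorem norm_ann_le (i : ι) (ω : Finset ι → ℂ) : ‖ann ℂ i ω‖ ≤ ‖ω‖ := by
  refine (pi_norm_le_iff_of_nonneg (norm_nonneg _)).2 fun s => ?_
  rw [ann_apply]
  split_ifs
  · simp
  · rw [norm_mul, norm_sg, one_mul]; exact norm_le_pi_norm _ _

theorem norm_cre_le (i : ι) (ω : Finset ι → ℂ) : ‖cre ℂ i ω‖ ≤ ‖ω‖ := by
  refine (pi_norm_le_iff_of_nonneg (norm_nonneg _)).2 fun s => ?_
  rw [cre_apply]
  split_ifs
  · rw [norm_mul, norm_sg, one_mul]; exact norm_le_pi_norm _ _
  · simp

theorem norm_kos_le (g : ι → ℂ) (ω : Finset ι → ℂ) :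
    ‖kos g ω‖ ≤ Fintype.card ι * ‖g‖ * ‖ω‖ := by
  rw [kos_apply]
  refine (norm_sum_le _ _).trans ((Finset.sum_le_card_nsmul _ _ (‖g‖ * ‖ω‖) fun i _ => ?_).trans
    (by simp [mul_assoc]))
  rw [norm_smul]
  exact mul_le_mul (norm_le_pi_norm _ _) (norm_ann_le _ _) (norm_nonneg _) (norm_nonneg _)

theorem norm_wed_le (v : ι → ℂ) (ω : Finset ι → ℂ) :
    ‖wed v ω‖ ≤ Fintype.card ι * ‖v‖ * ‖ω‖ := by
  rw [wed_apply]
  refine (norm_sum_le _ _).trans ((Finset.sum_le_card_nsmul _ _ (‖v‖ * ‖ω‖) fun i _ => ?_).trans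
    (by simp [mul_assoc]))
  rw [norm_smul]
  exact mul_le_mul (norm_le_pi_norm _ _) (norm_cre_le _ _) (norm_nonneg _) (norm_nonneg _)

theorem differentiable_kos {g : ℂ → ι → ℂ} {ω : ℂ → Finset ι → ℂ} (hg : Differentiable ℂ g)
    (hω : Differentiable ℂ ω) : Differentiable ℂ fun z => kos (g z) (ω z) := by
  simp only [kos_apply]
  refine Differentiable.fun_sum fun i _ => ((differentiable_apply i).comp hg).smul ?_
  exact (LinearMap.toContinuousLinearMap (ann ℂ i)).differentiable.comp hω

theorem differentiable_Del {ν : ℕ} {Ξ : ℂ → ι → Fin ν → ℂ} {ω : ℂ → Finset ι → ℂ}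
    (hΞ : ∀ i b, Differentiable ℂ fun z => Ξ z i b) (hω : Differentiable ℂ ω) (a : Fin ν) :
    Differentiable ℂ fun z => Del (Ξ z) a (ω z) := by
  unfold Del
  refine differentiable_pi.1 (?_ : Differentiable ℂ fun z =>
    ((List.finRange ν).erase a).foldr (fun b η => kos (fun i => Ξ z i b) η) (ω z)) ∅
  induction (List.finRange ν).erase a with
  | nil => exact hω
  | cons b l ih => exact differentiable_kos (differentiable_pi.2 fun i => hΞ i b) ih

end norm

end Pool.Agent.Lib.MP_45f16c_ag
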