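import Pool.Agent.Lib.MP_45f16c_ag.BForm

/-! Toolbox: curves, discs, truncated polynomials. -/

set_option autoImplicit false
open Metric MeasureTheory MvPolynomial

namespace Pool.Agent.Lib.MP_45f16c_ag

noncomputable section

variable {ν : ℕ} {f : ℂ → Fin ν → ℂ}

theorem continuousOn_lg {s : Set ℂ} (hf : ContinuousOn f s) (h0 : ∀ z ∈ s, f z ≠ 0) :
    ContinuousOn (lg f) s :=
  hf.norm.log fun z hz => norm_ne_zero_iff.2 (h0 z hz)

theorem Ent.continuous_lg (hf : Ent f) : Continuous (lg f) :=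
  hf.diff.continuous.norm.log fun z => norm_ne_zero_iff.2 (hf.ne z)

theorem Ent.circleIntegrable (hf : Ent f) (a : ℂ) (t : ℝ) : CircleIntegrable (lg f) a t :=
  hf.continuous_lg.continuousOn.circleIntegrable'

theorem exp_lg {z : ℂ} (h : f z ≠ 0) : Real.exp (lg f z) = ‖f z‖ :=
  Real.exp_log (norm_pos_iff.2 h)

theorem Disc.ne {ρ K T : ℝ} (h : Disc ρ K T f) {z : ℂ} (hz : z ∈ ball (0 : ℂ) ρ) : f z ≠ 0 :=
  norm_pos_iff.1 ((Real.exp_pos _).trans_le (h.lo z hz))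

theorem Disc.mono {ρ ρ' K T : ℝ} (h : Disc ρ K T f) (hρ : ρ' ≤ ρ) : Disc ρ' K T f :=
  ⟨h.diff.mono (ball_subset_ball hρ), fun z hz => h.lo z (ball_subset_ball hρ hz),
    fun z hz => h.hi z (ball_subset_ball hρ hz), h.gr⟩

theorem Disc.lg_le {ρ K T : ℝ} (h : Disc ρ K T f) {z : ℂ} (hz : z ∈ ball (0 : ℂ) ρ) :
    lg f z ≤ 0 := Real.log_nonpos (norm_nonneg _) (h.hi z hz)

theorem Disc.le_lg {ρ K T : ℝ} (h : Disc ρ K T f) {z : ℂ} (hz : z ∈ ball (0 : ℂ) ρ) :
    -(K * T) ≤ lg f z :=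
  (Real.le_log_iff_exp_le (norm_pos_iff.2 (h.ne hz))).2 (h.lo z hz)

theorem node_mem (c : ℂ) {σ : ℝ} (hσ : 0 ≤ σ) (M : ℕ) (s : Fin M) :
    node c σ M s ∈ closedBall c σ := by
  have : ‖Complex.exp (2 * Real.pi * Complex.I * (s : ℕ) / M)‖ = 1 := by
    rw [show (2 * Real.pi * Complex.I * (s : ℕ) / M : ℂ) =
      ((2 * Real.pi * (s : ℕ) / M : ℝ) : ℂ) * Complex.I by push_cast; ring]
    exact Complex.norm_exp_ofReal_mul_I _
  simp [node, dist_eq_norm, this, abs_of_nonneg hσ]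

theorem small_disc_subset {c : ℂ} {σ : ℝ} (hc : ‖c‖ ≤ 1) (hσ : σ ≤ 1) :
    closedBall c σ ⊆ closedBall 0 2 :=
  closedBall_subset_closedBall' (by rw [dist_zero_right]; linarith)

section pol
variable {m : ℕ}

theorem norm_pol_le {B : ℝ} (hB : 0 ≤ B) (x : Unk ν m → ℂ) (α : Blk ν) {z : ℂ} (hz : ‖z‖ ≤ 2) :
    ‖pol B x α z‖ ≤ B * m * ‖x‖ := by
  rw [pol, norm_mul, Complex.norm_real, Real.norm_of_nonneg hB, mul_assoc]
  gcongr
  refine (norm_sum_le _ _).trans ((Finset.sum_le_card_nsmul _ _ ‖x‖ fun k _ => ?_).trans (by simp))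
  rw [norm_mul, norm_pow]
  refine (mul_le_of_le_one_right (norm_nonneg _) (pow_le_one₀ (norm_nonneg _) ?_)).trans
    (norm_le_pi_norm _ _)
  rw [norm_div, Complex.norm_two]; linarith

theorem PD.pol_z (B : ℝ) (x : Unk ν m → ℂ) (α : Blk ν) : PD ℂ m fun z => pol B x α z :=
  (PD.sum Finset.univ fun (k : Fin m) _ =>
    (((PD.id'.div_const 2).pow k).mono (m := m) (by simp)).const_mul _).const_mul _

/-- Evaluation of a block at a point, as a continuous linear functional. -/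
def polL (B : ℝ) (α : Blk ν) (z : ℂ) : (Unk ν m → ℂ) →L[ℂ] ℂ :=
  (B : ℂ) • ∑ k : Fin m, (z / 2) ^ (k : ℕ) •
    ContinuousLinearMap.proj (R := ℂ) (φ := fun _ : Unk ν m => ℂ) (α, k)

theorem polL_apply (B : ℝ) (α : Blk ν) (z : ℂ) (x : Unk ν m → ℂ) :
    polL B α z x = pol B x α z := by
  simp [polL, pol, mul_comm]

/-- Evaluation of the polynomial disc at a point, as a continuous linear map. -/
def fxL (B : ℝ) (z : ℂ) : (Unk ν m → ℂ) →L[ℂ] (Fin ν → ℂ) :=
  ContinuousLinearMap.pi fun a => polL B (.inl a) z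

theorem fxL_apply (B : ℝ) (z : ℂ) (x : Unk ν m → ℂ) : fxL B z x = fx B x z := by
  funext a; simp [fxL, fx, polL_apply]

theorem PD.pol_x {F : Type} [NormedAddCommGroup F] [NormedSpace ℂ F] (B : ℝ) (α : Blk ν) (z : ℂ) :
    PD ℂ 1 fun v : (Unk ν m → ℂ) × F => pol B v.1 α z :=
  (PD.lin ((polL B α z).comp (ContinuousLinearMap.fst ℂ (Unk ν m → ℂ) F))).congr fun v => by
    simp [polL_apply]

theorem norm_fx_le {B : ℝ} (hB : 0 ≤ B) (x : Unk ν m → ℂ) {z : ℂ} (hz : ‖z‖ ≤ 2) :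
    ‖fx B x z‖ ≤ B * m * ‖x‖ :=
  (pi_norm_le_iff_of_nonneg (by positivity)).2 fun _ => norm_pol_le hB x _ hz

theorem differentiable_fx (B : ℝ) (x : Unk ν m → ℂ) : Differentiable ℂ (fx B x) :=
  differentiable_pi.2 fun _ => (PD.pol_z B x _).differentiable

end pol

theorem gdeg : GdegStmt := by
  intro ν d N m M cl pr hd r
  rcases r with ⟨i, s, t⟩ | a | a
  · rcases t with _ | la | l | _
    · exact ((PD.eval_form (fun a => PD.pol_x pr.B _ _) fun m => PD.snd_apply m).mono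
        (by omega)).div_const _
    · exact ((PD.pol_x pr.B _ _).mono (by omega)).div_const _
    · exact (((PD.lf (fun a => PD.pol_x pr.B _ _) fun a => PD.pol_x pr.B _ _).mono
        (by omega)).sub (PD.const' _ _)).div_const _
    · refine (((PD.lf (fun a => PD.pol_x pr.B _ _) fun a => PD.pol_x pr.B _ _).mono
        (by omega)).sub (PD.mul_le (n := 1) (m := 1) (PD.const_mul _ ?_) ?_ (by omega))).div_const _
      · exact (PD.const' 1 _).add (PD.const_mul _ (PD.sum _ fun s _ =>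
          PD.ite _ ((PD.fst_apply _).mul_const _) (PD.const' 1 _)))
      · exact (PD.const' 1 _).add ((PD.pol_x pr.B _ _).const_mul _)
  · exact ((PD.pol_x pr.B _ _).mono (by omega)).div_const _
  · exact (PD.pol_x pr.B _ _).mono (by omega)

end

end Pool.Agent.Lib.MP_45f16c_ag
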