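import Pool.Agent.Lib.MP_45f16c_ag.BPoly

/-! Toolbox: forms, gradients, linear forms. -/

set_option autoImplicit false
open Metric MeasureTheory MvPolynomial
open scoped ComplexConjugate

namespace Pool.Agent.Lib.MP_45f16c_ag

noncomputable section

variable {ν d : ℕ}

theorem Mon.sum_eq (m : Mon ν d) : ∑ a, m.1 a = d := by
  have := (Finset.mem_finsuppAntidiag.1 m.2).1
  exact this

theorem Mon.degree_eq (m : Mon ν d) : m.1.degree = d := by
  rw [Finsupp.degree_eq_sum]; exact m.sum_eq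

theorem mem_mon {m : Fin ν →₀ ℕ} :
    m ∈ Finset.finsuppAntidiag (Finset.univ : Finset (Fin ν)) d ↔ m.degree = d := by
  rw [Finset.mem_finsuppAntidiag, Finsupp.degree_eq_sum]; simp

/-- The form as a linear map of the coefficients. -/
def formL (ν d : ℕ) : (Mon ν d → ℂ) →ₗ[ℂ] MvPolynomial (Fin ν) ℂ where
  toFun := form
  map_add' c c' := by simp [form, Finset.sum_add_distrib]
  map_smul' a c := by simp [form, Finset.smul_sum, smul_monomial]

theorem formL_apply (c : Mon ν d → ℂ) : formL ν d c = form c := rfl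

theorem form_add (c c' : Mon ν d → ℂ) : form (c + c') = form c + form c' :=
  (formL ν d).map_add c c'

theorem form_sub (c c' : Mon ν d → ℂ) : form (c - c') = form c - form c' :=
  (formL ν d).map_sub c c'

theorem form_smul (a : ℂ) (c : Mon ν d → ℂ) : form (a • c) = a • form c :=
  (formL ν d).map_smul a c

theorem form_zero : form (0 : Mon ν d → ℂ) = 0 := (formL ν d).map_zero

theorem form_sum {α : Type} (s : Finset α) (c : α → Mon ν d → ℂ) :
    form (∑ a ∈ s, c a) = ∑ a ∈ s, form (c a) := map_sum (formL ν d) c s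

theorem form_single (m : Mon ν d) (a : ℂ) : form (Pi.single m a) = monomial m.1 a := by
  unfold form
  rw [Finset.sum_eq_single m (fun b _ hb => by simp [hb]) (by simp)]
  simp

theorem form_isHomogeneous (c : Mon ν d → ℂ) : (form c).IsHomogeneous d :=
  IsHomogeneous.sum _ _ _ fun m _ => isHomogeneous_monomial _ m.degree_eq

theorem coeff_form (c : Mon ν d → ℂ) (m : Mon ν d) : coeff m.1 (form c) = c m := by
  unfold form
  rw [coeff_sum, Finset.sum_eq_single m (fun b _ hb => by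
    rw [coeff_monomial, if_neg fun h => hb (Subtype.ext h)]) (by simp)]
  simp

theorem form_coeff {P : MvPolynomial (Fin ν) ℂ} (hP : P.IsHomogeneous d) :
    form (fun m : Mon ν d => coeff m.1 P) = P := by
  ext m
  by_cases h : m.degree = d
  · exact coeff_form _ ⟨m, mem_mon.2 h⟩
  · rw [(form_isHomogeneous _).coeff_eq_zero h, hP.coeff_eq_zero h]

theorem eval_form (c : Mon ν d → ℂ) (x : Fin ν → ℂ) :
    eval x (form c) = ∑ m, c m * mon m x := by
  simp only [form, map_sum, eval_monomial, mon]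
  exact Finset.sum_congr rfl fun m _ => by rw [Finsupp.prod_fintype _ _ (by simp)]

theorem mon_smul (m : Mon ν d) (a : ℂ) (x : Fin ν → ℂ) : mon m (a • x) = a ^ d * mon m x := by
  simp only [mon, Pi.smul_apply, smul_eq_mul, mul_pow, Finset.prod_mul_distrib,
    Finset.prod_pow_eq_pow_sum, m.sum_eq]

theorem eval_form_smul (c : Mon ν d → ℂ) (a : ℂ) (x : Fin ν → ℂ) :
    eval (a • x) (form c) = a ^ d * eval x (form c) := by
  simp only [eval_form, mon_smul, Finset.mul_sum]
  exact Finset.sum_congr rfl fun m _ => by ring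

theorem eval_smul_of_isHomogeneous {P : MvPolynomial (Fin ν) ℂ} (hP : P.IsHomogeneous d) (a : ℂ)
    (x : Fin ν → ℂ) : eval (a • x) P = a ^ d * eval x P := by
  rw [← form_coeff hP, eval_form_smul]

theorem norm_mon_le (m : Mon ν d) (x : Fin ν → ℂ) : ‖mon m x‖ ≤ ‖x‖ ^ d := by
  rw [mon, norm_prod, show ‖x‖ ^ d = ∏ a, ‖x‖ ^ m.1 a by
    rw [Finset.prod_pow_eq_pow_sum, m.sum_eq]]
  exact Finset.prod_le_prod (fun _ _ => norm_nonneg _) fun a _ => by
    rw [norm_pow]; gcongr; exact norm_le_pi_norm x a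

theorem norm_eval_form_le (c : Mon ν d → ℂ) (x : Fin ν → ℂ) :
    ‖eval x (form c)‖ ≤ Fintype.card (Mon ν d) * ‖c‖ * ‖x‖ ^ d := by
  rw [eval_form]
  refine (norm_sum_le _ _).trans ((Finset.sum_le_card_nsmul _ _ (‖c‖ * ‖x‖ ^ d)
    fun m _ => ?_).trans (by simp [mul_assoc]))
  rw [norm_mul]
  exact mul_le_mul (norm_le_pi_norm _ _) (norm_mon_le _ _) (norm_nonneg _) (norm_nonneg _)

theorem prod_lip {α : Type} (l : List α) (u v : α → ℂ) {R δ : ℝ} (hR : 0 ≤ R) (hδ : 0 ≤ δ)
    (hu : ∀ a, ‖u a‖ ≤ R) (hv : ∀ a, ‖v a‖ ≤ R) (h : ∀ a, ‖u a - v a‖ ≤ δ) :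
    ‖(l.map v).prod‖ ≤ R ^ l.length ∧
      ‖(l.map u).prod - (l.map v).prod‖ ≤ l.length * δ * R ^ (l.length - 1) := by
  induction l with
  | nil => simp
  | cons a l ih =>
    simp only [List.map_cons, List.prod_cons, List.length_cons, Nat.add_sub_cancel]
    refine ⟨by rw [norm_mul, pow_succ']; exact mul_le_mul (hv a) ih.1 (norm_nonneg _) hR, ?_⟩
    have e : u a * (l.map u).prod - v a * (l.map v).prod =
        u a * ((l.map u).prod - (l.map v).prod) + (u a - v a) * (l.map v).prod := by ring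
    rw [e]
    refine (norm_add_le _ _).trans ?_
    rw [norm_mul, norm_mul]
    have h1 : ‖u a‖ * ‖(l.map u).prod - (l.map v).prod‖ ≤ l.length * δ * R ^ l.length := by
      refine (mul_le_mul (hu a) ih.2 (norm_nonneg _) hR).trans (le_of_eq ?_)
      rcases Nat.eq_zero_or_pos l.length with h0 | h0
      · simp [h0]
      · conv_rhs => rw [← Nat.sub_add_cancel h0, pow_succ]
        rw [Nat.sub_add_cancel h0]; ring
    have h2 := mul_le_mul (h a) ih.1 (norm_nonneg _) hδ
    push_cast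
    linarith

theorem mon_lip (m : Mon ν d) {x x' : Fin ν → ℂ} {R : ℝ} (hx : ‖x‖ ≤ R) (hx' : ‖x'‖ ≤ R) :
    ‖mon m x - mon m x'‖ ≤ d * ‖x - x'‖ * R ^ (d - 1) := by
  let l : List (Fin ν) := (m.1.toMultiset).toList
  have hl : l.length = d := by
    simp only [l, Multiset.length_toList, Finsupp.card_toMultiset]
    rw [Finsupp.sum_fintype _ _ (by simp)]; exact m.sum_eq
  have e : ∀ y : Fin ν → ℂ, mon m y = (l.map y).prod := fun y => by
    simp only [l, Multiset.prod_map_toList, Finsupp.toMultiset_map, Finsupp.prod_toMultiset, mon]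
    rw [Finsupp.prod_mapDomain_index (by simp) (fun _ _ _ => pow_add _ _ _),
      Finsupp.prod_fintype _ _ (by simp)]
  rw [e, e, ← hl]
  exact (prod_lip l x x' ((norm_nonneg _).trans hx) (norm_nonneg _)
    (fun a => (norm_le_pi_norm x a).trans hx) (fun a => (norm_le_pi_norm x' a).trans hx')
    fun a => norm_le_pi_norm (x - x') a).2

theorem form_lip (c : Mon ν d → ℂ) {x x' : Fin ν → ℂ} {R : ℝ} (hx : ‖x‖ ≤ R) (hx' : ‖x'‖ ≤ R) :
    ‖eval x (form c) - eval x' (form c)‖ ≤
      Fintype.card (Mon ν d) * ‖c‖ * (d * ‖x - x'‖ * R ^ (d - 1)) := by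
  rw [eval_form, eval_form, ← Finset.sum_sub_distrib]
  refine (norm_sum_le _ _).trans ((Finset.sum_le_card_nsmul _ _
    (‖c‖ * (d * ‖x - x'‖ * R ^ (d - 1))) fun m _ => ?_).trans (by simp [mul_assoc]))
  rw [← mul_sub, norm_mul]
  exact mul_le_mul (norm_le_pi_norm _ _) (mon_lip m hx hx') (norm_nonneg _) (norm_nonneg _)

/-- Coefficients of a partial derivative, as a linear map. -/
def dcL (ν d : ℕ) (a : Fin ν) : (Mon ν d → ℂ) →ₗ[ℂ] (Mon ν (d - 1) → ℂ) :=
  LinearMap.pi fun m => (lcoeff ℂ m.1) ∘ₗ (pderiv a : Derivation ℂ _ _).toLinearMap ∘ₗ formL ν d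

theorem form_dcL (a : Fin ν) (c : Mon ν d → ℂ) : form (dcL ν d a c) = pderiv a (form c) :=
  form_coeff (form_isHomogeneous c).pderiv

theorem norm_dcL_le (a : Fin ν) (c : Mon ν d → ℂ) : ‖dcL ν d a c‖ ≤ (d + 1) * ‖c‖ := by
  refine (pi_norm_le_iff_of_nonneg (by positivity)).2 fun m => ?_
  have e : dcL ν d a c m = coeff m.1 (pderiv a (form c)) := rfl
  rw [e, coeff_pderiv, norm_mul, mul_comm]
  have h1 : m.1 a ≤ d - 1 := by
    exact (Finset.single_le_sum (f := fun b => m.1 b) (fun _ _ => Nat.zero_le _)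
      (Finset.mem_univ a)).trans m.sum_eq.le
  have h2 : ‖((m.1 a : ℂ) + 1)‖ ≤ d + 1 := by
    refine (norm_add_le _ _).trans ?_
    simp only [Complex.norm_natCast, norm_one, add_le_add_iff_right, Nat.cast_le]
    omega
  refine mul_le_mul h2 ?_ (norm_nonneg _) (by positivity)
  by_cases h : (m.1 + Finsupp.single a 1).degree = d
  · rw [show coeff (m.1 + Finsupp.single a 1) (form c) = c ⟨_, mem_mon.2 h⟩ from
      coeff_form c ⟨_, mem_mon.2 h⟩]
    exact norm_le_pi_norm _ _
  · rw [(form_isHomogeneous c).coeff_eq_zero h]; simp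

theorem grad_eq (c : Mon ν d → ℂ) (x : Fin ν → ℂ) (a : Fin ν) :
    grad c x a = eval x (form (dcL ν d a c)) := by rw [form_dcL]; rfl

theorem grad_smul (c : Mon ν d → ℂ) (a : ℂ) (x : Fin ν → ℂ) :
    grad c (a • x) = a ^ (d - 1) • grad c x := by
  funext b; simp only [grad_eq, eval_form_smul, Pi.smul_apply, smul_eq_mul]

theorem grad_smul_left (c : Mon ν d → ℂ) (a : ℂ) (x : Fin ν → ℂ) :
    grad (a • c) x = a • grad c x := by
  funext b; simp [grad, form_smul]

theorem norm_grad_le (c : Mon ν d → ℂ) (x : Fin ν → ℂ) :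
    ‖grad c x‖ ≤ Fintype.card (Mon ν (d - 1)) * ((d + 1) * ‖c‖) * ‖x‖ ^ (d - 1) := by
  refine (pi_norm_le_iff_of_nonneg (by positivity)).2 fun a => ?_
  rw [grad_eq]
  refine (norm_eval_form_le _ _).trans ?_
  gcongr
  exact norm_dcL_le a c

theorem grad_lip (c : Mon ν d → ℂ) {x x' : Fin ν → ℂ} {R : ℝ} (hx : ‖x‖ ≤ R) (hx' : ‖x'‖ ≤ R) :
    ‖grad c x - grad c x'‖ ≤ Fintype.card (Mon ν (d - 1)) * ((d + 1) * ‖c‖) *
      ((d - 1 : ℕ) * ‖x - x'‖ * R ^ (d - 1 - 1)) := by
  have hR : 0 ≤ R := (norm_nonneg _).trans hx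
  refine (pi_norm_le_iff_of_nonneg (by positivity)).2 fun a => ?_
  rw [Pi.sub_apply, grad_eq, grad_eq]
  refine (form_lip _ hx hx').trans ?_
  gcongr
  exact norm_dcL_le a c

theorem Usm.le_norm_grad {η : ℝ} {c : Mon ν d → ℂ} (hc : c ∈ Usm ν d η) {x : Fin ν → ℂ}
    (hx : x ≠ 0) : η * ‖x‖ ^ (d - 1) ≤ ‖grad c x‖ := by
  have h0 : 0 < ‖x‖ := norm_pos_iff.2 hx
  have h1 := hc.2 (((‖x‖⁻¹ : ℝ) : ℂ) • x) (by rw [norm_smul]; simp [h0.ne'])
  rw [grad_smul, norm_smul, norm_pow, Complex.norm_real, Real.norm_of_nonneg (by positivity),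
    inv_pow, ← div_eq_inv_mul, le_div_iff₀ (by positivity)] at h1
  exact h1

theorem Usm.grad_ne {η : ℝ} {c : Mon ν d → ℂ} (hc : c ∈ Usm ν d η) (hη : 0 < η) {x : Fin ν → ℂ}
    (hx : x ≠ 0) : grad c x ≠ 0 := by
  have h0 : 0 < ‖x‖ := norm_pos_iff.2 hx
  exact norm_pos_iff.1 (lt_of_lt_of_le (by positivity) (Usm.le_norm_grad hc hx))

/-- Polynomial dependence of the value of a form on the point and on the coefficients. -/
theorem PD.eval_form {𝕜 : Type} [NontriviallyNormedField 𝕜] [NormedAlgebra 𝕜 ℂ] {E : Type}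
    [NormedAddCommGroup E] [NormedSpace 𝕜 E] {e e' : ℕ} {φ : E → Fin ν → ℂ}
    {c : E → Mon ν d → ℂ} (hφ : ∀ a, PD 𝕜 e fun v => φ v a) (hc : ∀ m, PD 𝕜 e' fun v => c v m) :
    PD 𝕜 (d * e + e') fun v => eval (φ v) (form (c v)) := by
  refine (PD.sum Finset.univ fun m _ => (hc m).mul_le
    (PD.prod Finset.univ fun a _ => (hφ a).pow (m.1 a)) ?_).congr fun v =>
      Pool.Agent.Lib.MP_45f16c_ag.eval_form _ _
  rw [← Finset.sum_mul, m.sum_eq]; omega

theorem continuous_eval_form {X : Type} [TopologicalSpace X] {φ : X → Fin ν → ℂ}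
    {c : X → Mon ν d → ℂ} (hφ : Continuous φ) (hc : Continuous c) :
    Continuous fun v => eval (φ v) (form (c v)) := by
  simp only [eval_form, mon]
  fun_prop

theorem continuous_grad {X : Type} [TopologicalSpace X] {φ : X → Fin ν → ℂ}
    {c : X → Mon ν d → ℂ} (hφ : Continuous φ) (hc : Continuous c) :
    Continuous fun v => grad (c v) (φ v) := by
  refine continuous_pi fun a => ?_
  simp only [grad_eq]
  exact continuous_eval_form hφ ((dcL ν d a).continuous_of_finiteDimensional.comp hc)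

theorem differentiable_eval_form {φ : ℂ → Fin ν → ℂ} (c : Mon ν d → ℂ) (hφ : Differentiable ℂ φ) :
    Differentiable ℂ fun z => eval (φ z) (form c) := by
  simp only [eval_form, mon]
  fun_prop

theorem differentiable_grad {φ : ℂ → Fin ν → ℂ} (c : Mon ν d → ℂ) (hφ : Differentiable ℂ φ) :
    Differentiable ℂ fun z => grad c (φ z) := by
  refine differentiable_pi.2 fun a => ?_
  simp only [grad_eq]
  exact differentiable_eval_form _ hφ

theorem isClosed_Usm (η : ℝ) : IsClosed (Usm ν d η) := by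
  have : Usm ν d η = {c | ‖c‖ ≤ 1} ∩ ⋂ x : Fin ν → ℂ, ⋂ _ : ‖x‖ = 1, {c | η ≤ ‖grad c x‖} := by
    ext c; simp [Usm]
  rw [this]
  refine (isClosed_le continuous_norm continuous_const).inter
    (isClosed_iInter fun x => isClosed_iInter fun _ => isClosed_le continuous_const ?_)
  exact (continuous_grad continuous_const continuous_id).norm

theorem Usm_subset (η : ℝ) : Usm ν d η ⊆ closedBall 0 1 := fun c hc => by simpa using hc.1

theorem isCompact_Usm (η : ℝ) : IsCompact (Usm ν d η) :=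
  (isCompact_closedBall 0 1).of_isClosed_subset (isClosed_Usm η) (Usm_subset η)

theorem hasFDerivAt_eval (P : MvPolynomial (Fin ν) ℂ) (x : Fin ν → ℂ) :
    HasFDerivAt (fun x => eval x P)
      (∑ a, eval x (pderiv a P) • ContinuousLinearMap.proj (R := ℂ) (φ := fun _ : Fin ν => ℂ) a)
      x := by
  classical
  induction P using MvPolynomial.induction_on with
  | C a =>
    simp only [eval_C]
    refine (hasFDerivAt_const (𝕜 := ℂ) a x).congr_fderiv ?_
    ext v
    simp
  | add p q hp hq =>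
    simp only [map_add]
    refine (hp.add hq).congr_fderiv ?_
    ext v
    simp [Finset.sum_add_distrib, add_mul]
  | mul_X p n hp =>
    simp only [map_mul, eval_X]
    refine (hp.mul (hasFDerivAt_apply (𝕜 := ℂ) n x)).congr_fderiv ?_
    ext v
    simp [pderiv_X, Pi.single_apply, mul_add, Finset.sum_add_distrib, Finset.mul_sum, apply_ite,
      mul_comm, mul_left_comm]

/-- Derivative of the value of a form in the point and in the coefficients. -/
theorem fderiv_eval_form {E : Type} [NormedAddCommGroup E] [NormedSpace ℂ E]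
    (A : E →L[ℂ] (Fin ν → ℂ)) (B : E →L[ℂ] (Mon ν d → ℂ)) (v u : E) :
    fderiv ℂ (fun v => eval (A v) (form (B v))) v u =
      eval (A v) (form (B u)) + lf (grad (B v) (A v)) (A u) := by
  have h1 : ∀ m : Mon ν d, HasFDerivAt (fun v => B v m * eval (A v) (monomial m.1 (1 : ℂ))) _ v :=
    fun m => (((ContinuousLinearMap.proj (R := ℂ) (φ := fun _ : Mon ν d => ℂ) m).comp
      B).hasFDerivAt).mul ((hasFDerivAt_eval (monomial m.1 1) (A v)).comp v A.hasFDerivAt)
  have e0 : ∀ (c : Mon ν d → ℂ), form c = ∑ m, c m • monomial m.1 (1 : ℂ) := fun c => by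
    simp [form, smul_monomial]
  have e : (fun v => eval (A v) (form (B v))) =
      fun v => ∑ m, B v m * eval (A v) (monomial m.1 (1 : ℂ)) := by
    funext w; simp [e0]
  rw [e, (HasFDerivAt.fun_sum fun m _ => h1 m).fderiv]
  simp only [lf, grad, e0, map_sum, Derivation.map_smul, smul_eval, Finset.sum_mul]
  rw [Finset.sum_comm, ← Finset.sum_add_distrib]
  simp only [FunLike.coe_sum, Finset.sum_apply]
  refine Finset.sum_congr rfl fun m _ => ?_
  simp [add_comm, mul_comm]
  rw [Finset.sum_mul]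
  exact Finset.sum_congr rfl fun _ _ => mul_assoc _ _ _

theorem norm_lf_le (l x : Fin ν → ℂ) : ‖lf l x‖ ≤ ν * ‖l‖ * ‖x‖ := by
  refine (norm_sum_le _ _).trans ((Finset.sum_le_card_nsmul _ _ (‖l‖ * ‖x‖) fun a _ => ?_).trans
    (by simp [mul_assoc]))
  rw [norm_mul]
  exact mul_le_mul (norm_le_pi_norm _ _) (norm_le_pi_norm _ _) (norm_nonneg _) (norm_nonneg _)

theorem lf_sub_right (l x y : Fin ν → ℂ) : lf l (x - y) = lf l x - lf l y := by
  simp [lf, mul_sub, Finset.sum_sub_distrib]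

theorem lf_sub_left (l l' x : Fin ν → ℂ) : lf (l - l') x = lf l x - lf l' x := by
  simp [lf, sub_mul, Finset.sum_sub_distrib]

theorem lf_add_right (l x y : Fin ν → ℂ) : lf l (x + y) = lf l x + lf l y := by
  simp [lf, mul_add, Finset.sum_add_distrib]

theorem lf_smul_left (a : ℂ) (l x : Fin ν → ℂ) : lf (a • l) x = a * lf l x := by
  simp [lf, Finset.mul_sum, mul_assoc]

theorem lf_smul_right (a : ℂ) (l x : Fin ν → ℂ) : lf l (a • x) = a * lf l x := by
  simp [lf, Finset.mul_sum, mul_left_comm]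

theorem PD.lf {𝕜 : Type} [NontriviallyNormedField 𝕜] [NormedAlgebra 𝕜 ℂ] {E : Type}
    [NormedAddCommGroup E] [NormedSpace 𝕜 E] {e e' : ℕ} {l x : E → Fin ν → ℂ}
    (hl : ∀ a, PD 𝕜 e fun v => l v a) (hx : ∀ a, PD 𝕜 e' fun v => x v a) :
    PD 𝕜 (e + e') fun v => lf (l v) (x v) :=
  PD.sum Finset.univ fun a _ => (hl a).mul (hx a)

theorem exists_norm_eq {α : Type} [Fintype α] [Nonempty α] {E : Type} [SeminormedAddCommGroup E]
    (x : α → E) : ∃ a, ‖x a‖ = ‖x‖ := by
  obtain ⟨a, ha⟩ := Finite.exists_max fun a => ‖x a‖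
  exact ⟨a, le_antisymm (norm_le_pi_norm x a)
    ((pi_norm_le_iff_of_nonneg (norm_nonneg _)).2 ha)⟩

section prj
variable {α : Type} [Fintype α] [DecidableEq α] {j : ℕ}

theorem norm_prj_le {y : Fin j → α → ℂ} (hy : ‖y‖ ≤ 1) (a : α) : ‖prj y a‖ ≤ 1 + j := by
  refine (norm_sub_le _ _).trans (add_le_add (by simp [Pi.norm_single]) ?_)
  refine (norm_sum_le _ _).trans ((Finset.sum_le_card_nsmul _ _ 1 fun l _ => ?_).trans (by simp))
  have h1 : ‖y l‖ ≤ 1 := (norm_le_pi_norm y l).trans hy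
  rw [norm_smul, Complex.norm_conj]
  exact mul_le_one₀ ((norm_le_pi_norm _ _).trans h1) (norm_nonneg _) h1

omit [Fintype α] in
theorem single_eq_prj (y : Fin j → α → ℂ) (a : α) :
    Pi.single a 1 = prj y a + ∑ l, conj (y l a) • y l := by simp [prj]

omit [Fintype α] in
theorem continuous_prj (a : α) : Continuous fun y : Fin j → α → ℂ => prj y a := by
  unfold prj
  fun_prop

end prj

theorem gen_smul {j : ℕ} (hd : 1 ≤ d) (c : Mon ν d → ℂ) (y : Fin j → Mon ν d → ℂ) (a : ℂ)
    (p : Fin ν → ℂ) : gen c y (a • p) = a ^ d • gen c y p := by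
  funext i
  rcases i with ab | m | l
  · simp only [gen, Sum.elim_inl, grad_smul, Pi.smul_apply, smul_eq_mul]
    rw [show a ^ d = a ^ (d - 1) * a by rw [← pow_succ, Nat.sub_add_cancel hd]]
    ring
  · simp [gen, eval_form_smul]
  · simp [gen]

theorem evC_smul {ι : Type} {t : ℕ} (Θ : Finset ι → Mon ν t → ℂ) (a : ℂ) (p : Fin ν → ℂ) :
    evC Θ (a • p) = a ^ t • evC Θ p := by
  funext s; simp [evC, eval_form_smul]

end

end Pool.Agent.Lib.MP_45f16c_ag
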