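import Pool.Agent.Lib.MP_45f16c_ag.Stmts

/-! Toolbox: closure properties of polynomial functions. -/

set_option autoImplicit false
open Metric MeasureTheory MvPolynomial
open scoped ComplexConjugate

namespace Pool.Agent.Lib.MP_45f16c_ag

namespace PD

variable {𝕜 : Type} [NontriviallyNormedField 𝕜] [NormedAlgebra 𝕜 ℂ] {E : Type}
  [NormedAddCommGroup E] [NormedSpace 𝕜 E] {n m : ℕ} {f g : E → ℂ}

theorem congr (h : PD 𝕜 n f) (e : ∀ x, g x = f x) : PD 𝕜 n g := by
  rwa [show g = f from funext e]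

theorem const' (n : ℕ) (a : ℂ) : PD 𝕜 n (fun _ : E => a) := (const a).mono (Nat.zero_le _)

theorem const_mul (a : ℂ) (h : PD 𝕜 n f) : PD 𝕜 n (fun x => a * f x) :=
  ((const a).mul h).mono (by omega)

theorem mul_const (a : ℂ) (h : PD 𝕜 n f) : PD 𝕜 n (fun x => f x * a) :=
  (h.mul (const a)).mono (by omega)

theorem div_const (a : ℂ) (h : PD 𝕜 n f) : PD 𝕜 n (fun x => f x / a) :=
  (h.mul_const a⁻¹).congr fun _ => div_eq_mul_inv _ _

theorem neg (h : PD 𝕜 n f) : PD 𝕜 n (fun x => -f x) :=
  (h.const_mul (-1)).congr fun _ => by simp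

theorem sub (h : PD 𝕜 n f) (h' : PD 𝕜 n g) : PD 𝕜 n (fun x => f x - g x) :=
  (h.add h'.neg).congr fun _ => sub_eq_add_neg _ _

theorem mul_le {k : ℕ} (h : PD 𝕜 n f) (h' : PD 𝕜 m g) (hk : n + m ≤ k) :
    PD 𝕜 k (fun x => f x * g x) := (h.mul h').mono hk

theorem sum {α : Type} (s : Finset α) {F : α → E → ℂ} (h : ∀ a ∈ s, PD 𝕜 n (F a)) :
    PD 𝕜 n (fun x => ∑ a ∈ s, F a x) := by
  classical
  induction s using Finset.induction_on with
  | empty => simpa using const' n 0
  | insert a s ha ih =>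
    exact ((h a (by simp)).add (ih fun b hb => h b (by simp [hb]))).congr fun x => by
      rw [Finset.sum_insert ha]

theorem prod {α : Type} (s : Finset α) {F : α → E → ℂ} {k : α → ℕ}
    (h : ∀ a ∈ s, PD 𝕜 (k a) (F a)) : PD 𝕜 (∑ a ∈ s, k a) (fun x => ∏ a ∈ s, F a x) := by
  classical
  induction s using Finset.induction_on with
  | empty => simpa using const 1
  | insert a s ha ih =>
    rw [Finset.sum_insert ha]
    exact ((h a (by simp)).mul (ih fun b hb => h b (by simp [hb]))).congr fun x => by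
      rw [Finset.prod_insert ha]

theorem pow (h : PD 𝕜 n f) (k : ℕ) : PD 𝕜 (k * n) (fun x => f x ^ k) := by
  induction k with
  | zero => simpa using const 1
  | succ k ih => exact (ih.mul_le h (by rw [Nat.succ_mul])).congr fun x => pow_succ _ _

theorem ite (p : Prop) [Decidable p] (h : PD 𝕜 n f) (h' : PD 𝕜 n g) :
    PD 𝕜 n (fun x => if p then f x else g x) := by
  by_cases hp : p
  · simpa [hp] using h
  · simpa [hp] using h'

theorem comp_affine {E' : Type} [NormedAddCommGroup E'] [NormedSpace 𝕜 E'] (h : PD 𝕜 n f)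
    (A : E' →L[𝕜] E) (b : E) : PD 𝕜 n (fun x => f (A x + b)) := by
  induction h with
  | const a => exact const a
  | lin l => exact ((lin (l.comp A)).add (const' 1 (l b))).congr fun x => by simp
  | add _ _ h1 h2 => exact h1.add h2
  | mul _ _ h1 h2 => exact h1.mul h2
  | mono hn _ h1 => exact h1.mono hn

theorem comp_clm {E' : Type} [NormedAddCommGroup E'] [NormedSpace 𝕜 E'] (h : PD 𝕜 n f)
    (A : E' →L[𝕜] E) : PD 𝕜 n (fun x => f (A x)) := by
  simpa using h.comp_affine A 0

theorem contDiff (h : PD 𝕜 n f) {k : WithTop ℕ∞} : ContDiff 𝕜 k f := by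
  induction h with
  | const a => exact contDiff_const
  | lin l => exact l.contDiff
  | add _ _ h1 h2 => exact h1.add h2
  | mul _ _ h1 h2 => exact h1.mul h2
  | mono _ _ h1 => exact h1

theorem differentiable (h : PD 𝕜 n f) : Differentiable 𝕜 f :=
  (h.contDiff (k := 1)).differentiable one_ne_zero

theorem continuous (h : PD 𝕜 n f) : Continuous f := h.differentiable.continuous

theorem fderiv_apply (h : PD 𝕜 n f) (v : E) : PD 𝕜 n (fun x => fderiv 𝕜 f x v) := by
  induction h with
  | const a => simpa using const 0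
  | lin l => exact (const' 1 (l v)).congr fun x => by rw [l.fderiv]
  | add a1 a2 h1 h2 =>
    exact (h1.add h2).congr fun x => by
      rw [fderiv_fun_add (a1.differentiable x) (a2.differentiable x)]; rfl
  | mul a1 a2 h1 h2 =>
    exact ((a1.mul h2).add (h1.mul a2)).congr fun x => by
      rw [fderiv_fun_mul (a1.differentiable x) (a2.differentiable x)]
      simp [mul_comm]
  | mono hn _ h1 => exact h1.mono hn

theorem id' : PD ℂ 1 (fun z : ℂ => z) := lin (ContinuousLinearMap.id ℂ ℂ)

theorem apply {α : Type} [Fintype α] (a : α) : PD 𝕜 1 (fun x : α → ℂ => x a) :=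
  lin (ContinuousLinearMap.proj (R := 𝕜) (φ := fun _ : α => ℂ) a)

theorem fst_apply {α : Type} [Fintype α] {F : Type} [NormedAddCommGroup F] [NormedSpace 𝕜 F]
    (a : α) : PD 𝕜 1 (fun v : (α → ℂ) × F => v.1 a) :=
  (apply a).comp_clm (ContinuousLinearMap.fst 𝕜 (α → ℂ) F)

theorem snd_apply {α : Type} [Fintype α] {F : Type} [NormedAddCommGroup F] [NormedSpace 𝕜 F]
    (a : α) : PD 𝕜 1 (fun v : F × (α → ℂ) => v.2 a) :=
  (apply a).comp_clm (ContinuousLinearMap.snd 𝕜 F (α → ℂ))

section real
variable {E : Type} [NormedAddCommGroup E] [NormedSpace ℝ E] {f : E → ℂ}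

theorem cj (h : PD ℝ n f) : PD ℝ n (fun x => conj (f x)) := by
  induction h with
  | const a => exact const _
  | lin l => exact lin ((Complex.conjCLE : ℂ →L[ℝ] ℂ).comp l)
  | add _ _ h1 h2 => exact (h1.add h2).congr fun x => map_add _ _ _
  | mul _ _ h1 h2 => exact (h1.mul h2).congr fun x => map_mul _ _ _
  | mono hn _ h1 => exact h1.mono hn

theorem re (h : PD ℝ n f) : PD ℝ n (fun x => ((f x).re : ℂ)) :=
  ((h.add h.cj).div_const 2).congr fun x => by rw [Complex.add_conj]; push_cast; ring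

theorem im (h : PD ℝ n f) : PD ℝ n (fun x => ((f x).im : ℂ)) :=
  ((h.sub h.cj).div_const (2 * Complex.I)).congr fun x => by
    rw [Complex.sub_conj]; push_cast; field_simp

/-- Real linear functionals of a polynomial function. -/
theorem clm (h : PD ℝ n f) (l : ℂ →L[ℝ] ℂ) : PD ℝ n (fun x => l (f x)) :=
  ((h.re.mul_const (l 1)).add (h.im.mul_const (l Complex.I))).congr fun x => by
    conv_lhs => rw [show f x = (f x).re • (1 : ℂ) + (f x).im • Complex.I by simp]
    rw [map_add, map_smul, map_smul, Complex.real_smul, Complex.real_smul]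

end real

theorem toReal {E : Type} [NormedAddCommGroup E] [NormedSpace ℂ E] {f : E → ℂ}
    (h : PD ℂ n f) : PD ℝ n f := by
  induction h with
  | const a => exact const a
  | lin l => exact lin (l.restrictScalars ℝ)
  | add _ _ h1 h2 => exact h1.add h2
  | mul _ _ h1 h2 => exact h1.mul h2
  | mono hn _ h1 => exact h1.mono hn

/-- A polynomial function on the complex line is given by a polynomial. -/
theorem exists_poly {h : ℂ → ℂ} (hh : PD ℂ n h) :
    ∃ p : Polynomial ℂ, p.natDegree ≤ n ∧ ∀ z, h z = p.eval z := by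
  induction hh with
  | const a => exact ⟨Polynomial.C a, by simp, by simp⟩
  | lin l =>
    refine ⟨Polynomial.C (l 1) * Polynomial.X, ?_, fun z => ?_⟩
    · exact (Polynomial.natDegree_C_mul_le _ _).trans Polynomial.natDegree_X_le
    · have := l.map_smul z 1
      simp only [smul_eq_mul, mul_one] at this
      rw [Polynomial.eval_mul, Polynomial.eval_C, Polynomial.eval_X, mul_comm]
      exact this
  | add _ _ h1 h2 =>
    obtain ⟨p, a1, a2⟩ := h1
    obtain ⟨q, b1, b2⟩ := h2
    exact ⟨p + q, (Polynomial.natDegree_add_le _ _).trans (max_le a1 b1), fun z => by simp [a2, b2]⟩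
  | mul _ _ h1 h2 =>
    obtain ⟨p, a1, a2⟩ := h1
    obtain ⟨q, b1, b2⟩ := h2
    exact ⟨p * q, Polynomial.natDegree_mul_le.trans (add_le_add a1 b1), fun z => by simp [a2, b2]⟩
  | mono hn _ h1 =>
    obtain ⟨p, a1, a2⟩ := h1
    exact ⟨p, a1.trans hn, a2⟩

end PD

section PV
variable {E F F' : Type} [NormedAddCommGroup E] [NormedSpace ℝ E] [NormedAddCommGroup F]
  [NormedSpace ℝ F] [NormedAddCommGroup F'] [NormedSpace ℝ F'] {n : ℕ}

theorem PV.prod {Ψ : E → F} {Ψ' : E → F'} (h : PV n Ψ) (h' : PV n Ψ') :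
    PV n (fun x => (Ψ x, Ψ' x)) := fun l =>
  ((h (l.comp (ContinuousLinearMap.inl ℝ F F'))).add
    (h' (l.comp (ContinuousLinearMap.inr ℝ F F')))).congr fun x => by
      simp [← map_add]

theorem PV.pi {α : Type} [Fintype α] {Ψ : E → α → ℂ} (h : ∀ a, PD ℝ n (fun x => Ψ x a)) :
    PV n Ψ := by
  classical
  intro l
  refine (PD.sum Finset.univ fun a _ => (h a).clm
    (l.comp (ContinuousLinearMap.single ℝ (fun _ : α => ℂ) a))).congr fun x => ?_
  conv_lhs => rw [← Finset.univ_sum_single (Ψ x), map_sum]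
  simp

theorem PV.contDiff [FiniteDimensional ℝ F] {Ψ : E → F} (h : PV n Ψ) {k : WithTop ℕ∞} :
    ContDiff ℝ k Ψ := by
  let b := Module.finBasis ℝ F
  have e : Ψ = fun x => ∑ i, (((Complex.ofRealCLM.comp
      (LinearMap.toContinuousLinearMap (b.coord i))) (Ψ x)).re) • b i := by
    funext x
    simp
  rw [e]
  refine ContDiff.sum fun i _ => ContDiff.smul (f := fun x => ((Complex.ofRealCLM.comp
      (LinearMap.toContinuousLinearMap (b.coord i))) (Ψ x)).re) (g := fun _ => b i) ?_
      contDiff_const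
  exact Complex.reCLM.contDiff.comp (h (Complex.ofRealCLM.comp
      (LinearMap.toContinuousLinearMap (b.coord i)))).contDiff

end PV

end Pool.Agent.Lib.MP_45f16c_ag
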