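import Pool.Agent.Lib.MP_45f16c_ag.Basic

/-! The measure estimate for one class: choice of the parameters, true discs. -/

set_option autoImplicit false
open Metric MeasureTheory MvPolynomial Filter Topology Real

namespace Pool.Agent.Lib.MP_45f16c_ag

namespace CoreAux

noncomputable section

theorem ev (C c : ℝ) (a : ℕ) : ∀ᶠ T : ℝ in atTop, C * (c * T) ^ a ≤ exp T := by
  have h := (tendsto_pow_mul_exp_neg_atTop_nhds_zero a).const_mul (C * c ^ a)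
  rw [mul_zero] at h
  filter_upwards [h.eventually_le_const one_pos] with T hT
  rw [exp_neg, ← mul_assoc, ← div_eq_mul_inv, div_le_one (exp_pos T)] at hT
  calc C * (c * T) ^ a = C * c ^ a * T ^ a := by ring
    _ ≤ _ := hT

theorem mle {x y a b : ℝ} (h1 : x ≤ exp a) (h2 : y ≤ exp b) (hy : 0 ≤ y) : x * y ≤ exp (a + b) := by
  rw [exp_add]; exact mul_le_mul h1 h2 hy (exp_pos a).le

theorem ele {x a b : ℝ} (h1 : x ≤ exp a) (h : a ≤ b) : x ≤ exp b := h1.trans (exp_le_exp.2 h)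

/-- The parameters attached to the level `T` and to the indices `i₀, i₁, k`. -/
def par (d : ℕ) (K g T Cd : ℝ) {m : ℕ} (Pt : Fin 3 → Fin m → ℂ) (i₀ i₁ k : ℕ) : Par m where
  k := k
  B := exp (8 * (K * T))
  ε := exp (-(194 * (K * T)) - 4 * (d * (g * T)))
  ε' := exp (-(20 * (K * T)))
  Γb := (Cd + 1) * exp (g * T) ^ 3
  β := exp (-(i₀ : ℝ))
  ϑ := exp (-(i₁ : ℝ))
  Pt := Pt

/-- The truncation error. -/
def del (d : ℕ) (K g T : ℝ) : ℝ := exp (-(199 * (K * T)) - 208 * (d * (g * T)))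

theorem trunc_le {d m : ℕ} {K g T ρ : ℝ} (hK : 1 ≤ K) (hT : 1 ≤ T) (hg : 0 < g)
    (hρ : 8 * exp (1 + d * g) ≤ ρ) (hm : 208 * (K * T) ≤ m) :
    2 * exp (8 * (K * T)) * (4 / (ρ / 2)) ^ m ≤ del d K g T := by
  have hu : 1 ≤ K * T := by nlinarith
  have h0 := exp_pos (1 + d * g)
  have h1 : 4 / (ρ / 2) ≤ exp (-(1 + d * g)) := by
    rw [exp_neg, div_le_iff₀ (by linarith), inv_mul_eq_div, le_div_iff₀ h0]; linarith
  have h2 : (4 / (ρ / 2)) ^ m ≤ exp (m * -(1 + d * g)) := by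
    rw [exp_nat_mul]; gcongr; apply div_nonneg <;> linarith
  have h3 : (2 : ℝ) ≤ exp (K * T) := by have := add_one_le_exp (K * T); linarith
  refine ele (mle (mle h3 le_rfl (exp_pos _).le) h2 (pow_nonneg (by
    apply div_nonneg <;> linarith) _)) ?_
  have h4 : 0 ≤ d * g := by positivity
  have h5 : (d * g) * T ≤ (d * g) * (K * T) := by gcongr; nlinarith
  have h6 : (d * g) * (208 * (K * T)) ≤ (d * g) * m := by gcongr
  nlinarith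

theorem eight_le {d : ℕ} {g ρ : ℝ} (hg : 0 < g) (hρ : 8 * exp (1 + d * g) ≤ ρ) : 8 ≤ ρ / 2 := by
  have h1 := add_one_le_exp (1 + d * g)
  have h2 : 0 ≤ d * g := by positivity
  linarith

theorem omega_ge {N ν : ℕ} {cl : Cls N} {ρ K g T : ℝ} {f : ℂ → Fin ν → ℂ} (hρ : 8 ≤ ρ / 2)
    (hg3 : g ≤ 3 * K) (hT : 0 ≤ T) (hv : cl.Valid ρ (exp (g * T))) (hf : Disc ρ K T f)
    (hm : cl.Mem ρ (exp (g * T)) f) (i : Fin N) : exp (-(4 * (K * T))) ≤ cl.ω i := by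
  have h1 := hm.hi i (cl.z i) (mem_closedBall_self hv.σpos.le)
  have h2 := hf.lo (cl.z i) (by rw [mem_ball_zero_iff]; linarith [hv.hz i])
  have h3 : exp (g * T) ≤ exp (3 * (K * T)) := exp_le_exp.2 (by nlinarith)
  have h4 : exp (-(K * T)) ≤ exp (3 * (K * T)) * cl.ω i :=
    h2.trans (h1.trans (mul_le_mul_of_nonneg_right h3 (hv.ωpos i).le))
  rw [show -(K * T) = 3 * (K * T) + -(4 * (K * T)) by ring, exp_add] at h4
  exact le_of_mul_le_mul_left h4 (exp_pos _)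

theorem true_step (hTrue : TrueStmt) {ν d N m M : ℕ} {K g T ρ Cd Cm : ℝ} {cl : Cls N}
    {Pt : Fin 3 → Fin m → ℂ} (hK : 1 ≤ K) (hT : 1 ≤ T) (hg : 0 < g) (hg3 : g ≤ 3 * K)
    (hd : 1 ≤ d) (hρ : 8 * exp (1 + d * g) ≤ ρ) (hm : 208 * (K * T) ≤ m) (hCd0 : 0 < Cd)
    (hCd : Cd ≤ exp T) (hCm : Cm ≤ T)
    (h1 : Fintype.card (Mon ν d) * d * 2 ^ d ≤ exp T) (h2 : 3 * ν + 3 ≤ exp T)
    (hv : cl.Valid ρ (exp (g * T)))
    (hPt : ∀ z ∈ closedBall (0 : ℂ) 2, ∀ i,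
      ‖cl.P i z - ∑ s : Fin m, Pt i s * (z / 2) ^ (s : ℕ)‖ ≤ del d K g T)
    (hDiv : ∀ (f : ℂ → Fin ν → ℂ) (P : ℂ → ℂ) (Γ : ℝ), 1 ≤ Γ →
      DifferentiableOn ℂ f (ball 0 ρ) → DifferentiableOn ℂ P (ball 0 ρ) →
      (∀ z ∈ ball (0 : ℂ) ρ, f z ≠ 0 ∧ ‖deriv f z‖ ≤ Γ * ‖f z‖ ∧ ‖P z‖ ≤ Γ * ‖f z‖ ^ 2) →
      ∃ b : ℂ → Fin ν → ℂ, DifferentiableOn ℂ b (ball 0 (ρ / 2)) ∧
        ∀ z ∈ ball (0 : ℂ) (ρ / 2), lf (b z) (f z) = P z ∧ ‖b z‖ ≤ Cd * Γ ^ 2 * ‖f z‖)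
    (hMon : ∀ (ρ K T : ℝ) (f : ℂ → Fin ν → ℂ), 8 ≤ ρ → Disc ρ K T f →
      ∃ (i₀ i₁ k : ℕ) (l : Fin ν → ℂ) (q : ℕ → ℂ) (g : ℂ → ℂ), ‖l‖ ≤ 1 ∧
        (∀ s, ‖q s‖ ≤ 3 ^ k) ∧ (∀ z ∈ closedBall (0 : ℂ) 2, ‖Qp k q z‖ ≤ 3 ^ k) ∧
        (3 : ℝ) ^ k ≤ Cm * Real.exp i₀ ∧ DifferentiableOn ℂ g (ball 0 (ρ / 2)) ∧
        (∀ z ∈ ball (0 : ℂ) (ρ / 2), ‖g z‖ ≤ Cm * Real.exp i₀ ∧
          lf l (f z) = (Real.exp (-(i₀ : ℝ)) : ℂ) * Qp k q z * (1 + z * g z)) ∧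
        ‖f 0‖ ≤ Real.exp (-(i₁ : ℝ)) ∧ (i₁ : ℝ) ≤ K * T ∧ (i₀ : ℝ) + T ≤ i₁ + Cm)
    {c : Mon ν d → ℂ} (hc : ‖c‖ ≤ 1) {f : ℂ → Fin ν → ℂ} (hf : Disc ρ K T f) (hX : OnX c ρ f)
    (hM : cl.Mem ρ (exp (g * T)) f) :
    ∃ i₀ i₁ k : ℕ, (i₁ : ℝ) ≤ K * T ∧ (i₀ : ℝ) + T ≤ i₁ + Cm ∧ k ≤ m ∧
      ∃ x : Unk ν m → ℂ, ‖x‖ ≤ 1 ∧
        ∀ r : Con ν N M, ‖Gm cl (par d K g T Cd Pt i₀ i₁ k) M r (x, c)‖ ≤ 1 := by
  have hR := eight_le hg hρ
  set u := K * T with hu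
  have hTu : T ≤ u := by nlinarith
  set w := d * (g * T) with hw
  have hw0 : 0 ≤ w := by positivity
  have hgu : g * T ≤ 3 * u := by nlinarith
  set Γ := exp (g * T) with hΓ
  have hΓ1 : 1 ≤ Γ := one_le_exp (by positivity)
  have hω := omega_ge hR hg3 (by linarith) hv hf hM
  have hsub : ball (0 : ℂ) (ρ / 2) ⊆ ball 0 ρ := ball_subset_ball (by linarith)
  have hsub2 : closedBall (0 : ℂ) 2 ⊆ ball 0 (ρ / 2) := closedBall_subset_ball (by linarith)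
  choose b hb1 hb2 using fun l => hDiv f (cl.P l) Γ hΓ1 hf.diff (hv.diff l)
    fun z hz => ⟨hf.ne hz, hM.der z hz, hM.P l z hz⟩
  obtain ⟨i₀, i₁, k, l, q, g₁, m1, m2, m3, m4, m5, m6, m7, m8, m9⟩ :=
    hMon ρ K T f (by linarith) hf
  have hi : Cm * exp i₀ ≤ exp (2 * u) :=
    ele (mle (hCm.trans (by have := add_one_le_exp T; linarith : T ≤ exp T)) le_rfl
      (exp_pos _).le) (by linarith)
  have hi8 : Cm * exp i₀ ≤ exp (8 * u) := ele hi (by linarith)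
  have hk : k ≤ m := by
    have a1 : exp (k * 1) ≤ (3 : ℝ) ^ k := by
      rw [exp_nat_mul]; gcongr; exact exp_one_lt_three.le
    have a2 := exp_le_exp.1 (a1.trans (m4.trans hi))
    exact_mod_cast (by linarith : (k : ℝ) ≤ m)
  have hδω : ∀ i, del d K g T ≤ cl.ω i := fun i =>
    (exp_le_exp.2 (by linarith)).trans (hω i)
  have hδ0 : 0 ≤ del d K g T := (exp_pos _).le
  refine ⟨i₀, i₁, k, m8, m9, hk, hTrue ν d N m M cl (par d K g T Cd Pt i₀ i₁ k) c f b l q g₁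
    (ρ / 2) Γ (del d K g T) hR (by exact_mod_cast (by linarith : (1 : ℝ) ≤ m)) hk
    (one_le_exp (by linarith)) (trunc_le hK hT hg hρ hm) (exp_le_one_iff.2 (by linarith))
    hv.hz hv.σpos hv.σle hc (hf.diff.mono hsub) hb1 m5 (fun z hz => ⟨hf.hi z (hsub hz),
      fun i => ?_, (m6 z hz).1.trans hi8, hX z (hsub hz), fun i => (hb2 i z hz).1,
      (m6 z hz).2⟩) m1 (fun s => (m2 s).trans (m4.trans hi8))
    (fun z hz => ⟨(m3 z hz).trans (m4.trans hi8), hPt z hz⟩)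
    (fun i z hz => ⟨hM.hi i z hz, fun i' => ?_⟩) (fun i => ⟨hv.ωpos i, ?_, ?_⟩)
    (exp_pos _) (exp_pos _) (by simp only [par]; positivity) (exp_pos _) (exp_pos _).le
    (exp_le_one_iff.2 (by simp)) m7 (exp_le_exp.2 (by linarith)) ?_⟩
  · refine (hb2 i z hz).2.trans ?_
    have a1 : Γ ^ 2 ≤ exp (6 * u) := by
      rw [hΓ, ← exp_nat_mul]; exact exp_le_exp.2 (by push_cast; linarith)
    have a2 : ‖f z‖ ≤ exp 0 := by rw [exp_zero]; exact hf.hi z (hsub hz)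
    exact ele (mle (mle hCd a1 (by positivity)) a2 (norm_nonneg _)) (by linarith)
  · have a1 := (hb2 i' z (hsub2 (small_disc_subset (hv.hz i) hv.σle hz))).2
    have a2 : Cd * Γ ^ 2 * ‖f z‖ ≤ Cd * Γ ^ 2 * (Γ * cl.ω i) := by
      gcongr; exact hM.hi i z hz
    have a3 : cl.ω i ≤ Γ ^ 3 * cl.ω i :=
      le_mul_of_one_le_left (hv.ωpos i).le (one_le_pow₀ hΓ1)
    have a4 := hδω i
    change _ ≤ (Cd + 1) * Γ ^ 3 * cl.ω i
    nlinarith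
  · exact (hδω i).trans (le_mul_of_one_le_left (hv.ωpos i).le hΓ1)
  · have hω0 := hv.ωpos i
    have a1 : (2 * Γ) ^ (d - 1) ≤ 2 ^ d * exp w := by
      rw [hw, exp_nat_mul, ← mul_pow]
      exact pow_le_pow_right₀ (by linarith) (Nat.sub_le _ _)
    have a2 : Fintype.card (Mon ν d) * d * 2 ^ d * exp w * del d K g T ≤
        exp (-(194 * u) - 4 * w) * cl.ω i := by
      refine (ele (mle (mle h1 le_rfl (exp_pos _).le) le_rfl hδ0)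
        (b := -(194 * u) - 4 * w + -(4 * u)) (by linarith)).trans ?_
      rw [exp_add]; gcongr; exact hω i
    have a3 : cl.ω i ^ d = cl.ω i * cl.ω i ^ (d - 1) := by
      rw [← pow_succ', Nat.sub_add_cancel hd]
    change _ ≤ exp (-(194 * u) - 4 * w) * cl.ω i ^ d
    rw [a3, mul_pow, ← mul_assoc, ← mul_assoc]
    gcongr ?_ * _
    refine le_trans ?_ a2
    calc _ ≤ Fintype.card (Mon ν d) * d * del d K g T * (2 ^ d * exp w) := by gcongr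
      _ = _ := by ring
  · exact ele (mle (mle h2 le_rfl (exp_pos _).le) le_rfl hδ0) (by linarith)

end

end CoreAux

end Pool.Agent.Lib.MP_45f16c_ag
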