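import Mathlib

/-! Definitions used in the statement of the hand-in for MP_45f16c_ag. -/

set_option autoImplicit false

namespace Pool.Agent.Lib.MP_45f16c_ag

/-- Exponent vectors of the monomials of degree `d` in `ν` variables. -/
abbrev Mon (ν d : ℕ) : Type := ↥(Finset.finsuppAntidiag (Finset.univ : Finset (Fin ν)) d)

/-- The form of degree `d` in `ν` variables with coefficient vector `c`. -/
noncomputable def form {ν d : ℕ} (c : Mon ν d → ℂ) : MvPolynomial (Fin ν) ℂ :=
  ∑ m : Mon ν d, MvPolynomial.monomial m.1 (c m)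

/-- The projective hypersurface `P = 0` is smooth: the gradient does not vanish at any nonzero
point of the cone. -/
def IsSmooth {ν : ℕ} (P : MvPolynomial (Fin ν) ℂ) : Prop :=
  ∀ x : Fin ν → ℂ, x ≠ 0 → MvPolynomial.eval x P = 0 →
    ∃ i, MvPolynomial.eval x (MvPolynomial.pderiv i P) ≠ 0

/-- The projective hypersurface `P = 0` is Brody hyperbolic: every entire curve in it, given by
entire homogeneous coordinates without common zero, is constant in projective space. -/
def IsBrody {ν : ℕ} (P : MvPolynomial (Fin ν) ℂ) : Prop :=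
  ∀ f : Fin ν → ℂ → ℂ, (∀ i, Differentiable ℂ (f i)) → (∀ z, ∃ i, f i z ≠ 0) →
    (∀ z, MvPolynomial.eval (fun i => f i z) P = 0) →
    ∀ z w : ℂ, ∀ i j : Fin ν, f i z * f j w = f j z * f i w

end Pool.Agent.Lib.MP_45f16c_ag
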