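import Pool.Agent.Lib.MP_45f16c_ag.Defs

/-! Objects used in the proof (not in the statement of the hand-in). -/

set_option autoImplicit false
open Metric MeasureTheory MvPolynomial
open scoped ComplexConjugate

namespace Pool.Agent.Lib.MP_45f16c_ag

noncomputable section

/-! ### Holomorphic curves in the cone -/

section curves
variable {ν : ℕ}

/-- Logarithm of the sup norm. -/
def lg (f : ℂ → Fin ν → ℂ) (z : ℂ) : ℝ := Real.log ‖f z‖

/-- Nevanlinna characteristic centred at `a`, radius `t`. -/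
def Tch (f : ℂ → Fin ν → ℂ) (a : ℂ) (t : ℝ) : ℝ := Real.circleAverage (lg f) a t - lg f a

/-- Entire and nowhere zero. -/
structure Ent (f : ℂ → Fin ν → ℂ) : Prop where
  diff : Differentiable ℂ f
  ne : ∀ z, f z ≠ 0

/-- Not constant in projective space. -/
def NonConst (f : ℂ → Fin ν → ℂ) : Prop := ∃ z w i j, f z i * f w j ≠ f z j * f w i

/-- A normalised disc of radius `ρ` with growth `T` on the unit circle. -/
structure Disc (ρ K T : ℝ) (f : ℂ → Fin ν → ℂ) : Prop where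
  diff : DifferentiableOn ℂ f (ball 0 ρ)
  lo : ∀ z ∈ ball (0 : ℂ) ρ, Real.exp (-(K * T)) ≤ ‖f z‖
  hi : ∀ z ∈ ball (0 : ℂ) ρ, ‖f z‖ ≤ 1
  gr : T ≤ Tch f 0 1

/-- The linear form with coefficients `l`. -/
def lf (l x : Fin ν → ℂ) : ℂ := ∑ a, l a * x a

end curves

/-- A class of discs: a cover of the unit disc by `N` small discs, approximate sizes `ω`, and
three comparison functions. -/
structure Cls (N : ℕ) where
  z : Fin N → ℂ
  σ : ℝ
  ω : Fin N → ℝ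
  P : Fin 3 → ℂ → ℂ

/-- Validity of a class. -/
structure Cls.Valid {N : ℕ} (cl : Cls N) (ρ Γ : ℝ) : Prop where
  hz : ∀ i, ‖cl.z i‖ ≤ 1
  σpos : 0 < cl.σ
  σle : cl.σ ≤ 1
  cover : ∀ w : ℂ, ‖w‖ ≤ 1 → ∃ i, w ∈ closedBall (cl.z i) cl.σ
  ωpos : ∀ i, 0 < cl.ω i
  diff : ∀ l, DifferentiableOn ℂ (cl.P l) (ball 0 ρ)
  lo : ∀ i, ∀ w ∈ closedBall (cl.z i) cl.σ, ∃ l, cl.ω i ^ 2 ≤ Γ * ‖cl.P l w‖

/-- Membership of a disc in a class. -/
structure Cls.Mem {N ν : ℕ} (cl : Cls N) (ρ Γ : ℝ) (f : ℂ → Fin ν → ℂ) : Prop where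
  lo : ∀ i, ∀ w ∈ closedBall (cl.z i) cl.σ, cl.ω i ≤ Γ * ‖f w‖
  hi : ∀ i, ∀ w ∈ closedBall (cl.z i) cl.σ, ‖f w‖ ≤ Γ * cl.ω i
  P : ∀ l, ∀ w ∈ ball (0 : ℂ) ρ, ‖cl.P l w‖ ≤ Γ * ‖f w‖ ^ 2
  der : ∀ w ∈ ball (0 : ℂ) ρ, ‖deriv f w‖ ≤ Γ * ‖f w‖

/-- The monic polynomial with lower coefficients `q` in the basis `(z/2)^s`. -/
def Qp (k : ℕ) (q : ℕ → ℂ) (z : ℂ) : ℂ := z ^ k + ∑ s ∈ Finset.range k, q s * (z / 2) ^ s

/-- Interpolation nodes on the circle of centre `c` and radius `σ`. -/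
def node (c : ℂ) (σ : ℝ) (M : ℕ) (s : Fin M) : ℂ :=
  c + σ * Complex.exp (2 * Real.pi * Complex.I * (s : ℕ) / M)

/-! ### Polynomial functions -/

/-- Complex valued polynomial functions of degree at most `n` on a normed space over `𝕜`
(`𝕜 = ℂ`: holomorphic polynomials; `𝕜 = ℝ`: polynomials in the variables and their conjugates). -/
inductive PD (𝕜 : Type) [NontriviallyNormedField 𝕜] [NormedAlgebra 𝕜 ℂ] {E : Type}
    [NormedAddCommGroup E] [NormedSpace 𝕜 E] : ℕ → (E → ℂ) → Prop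
  | const (a : ℂ) : PD 𝕜 0 (fun _ => a)
  | lin (l : E →L[𝕜] ℂ) : PD 𝕜 1 (fun x => l x)
  | add {n : ℕ} {f g : E → ℂ} : PD 𝕜 n f → PD 𝕜 n g → PD 𝕜 n (fun x => f x + g x)
  | mul {n m : ℕ} {f g : E → ℂ} : PD 𝕜 n f → PD 𝕜 m g → PD 𝕜 (n + m) (fun x => f x * g x)
  | mono {n m : ℕ} {f : E → ℂ} : n ≤ m → PD 𝕜 n f → PD 𝕜 m f

/-- Real polynomial maps of degree at most `n`. -/
def PV {E F : Type} [NormedAddCommGroup E] [NormedSpace ℝ E] [NormedAddCommGroup F]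
    [NormedSpace ℝ F] (n : ℕ) (Ψ : E → F) : Prop :=
  ∀ l : F →L[ℝ] ℂ, PD ℝ n (fun x => l (Ψ x))

/-! ### Forms -/

section forms
variable {ν d : ℕ}

/-- Value of a monomial. -/
def mon (m : Mon ν d) (x : Fin ν → ℂ) : ℂ := ∏ a, x a ^ m.1 a

/-- Gradient of the form with coefficients `c`. -/
def grad (c : Mon ν d → ℂ) (x : Fin ν → ℂ) : Fin ν → ℂ :=
  fun a => eval x (pderiv a (form c))

/-- Uniformly smooth forms. -/
def Usm (ν d : ℕ) (η : ℝ) : Set (Mon ν d → ℂ) :=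
  {c | ‖c‖ ≤ 1 ∧ ∀ x : Fin ν → ℂ, ‖x‖ = 1 → η ≤ ‖grad c x‖}

/-- The disc lies on the hypersurface. -/
def OnX (c : Mon ν d → ℂ) (ρ : ℝ) (f : ℂ → Fin ν → ℂ) : Prop :=
  ∀ z ∈ ball (0 : ℂ) ρ, eval (f z) (form c) = 0

end forms

/-- The basis vector `a` minus its components along the vectors `y l`. -/
def prj {α : Type} [DecidableEq α] {j : ℕ} (y : Fin j → α → ℂ) (a : α) : α → ℂ :=
  Pi.single a 1 - ∑ l, conj (y l a) • y l

/-! ### Exterior algebra in coordinates -/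

section car
variable (R : Type) [CommRing R] {ι : Type} [Fintype ι] [DecidableEq ι]

/-- The sign of `i` relative to `s`. -/
def sg (s : Finset ι) (i : ι) : R :=
  (-1) ^ (s.filter fun a => Fintype.equivFin ι a < Fintype.equivFin ι i).card

/-- Annihilation operator (contraction with the dual basis vector). -/
def ann (i : ι) : (Finset ι → R) →ₗ[R] (Finset ι → R) where
  toFun ω s := if i ∈ s then 0 else sg R s i * ω (insert i s)
  map_add' ω ω' := by ext s; by_cases h : i ∈ s <;> simp [h, mul_add]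
  map_smul' a ω := by ext s; by_cases h : i ∈ s <;> simp [h, mul_left_comm]

/-- Creation operator (wedge with the basis vector). -/
def cre (i : ι) : (Finset ι → R) →ₗ[R] (Finset ι → R) where
  toFun ω s := if i ∈ s then sg R s i * ω (s.erase i) else 0
  map_add' ω ω' := by ext s; by_cases h : i ∈ s <;> simp [h, mul_add]
  map_smul' a ω := by ext s; by_cases h : i ∈ s <;> simp [h, mul_left_comm]

variable {R}

/-- Koszul differential: contraction with `g`. -/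
def kos (g : ι → R) : (Finset ι → R) →ₗ[R] (Finset ι → R) := ∑ i, g i • ann R i

/-- Wedge product with `v`. -/
def wed (v : ι → R) : (Finset ι → R) →ₗ[R] (Finset ι → R) := ∑ i, v i • cre R i

end car

/-- Homogeneous of exterior degree `q`. -/
def Hq {R ι : Type} [Zero R] (q : ℕ) (ω : Finset ι → R) : Prop := ∀ s, s.card ≠ q → ω s = 0

section koszul
variable {ν : ℕ} {ι : Type}

/-- Chains of exterior degree `r` whose coefficients are forms of degree `k` vanishing at `p`. -/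
def InCh (p : Fin ν → ℂ) (k r : ℕ) (ω : Finset ι → MvPolynomial (Fin ν) ℂ) : Prop :=
  Hq r ω ∧ ∀ s, (ω s).IsHomogeneous k ∧ eval p (ω s) = 0

variable [Fintype ι] [DecidableEq ι]

/-- Exactness of the Koszul complex of `g` with coefficients in the ideal of `p`. -/
def KExact (p : Fin ν → ℂ) (g : ι → MvPolynomial (Fin ν) ℂ) (d k r : ℕ) : Prop :=
  ∀ ω, InCh p (k + d) r ω → kos g ω = 0 → ∃ β, InCh p k (r + 1) β ∧ kos g β = ω

/-- The minor of the lifted chain that omits the coordinate `a`. -/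
def Del (Ξ : ι → Fin ν → ℂ) (a : Fin ν) (ω : Finset ι → ℂ) : ℂ :=
  ((List.finRange ν).erase a).foldr (fun b η => kos (fun i => Ξ i b) η) ω ∅

end koszul

/-- Index set of the generating family. -/
abbrev Gi (ν d j : ℕ) : Type := (Fin ν × Fin ν) ⊕ Mon ν d ⊕ Fin j

/-- Values at `p` of the generating family: `X_b ∂_a F`, the projected monomials, `j` zeros. -/
def gen {ν d j : ℕ} (c : Mon ν d → ℂ) (y : Fin j → Mon ν d → ℂ) (p : Fin ν → ℂ) :
    Gi ν d j → ℂ :=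
  Sum.elim (fun ab => p ab.2 * grad c p ab.1)
    (Sum.elim (fun m => eval p (form (prj y m))) (fun _ => 0))

/-- Value at `p` of a chain with coefficients forms of degree `t`. -/
def evC {ι : Type} {ν t : ℕ} (Θ : Finset ι → Mon ν t → ℂ) (p : Fin ν → ℂ) : Finset ι → ℂ :=
  fun s => eval p (form (Θ s))

/-! ### The quantitative Sard lemma -/

section sard
variable {κ μ 𝓡 : Type}

/-- Bounded lifts exist on a subspace of codimension at most `j`. -/
def LiftL [Fintype κ] [Fintype μ] (G' : 𝓡 → ((κ → ℂ) × (μ → ℂ)) →L[ℂ] ℂ) (j : ℕ) (Λ : ℝ) : Prop :=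
  ∃ χ : Fin j → (μ → ℂ) →ₗ[ℂ] ℂ, ∀ η : μ → ℂ, (∀ i, χ i η = 0) →
    ∃ ξ : κ → ℂ, ‖ξ‖ ≤ Λ * ‖η‖ ∧ ∀ r, ‖G' r (ξ, η)‖ ≤ Λ * ‖η‖

/-- All coordinates of the graph of `G`. -/
def crd (G : 𝓡 → (κ → ℂ) × (μ → ℂ) → ℂ) (v : (κ → ℂ) × (μ → ℂ)) : κ ⊕ μ ⊕ 𝓡 → ℂ :=
  Sum.elim v.1 (Sum.elim v.2 fun r => G r v)

/-- A real coordinate. -/
def rc {α : Type} (u : α → ℂ) (c : α × Bool) : ℝ := if c.2 then (u c.1).im else (u c.1).re

/-- A selection of real coordinates, arranged as a complex vector. -/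
def sel {α : Type} (I : μ × Bool → α × Bool) (u : α → ℂ) : μ → ℂ :=
  fun m => (rc u (I (m, false)) : ℂ) + (rc u (I (m, true)) : ℂ) * Complex.I

end sard

/-! ### The truncated problem -/

/-- Blocks of unknown functions: `f`, `b`, `l`, then `q` (false) and `g` (true). -/
abbrev Blk (ν : ℕ) : Type := Fin ν ⊕ (Fin 3 × Fin ν) ⊕ Fin ν ⊕ Bool

/-- Unknowns. -/
abbrev Unk (ν m : ℕ) : Type := Blk ν × Fin m

/-- Types of constraints imposed at the nodes. -/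
abbrev Typ (ν : ℕ) : Type := Unit ⊕ (Fin 3 × Fin ν) ⊕ Fin 3 ⊕ Unit

/-- Constraints. -/
abbrev Con (ν N M : ℕ) : Type := (Fin N × Fin M × Typ ν) ⊕ Fin ν ⊕ Fin ν

/-- Numerical parameters of the truncated problem. -/
structure Par (m : ℕ) where
  k : ℕ
  B : ℝ
  ε : ℝ
  ε' : ℝ
  Γb : ℝ
  β : ℝ
  ϑ : ℝ
  Pt : Fin 3 → Fin m → ℂ

section core
variable {ν d m N : ℕ}

/-- The polynomial of block `α`. -/
def pol (B : ℝ) (x : Unk ν m → ℂ) (α : Blk ν) (z : ℂ) : ℂ :=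
  B * ∑ k : Fin m, x (α, k) * (z / 2) ^ (k : ℕ)

/-- The polynomial disc. -/
def fx (B : ℝ) (x : Unk ν m → ℂ) (z : ℂ) : Fin ν → ℂ := fun a => pol B x (.inl a) z

/-- The cofactors. -/
def bx (B : ℝ) (x : Unk ν m → ℂ) (l : Fin 3) (z : ℂ) : Fin ν → ℂ :=
  fun a => pol B x (.inr (.inl (l, a))) z

/-- The linear form. -/
def lx (B : ℝ) (x : Unk ν m → ℂ) : Fin ν → ℂ := fun a => pol B x (.inr (.inr (.inl a))) 0

/-- The monic factor. -/
def Qx (B : ℝ) (k : ℕ) (x : Unk ν m → ℂ) (z : ℂ) : ℂ :=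
  z ^ k + B * ∑ s : Fin m,
    if (s : ℕ) < k then x (.inr (.inr (.inr false)), s) * (z / 2) ^ (s : ℕ) else 0

/-- The normalised cofactor of the monic factor. -/
def gx (B : ℝ) (x : Unk ν m → ℂ) (z : ℂ) : ℂ := 1 + z * pol B x (.inr (.inr (.inr true))) z

/-- The truncated comparison functions. -/
def Par.Ptz (pr : Par m) (l : Fin 3) (z : ℂ) : ℂ := ∑ s : Fin m, pr.Pt l s * (z / 2) ^ (s : ℕ)

/-- The constraint of type `t` on the small disc `i`, at the point `w`. -/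
def cons (cl : Cls N) (pr : Par m) (i : Fin N) (t : Typ ν)
    (v : (Unk ν m → ℂ) × (Mon ν d → ℂ)) (w : ℂ) : ℂ :=
  match t with
  | .inl _ => eval (fx pr.B v.1 w) (form v.2) / ((pr.ε * cl.ω i ^ d : ℝ) : ℂ)
  | .inr (.inl la) => bx pr.B v.1 la.1 w la.2 / ((pr.Γb * cl.ω i : ℝ) : ℂ)
  | .inr (.inr (.inl l)) => (lf (bx pr.B v.1 l w) (fx pr.B v.1 w) - pr.Ptz l w) / (pr.ε' : ℂ)
  | .inr (.inr (.inr _)) =>
      (lf (lx pr.B v.1) (fx pr.B v.1 w) - pr.β * Qx pr.B pr.k v.1 w * gx pr.B v.1 w) / (pr.ε' : ℂ)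

/-- The constraint map. -/
def Gm (cl : Cls N) (pr : Par m) (M : ℕ) (r : Con ν N M)
    (v : (Unk ν m → ℂ) × (Mon ν d → ℂ)) : ℂ :=
  match r with
  | .inl p => cons cl pr p.1 p.2.2 v (node (cl.z p.1) cl.σ M p.2.1)
  | .inr (.inl a) => fx pr.B v.1 0 a / ((2 * pr.ϑ : ℝ) : ℂ)
  | .inr (.inr a) => lx pr.B v.1 a

end core

end

end Pool.Agent.Lib.MP_45f16c_ag
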