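import Pool.Agent.Lib.MP_45f16c_ag.Basic

-- part Pool.Agent.Lib.MP_45f16c_ag.RegK
section

/-! Regularity of graded systems with respect to an ordered family of ring elements. -/

set_option autoImplicit false

namespace Pool.Agent.Lib.MP_45f16c_ag

namespace BaseAux

variable {S : Type} [CommRing S] {σ : Type} [Fintype σ] (x : σ → S) (rk : σ → ℕ)
  {M M' : Type} [AddCommGroup M] [Module S M] [AddCommGroup M'] [Module S M']

/-- `m` is a combination of the elements of rank less than `s` with coefficients in degree `k`. -/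
def InN (A : ℕ → AddSubgroup M) (s k : ℕ) (m : M) : Prop :=
  ∃ b : σ → M, (∀ a, b a ∈ A k) ∧ (∀ a, s ≤ rk a → b a = 0) ∧ m = ∑ a, x a • b a

/-- Regularity at most `r`. -/
structure Reg (r : ℕ) (A : ℕ → AddSubgroup M) : Prop where
  gs : ∀ a k, ∀ m ∈ A k, x a • m ∈ A (k + 1)
  inj : ∀ a k, r ≤ k → ∀ m ∈ A (k + 1), InN x rk A (rk a) (k + 1) (x a • m) → InN x rk A (rk a) k m
  gen : ∀ k, r ≤ k → ∀ m ∈ A (k + 1), ∃ s, InN x rk A s k m

variable {x rk} {A : ℕ → AddSubgroup M} {s k r : ℕ} {m m' : M}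

theorem InN.zero : InN x rk A s k 0 := ⟨0, fun _ => zero_mem _, fun _ _ => rfl, by simp⟩

theorem InN.add (h : InN x rk A s k m) (h' : InN x rk A s k m') : InN x rk A s k (m + m') := by
  obtain ⟨b, b1, b2, rfl⟩ := h
  obtain ⟨c, c1, c2, rfl⟩ := h'
  exact ⟨b + c, fun a => add_mem (b1 a) (c1 a), fun a ha => by simp [b2 a ha, c2 a ha],
    by simp [Finset.sum_add_distrib]⟩

theorem InN.neg (h : InN x rk A s k m) : InN x rk A s k (-m) := by
  obtain ⟨b, b1, b2, rfl⟩ := h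
  exact ⟨-b, fun a => neg_mem (b1 a), fun a ha => by simp [b2 a ha], by simp⟩

theorem InN.sum {α : Type} (t : Finset α) {f : α → M} (h : ∀ i ∈ t, InN x rk A s k (f i)) :
    InN x rk A s k (∑ i ∈ t, f i) :=
  Finset.sum_induction f _ (fun _ _ => InN.add) InN.zero h

theorem InN.mono {s' : ℕ} (h : InN x rk A s k m) (hs : s ≤ s') : InN x rk A s' k m := by
  obtain ⟨b, b1, b2, rfl⟩ := h
  exact ⟨b, b1, fun a ha => b2 a (hs.trans ha), rfl⟩

theorem InN.single {a : σ} (ha : rk a < s) (hm : m ∈ A k) : InN x rk A s k (x a • m) := by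
  classical
  refine ⟨Pi.single a m, fun c => ?_, fun c hc => ?_, ?_⟩
  · by_cases h : c = a
    · subst h; simpa using hm
    · simp [h]
  · rw [Pi.single_eq_of_ne]; rintro rfl; omega
  · rw [Finset.sum_eq_single a (fun c _ h => by simp [h]) (by simp)]; simp

theorem InN.smul (hA : ∀ a k, ∀ m ∈ A k, x a • m ∈ A (k + 1)) (h : InN x rk A s k m) (c : σ) :
    InN x rk A s (k + 1) (x c • m) := by
  obtain ⟨b, b1, b2, rfl⟩ := h
  refine ⟨fun a => x c • b a, fun a => hA c k _ (b1 a), fun a ha => by simp [b2 a ha], ?_⟩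
  rw [Finset.smul_sum]
  exact Finset.sum_congr rfl fun a _ => smul_comm _ _ _

theorem InN.map {A' : ℕ → AddSubgroup M'} (ψ : M →ₗ[S] M') (hψ : ∀ m ∈ A k, ψ m ∈ A' k)
    (h : InN x rk A s k m) : InN x rk A' s k (ψ m) := by
  obtain ⟨b, b1, b2, rfl⟩ := h
  exact ⟨fun a => ψ (b a), fun a => hψ _ (b1 a), fun a ha => by simp [b2 a ha], by simp⟩

theorem InN.eq_zero (h : InN x rk A 0 k m) : m = 0 := by
  obtain ⟨b, _, b2, rfl⟩ := h
  simp [b2 _ (Nat.zero_le _)]

theorem InN.succ (hrk : Function.Injective rk) (h : InN x rk A (s + 1) k m) :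
    InN x rk A s k m ∨ ∃ c, ∃ b ∈ A k, rk c = s ∧ InN x rk A s k (m - x c • b) := by
  classical
  obtain ⟨b, b1, b2, rfl⟩ := h
  by_cases hc : ∃ c, rk c = s
  · obtain ⟨c, hc⟩ := hc
    refine Or.inr ⟨c, b c, b1 c, hc, Function.update b c 0, fun a => ?_, fun a ha => ?_, ?_⟩
    · by_cases h : a = c
      · subst h; simp
      · simp [h, b1]
    · by_cases h : a = c
      · subst h; simp
      · rw [Function.update_of_ne h]
        refine b2 a (lt_of_le_of_ne ha fun e => h (hrk (by omega)))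
    · rw [← Finset.add_sum_erase _ _ (Finset.mem_univ c),
        ← Finset.add_sum_erase _ _ (Finset.mem_univ c)]
      simp only [Function.update_self, smul_zero, zero_add, add_sub_cancel_left]
      exact Finset.sum_congr rfl fun a ha => by
        rw [Function.update_of_ne (Finset.ne_of_mem_erase ha)]
  · exact Or.inl ⟨b, b1, fun a ha => b2 a (lt_of_le_of_ne ha fun e => hc ⟨a, e.symm⟩), rfl⟩

theorem Reg.mono {r' : ℕ} (h : Reg x rk r A) (hr : r ≤ r') : Reg x rk r' A :=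
  ⟨h.gs, fun a k hk => h.inj a k (hr.trans hk), fun k hk => h.gen k (hr.trans hk)⟩

theorem Reg.shift (h : Reg x rk r A) (d : ℕ) : Reg x rk r fun k => A (d + k) :=
  ⟨fun a k => h.gs a (d + k), fun a k hk => h.inj a (d + k) (by omega),
    fun k hk => h.gen (d + k) (by omega)⟩

theorem Reg.retract {A' : ℕ → AddSubgroup M'} (h : Reg x rk r A') (i : M →ₗ[S] M')
    (p : M' →ₗ[S] M) (hA : ∀ a k, ∀ m ∈ A k, x a • m ∈ A (k + 1))
    (hi : ∀ k, ∀ m ∈ A k, i m ∈ A' k) (hp : ∀ k, ∀ m ∈ A' k, p m ∈ A k)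
    (hpi : ∀ k, ∀ m ∈ A k, p (i m) = m) : Reg x rk r A := by
  refine ⟨hA, fun a k hk m hm h1 => ?_, fun k hk m hm => ?_⟩
  · have h2 := h1.map i (hi _)
    rw [map_smul] at h2
    exact hpi _ m hm ▸ (h.inj a k hk _ (hi _ m hm) h2).map p (hp _)
  · obtain ⟨s, hs⟩ := h.gen k hk _ (hi _ m hm)
    exact ⟨s, hpi _ m hm ▸ hs.map p (hp _)⟩

theorem inN_pi {ι : Type} {m : ι → M} :
    InN x rk (fun k => AddSubgroup.pi Set.univ fun _ : ι => A k) s k m ↔
      ∀ i, InN x rk A s k (m i) := by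
  constructor
  · rintro ⟨b, b1, b2, rfl⟩ i
    exact ⟨fun a => b a i, fun a => b1 a i trivial, fun a ha => by simp [b2 a ha], by simp⟩
  · intro h
    choose b b1 b2 b3 using h
    exact ⟨fun a i => b i a, fun a i _ => b1 i a, fun a ha => funext fun i => b2 i a ha,
      funext fun i => by simp [b3 i]⟩

theorem Reg.pi (h : Reg x rk r A) (ι : Type) [Fintype ι] :
    Reg x rk r fun k => AddSubgroup.pi Set.univ fun _ : ι => A k := by
  refine ⟨fun a k m hm i _ => h.gs a k _ (hm i trivial), fun a k hk m hm h1 =>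
    inN_pi.2 fun i => h.inj a k hk _ (hm i trivial) (inN_pi.1 h1 i), fun k hk m hm => ?_⟩
  choose s hs using fun i => h.gen k hk _ (hm i trivial)
  exact ⟨Finset.univ.sup s, inN_pi.2 fun i => (hs i).mono (Finset.le_sup (Finset.mem_univ i))⟩

/-- The kernel lemma. -/
theorem Reg.ker (hrk : Function.Injective rk) {B : ℕ → AddSubgroup M} {C : ℕ → AddSubgroup M'}
    {ρ : ℕ} (ψ : M →ₗ[S] M') (hψ : ∀ k, ∀ m ∈ B k, ψ m ∈ C k)
    (hs : ∀ k, ρ ≤ k → ∀ c ∈ C k, ∃ b ∈ B k, ψ b = c) (hB : Reg x rk (ρ + 1) B)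
    (hC : Reg x rk ρ C) : Reg x rk (ρ + 1) fun k => B k ⊓ ψ.toAddMonoidHom.ker := by
  set A : ℕ → AddSubgroup M := fun k => B k ⊓ ψ.toAddMonoidHom.ker with hA
  have mA : ∀ k m, m ∈ A k ↔ m ∈ B k ∧ ψ m = 0 := fun k m => Iff.rfl
  have gA : ∀ a k, ∀ m ∈ A k, x a • m ∈ A (k + 1) := fun a k m hm =>
    (mA _ _).2 ⟨hB.gs a k m hm.1, by rw [map_smul, ((mA _ _).1 hm).2, smul_zero]⟩
  have E : ∀ s k, ρ ≤ k → ∀ b ∈ B (k + 1), InN x rk C s k (ψ b) →
      ∃ a ∈ A (k + 1), InN x rk B s k (b - a) := by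
    rintro s k hk b hb ⟨c, c1, c2, c3⟩
    have : ∀ a, ∃ b' ∈ B k, ψ b' = c a ∧ (s ≤ rk a → b' = 0) := fun a => by
      by_cases h : s ≤ rk a
      · exact ⟨0, zero_mem _, by simp [c2 a h], fun _ => rfl⟩
      · obtain ⟨b', h1, h2⟩ := hs k hk _ (c1 a)
        exact ⟨b', h1, h2, fun h' => absurd h' h⟩
    choose b' b1 b2 b3 using this
    refine ⟨b - ∑ a, x a • b' a, (mA _ _).2 ⟨sub_mem hb (sum_mem fun a _ => hB.gs a k _ (b1 a)),
      by simp [b2, c3]⟩, b', b1, b3, by simp⟩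
  have I : ∀ s k, ρ + 1 ≤ k → ∀ a ∈ A (k + 1), InN x rk B s k a → InN x rk A s k a := by
    intro s
    induction s with
    | zero => exact fun k _ a _ h => h.eq_zero ▸ InN.zero
    | succ s ih =>
      intro k hk a ha h
      rcases h.succ hrk with h | ⟨c, b, hb, hc, h⟩
      · exact (ih k hk a ha h).mono (Nat.le_succ s)
      obtain ⟨k, rfl⟩ : ∃ k', k = k' + 1 := ⟨k - 1, by omega⟩
      have h1 := (h.map ψ (hψ _)).neg
      rw [map_sub, ((mA _ _).1 ha).2, map_smul, zero_sub, neg_neg, ← hc] at h1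
      obtain ⟨a', ha', h2⟩ := E _ k (by omega) b hb (hC.inj c k (by omega) _ (hψ _ b hb) h1)
      have h3 := h.add (hc ▸ h2.smul hB.gs c)
      rw [smul_sub, sub_add_sub_cancel] at h3
      have h4 := ((ih _ hk _ (sub_mem ha (gA c _ _ ha')) h3).mono (Nat.le_succ s)).add
        (InN.single (a := c) (by omega) ha')
      rwa [sub_add_cancel] at h4
  refine ⟨gA, fun a k hk m hm h => I _ k hk m hm (hB.inj a k hk m hm.1 ?_), fun k hk m hm => ?_⟩
  · exact InN.map (A := A) LinearMap.id (fun _ h => ((mA _ _).1 h).1) h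
  · obtain ⟨s, h⟩ := hB.gen k hk m hm.1
    exact ⟨s, I s k hk m hm h⟩

end BaseAux

end Pool.Agent.Lib.MP_45f16c_ag
end

-- part Pool.Agent.Lib.MP_45f16c_ag.Base
section

/-! Koszul vanishing for a family spanning all forms of a given degree. -/

set_option autoImplicit false
open MvPolynomial

namespace Pool.Agent.Lib.MP_45f16c_ag

namespace BaseAux

noncomputable section

variable {ν : ℕ} {rk : Fin ν → ℕ}

/-- The variables. -/
abbrev XX (ν : ℕ) : Fin ν → MvPolynomial (Fin ν) ℂ := X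

/-- Forms of degree `k`. -/
def Hs (ν k : ℕ) : AddSubgroup (MvPolynomial (Fin ν) ℂ) :=
  (homogeneousSubmodule (Fin ν) ℂ k).toAddSubgroup

theorem mem_Hs {k : ℕ} {P : MvPolynomial (Fin ν) ℂ} : P ∈ Hs ν k ↔ P.IsHomogeneous k := Iff.rfl

theorem inN_Hs {s k : ℕ} {P : MvPolynomial (Fin ν) ℂ} (hP : P.IsHomogeneous (k + 1))
    (h : ∀ m ∈ P.support, ∃ a, rk a < s ∧ m a ≠ 0) : InN (XX ν) rk (Hs ν) s k P := by
  rw [P.as_sum]
  refine InN.sum _ fun m hm => ?_
  obtain ⟨a, ha, h0⟩ := h m hm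
  have e : m = Finsupp.single a 1 + (m - Finsupp.single a 1) :=
    (add_tsub_cancel_of_le (Finsupp.single_le_iff.2 (by omega))).symm
  have hd : m.degree = k + 1 := by
    by_contra hne
    exact mem_support_iff.1 hm (hP.coeff_eq_zero hne)
  have e2 : monomial m (coeff m P) =
      (X a : MvPolynomial (Fin ν) ℂ) • monomial (m - Finsupp.single a 1) (coeff m P) := by
    rw [smul_eq_mul, X, monomial_mul, one_mul, ← e]
  rw [e2]
  refine InN.single ha (isHomogeneous_monomial _ ?_)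
  rw [e, map_add, Finsupp.degree_single] at hd
  omega

theorem of_inN_Hs {s k : ℕ} {P : MvPolynomial (Fin ν) ℂ} (h : InN (XX ν) rk (Hs ν) s k P) :
    ∀ m ∈ P.support, ∃ a, rk a < s ∧ m a ≠ 0 := by
  classical
  obtain ⟨b, _, b2, rfl⟩ := h
  intro m hm
  by_contra hc
  push Not at hc
  refine mem_support_iff.1 hm ?_
  rw [coeff_sum]
  refine Finset.sum_eq_zero fun a _ => ?_
  by_cases ha : rk a < s
  · rw [smul_eq_mul, coeff_X_mul', if_neg (by simp [hc a ha])]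
  · simp [b2 a (not_lt.1 ha)]

theorem reg_Hs (rk : Fin ν → ℕ) : Reg (XX ν) rk 0 (Hs ν) := by
  classical
  refine ⟨fun a k P hP => ?_, fun a k _ P hP h => inN_Hs hP fun m hm => ?_,
    fun k _ P hP => ⟨Finset.univ.sup rk + 1, inN_Hs hP fun m hm => ?_⟩⟩
  · rw [mem_Hs, add_comm]; exact (isHomogeneous_X ℂ a).mul hP
  · obtain ⟨c, c1, c2⟩ := of_inN_Hs h (Finsupp.single a 1 + m) (by
      rw [mem_support_iff, smul_eq_mul, coeff_X_mul]; exact mem_support_iff.1 hm)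
    refine ⟨c, c1, ?_⟩
    rwa [Finsupp.add_apply, Finsupp.single_eq_of_ne (by rintro rfl; omega), zero_add] at c2
  · have hd : m.degree = k + 1 := by
      by_contra hne
      exact mem_support_iff.1 hm ((mem_Hs.1 hP).coeff_eq_zero hne)
    by_contra hc
    push Not at hc
    have : m = 0 := Finsupp.ext fun a =>
      hc a (Nat.lt_succ_of_le (Finset.le_sup (f := rk) (Finset.mem_univ a)))
    simp [this] at hd

/-- Forms of degree `k` vanishing at `p`. -/
def Mp (p : Fin ν → ℂ) (k : ℕ) : AddSubgroup (MvPolynomial (Fin ν) ℂ) :=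
  Hs ν k ⊓ (RingHom.ker (eval p)).mkQ.toAddMonoidHom.ker

theorem mem_Mp {p : Fin ν → ℂ} {k : ℕ} {P : MvPolynomial (Fin ν) ℂ} :
    P ∈ Mp p k ↔ P.IsHomogeneous k ∧ eval p P = 0 := by
  simp [Mp, mem_Hs, Ideal.Quotient.eq_zero_iff_mem]

theorem reg_Mp (hrk : Function.Injective rk) {p : Fin ν → ℂ} {a₀ : Fin ν} (h0 : rk a₀ = 0)
    (hp : p a₀ ≠ 0) : Reg (XX ν) rk 1 (Mp p) := by
  set I := RingHom.ker (eval p : MvPolynomial (Fin ν) ℂ →+* ℂ) with hI
  have hq : ∀ P Q, I.mkQ P = I.mkQ Q ↔ eval p P = eval p Q := fun P Q => by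
    simp only [Submodule.mkQ_apply]
    rw [Submodule.Quotient.eq, hI, RingHom.mem_ker, map_sub, sub_eq_zero]
  have key : ∀ s k, 0 < s → ∀ m : MvPolynomial (Fin ν) ℂ ⧸ I,
      InN (XX ν) rk (fun _ => ⊤) s k m := fun s k hs m => by
    obtain ⟨P, rfl⟩ := I.mkQ_surjective m
    have : I.mkQ P = (X a₀ : MvPolynomial (Fin ν) ℂ) • I.mkQ (C (p a₀)⁻¹ * P) := by
      rw [← map_smul, hq]; simp [hp]
    rw [this]
    exact InN.single (by omega) trivial
  refine Reg.ker hrk (ρ := 0) (C := fun _ => ⊤) I.mkQ (fun _ _ _ => trivial) (fun k _ c _ => ?_)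
    ((reg_Hs rk).mono (by omega)) ⟨fun _ _ _ _ => trivial, fun a k _ m _ h => ?_,
      fun k _ m _ => ⟨1, key 1 k one_pos m⟩⟩
  · obtain ⟨P, rfl⟩ := I.mkQ_surjective c
    refine ⟨C (eval p P * (p a₀)⁻¹ ^ k) * X a₀ ^ k, isHomogeneous_C_mul_X_pow _ _ _, ?_⟩
    rw [hq]; simp [hp, mul_assoc]
  · rcases Nat.eq_zero_or_pos (rk a) with h1 | h1
    · obtain rfl : a = a₀ := hrk (h1.trans h0.symm)
      rw [h0] at h ⊢
      obtain ⟨P, rfl⟩ := I.mkQ_surjective m
      have h2 := h.eq_zero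
      rw [← map_smul, ← map_zero I.mkQ, hq] at h2
      rw [(hq P 0).2 (by simpa [hp] using h2), map_zero]
      exact InN.zero
    · exact key _ k h1 m

variable {ι : Type} [Fintype ι] [DecidableEq ι]

omit [Fintype ι] [DecidableEq ι] in
theorem inCh_iff {p : Fin ν → ℂ} {k r : ℕ} {ω : Finset ι → MvPolynomial (Fin ν) ℂ} :
    InCh p k r ω ↔ Hq r ω ∧ ∀ s, ω s ∈ Mp p k := by simp only [InCh, mem_Mp]

theorem Mp_mul {p : Fin ν → ℂ} {k e : ℕ} {P Q : MvPolynomial (Fin ν) ℂ} (hP : P.IsHomogeneous e)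
    (hQ : Q ∈ Mp p k) : P * Q ∈ Mp p (e + k) :=
  mem_Mp.2 ⟨hP.mul (mem_Mp.1 hQ).1, by simp [(mem_Mp.1 hQ).2]⟩

omit [DecidableEq ι] in
theorem Mp_sg {p : Fin ν → ℂ} {k : ℕ} {Q : MvPolynomial (Fin ν) ℂ} (s : Finset ι) (i : ι)
    (hQ : Q ∈ Mp p k) : sg (MvPolynomial (Fin ν) ℂ) s i * Q ∈ Mp p k := by
  rcases neg_one_pow_eq_or (MvPolynomial (Fin ν) ℂ)
    (s.filter fun a => Fintype.equivFin ι a < Fintype.equivFin ι i).card with h | h <;>
    simp [sg, h, hQ]

/-- Koszul cycles. -/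
def Z (p : Fin ν → ℂ) (g : ι → MvPolynomial (Fin ν) ℂ) (r k : ℕ) :
    AddSubgroup (Finset ι → MvPolynomial (Fin ν) ℂ) where
  carrier := {ω | Hq r ω ∧ (∀ s, ω s ∈ Mp p k) ∧ kos g ω = 0}
  add_mem' := fun ⟨a1, a2, a3⟩ ⟨b1, b2, b3⟩ =>
    ⟨a1.add b1, fun s => add_mem (a2 s) (b2 s), by rw [map_add, a3, b3, add_zero]⟩
  zero_mem' := ⟨Hq.zero r, fun _ => zero_mem _, map_zero _⟩
  neg_mem' := fun ⟨a1, a2, a3⟩ => ⟨a1.neg, fun s => neg_mem (a2 s), by rw [map_neg, a3, neg_zero]⟩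

variable {p : Fin ν → ℂ} {g : ι → MvPolynomial (Fin ν) ℂ} {r k d : ℕ}

theorem Z_smul {e : ℕ} {P : MvPolynomial (Fin ν) ℂ} (hP : P.IsHomogeneous e)
    {ω : Finset ι → MvPolynomial (Fin ν) ℂ} (h : ω ∈ Z p g r k) : P • ω ∈ Z p g r (e + k) :=
  ⟨h.1.smul P, fun s => Mp_mul hP (h.2.1 s), by rw [map_smul, h.2.2, smul_zero]⟩

theorem Z_C (a : ℂ) {ω : Finset ι → MvPolynomial (Fin ν) ℂ} (h : ω ∈ Z p g r k) :
    (C a : MvPolynomial (Fin ν) ℂ) • ω ∈ Z p g r k := by
  simpa using Z_smul (isHomogeneous_C _ a) h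

theorem Z_X (a : Fin ν) (k : ℕ) (ω : Finset ι → MvPolynomial (Fin ν) ℂ) (h : ω ∈ Z p g r k) :
    (X a : MvPolynomial (Fin ν) ℂ) • ω ∈ Z p g r (k + 1) := by
  rw [add_comm]; exact Z_smul (isHomogeneous_X ℂ a) h

theorem cre_mem {ω : Finset ι → MvPolynomial (Fin ν) ℂ} (h : ∀ s, ω s ∈ Mp p k) (i : ι)
    (s : Finset ι) : cre _ i ω s ∈ Mp p k := by
  rw [cre_apply]; split_ifs
  exacts [Mp_sg _ _ (h _), zero_mem _]

theorem ann_mem {ω : Finset ι → MvPolynomial (Fin ν) ℂ} (h : ∀ s, ω s ∈ Mp p k) (i : ι)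
    (s : Finset ι) : ann _ i ω s ∈ Mp p k := by
  rw [ann_apply]; split_ifs
  exacts [zero_mem _, Mp_sg _ _ (h _)]

theorem Z_gen (hR : Reg (XX ν) rk (r + 1) (Z p g r))
    (hg : ∀ P : MvPolynomial (Fin ν) ℂ, P.IsHomogeneous d → P ∈ Submodule.span ℂ (Set.range g))
    (hk : r + 1 ≤ k) {ω : Finset ι → MvPolynomial (Fin ν) ℂ} (h : ω ∈ Z p g r (d + k)) :
    ∃ z : ι → Finset ι → MvPolynomial (Fin ν) ℂ, (∀ i, z i ∈ Z p g r k) ∧ ∑ i, g i • z i = ω := by
  have h1 : ∀ e, ∀ ω ∈ Z p g r (k + e), ω ∈ AddSubgroup.closure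
      {ω | ∃ P : MvPolynomial (Fin ν) ℂ, P.IsHomogeneous e ∧ ∃ b ∈ Z p g r k, ω = P • b} := by
    intro e
    induction e with
    | zero => exact fun ω h => AddSubgroup.subset_closure ⟨1, isHomogeneous_one _ _, ω, h, by simp⟩
    | succ e ih =>
      intro ω h
      obtain ⟨s, b, b1, _, rfl⟩ := hR.gen (k + e) (by omega) ω h
      refine sum_mem fun a _ => ?_
      refine AddSubgroup.closure_induction (p := fun ω _ => (X a : MvPolynomial (Fin ν) ℂ) • ω ∈ _)
        ?_ (by simp) (fun _ _ _ _ h1 h2 => by rw [smul_add]; exact add_mem h1 h2)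
        (fun _ _ h1 => by rw [smul_neg]; exact neg_mem h1) (ih _ (b1 a))
      rintro _ ⟨P, hP, c, hc, rfl⟩
      exact AddSubgroup.subset_closure ⟨X a * P,
        by rw [add_comm]; exact (isHomogeneous_X ℂ a).mul hP, c, hc, (mul_smul _ _ _).symm⟩
  refine AddSubgroup.closure_induction (p := fun ω _ => ∃ z : ι → Finset ι → _,
    (∀ i, z i ∈ Z p g r k) ∧ ∑ i, g i • z i = ω) ?_ ⟨0, fun _ => zero_mem _, by simp⟩ ?_ ?_
    (h1 d ω (by rwa [add_comm]))
  · rintro _ ⟨P, hP, c, hc, rfl⟩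
    obtain ⟨a, rfl⟩ := (Submodule.mem_span_range_iff_exists_fun ℂ).1 (hg P hP)
    refine ⟨fun i => (C (a i) : MvPolynomial (Fin ν) ℂ) • c, fun i => Z_C _ hc, ?_⟩
    rw [Finset.sum_smul]
    exact Finset.sum_congr rfl fun i _ => by rw [smul_smul, smul_eq_C_mul, mul_comm]
  · rintro _ _ _ _ ⟨z, z1, rfl⟩ ⟨y, y1, rfl⟩
    exact ⟨z + y, fun i => add_mem (z1 i) (y1 i), by simp [Finset.sum_add_distrib]⟩
  · rintro _ _ ⟨z, z1, rfl⟩
    exact ⟨-z, fun i => neg_mem (z1 i), by simp⟩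

theorem kos_sum_cre {z : ι → Finset ι → MvPolynomial (Fin ν) ℂ} (hz : ∀ i, kos g (z i) = 0) :
    kos g (∑ i, cre _ i (z i)) = ∑ i, g i • z i := by
  simp [map_sum, kos_cre, hz]

theorem reg_Z (hrk : Function.Injective rk) (hM : Reg (XX ν) rk 1 (Mp p))
    (hd : ∀ i, (g i).IsHomogeneous d)
    (hg : ∀ P : MvPolynomial (Fin ν) ℂ, P.IsHomogeneous d → P ∈ Submodule.span ℂ (Set.range g))
    (r : ℕ) : Reg (XX ν) rk (r + 1) (Z p g r) := by
  induction r with
  | zero =>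
    refine hM.retract (LinearMap.proj ∅) (LinearMap.single _ (fun _ => _) ∅) Z_X
      (fun k ω h => h.2.1 ∅) (fun k P hP => ?_) fun k ω h => ?_
    · have h1 : Hq 0 (Pi.single ∅ P : Finset ι → MvPolynomial (Fin ν) ℂ) := fun s hs =>
        Pi.single_eq_of_ne (by rintro rfl; simp at hs) _
      refine ⟨h1, fun s => ?_, h1.kos_zero g⟩
      by_cases hs : s = ∅
      · subst hs; simpa using hP
      · simp [hs]
    · funext s
      by_cases hs : s = ∅
      · subst hs; simp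
      · simp [hs, h.1 s (by simpa using hs)]
  | succ r ih =>
    let ψ : (ι → Finset ι → MvPolynomial (Fin ν) ℂ) →ₗ[MvPolynomial (Fin ν) ℂ]
        (Finset ι → MvPolynomial (Fin ν) ℂ) := ∑ i, g i • LinearMap.proj i
    have hψ : ∀ z, ψ z = ∑ i, g i • z i := fun z => by simp [ψ, LinearMap.sum_apply]
    have hK := Reg.ker hrk ψ (fun k z hz => by
        rw [hψ]; exact sum_mem fun i _ => Z_smul (hd i) (hz i trivial))
      (fun k hk c hc => by
        obtain ⟨z, z1, z2⟩ := Z_gen ih hg hk hc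
        exact ⟨z, fun i _ => z1 i, by rw [hψ, z2]⟩)
      ((ih.mono (Nat.le_succ _)).pi ι) (ih.shift d)
    let π : (ι → Finset ι → MvPolynomial (Fin ν) ℂ) →ₗ[MvPolynomial (Fin ν) ℂ]
        (Finset ι → MvPolynomial (Fin ν) ℂ) :=
      (C ((r + 1 : ℕ) : ℂ)⁻¹ : MvPolynomial (Fin ν) ℂ) • ∑ i, cre _ i ∘ₗ LinearMap.proj i
    have hπ : ∀ z, π z = (C ((r + 1 : ℕ) : ℂ)⁻¹ : MvPolynomial (Fin ν) ℂ) • ∑ i, cre _ i (z i) :=
      fun z => by simp [π, LinearMap.sum_apply]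
    refine hK.retract (LinearMap.pi fun i => ann _ i) π Z_X (fun k ω h => ⟨fun i _ =>
      ⟨h.1.ann i, ann_mem h.2.1 i, ?_⟩, ?_⟩) (fun k z hz => ?_) fun k ω h => ?_
    · rw [LinearMap.pi_apply, kos_ann, h.2.2, map_zero, neg_zero]
    · change ψ _ = 0
      rw [hψ, ← h.2.2, kos_apply]; rfl
    · rw [hπ]
      refine Z_C _ ⟨Hq.sum _ fun i _ => (hz.1 i trivial).1.cre i, fun s => ?_, ?_⟩
      · rw [Finset.sum_apply]
        exact sum_mem fun i _ => cre_mem (hz.1 i trivial).2.1 i s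
      · rw [kos_sum_cre fun i => (hz.1 i trivial).2.2, ← hψ]; exact hz.2
    · rw [hπ]
      simp only [LinearMap.pi_apply]
      rw [h.1.number, smul_smul, ← map_natCast (C : ℂ →+* MvPolynomial (Fin ν) ℂ), ← map_mul,
        inv_mul_cancel₀ (Nat.cast_ne_zero.2 (Nat.succ_ne_zero r)), map_one, one_smul]

end

end BaseAux

open BaseAux in
theorem base : BaseStmt := by
  intro ν d ι _ _ g p hp _ hd hg r k hk ω hω h0
  obtain ⟨a₀, ha⟩ := Function.ne_iff.1 hp
  let rk : Fin ν → ℕ := fun a => if a = a₀ then 0 else a + 1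
  have hrk : Function.Injective rk := fun a b h => by
    simp only [rk] at h
    split_ifs at h with h1 h2 h2
    · rw [h1, h2]
    · exact Fin.ext (by omega)
  have hR := reg_Z hrk (reg_Mp hrk (a₀ := a₀) (by simp [rk]) ha) hd hg r
  obtain ⟨z, z1, z2⟩ := Z_gen hR hg hk (ω := ω)
    ⟨hω.1, by rw [add_comm]; exact (inCh_iff.1 hω).2, h0⟩
  refine ⟨∑ i, cre _ i (z i), inCh_iff.2 ⟨Hq.sum _ fun i _ => (z1 i).1.cre i, fun s => ?_⟩,
    by rw [kos_sum_cre fun i => (z1 i).2.2, z2]⟩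
  rw [Finset.sum_apply]
  exact sum_mem fun i _ => cre_mem (z1 i).2.1 i s

end Pool.Agent.Lib.MP_45f16c_ag
end

-- part Pool.Agent.Lib.MP_45f16c_ag.Final
section

/-! Assembly of the final theorem from the module statements. -/

set_option autoImplicit false
open Metric MeasureTheory MvPolynomial Filter Topology

namespace Pool.Agent.Lib.MP_45f16c_ag

namespace FinalAux

theorem num (A : ℝ) (hA : 0 < A) : ∃ K : ℝ, ∀ n d : ℕ, 2 ≤ n → K * n * Real.log n ≤ d →
    A * ((n + 2 : ℕ) : ℝ) * Real.log (2 * d + 3) ≤ d ∧ 1 ≤ d := by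
  have l2 : (1 : ℝ) / 2 < Real.log 2 := by have := Real.log_two_gt_d9; linarith
  refine ⟨4 * A * (2 * |Real.log (20 * A)| + 1) + 1, fun n d hn h => ?_⟩
  have hn' : (2 : ℝ) ≤ n := by exact_mod_cast hn
  have hl : Real.log 2 ≤ Real.log n := Real.log_le_log (by norm_num) hn'
  have hb := abs_nonneg (Real.log (20 * A))
  have hnl : 1 < n * Real.log n := by nlinarith
  have h1 : 0 ≤ 4 * A * (2 * |Real.log (20 * A)| + 1) * (n * Real.log n) := by positivity
  have hd : (1 : ℝ) ≤ d := by nlinarith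
  refine ⟨?_, by exact_mod_cast hd⟩
  push_cast
  have hν : (0 : ℝ) < n + 2 := by linarith
  have ha : 0 < 10 * A * (n + 2) := by positivity
  have h2 : Real.log (2 * d + 3) ≤ Real.log (10 * A * (n + 2)) + 5 * d / (10 * A * (n + 2)) := by
    have := Real.log_le_sub_one_of_pos (x := (2 * d + 3) / (10 * A * (n + 2))) (by positivity)
    rw [Real.log_div (by positivity) ha.ne'] at this
    have h3 : (2 * d + 3) / (10 * A * (n + 2)) ≤ 5 * d / (10 * A * (n + 2)) := by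
      gcongr; linarith
    linarith
  have h4 : Real.log (10 * A * (n + 2)) ≤ (2 * |Real.log (20 * A)| + 1) * Real.log n := by
    have : Real.log (10 * A * (n + 2)) ≤ Real.log (20 * A * n) :=
      Real.log_le_log ha (by nlinarith)
    rw [Real.log_mul (x := 20 * A) (by positivity) (by positivity)] at this
    have h5 := le_abs_self (Real.log (20 * A))
    nlinarith
  have h6 : A * (n + 2) * (5 * d / (10 * A * (n + 2))) = d / 2 := by field_simp; ring
  have h7 : A * (n + 2) * Real.log (10 * A * (n + 2)) ≤ d / 2 := by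
    have h8 : A * (n + 2) * Real.log (10 * A * (n + 2)) ≤
        A * (n + 2) * ((2 * |Real.log (20 * A)| + 1) * Real.log n) := by gcongr
    have h9 : A * (n + 2) * ((2 * |Real.log (20 * A)| + 1) * Real.log n) ≤
        A * (2 * n) * ((2 * |Real.log (20 * A)| + 1) * Real.log n) := by
      have : 0 ≤ Real.log n := by linarith
      gcongr; linarith
    nlinarith
  have h10 := mul_le_mul_of_nonneg_left h2 (by positivity : 0 ≤ A * (n + 2))
  rw [mul_add (A * (n + 2)), h6] at h10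
  linarith

theorem tends (Nc : ℕ) {θ : ℝ} (hθ : 0 < θ) :
    Tendsto (fun τ : ℕ => (Nc : ℝ) * Real.exp (-(τ : ℝ)) + (τ + 1) * Real.exp (-(θ * τ / 4)))
      atTop (𝓝 0) := by
  have h1 : Tendsto (fun τ : ℕ => Real.exp (-(τ : ℝ))) atTop (𝓝 0) :=
    Real.tendsto_exp_neg_atTop_nhds_zero.comp tendsto_natCast_atTop_atTop
  have h2 : Tendsto (fun τ : ℕ => θ * τ / 4) atTop atTop :=
    (tendsto_natCast_atTop_atTop.const_mul_atTop hθ).atTop_div_const (by norm_num)
  have h3 := (Real.tendsto_pow_mul_exp_neg_atTop_nhds_zero 1).comp h2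
  have h4 := Real.tendsto_exp_neg_atTop_nhds_zero.comp h2
  have h5 := (h1.const_mul (Nc : ℝ)).add ((h3.const_mul (4 / θ)).add h4)
  simp only [mul_zero, add_zero] at h5
  refine h5.congr fun τ => ?_
  simp only [Function.comp, pow_one]
  field_simp

theorem null (hFast : FastStmt) (hSlow : SlowStmt) {K : ℝ} (hK : 1 ≤ K)
    (hSel : ∀ ρs θ : ℝ, 2 ≤ ρs → 0 < θ → ∃ σ : ℝ, 0 < σ ∧ σ ≤ 1 ∧
      ∀ (ν : ℕ) (f : ℂ → Fin ν → ℂ), Ent f → NonConst f → ∀ τ : ℕ, 2 ≤ θ * τ →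
        ∃ g : ℂ → Fin ν → ℂ, (∀ ζ, ∃ (l w : ℂ), g ζ = l • f w) ∧
          ((Disc (2 * (8 * Real.exp 2) + 2) K τ g ∧
            ∀ z ∈ ball (0 : ℂ) ((2 * (8 * Real.exp 2) + 2) / 2), Tch g z σ ≤ θ * τ) ∨
            ∃ T : ℕ, θ * τ / 4 ≤ T ∧ T ≤ τ ∧ Disc ρs K T g))
    {ν d : ℕ} (hd : 1 ≤ d) {η : ℝ}
    (hCore : ∀ (g ρ : ℝ) (N : ℕ), 0 < g → g ≤ 3 * K → 8 * Real.exp (1 + d * g) ≤ ρ →
      ∃ T₀ : ℝ, ∀ T : ℝ, T₀ ≤ T → ∀ cl : Cls N, cl.Valid ρ (Real.exp (g * T)) →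
        volume {c | c ∈ Usm ν d η ∧ ∃ f : ℂ → Fin ν → ℂ, Disc ρ K T f ∧ OnX c ρ f ∧
          cl.Mem ρ (Real.exp (g * T)) f} ≤ ENNReal.ofReal (Real.exp (-T))) :
    volume {c | c ∈ Usm ν d η ∧ ¬IsBrody (form c)} = 0 := by
  have hd' : (1 : ℝ) ≤ d := by exact_mod_cast hd
  set ρ := 8 * Real.exp 2 with hρ
  have hρ3 : 3 ≤ ρ := by have := Real.add_one_le_exp 2; linarith
  set ρ' := 8 * Real.exp (1 + d * (2 * K + 1)) with hρ'
  have hρ'2 : 2 ≤ ρ' := by
    have := Real.one_le_exp (x := 1 + d * (2 * K + 1)) (by positivity); linarith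
  obtain ⟨θ, hθ, hF⟩ := hFast ν ρ K (1 / d) hρ3 hK (by positivity)
  obtain ⟨σ, hσ, hσ1, hS⟩ := hSel (2 * ρ') θ (by linarith) hθ
  obtain ⟨N, Nc, T₁, hF⟩ := hF σ hσ hσ1
  obtain ⟨T₂, h2⟩ := hCore (1 / d) ρ N (by positivity)
    (((div_le_one (by linarith)).2 hd').trans (by linarith)) (by
      rw [mul_one_div_cancel (by linarith)]; norm_num [hρ])
  obtain ⟨T₃, h3⟩ := hCore (2 * K + 1) ρ' 1 (by linarith) (by linarith) le_rfl
  obtain ⟨cs, hcs⟩ := hSlow
  have key : ∀ᶠ τ : ℕ in atTop, volume {c | c ∈ Usm ν d η ∧ ¬IsBrody (form c)} ≤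
      ENNReal.ofReal ((Nc : ℝ) * Real.exp (-(τ : ℝ)) + (τ + 1) * Real.exp (-(θ * τ / 4))) := by
    have e1 := tendsto_natCast_atTop_atTop (R := ℝ)
    have e2 : Tendsto (fun τ : ℕ => θ * τ / 4) atTop atTop :=
      (e1.const_mul_atTop hθ).atTop_div_const (by norm_num)
    filter_upwards [e1.eventually_ge_atTop T₁, e1.eventually_ge_atTop T₂,
      e2.eventually_ge_atTop T₃, e2.eventually_ge_atTop 1] with τ a1 a2 a3 a4
    obtain ⟨cl, hv, hm⟩ := hF τ a1
    let S₁ : Fin Nc → Set (Mon ν d → ℂ) := fun n => {c | c ∈ Usm ν d η ∧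
      ∃ f : ℂ → Fin ν → ℂ, Disc ρ K τ f ∧ OnX c ρ f ∧ (cl n).Mem ρ (Real.exp (1 / d * τ)) f}
    let S₂ : ℕ → Set (Mon ν d → ℂ) := fun T => {c | θ * τ / 4 ≤ T ∧ c ∈ Usm ν d η ∧
      ∃ f : ℂ → Fin ν → ℂ, Disc ρ' K T f ∧ OnX c ρ' f ∧ cs.Mem ρ' (Real.exp ((2 * K + 1) * T)) f}
    have hsub : {c | c ∈ Usm ν d η ∧ ¬IsBrody (form c)} ⊆
        (⋃ n ∈ Finset.univ, S₁ n) ∪ ⋃ T ∈ Finset.range (τ + 1), S₂ T := by
      rintro c ⟨hc, hb⟩
      simp only [IsBrody, not_forall] at hb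
      obtain ⟨f, f1, f2, f3, z, w, i, j, f4⟩ := hb
      have hE : Ent fun z i => f i z := ⟨differentiable_pi.2 f1, fun z h => by
        obtain ⟨i, hi⟩ := f2 z
        exact hi (congrFun h i)⟩
      obtain ⟨g, g1, g2⟩ := hS ν _ hE ⟨z, w, i, j, f4⟩ τ (by linarith)
      have hX : ∀ r, OnX c r g := fun r ζ _ => by
        obtain ⟨l, w, e⟩ := g1 ζ
        rw [e, eval_form_smul, f3, mul_zero]
      rcases g2 with ⟨g2, g3⟩ | ⟨T, t1, t2, g2⟩
      · obtain ⟨n, hn⟩ := hm g g2 (by rwa [show ρ + 1 = (2 * ρ + 2) / 2 by ring])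
        exact Or.inl (Set.mem_iUnion₂.2 ⟨n, Finset.mem_univ _, hc, g, g2.mono (by linarith),
          hX _, hn⟩)
      · exact Or.inr (Set.mem_iUnion₂.2 ⟨T, Finset.mem_range.2 (by omega), t1, hc, g,
          g2.mono (by linarith), hX _, (hcs ν ρ' K T hρ'2 hK (by positivity)).2 g g2⟩)
    have b1 : ∀ n, volume (S₁ n) ≤ ENNReal.ofReal (Real.exp (-(τ : ℝ))) := fun n =>
      h2 τ a2 (cl n) (hv n)
    have b2 : ∀ T, volume (S₂ T) ≤ ENNReal.ofReal (Real.exp (-(θ * τ / 4))) := fun T => by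
      by_cases hT : θ * τ / 4 ≤ T
      · refine (measure_mono fun c hc => hc.2).trans ((h3 T (a3.trans hT) cs
          (hcs ν ρ' K T hρ'2 hK (by positivity)).1).trans ?_)
        exact ENNReal.ofReal_le_ofReal (Real.exp_le_exp.2 (by linarith))
      · have : S₂ T = ∅ := Set.eq_empty_of_forall_notMem fun c hc => hT hc.1
        simp [this]
    refine (measure_mono hsub).trans ((measure_union_le _ _).trans ?_)
    rw [ENNReal.ofReal_add (by positivity) (by positivity)]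
    refine add_le_add ((measure_biUnion_finset_le _ _).trans ?_)
      ((measure_biUnion_finset_le _ _).trans ?_)
    · refine (Finset.sum_le_card_nsmul _ _ _ fun n _ => b1 n).trans (le_of_eq ?_)
      rw [ENNReal.ofReal_mul (by positivity)]; simp
    · refine (Finset.sum_le_card_nsmul _ _ _ fun n _ => b2 n).trans (le_of_eq ?_)
      rw [ENNReal.ofReal_mul (by positivity), ← Nat.cast_add_one, ENNReal.ofReal_natCast]; simp
  have := ENNReal.tendsto_ofReal (tends Nc hθ)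
  rw [ENNReal.ofReal_zero] at this
  exact le_antisymm (ge_of_tendsto this key) zero_le

theorem grad_ne_of_smooth {ν d : ℕ} (hd : 1 ≤ d) {c : Mon ν d → ℂ} (hc : IsSmooth (form c))
    {x : Fin ν → ℂ} (hx : x ≠ 0) : grad c x ≠ 0 := by
  intro h
  have h0 : ∀ a, eval x (pderiv a (form c)) = 0 := fun a => congrFun h a
  have h1 := congrArg (eval x) (form_isHomogeneous c).sum_X_mul_pderiv
  simp only [map_sum, map_mul, h0, mul_zero, Finset.sum_const_zero, nsmul_eq_mul,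
    map_natCast] at h1
  have h2 : eval x (form c) = 0 :=
    (mul_eq_zero.1 h1.symm).resolve_left (Nat.cast_ne_zero.2 (by omega))
  obtain ⟨i, hi⟩ := hc x hx h2
  exact hi (h0 i)

theorem cone {ν d : ℕ} (hd : 1 ≤ d) {c : Mon ν d → ℂ} (hc : IsSmooth (form c)) :
    ∃ k l : ℕ, (1 / (k + 1 : ℝ)) • c ∈ Usm ν d (1 / (l + 1 : ℝ)) := by
  obtain ⟨k, hk⟩ := exists_nat_ge ‖c‖
  have hk0 : (0 : ℝ) < k + 1 := by positivity
  obtain ⟨η, hη, h⟩ := (isCompact_sphere (0 : Fin ν → ℂ) 1).exists_forall_le'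
    (f := fun x => ‖grad c x‖) (continuous_grad continuous_id continuous_const).norm.continuousOn
    (a := 0) fun x hx => norm_pos_iff.2 (grad_ne_of_smooth hd hc (by
      rintro rfl; simp at hx))
  obtain ⟨l, hl⟩ := exists_nat_one_div_lt (div_pos hη hk0)
  refine ⟨k, l, ?_, fun x hx => hl.le.trans ?_⟩
  · rw [norm_smul, Real.norm_of_nonneg (by positivity), one_div_mul_eq_div, div_le_one hk0]
    linarith
  · rw [show (1 / (k + 1 : ℝ)) • c = ((1 / (k + 1 : ℝ) : ℝ) : ℂ) • c from rfl, grad_smul_left,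
      norm_smul, Complex.norm_real, Real.norm_of_nonneg (by positivity), one_div_mul_eq_div]
    gcongr
    exact h x (by simpa using hx)

theorem isBrody_smul {ν d : ℕ} {c : Mon ν d → ℂ} {r : ℝ} (h : IsBrody (form (r • c))) :
    IsBrody (form c) := fun f f1 f2 f3 => h f f1 f2 fun z => by
  rw [show r • c = (r : ℂ) • c from rfl, form_smul, smul_eval, f3, mul_zero]

end FinalAux

open FinalAux in
theorem final (hSel : SelStmt) (hFast : FastStmt) (hSlow : SlowStmt) (hCore : CoreStmt)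
    (hSm : SmoothStmt) : ∃ K : ℝ, ∀ n d : ℕ, 2 ≤ n → K * n * Real.log n ≤ d →
      ∀ᵐ c : Mon (n + 2) d → ℂ, IsSmooth (form c) ∧ IsBrody (form c) := by
  obtain ⟨K, hK, hS⟩ := hSel (2 * (8 * Real.exp 2) + 2) (by have := Real.exp_pos 2; linarith)
  obtain ⟨A, hA, hC⟩ := hCore K hK
  obtain ⟨K', hK'⟩ := num A hA
  refine ⟨K', fun n d hn h => ?_⟩
  obtain ⟨h1, hd⟩ := hK' n d hn h
  have h2 : ∀ᵐ c : Mon (n + 2) d → ℂ, ∀ k l : ℕ,
      ¬((1 / (k + 1 : ℝ)) • c ∈ Usm (n + 2) d (1 / (l + 1 : ℝ)) ∧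
        ¬IsBrody (form ((1 / (k + 1 : ℝ)) • c))) := by
    refine ae_all_iff.2 fun k => ae_all_iff.2 fun l => ?_
    have h3 := null hFast hSlow hK hS hd (η := 1 / (l + 1 : ℝ))
      fun g ρ N => hC (n + 2) d (by omega) h1 _ g ρ N (by positivity)
    have h4 := Measure.addHaar_preimage_smul (volume : Measure (Mon (n + 2) d → ℂ))
      (r := 1 / (k + 1 : ℝ)) (by positivity)
      {c | c ∈ Usm (n + 2) d (1 / (l + 1 : ℝ)) ∧ ¬IsBrody (form c)}
    rw [h3, mul_zero] at h4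
    exact measure_eq_zero_iff_ae_notMem.1 h4
  filter_upwards [h2, hSm (n + 2) d hd] with c c1 c2
  obtain ⟨k, l, h3⟩ := cone hd c2
  exact ⟨c2, isBrody_smul (not_not.1 fun h4 => c1 k l ⟨h3, h4⟩)⟩

end Pool.Agent.Lib.MP_45f16c_ag
end

-- part Pool.Agent.Lib.MP_45f16c_ag.Small
section

/-! Four small lemmas in one complex variable. -/

set_option autoImplicit false
open Metric Filter Topology
open scoped ComplexConjugate

namespace Pool.Agent.Lib.MP_45f16c_ag

namespace SmallAux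

theorem diff_iter {s : Set ℂ} {a : ℂ} (ha : s ∈ 𝓝 a) (n : ℕ) {φ : ℂ → ℂ}
    (h : DifferentiableOn ℂ φ s) : DifferentiableOn ℂ ((Function.swap dslope a)^[n] φ) s := by
  induction n generalizing φ with
  | zero => exact h
  | succ n ih =>
    rw [Function.iterate_succ_apply]
    exact ih ((Complex.differentiableOn_dslope ha).2 h)

/-- One zero is split off. -/
theorem split_one {φ : ℂ → ℂ} {c a : ℂ} {R : ℝ} (h : DifferentiableOn ℂ φ (ball c R))
    (hne : ∃ z ∈ ball c R, φ z ≠ 0) (ha : a ∈ ball c R) :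
    ∃ (n : ℕ) (g : ℂ → ℂ), DifferentiableOn ℂ g (ball c R) ∧ g a ≠ 0 ∧
      ∀ z, φ z = (z - a) ^ n * g z := by
  have han : AnalyticOnNhd ℂ φ (ball c R) := h.analyticOnNhd isOpen_ball
  obtain ⟨p, hp⟩ := han a ha
  have hp0 : p ≠ 0 := by
    rintro rfl
    obtain ⟨z, hz, hz0⟩ := hne
    exact hz0 (han.eqOn_zero_of_preconnected_of_eventuallyEq_zero (convex_ball c R).isPreconnected
      ha hp.eventually_eq_zero hz)
  exact ⟨p.order, _, diff_iter (isOpen_ball.mem_nhds ha) _ h, hp.iterate_dslope_fslope_ne_zero hp0,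
    fun z => hp.eq_pow_order_mul_iterate_dslope z⟩

theorem split_all {c : ℂ} {R R' : ℝ} (hR : R < R') (S : Finset ℂ) :
    ∀ φ : ℂ → ℂ, DifferentiableOn ℂ φ (ball c R') → (∃ z ∈ ball c R', φ z ≠ 0) →
      (∀ z ∈ S, z ∈ closedBall c R) → (∀ z ∈ closedBall c R, φ z = 0 → z ∈ S) →
      ∃ (l : List ℂ) (ψ : ℂ → ℂ), (∀ a ∈ l, a ∈ closedBall c R) ∧
        DifferentiableOn ℂ ψ (ball c R') ∧ (∀ z ∈ closedBall c R, ψ z ≠ 0) ∧
        ∀ z, φ z = (l.map fun a => z - a).prod * ψ z := by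
  classical
  induction S using Finset.induction_on with
  | empty =>
    intro φ h _ _ h0
    exact ⟨[], φ, by simp, h, fun z hz e => by simpa using h0 z hz e, by simp⟩
  | insert a S _ ih =>
    intro φ h hne hS h0
    have ha := hS a (Finset.mem_insert_self a S)
    have ha' : a ∈ ball c R' := closedBall_subset_ball hR ha
    obtain ⟨n, g, hg, hga, e⟩ := split_one h hne ha'
    obtain ⟨l, ψ, h1, h2, h3, h4⟩ := ih g hg ⟨a, ha', hga⟩
      (fun z hz => hS z (Finset.mem_insert_of_mem hz)) (fun z hz hz0 => by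
        rcases Finset.mem_insert.1 (h0 z hz (by rw [e, hz0, mul_zero])) with rfl | b
        · exact (hga hz0).elim
        · exact b)
    refine ⟨List.replicate n a ++ l, ψ, fun b hb => ?_, h2, h3, fun z => ?_⟩
    · rcases List.mem_append.1 hb with hb | hb
      · rw [List.eq_of_mem_replicate hb]
        exact ha
      · exact h1 b hb
    · rw [e, h4, List.map_append, List.prod_append, List.map_replicate, List.prod_replicate,
        mul_assoc]

/-- Orthogonality of the roots of unity. -/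
theorem geom_zero {M : ℕ} {ω : ℂ} (h1 : ω ≠ 1) (hM : ω ^ M = 1) :
    ∑ s ∈ Finset.range M, ω ^ s = 0 := by
  have := mul_geom_sum ω M
  rw [hM, sub_self] at this
  exact (mul_eq_zero.1 this).resolve_left (sub_ne_zero.2 h1)

theorem coeff_bound {M : ℕ} {ζ : ℂ} (hζ : IsPrimitiveRoot ζ M) (a : ℕ → ℂ) {A : ℝ}
    (hA : ∀ s < M, ‖∑ j ∈ Finset.range M, a j * (ζ ^ s) ^ j‖ ≤ A) {k : ℕ} (hk : k < M) :
    ‖a k‖ ≤ A := by
  have hM : M ≠ 0 := by omega
  have hz : ζ ≠ 0 := hζ.ne_zero hM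
  have hn : ‖ζ‖ = 1 := hζ.norm'_eq_one hM
  have key : ∑ s ∈ Finset.range M, (∑ j ∈ Finset.range M, a j * (ζ ^ s) ^ j) * ((ζ ^ k)⁻¹) ^ s =
      M * a k := by
    have e1 : ∀ s ∈ Finset.range M,
        (∑ j ∈ Finset.range M, a j * (ζ ^ s) ^ j) * ((ζ ^ k)⁻¹) ^ s =
          ∑ j ∈ Finset.range M, a j * (ζ ^ j * (ζ ^ k)⁻¹) ^ s := fun s _ => by
      rw [Finset.sum_mul]
      refine Finset.sum_congr rfl fun j _ => ?_
      rw [mul_pow, ← pow_mul, ← pow_mul, mul_comm s j, mul_assoc]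
    rw [Finset.sum_congr rfl e1, Finset.sum_comm, Finset.sum_eq_single k]
    · simp [mul_inv_cancel₀ (pow_ne_zero k hz)]
    · intro j hj hjk
      rw [← Finset.mul_sum, geom_zero, mul_zero]
      · intro e
        rw [mul_inv_eq_one₀ (pow_ne_zero k hz)] at e
        exact hjk (hζ.pow_inj (Finset.mem_range.1 hj) hk e)
      · rw [mul_pow, inv_pow, ← pow_mul, ← pow_mul, mul_comm j, mul_comm k, pow_mul, pow_mul,
          hζ.pow_eq_one, one_pow, one_pow, inv_one, mul_one]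
    · intro h
      exact (h (Finset.mem_range.2 hk)).elim
  have hb : ‖(M : ℂ) * a k‖ ≤ M * A := by
    rw [← key]
    refine (norm_sum_le_of_le _ (n := fun _ => A) fun s hs => ?_).trans (by simp)
    rw [norm_mul, norm_pow, norm_inv, norm_pow, hn, one_pow, inv_one, one_pow, mul_one]
    exact hA s (Finset.mem_range.1 hs)
  rw [norm_mul, Complex.norm_natCast] at hb
  exact le_of_mul_le_mul_left hb (by positivity)

end SmallAux

open SmallAux

theorem fact : FactStmt := by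
  intro φ c R R' hR h hne
  have han : AnalyticOnNhd ℂ φ (ball c R') := h.analyticOnNhd isOpen_ball
  have hfin : (closedBall c R \ {z | φ z ≠ 0}).Finite := by
    refine (isCompact_closedBall c R).finite_sdiff_of_mem_codiscreteWithin ?_
    rcases han.eqOn_zero_or_eventually_ne_zero_of_preconnected (convex_ball c R').isPreconnected
      with h0 | h0
    · obtain ⟨z, hz, hz0⟩ := hne
      exact (hz0 (h0 hz)).elim
    · exact codiscreteWithin_mono (closedBall_subset_ball hR) h0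
  obtain ⟨l, ψ, h1, h2, h3, h4⟩ := split_all hR hfin.toFinset φ h hne
    (fun z hz => (hfin.mem_toFinset.1 hz).1)
    (fun z hz e => hfin.mem_toFinset.2 ⟨hz, fun a => a e⟩)
  refine ⟨l.length, fun i => l[i.1], ψ, fun i => h1 _ (List.getElem_mem _), h2, h3, fun z _ => ?_⟩
  rw [h4, Fin.prod_univ_fun_getElem l fun a => z - a]

theorem trunc : TruncStmt := by
  intro m h R A hR hd hA
  have hR0 : 0 < R / 2 := by linarith
  let r : NNReal := ⟨R / 2, hR0.le⟩
  have hr : (r : ℝ) = R / 2 := rfl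
  have hA0 : 0 ≤ A := (norm_nonneg _).trans (hA 0 (mem_ball_self (by linarith)))
  have hsub : closedBall (0 : ℂ) r ⊆ ball 0 R := closedBall_subset_ball (by rw [hr]; linarith)
  have hp := (hd.mono hsub).hasFPowerSeriesOnBall (show 0 < r from hR0)
  set p := cauchyPowerSeries h 0 r with hpd
  have hc : ∀ n, ‖p.coeff n‖ ≤ A * (2 / R) ^ n := fun n => by
    rw [← FormalMultilinearSeries.norm_apply_eq_norm_coef]
    refine (norm_cauchyPowerSeries_le h 0 r n).trans ?_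
    have e : |(r : ℝ)|⁻¹ = 2 / R := by rw [hr, abs_of_pos hR0, inv_div]
    rw [e]
    refine mul_le_mul_of_nonneg_right ?_ (by positivity)
    have b : ‖∫ θ : ℝ in 0..2 * Real.pi, ‖h (circleMap 0 r θ)‖‖ ≤ A * |2 * Real.pi - 0| :=
      intervalIntegral.norm_integral_le_of_norm_le_const fun θ _ => by
        rw [norm_norm]
        exact hA _ (hsub (circleMap_mem_closedBall 0 r.2 θ))
    rw [sub_zero, abs_of_pos Real.two_pi_pos] at b
    rw [inv_mul_le_iff₀ Real.two_pi_pos, mul_comm _ A]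
    exact (le_abs_self _).trans b
  have hq : 4 / R ≤ 1 / 2 := by
    rw [div_le_iff₀ (by linarith)]
    linarith
  have hq0 : 0 ≤ 4 / R := by positivity
  have ht : ∀ n, ∀ z : ℂ, ‖z‖ ≤ 2 → ‖z ^ n * p.coeff n‖ ≤ A * (4 / R) ^ n := fun n z hz => by
    rw [norm_mul, norm_pow]
    calc ‖z‖ ^ n * ‖p.coeff n‖ ≤ 2 ^ n * (A * (2 / R) ^ n) := by
          gcongr
          exact hc n
      _ = A * (4 / R) ^ n := by
          rw [show 4 / R = 2 * (2 / R) by ring, mul_pow]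
          ring
  refine ⟨fun k => 2 ^ (k : ℕ) * p.coeff k, fun k => ?_, fun z hz => ?_⟩
  · refine (ht k 2 (by simp)).trans ?_
    exact mul_le_of_le_one_right hA0 (pow_le_one₀ hq0 (by linarith))
  · have hz2 : ‖z‖ ≤ 2 := by simpa using hz
    have hs := hp.hasSum (y := z) (by
      rw [Metric.eball_coe, mem_ball_zero_iff, hr]
      linarith)
    simp only [FormalMultilinearSeries.apply_eq_pow_smul_coeff, smul_eq_mul, zero_add] at hs
    have e : ∑ k : Fin m, 2 ^ (k : ℕ) * p.coeff k * (z / 2) ^ (k : ℕ) =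
        ∑ k ∈ Finset.range m, z ^ k * p.coeff k := by
      rw [← Fin.sum_univ_eq_sum_range (fun k => z ^ k * p.coeff k)]
      refine Finset.sum_congr rfl fun k _ => ?_
      rw [div_pow]
      field_simp
    rw [e]
    have h2 := hasSum_geometric_two.mul_left (A * (4 / R) ^ m)
    refine (((hasSum_nat_add_iff' m).2 hs).norm_le_of_bounded h2 fun n => ?_).trans_eq (by ring)
    refine (ht (n + m) z hz2).trans ?_
    rw [pow_add, mul_comm ((4 / R) ^ n), ← mul_assoc]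
    gcongr

theorem interp : InterpStmt := by
  intro n M h c σ A hn hh hσ hA w hw
  obtain ⟨p, hp, e⟩ := hh.exists_poly
  have hM : M ≠ 0 := by omega
  have hζ := Complex.isPrimitiveRoot_exp M hM
  set ζ := Complex.exp (2 * Real.pi * Complex.I / M) with hζd
  let q := p.comp (Polynomial.C c + Polynomial.C (σ : ℂ) * Polynomial.X)
  have hq : q.natDegree < M := by
    refine lt_of_le_of_lt (Polynomial.natDegree_comp_le.trans ?_) hn
    have : (Polynomial.C c + Polynomial.C (σ : ℂ) * Polynomial.X).natDegree ≤ 1 := by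
      compute_degree
    calc _ ≤ n * 1 := Nat.mul_le_mul hp this
      _ = n := mul_one n
  have ev : ∀ u : ℂ, h (c + σ * u) = ∑ j ∈ Finset.range M, q.coeff j * u ^ j := fun u => by
    rw [← Polynomial.eval_eq_sum_range' hq, e]
    simp [q, Polynomial.eval_comp]
  have hb : ∀ k < M, ‖q.coeff k‖ ≤ A := fun k hk => by
    refine coeff_bound hζ q.coeff (fun s hs => ?_) hk
    rw [← ev]
    have := hA ⟨s, hs⟩
    unfold node at this
    rw [hζd, ← Complex.exp_nat_mul]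
    have e2 : (s : ℂ) * (2 * Real.pi * Complex.I / M) = 2 * Real.pi * Complex.I * s / M := by ring
    rw [e2]
    exact this
  have hσ' : (σ : ℂ) ≠ 0 := by exact_mod_cast hσ.ne'
  have hu : ‖(w - c) / σ‖ ≤ 1 := by
    rw [norm_div, Complex.norm_real, Real.norm_of_nonneg hσ.le, div_le_one hσ]
    exact mem_closedBall_iff_norm.1 hw
  have ew : w = c + σ * ((w - c) / σ) := by field_simp; ring
  rw [ew, ev]
  refine (norm_sum_le_of_le _ (n := fun _ => A) fun k hk => ?_).trans (by simp)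
  rw [norm_mul, norm_pow]
  have b := hb k (Finset.mem_range.1 hk)
  exact (mul_le_of_le_one_right (norm_nonneg _) (pow_le_one₀ (norm_nonneg _) hu)).trans b

theorem mp : MPStmt := by
  intro U δ η M hU hδ hδ1 hη hηδ h0 hloc hM
  have hM0 : 0 ≤ M := (h0 1 (by simp)).trans (hM 1 (by simp; linarith) (by simp))
  let W : ℂ → ℝ := fun z => Real.exp (‖z‖ ^ 2) * U z
  have hW : ContinuousOn W (closedBall 0 1) :=
    (by fun_prop : Continuous fun z : ℂ => Real.exp (‖z‖ ^ 2)).continuousOn.mul hU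
  obtain ⟨z₀, hz₀, hmax⟩ := (isCompact_closedBall (0 : ℂ) 1).exists_isMaxOn
    ⟨0, mem_closedBall_self zero_le_one⟩ hW
  have hz1 : ‖z₀‖ ≤ 1 := by simpa using hz₀
  have hU0 : U 0 ≤ W z₀ := by
    have := hmax (mem_closedBall_self zero_le_one)
    simpa [W] using this
  by_cases hc : 1 - δ ≤ ‖z₀‖
  · refine hU0.trans ?_
    have a : Real.exp (‖z₀‖ ^ 2) ≤ 3 := by
      refine (Real.exp_le_exp.2 (pow_le_one₀ (norm_nonneg _) hz1)).trans ?_
      have := Real.exp_one_lt_d9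
      linarith
    exact mul_le_mul a (hM z₀ hc hz1) (h0 z₀ hz₀) (by norm_num)
  have hc' : ‖z₀‖ ≤ 1 - δ := (not_le.1 hc).le
  obtain ⟨u, hu, hu0, hu1⟩ := hloc z₀ hc'
  let v : ℂ → ℂ := fun z => u z * Complex.exp (2 * conj z₀ * (z - z₀))
  have hv : DiffContOnCl ℂ v (ball z₀ δ) :=
    ⟨hu.1.mul (Differentiable.differentiableOn (by fun_prop)),
      hu.2.mul (Continuous.continuousOn (by fun_prop))⟩
  have hb : ‖v z₀‖ ≤ (1 + η) * (U z₀ * Real.exp (-δ ^ 2)) := by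
    refine Complex.norm_le_of_forall_mem_frontier_norm_le isBounded_ball hv (fun z hz => ?_)
      (subset_closure (mem_ball_self hδ))
    rw [frontier_ball z₀ hδ.ne', mem_sphere_iff_norm] at hz
    have hzb : z ∈ closedBall (0 : ℂ) 1 := by
      rw [mem_closedBall_zero_iff]
      have : ‖z‖ ≤ ‖z - z₀‖ + ‖z₀‖ := by simpa using norm_add_le (z - z₀) z₀
      linarith
    have e : (2 * conj z₀ * (z - z₀)).re = ‖z‖ ^ 2 - ‖z₀‖ ^ 2 - δ ^ 2 := by
      rw [← hz, Complex.sq_norm, Complex.sq_norm, Complex.sq_norm]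
      simp [Complex.normSq_apply]
      ring
    have a : W z ≤ W z₀ := hmax hzb
    have b := hu1 z (mem_closedBall_iff_norm.2 hz.le)
    calc ‖v z‖ = ‖u z‖ * Real.exp (‖z‖ ^ 2 - ‖z₀‖ ^ 2 - δ ^ 2) := by
          rw [norm_mul, Complex.norm_exp, e]
      _ ≤ (1 + η) * U z * Real.exp (‖z‖ ^ 2 - ‖z₀‖ ^ 2 - δ ^ 2) := by gcongr
      _ = (1 + η) * (W z * Real.exp (-‖z₀‖ ^ 2 - δ ^ 2)) := by
          rw [show ‖z‖ ^ 2 - ‖z₀‖ ^ 2 - δ ^ 2 = ‖z‖ ^ 2 + (-‖z₀‖ ^ 2 - δ ^ 2) by ring, Real.exp_add]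
          simp only [W]
          ring
      _ ≤ (1 + η) * (W z₀ * Real.exp (-‖z₀‖ ^ 2 - δ ^ 2)) := by gcongr
      _ = (1 + η) * (U z₀ * Real.exp (-δ ^ 2)) := by
          rw [show -δ ^ 2 = ‖z₀‖ ^ 2 + (-‖z₀‖ ^ 2 - δ ^ 2) by ring, Real.exp_add]
          simp only [W]
          ring
  have e0 : v z₀ = u z₀ := by simp [v]
  rw [e0] at hb
  have hlt : (1 + η) * ((1 + η) * Real.exp (-δ ^ 2)) < 1 := by
    have a : 1 + η ≤ Real.exp η := by linarith [Real.add_one_le_exp η]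
    calc (1 + η) * ((1 + η) * Real.exp (-δ ^ 2))
        ≤ Real.exp η * (Real.exp η * Real.exp (-δ ^ 2)) := by gcongr
      _ = Real.exp (2 * η - δ ^ 2) := by
          rw [← Real.exp_add, ← Real.exp_add]
          congr 1
          ring
      _ < 1 := by
          rw [Real.exp_lt_one_iff]
          nlinarith [pow_pos hδ 2]
  have hle : U z₀ ≤ (1 + η) * ((1 + η) * Real.exp (-δ ^ 2)) * U z₀ := by
    calc U z₀ ≤ (1 + η) * ‖u z₀‖ := hu0
      _ ≤ (1 + η) * ((1 + η) * (U z₀ * Real.exp (-δ ^ 2))) := by gcongr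
      _ = _ := by ring
  have hz : U z₀ = 0 := by
    have := h0 z₀ hz₀
    nlinarith
  have : W z₀ = 0 := by simp [W, hz]
  linarith

end Pool.Agent.Lib.MP_45f16c_ag
end
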