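import Pool.Agent.Lib.MP_45f16c_ag.Obj

/-! The statements of the modules of the proof. Each one is proved in its own file. -/

set_option autoImplicit false
open Metric MeasureTheory MvPolynomial
open scoped ComplexConjugate

namespace Pool.Agent.Lib.MP_45f16c_ag

noncomputable section

/-! ### One complex variable -/

/-- Splitting off the zeros in a closed disc. -/
def FactStmt : Prop :=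
  ∀ (φ : ℂ → ℂ) (c : ℂ) (R R' : ℝ), R < R' → DifferentiableOn ℂ φ (ball c R') →
    (∃ z ∈ ball c R', φ z ≠ 0) →
    ∃ (k : ℕ) (a : Fin k → ℂ) (ψ : ℂ → ℂ), (∀ i, a i ∈ closedBall c R) ∧
      DifferentiableOn ℂ ψ (ball c R') ∧ (∀ z ∈ closedBall c R, ψ z ≠ 0) ∧
      ∀ z ∈ ball c R', φ z = (∏ i, (z - a i)) * ψ z

/-- The Poisson inequality for the subharmonic function `lg f`. -/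
def PoisStmt : Prop :=
  ∀ (ν : ℕ) (f : ℂ → Fin ν → ℂ) (c : ℂ) (R R' : ℝ), 0 < R → R < R' →
    DifferentiableOn ℂ f (ball c R') → (∀ z ∈ ball c R', f z ≠ 0) →
    ∀ w ∈ ball c R, lg f w ≤ Real.circleAverage (fun ζ => poissonKernel c w ζ * lg f ζ) c R

/-- Small characteristic gives small oscillation. -/
def OscStmt : Prop :=
  ∀ (ν : ℕ) (f : ℂ → Fin ν → ℂ) (ρ A σ r : ℝ) (z z' : ℂ), DifferentiableOn ℂ f (ball 0 ρ) →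
    (∀ w ∈ ball (0 : ℂ) ρ, Real.exp (-A) ≤ ‖f w‖ ∧ ‖f w‖ ≤ 1) → 0 < σ →
    closedBall z σ ⊆ ball 0 ρ → 0 ≤ r → r < 1 → ‖z' - z‖ ≤ r * σ →
    lg f z' ≤ lg f z + Tch f z σ + 2 * r * A

/-- The characteristic is nonnegative and monotone. -/
def MonoStmt : Prop :=
  ∀ (ν : ℕ) (f : ℂ → Fin ν → ℂ), Ent f → ∀ (a : ℂ) (s t : ℝ), 0 ≤ s → s ≤ t →
    0 ≤ Tch f a s ∧ Tch f a s ≤ Tch f a t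

/-- Rescaling and normalising by a nowhere zero holomorphic factor. -/
def GaugeStmt : Prop :=
  ∀ (ν : ℕ) (f : ℂ → Fin ν → ℂ), Ent f → ∀ (a : ℂ) (t ρ : ℝ), 0 < t → 0 < ρ →
    ∃ g : ℂ → Fin ν → ℂ, DifferentiableOn ℂ g (ball 0 ρ) ∧
      (∀ ζ, ∃ l : ℂ, l ≠ 0 ∧ g ζ = l • f (a + t * ζ)) ∧
      (∀ ζ ∈ ball (0 : ℂ) ρ, -Tch f (a + t * ζ) (2 * ρ * t) ≤ lg g ζ ∧ lg g ζ ≤ 0) ∧
      ∀ (z : ℂ) (s : ℝ), 0 < s → closedBall z s ⊆ ball 0 ρ →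
        Tch g z s = Tch f (a + t * z) (t * s)

/-- Doubling. -/
def DblStmt : Prop :=
  ∀ (ν : ℕ) (f : ℂ → Fin ν → ℂ), Ent f → ∀ (a : ℂ) (s M : ℝ), 0 < s →
    (∀ z ∈ closedBall a s, Tch f z s ≤ M) → Tch f a (3 / 2 * s) ≤ 6 * M

/-- Point selection. -/
def HoferStmt : Prop :=
  ∀ (ν : ℕ) (f : ℂ → Fin ν → ℂ), Ent f → NonConst f → ∀ τ C : ℝ, 0 < τ → 0 < C →
    ∃ (a : ℂ) (t : ℝ), 0 < t ∧ τ ≤ Tch f a t ∧ ∀ z ∈ closedBall a (C * t), Tch f z (t / 2) ≤ τ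

/-- Every entire curve contains, for every level, a fast disc or a slow disc. -/
def SelStmt : Prop :=
  ∀ ρf : ℝ, 2 ≤ ρf → ∃ K : ℝ, 1 ≤ K ∧ ∀ ρs θ : ℝ, 2 ≤ ρs → 0 < θ → ∃ σ : ℝ, 0 < σ ∧ σ ≤ 1 ∧
    ∀ (ν : ℕ) (f : ℂ → Fin ν → ℂ), Ent f → NonConst f → ∀ τ : ℕ, 2 ≤ θ * τ →
      ∃ g : ℂ → Fin ν → ℂ, (∀ ζ, ∃ (l w : ℂ), g ζ = l • f w) ∧
        ((Disc ρf K τ g ∧ ∀ z ∈ ball (0 : ℂ) (ρf / 2), Tch g z σ ≤ θ * τ) ∨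
          ∃ T : ℕ, θ * τ / 4 ≤ T ∧ T ≤ τ ∧ Disc ρs K T g)

/-- Three linear forms without approximate common zero along a disc. -/
def ThreeStmt : Prop :=
  ∀ ν : ℕ, ∃ C : ℝ, 0 < C ∧ ∀ (f : ℂ → Fin ν → ℂ) (Γ : ℝ), 1 ≤ Γ →
    DifferentiableOn ℂ f (ball 0 3) → (∀ z ∈ ball (0 : ℂ) 3, ‖deriv f z‖ ≤ Γ * ‖f z‖) →
    ∃ l : Fin 3 → Fin ν → ℂ, ‖l‖ ≤ 1 ∧
      ∀ z ∈ closedBall (0 : ℂ) 2, ∃ i, ‖f z‖ ≤ C * Γ ^ 2 * ‖lf (l i) (f z)‖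

/-- Fast discs fall into boundedly many classes. -/
def FastStmt : Prop :=
  ∀ (ν : ℕ) (ρ K g : ℝ), 3 ≤ ρ → 1 ≤ K → 0 < g → ∃ θ : ℝ, 0 < θ ∧ ∀ σ : ℝ, 0 < σ → σ ≤ 1 →
    ∃ (N Nc : ℕ) (T₀ : ℝ), ∀ T : ℝ, T₀ ≤ T → ∃ cl : Fin Nc → Cls N,
      (∀ n, (cl n).Valid ρ (Real.exp (g * T))) ∧
      ∀ f : ℂ → Fin ν → ℂ, Disc (2 * ρ + 2) K T f →
        (∀ z ∈ ball (0 : ℂ) (ρ + 1), Tch f z σ ≤ θ * T) → ∃ n, (cl n).Mem ρ (Real.exp (g * T)) f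

/-- Slow discs fall into one class. -/
def SlowStmt : Prop :=
  ∃ cl : Cls 1, ∀ (ν : ℕ) (ρ K T : ℝ), 2 ≤ ρ → 1 ≤ K → 0 ≤ T →
    cl.Valid ρ (Real.exp ((2 * K + 1) * T)) ∧
    ∀ f : ℂ → Fin ν → ℂ, Disc (2 * ρ) K T f → cl.Mem ρ (Real.exp ((2 * K + 1) * T)) f

/-- Division with bounds. -/
def DivStmt : Prop :=
  ∀ (ν : ℕ) (ρ : ℝ), 0 < ρ → ∃ C : ℝ, 0 < C ∧ ∀ (f : ℂ → Fin ν → ℂ) (P : ℂ → ℂ) (Γ : ℝ), 1 ≤ Γ →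
    DifferentiableOn ℂ f (ball 0 ρ) → DifferentiableOn ℂ P (ball 0 ρ) →
    (∀ z ∈ ball (0 : ℂ) ρ, f z ≠ 0 ∧ ‖deriv f z‖ ≤ Γ * ‖f z‖ ∧ ‖P z‖ ≤ Γ * ‖f z‖ ^ 2) →
    ∃ b : ℂ → Fin ν → ℂ, DifferentiableOn ℂ b (ball 0 (ρ / 2)) ∧
      ∀ z ∈ ball (0 : ℂ) (ρ / 2), lf (b z) (f z) = P z ∧ ‖b z‖ ≤ C * Γ ^ 2 * ‖f z‖

/-- The growth certificate. -/
def MonStmt : Prop :=
  ∀ ν : ℕ, ∃ C : ℝ, 0 < C ∧ ∀ (ρ K T : ℝ) (f : ℂ → Fin ν → ℂ), 8 ≤ ρ → Disc ρ K T f →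
    ∃ (i₀ i₁ k : ℕ) (l : Fin ν → ℂ) (q : ℕ → ℂ) (g : ℂ → ℂ), ‖l‖ ≤ 1 ∧
      (∀ s, ‖q s‖ ≤ 3 ^ k) ∧ (∀ z ∈ closedBall (0 : ℂ) 2, ‖Qp k q z‖ ≤ 3 ^ k) ∧
      (3 : ℝ) ^ k ≤ C * Real.exp i₀ ∧ DifferentiableOn ℂ g (ball 0 (ρ / 2)) ∧
      (∀ z ∈ ball (0 : ℂ) (ρ / 2), ‖g z‖ ≤ C * Real.exp i₀ ∧
        lf l (f z) = (Real.exp (-(i₀ : ℝ)) : ℂ) * Qp k q z * (1 + z * g z)) ∧
      ‖f 0‖ ≤ Real.exp (-(i₁ : ℝ)) ∧ (i₁ : ℝ) ≤ K * T ∧ (i₀ : ℝ) + T ≤ i₁ + C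

/-- Truncation of Taylor series. -/
def TruncStmt : Prop :=
  ∀ (m : ℕ) (h : ℂ → ℂ) (R A : ℝ), 8 ≤ R → DifferentiableOn ℂ h (ball 0 R) →
    (∀ z ∈ ball (0 : ℂ) R, ‖h z‖ ≤ A) →
    ∃ a : Fin m → ℂ, (∀ k, ‖a k‖ ≤ A) ∧ ∀ z ∈ closedBall (0 : ℂ) 2,
      ‖h z - ∑ k : Fin m, a k * (z / 2) ^ (k : ℕ)‖ ≤ 2 * A * (4 / R) ^ m

/-- Interpolation at roots of unity. -/
def InterpStmt : Prop :=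
  ∀ (n M : ℕ) (h : ℂ → ℂ) (c : ℂ) (σ A : ℝ), n < M → PD ℂ n h → 0 < σ →
    (∀ s : Fin M, ‖h (node c σ M s)‖ ≤ A) → ∀ w ∈ closedBall c σ, ‖h w‖ ≤ M * A

/-- Approximate maximum principle. -/
def MPStmt : Prop :=
  ∀ (U : ℂ → ℝ) (δ η M : ℝ), ContinuousOn U (closedBall 0 1) → 0 < δ → δ ≤ 1 → 0 ≤ η →
    3 * η ≤ δ ^ 2 → (∀ z ∈ closedBall (0 : ℂ) 1, 0 ≤ U z) →
    (∀ z₀ : ℂ, ‖z₀‖ ≤ 1 - δ → ∃ u : ℂ → ℂ, DiffContOnCl ℂ u (ball z₀ δ) ∧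
      U z₀ ≤ (1 + η) * ‖u z₀‖ ∧ ∀ z ∈ closedBall z₀ δ, ‖u z‖ ≤ (1 + η) * U z) →
    (∀ z : ℂ, 1 - δ ≤ ‖z‖ → ‖z‖ ≤ 1 → U z ≤ M) → U 0 ≤ 3 * M

/-! ### Algebra -/

/-- Koszul vanishing for a family spanning all forms of degree `d`. -/
def BaseStmt : Prop :=
  ∀ (ν d : ℕ) (ι : Type) [Fintype ι] [DecidableEq ι] (g : ι → MvPolynomial (Fin ν) ℂ)
    (p : Fin ν → ℂ), p ≠ 0 → 1 ≤ d → (∀ i, (g i).IsHomogeneous d) →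
    (∀ P : MvPolynomial (Fin ν) ℂ, P.IsHomogeneous d → P ∈ Submodule.span ℂ (Set.range g)) →
    ∀ r k : ℕ, r + 1 ≤ k → KExact p g d k r

/-- Koszul vanishing for base point free families (Green). -/
def GreenStmt : Prop :=
  ∀ (ν d : ℕ) (ι : Type) [Fintype ι] [DecidableEq ι] (g : ι → MvPolynomial (Fin ν) ℂ)
    (p : Fin ν → ℂ) (J : Finset ι), p ≠ 0 → 1 ≤ d → (∀ i, (g i).IsHomogeneous d) →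
    (∀ P : MvPolynomial (Fin ν) ℂ, P.IsHomogeneous d → P ∈ Submodule.span ℂ (Set.range g)) →
    (∀ x : Fin ν → ℂ, x ≠ 0 → ∃ i, i ∉ J ∧ eval x (g i) ≠ 0) →
    ∀ r k : ℕ, r + J.card + 1 ≤ k → KExact p (fun i => if i ∈ J then 0 else g i) d k r

/-- Uniform solvability in a compact family of exact complexes. -/
def UnifStmt : Prop :=
  ∀ (X E F G : Type) [TopologicalSpace X] [NormedAddCommGroup E] [NormedSpace ℂ E]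
    [FiniteDimensional ℂ E] [NormedAddCommGroup F] [NormedSpace ℂ F] [FiniteDimensional ℂ F]
    [NormedAddCommGroup G] [NormedSpace ℂ G] [FiniteDimensional ℂ G]
    (K : Set X) (L : X → E →ₗ[ℂ] F) (M : X → F →ₗ[ℂ] G), IsCompact K →
    (∀ v, Continuous fun t => L t v) → (∀ w, Continuous fun t => M t w) →
    (∀ t ∈ K, ∀ w, M t w = 0 ↔ ∃ v, L t v = w) →
    ∃ C : ℝ, 0 < C ∧ ∀ t ∈ K, ∀ w, M t w = 0 → ∃ v, L t v = w ∧ ‖v‖ ≤ C * ‖w‖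

/-- Orthogonal projections of the basis vectors onto a subspace. -/
def ProjStmt : Prop :=
  ∀ (α : Type) [Fintype α] [DecidableEq α],
    (∀ W : Submodule ℂ (α → ℂ), ∃ P : α → α → ℂ, (∀ a, P a ∈ W) ∧ ‖P‖ ≤ 1 ∧
      ∀ w ∈ W, w = ∑ a, w a • P a) ∧
    ∀ (j : ℕ) (χ : Fin j → (α → ℂ) →ₗ[ℂ] ℂ), ∃ y : Fin j → α → ℂ, ‖y‖ ≤ 1 ∧
      ∀ i a, χ i (prj y a) = 0

/-- Uniform global generation of the Koszul cycles in degree `q + j`. -/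
def GenStmt : Prop :=
  ∀ (ν d j q : ℕ) (η : ℝ), 1 ≤ d → 1 ≤ q → 0 < η → ∃ (N : ℕ) (C : ℝ), 0 < C ∧
    ∀ c ∈ Usm ν d η, ∀ y : Fin j → Mon ν d → ℂ, ‖y‖ ≤ 1 →
      ∃ Θ : Fin N → Finset (Gi ν d j) → Mon ν (q + j) → ℂ, ‖Θ‖ ≤ 1 ∧
        (∀ n p, Hq q (evC (Θ n) p) ∧ kos (gen c y p) (evC (Θ n) p) = 0) ∧
        ∀ p : Fin ν → ℂ, ‖p‖ = 1 → ∀ ω, Hq q ω → kos (gen c y p) ω = 0 →
          ∃ a : Fin N → ℂ, ‖a‖ ≤ C * ‖ω‖ ∧ ω = ∑ n, a n • evC (Θ n) p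

/-- Pointwise algebra of the minors. -/
def PAStmt : Prop :=
  ∀ (ι : Type) [Fintype ι] [DecidableEq ι] (ν N : ℕ), 2 ≤ ν → ∃ C : ℝ, 0 < C ∧
    ∀ (e : ι → ℂ) (Ξ : ι → Fin ν → ℂ) (H : Fin ν → ℂ) (w : Fin ν → ι → ℂ)
      (θ : Fin N → Finset ι → ℂ) (A A' W Λ E : ℝ), H ≠ 0 → 0 ≤ A' →
      (∀ a b, ∑ i, w a i * Ξ i b = if a = b then 1 else 0) → (∀ a, ∑ i, w a i * e i = -H a) →
      ‖w‖ ≤ W → ‖Ξ‖ ≤ Λ → ‖θ‖ ≤ A → 0 ≤ E → (∀ i, ‖e i + lf H (Ξ i)‖ ≤ E) →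
      (∀ n, Hq (ν - 1) (θ n) ∧ kos e (θ n) = 0) →
      (∀ ω, Hq (ν - 1) ω → kos e ω = 0 →
        ∃ a : Fin N → ℂ, ‖a‖ ≤ A' * ‖ω‖ ∧ ω = ∑ n, a n • θ n) →
      ‖fun n a => Del Ξ a (θ n)‖ ≤ C * A * Λ ^ (ν - 1) ∧
      1 ≤ C * A' * W ^ (ν - 1) * ‖fun n a => Del Ξ a (θ n)‖ ∧
      ∀ n a b, ‖H a‖ * ‖Del Ξ b (θ n)‖ ≤ ‖H b‖ * ‖Del Ξ a (θ n)‖ +
        C * A * A' * W * E * ‖fun n a => Del Ξ a (θ n)‖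

/-- The approximate Clemens argument. -/
def ALStmt : Prop :=
  ∀ (ν d j D : ℕ) (η : ℝ), 2 ≤ ν → D + 2 * ν + j = d + 1 → 0 < η → ∃ C c₀ : ℝ, 0 < C ∧ 0 < c₀ ∧
    ∀ c ∈ Usm ν d η, ∀ y : Fin j → Mon ν d → ℂ, ‖y‖ ≤ 1 →
      ∀ (f : ℂ → Fin ν → ℂ) (ξ : Mon ν d → ℂ → Fin ν → ℂ) (γ : ℂ → ℂ) (L B Λ ε : ℝ),
        Differentiable ℂ f → (∀ m, Differentiable ℂ (ξ m)) → Differentiable ℂ γ →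
        0 < L → L ≤ B → 0 ≤ ε → ε ≤ c₀ * (L / B) ^ 2 →
        (∀ z ∈ closedBall (0 : ℂ) 1, L ≤ ‖f z‖ ∧ ‖f z‖ ≤ Λ ∧ ∀ m, ‖ξ m z‖ ≤ Λ ∧
          ‖eval (f z) (form (prj y m)) + lf (grad c (f z)) (ξ m z)‖ ≤ ε * ‖f z‖ ^ d) →
        (∀ z ∈ closedBall (0 : ℂ) 1, ∀ w ∈ closedBall (0 : ℂ) 1,
          ‖f z - f w‖ ≤ B * ‖z - w‖ ∧ ‖γ z - γ w‖ ≤ B * ‖z - w‖) →
        (∀ z : ℂ, ‖z‖ = 1 → ‖γ z‖ ≤ ‖f z‖) →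
        ‖γ 0‖ ^ (D + (ν - 1)) ≤ C * Λ ^ (ν - 1) * ‖f 0‖ ^ D

/-! ### Measure -/

/-- Bezout bound for nondegenerate real solutions. -/
def BezStmt : Prop :=
  ∀ (E : Type) [NormedAddCommGroup E] [NormedSpace ℝ E] [FiniteDimensional ℝ E] (D : ℕ)
    (Ψ : E → E), PV D Ψ → ∀ (v : E) (Z : Finset E),
    (∀ x ∈ Z, Ψ x = v ∧ (fderiv ℝ Ψ x).det ≠ 0) → Z.card ≤ (D + 1) ^ Module.finrank ℝ E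

/-- Area inequality with multiplicity. -/
def AreaStmt : Prop :=
  ∀ (E : Type) [NormedAddCommGroup E] [NormedSpace ℝ E] [FiniteDimensional ℝ E]
    [MeasurableSpace E] [BorelSpace E] (μ : Measure E) [μ.IsAddHaarMeasure]
    (Ψ : E → E) (Ω V : Set E) (N : ℕ), ContDiff ℝ 1 Ψ → MeasurableSet Ω → (∀ x ∈ Ω, Ψ x ∈ V) →
    (∀ (v : E) (Z : Finset E), (∀ x ∈ Z, Ψ x = v ∧ (fderiv ℝ Ψ x).det ≠ 0) → Z.card ≤ N) →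
    ∫⁻ x in Ω, ENNReal.ofReal |(fderiv ℝ Ψ x).det| ∂μ ≤ N * μ V

/-- Comparison of Jacobians when no bounded lift exists. -/
def DetStmt : Prop :=
  ∀ (κ μ 𝓡 : Type) [Fintype κ] [Fintype μ] (j : ℕ) (Λ : ℝ)
    (G' : 𝓡 → ((κ → ℂ) × (μ → ℂ)) →L[ℂ] ℂ) (L : ((κ → ℂ) × (μ → ℂ)) →L[ℝ] (κ → ℂ)),
    0 < Λ → ¬LiftL G' j Λ → ∃ I : μ × Bool → (κ ⊕ μ ⊕ 𝓡) × Bool,
      ∀ A : ((κ → ℂ) × (μ → ℂ)) →L[ℝ] (μ → ℂ),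
        (∀ v, A v = sel I (crd (fun r v => G' r v) v)) →
        |(L.prod (ContinuousLinearMap.snd ℝ (κ → ℂ) (μ → ℂ))).det| ≤
          (4 * Fintype.card μ / Λ) ^ (j + 1) * |(L.prod A).det|

/-- The quantitative Sard lemma. -/
def SardStmt : Prop :=
  ∀ (μ : Type) [Fintype μ] (j : ℕ), ∃ C : ℝ, 0 < C ∧
    ∀ (κ 𝓡 : Type) [Fintype κ] [Fintype 𝓡] (D : ℕ) (G : 𝓡 → (κ → ℂ) × (μ → ℂ) → ℂ)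
      (U : Set (μ → ℂ)) (S Λ : ℝ), 1 ≤ D → (∀ r, PD ℂ D (G r)) → MeasurableSet U →
      U ⊆ closedBall 0 1 → (2 * Fintype.card κ + Fintype.card 𝓡 + 2 : ℝ) ≤ S → 0 < Λ →
      (∀ v : (κ → ℂ) × (μ → ℂ), v.2 ∈ U → ‖v.1‖ ≤ S → (∀ r, ‖G r v‖ ≤ S) →
        ¬LiftL (fun r => fderiv ℂ (G r) v) j Λ) →
      volume {y | y ∈ U ∧ ∃ x : κ → ℂ, ‖x‖ ≤ 1 ∧ ∀ r, ‖G r (x, y)‖ ≤ 1} ≤
        ENNReal.ofReal (C * (S * (Fintype.card κ + Fintype.card μ + Fintype.card 𝓡)) ^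
          (2 * Fintype.card μ) * (2 * D + 1) ^ (2 * (Fintype.card κ + Fintype.card μ)) /
          Λ ^ (j + 1))

/-- Almost every hypersurface is smooth. -/
def SmoothStmt : Prop :=
  ∀ ν d : ℕ, 1 ≤ d → ∀ᵐ c : Mon ν d → ℂ, IsSmooth (form c)

/-! ### The truncated problem -/

/-- The constraints are polynomials of degree at most `d + 1`. -/
def GdegStmt : Prop :=
  ∀ (ν d N m M : ℕ) (cl : Cls N) (pr : Par m), 1 ≤ d →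
    ∀ r : Con ν N M, PD ℂ (d + 1) (Gm (d := d) cl pr M r)

/-- A true disc gives an approximate solution of the truncated problem. -/
def TrueStmt : Prop :=
  ∀ (ν d N m M : ℕ) (cl : Cls N) (pr : Par m) (c : Mon ν d → ℂ) (f : ℂ → Fin ν → ℂ)
    (b : Fin 3 → ℂ → Fin ν → ℂ) (l : Fin ν → ℂ) (q : ℕ → ℂ) (g : ℂ → ℂ) (R Γ δ : ℝ),
    8 ≤ R → 1 ≤ m → pr.k ≤ m → 1 ≤ pr.B → 2 * pr.B * (4 / R) ^ m ≤ δ → δ ≤ 1 →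
    (∀ i, ‖cl.z i‖ ≤ 1) → 0 < cl.σ → cl.σ ≤ 1 → ‖c‖ ≤ 1 →
    DifferentiableOn ℂ f (ball 0 R) → (∀ i, DifferentiableOn ℂ (b i) (ball 0 R)) →
    DifferentiableOn ℂ g (ball 0 R) →
    (∀ z ∈ ball (0 : ℂ) R, ‖f z‖ ≤ 1 ∧ (∀ i, ‖b i z‖ ≤ pr.B) ∧ ‖g z‖ ≤ pr.B ∧
      eval (f z) (form c) = 0 ∧ (∀ i, lf (b i z) (f z) = cl.P i z) ∧
      lf l (f z) = pr.β * Qp pr.k q z * (1 + z * g z)) →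
    ‖l‖ ≤ 1 → (∀ s, ‖q s‖ ≤ pr.B) →
    (∀ z ∈ closedBall (0 : ℂ) 2, ‖Qp pr.k q z‖ ≤ pr.B ∧ ∀ i, ‖cl.P i z - pr.Ptz i z‖ ≤ δ) →
    (∀ i, ∀ w ∈ closedBall (cl.z i) cl.σ,
      ‖f w‖ ≤ Γ * cl.ω i ∧ ∀ i', ‖b i' w‖ + δ ≤ pr.Γb * cl.ω i) →
    (∀ i, 0 < cl.ω i ∧ δ ≤ Γ * cl.ω i ∧
      Fintype.card (Mon ν d) * d * δ * (2 * Γ * cl.ω i) ^ (d - 1) ≤ pr.ε * cl.ω i ^ d) →
    0 < pr.ε → 0 < pr.ε' → 0 < pr.Γb → 0 < pr.ϑ → 0 ≤ pr.β → pr.β ≤ 1 →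
    ‖f 0‖ ≤ pr.ϑ → δ ≤ pr.ϑ → (3 * ν + 3) * pr.B * δ ≤ pr.ε' →
    ∃ x : Unk ν m → ℂ, ‖x‖ ≤ 1 ∧ ∀ r : Con ν N M, ‖Gm cl pr M r (x, c)‖ ≤ 1

/-- In the region, bounded lifts force a numerical inequality. -/
def RegionStmt : Prop :=
  ∀ (ν d j D : ℕ) (η : ℝ), 2 ≤ ν → D + 2 * ν + j = d + 1 → 0 < η → ∃ C c₀ : ℝ, 0 < C ∧ 0 < c₀ ∧
    ∀ (N m M : ℕ) (cl : Cls N) (pr : Par m) (ρ Γ S Λ δ L B' Λ' : ℝ), cl.Valid ρ Γ →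
      1 ≤ m → pr.k ≤ m → (d + 2) * m < M → 1 ≤ Γ → 1 ≤ S → 0 < Λ → 1 ≤ pr.B →
      0 < pr.ε → 0 < pr.ε' → 0 < pr.Γb → 0 < pr.ϑ → 0 < pr.β → pr.β ≤ 1 → 0 < L →
      (∀ i, ∀ z ∈ closedBall (0 : ℂ) 2, ‖cl.P i z - pr.Ptz i z‖ ≤ δ) →
      (∀ i, 2 * Γ * (M * S * pr.ε' + δ) ≤ cl.ω i ^ 2) →
      (∀ i, L * (2 * ν * M * S * pr.Γb * Γ) ≤ cl.ω i) →
      M * S * pr.ε' ≤ L → 3 * ((m + 1) ^ 2 * pr.B * S) ^ 2 ≤ B' →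
      pr.B * m * S ≤ Λ' → pr.B * m * (Λ * (1 + j)) ≤ Λ' →
      M * (Λ * (1 + j)) * pr.ε * (2 * ν * M * S * pr.Γb * Γ) ^ d ≤ c₀ * (L / B') ^ 2 →
      ∀ v : (Unk ν m → ℂ) × (Mon ν d → ℂ), v.2 ∈ Usm ν d η → ‖v.1‖ ≤ S →
        (∀ r : Con ν N M, ‖Gm cl pr M r v‖ ≤ S) →
        LiftL (fun r : Con ν N M => fderiv ℂ (Gm cl pr M r) v) j Λ →
        (pr.β / (ν * S + 1)) ^ (D + (ν - 1)) ≤ C * Λ' ^ (ν - 1) * (2 * pr.ϑ * S) ^ D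

/-- The measure estimate for one class. -/
def CoreStmt : Prop :=
  ∀ K : ℝ, 1 ≤ K → ∃ A : ℝ, 0 < A ∧ ∀ ν d : ℕ, 2 ≤ ν → A * ν * Real.log (2 * d + 3) ≤ d →
    ∀ (η g ρ : ℝ) (N : ℕ), 0 < η → 0 < g → g ≤ 3 * K → 8 * Real.exp (1 + d * g) ≤ ρ →
      ∃ T₀ : ℝ, ∀ T : ℝ, T₀ ≤ T → ∀ cl : Cls N, cl.Valid ρ (Real.exp (g * T)) →
        volume {c | c ∈ Usm ν d η ∧ ∃ f : ℂ → Fin ν → ℂ, Disc ρ K T f ∧ OnX c ρ f ∧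
          cl.Mem ρ (Real.exp (g * T)) f} ≤ ENNReal.ofReal (Real.exp (-T))

end

end Pool.Agent.Lib.MP_45f16c_ag
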